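import Pool.Agent.T9h11.RW15

set_option autoImplicit false
set_option linter.unusedSectionVars false
set_option linter.unusedVariables false

/-! The theorem for the law of the walk itself. -/

namespace T9h11.RW

open Finset H460 T9h11.RM Pool.Agent.Y806.DF
open scoped Classical

variable {Γ : Type*} [AddCommGroup Γ] {m : ℕ} (z : Fin m → Γ) {r : Fin m → ℝ}

theorem jump_mass (r : Fin m → ℝ) (k : ℕ) : HasSum (jump z r k) ((∑ i, r i) ^ k) := by
  induction k with
  | zero =>
    rw [pow_zero]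
    have h : jump z r 0 = fun y => if y = 0 then (1 : ℝ) else 0 := by
      funext y; unfold jump; rfl
    rw [h]
    exact hasSum_ite_eq 0 1
  | succ k ih =>
    have h1 : ∀ i, HasSum (fun y => jump z r k (y - z i)) ((∑ i, r i) ^ k) := fun i =>
      (Equiv.subRight (z i)).hasSum_iff.2 ih
    have h2 : ∀ i, HasSum (fun y => jump z r k (y + z i)) ((∑ i, r i) ^ k) := fun i =>
      (Equiv.addRight (z i)).hasSum_iff.2 ih
    have h3 := hasSum_sum (s := Finset.univ) fun i _ => ((h1 i).add (h2 i)).mul_left (r i / 2)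
    have h4 : jump z r (k + 1) = fun y => ∑ i, r i / 2 *
        (jump z r k (y - z i) + jump z r k (y + z i)) := by
      funext y; rw [jump]
    have h5 : (∑ i, r i) ^ (k + 1) = ∑ i, r i / 2 * ((∑ i, r i) ^ k + (∑ i, r i) ^ k) := by
      rw [pow_succ, Finset.mul_sum]
      refine Finset.sum_congr rfl fun i _ => ?_
      ring
    rw [h4, h5]
    exact h3

theorem walk_mass (hr : ∀ i, 0 ≤ r i) : HasSum (walk z r) 1 := by
  set R := ∑ i, r i with hR
  set F : ℕ × Γ → ℝ := fun p => Real.exp (-R) / (p.1.factorial : ℝ) * jump z r p.1 p.2 with hF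
  have hF0 : 0 ≤ F := fun p => walk_term_nonneg z hr p.2 p.1
  have h1 : ∀ k : ℕ, HasSum (fun y => F (k, y)) (Real.exp (-R) / (k.factorial : ℝ) * R ^ k) :=
    fun k => (jump_mass z r k).mul_left _
  have h2 : HasSum (fun k : ℕ => Real.exp (-R) / (k.factorial : ℝ) * R ^ k) 1 := by
    have h3 : HasSum (fun k : ℕ => R ^ k / (k.factorial : ℝ)) (Real.exp R) := by
      rw [Real.exp_eq_exp_ℝ]
      exact NormedSpace.expSeries_div_hasSum_exp _
    have h4 := h3.mul_left (Real.exp (-R))
    rw [← Real.exp_add, neg_add_cancel, Real.exp_zero] at h4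
    have h5 : (fun k : ℕ => Real.exp (-R) / (k.factorial : ℝ) * R ^ k) =
        fun k : ℕ => Real.exp (-R) * (R ^ k / (k.factorial : ℝ)) := by
      funext k
      ring
    rw [h5]
    exact h4
  have hFs : Summable F := by
    rw [summable_prod_of_nonneg hF0]
    refine ⟨fun k => (h1 k).summable, ?_⟩
    refine h2.summable.congr fun k => ?_
    exact (h1 k).tsum_eq.symm
  have hT1 := hFs.hasSum.prod_fiberwise h1
  have hT : ∑' p, F p = 1 := hT1.unique h2
  have h5 : HasSum (F ∘ (Equiv.prodComm Γ ℕ)) (∑' p, F p) :=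
    (Equiv.prodComm Γ ℕ).hasSum_iff.2 hFs.hasSum
  rw [hT] at h5
  exact h5.prod_fiberwise fun y => (walk_summable z hr y).hasSum

theorem walk_sq (hr : ∀ i, 0 ≤ r i) :
    HasSum (fun y => walk z r y ^ 2) (walk z (fun i => 2 * r i) 0) := by
  have h := walk_conv z hr (a := 1) (b := 1) zero_le_one zero_le_one 0
  simp only [one_mul, zero_sub, walk_neg] at h
  rw [show (1 : ℝ) + 1 = 2 by norm_num] at h
  simp_rw [sq]
  exact h

theorem walk_triple (hr : ∀ i, 0 ≤ r i) :
    HasSum (fun p : Γ × Γ => walk z r p.1 * walk z r p.2 * walk z (fun i => 2 * r i) (p.2 - p.1))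
      (walk z (fun i => 4 * r i) 0) := by
  have h1 : ∀ y, HasSum (fun y' => walk z r y * walk z r y' * walk z (fun i => 2 * r i) (y' - y))
      (walk z r y * walk z (fun i => 3 * r i) y) := by
    intro y
    have h := (walk_conv z hr (a := 1) (b := 2) zero_le_one (by norm_num) y).mul_left (walk z r y)
    simp only [one_mul] at h
    rw [show (1 : ℝ) + 2 = 3 by norm_num] at h
    have h2 : (fun y' => walk z r y * walk z r y' * walk z (fun i => 2 * r i) (y' - y)) =
        fun y' => walk z r y * (walk z r y' * walk z (fun i => 2 * r i) (y - y')) := by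
      funext y'
      rw [← walk_neg z (fun i => 2 * r i) (y - y'), neg_sub]
      ring
    rw [h2]
    exact h
  have h3 : HasSum (fun y => walk z r y * walk z (fun i => 3 * r i) y)
      (walk z (fun i => 4 * r i) 0) := by
    have h := walk_conv z hr (a := 1) (b := 3) zero_le_one (by norm_num) 0
    simp only [one_mul, zero_sub, walk_neg] at h
    rw [show (1 : ℝ) + 3 = 4 by norm_num] at h
    exact h
  have hF0 : 0 ≤ fun p : Γ × Γ => walk z r p.1 * walk z r p.2 *
      walk z (fun i => 2 * r i) (p.2 - p.1) := fun p =>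
    mul_nonneg (mul_nonneg (walk_nonneg z hr _) (walk_nonneg z hr _))
      (walk_nonneg z (fun i => mul_nonneg zero_le_two (hr i)) _)
  have hFs : Summable fun p : Γ × Γ => walk z r p.1 * walk z r p.2 *
      walk z (fun i => 2 * r i) (p.2 - p.1) := by
    rw [summable_prod_of_nonneg hF0]
    refine ⟨fun y => (h1 y).summable, ?_⟩
    refine h3.summable.congr fun y => ?_
    exact (h1 y).tsum_eq.symm
  have hT1 := hFs.hasSum.prod_fiberwise h1
  have := hT1.unique h3
  rw [← this]
  exact hFs.hasSum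

/-- **Marton's theorem for the law of a random walk.** -/
theorem walk_form (hr : ∀ i, 0 ≤ r i) {K : ℝ} (hK : 1 ≤ K)
    (h : walk z (fun i => 2 * r i) 0 ≤ K * walk z (fun i => 4 * r i) 0) :
    ∃ (n : ℕ) (B : Set (Fin n → ℝ)) (ψ : (Fin n → ℤ) →+ Γ) (H : AddSubgroup Γ) (g : Γ),
      (n : ℝ) ≤ 10 ^ 22 * Real.log (2 * K) ∧ Body B ∧ Finite H ∧
      ((lat B).ncard * Nat.card H : ℕ) * walk z (fun i => 2 * r i) 0 ≤ 1 ∧
      Real.exp (-(10 ^ 22 * Real.log (2 * K))) ≤
        ∑' y : {y : Γ // ∃ w ∈ lat B, ∃ h ∈ H, y = g + ψ w + h}, walk z r y := by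
  set q := walk z r with hq
  set p := walk z (fun i => 2 * r i) with hp
  have hr2 : ∀ i, 0 ≤ 2 * r i := fun i => mul_nonneg zero_le_two (hr i)
  have hq0 : ∀ y, 0 ≤ q y := walk_nonneg z hr
  have hp0 : 0 < p 0 := walk_zero_pos z hr2
  have hq1 : HasSum q 1 := walk_mass z hr
  have hq2 : HasSum (fun y => q y ^ 2) (p 0) := walk_sq z hr
  have hq3 := walk_triple z hr
  rw [← hq, ← hp] at hq3
  set p4 := walk z (fun i => 4 * r i) 0 with hp4
  have hp40 : 0 < p4 := walk_zero_pos z (fun i => mul_nonneg (by norm_num) (hr i))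
  set N₁ : ℕ := ⌊1 / p 0⌋₊ + 1 with hN₁
  have hN₁' : 1 / (N₁ : ℝ) < p 0 := by
    have h1 := Nat.lt_floor_add_one (1 / p 0)
    rw [div_lt_iff₀ (by positivity)]
    rw [div_lt_iff₀ hp0] at h1
    rw [hN₁]
    push_cast
    linarith
  obtain ⟨T, hT⟩ : ∃ T : Finset (Γ × Γ), p4 / 2 ≤ ∑ x ∈ T, q x.1 * q x.2 * p (x.2 - x.1) := by
    have h1 := hq3.eventually_const_le (u := p4 / 2) (by linarith)
    exact h1.exists
  have e1 := hq1.eventually_const_le (u := 1 / 2) (by norm_num)
  have e2 := hq2.eventually_const_le (u := p 0 / 2) (by linarith)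
  have e3 := hq2.eventually_const_lt hN₁'
  have e4 := Filter.eventually_ge_atTop (T.image Prod.fst ∪ T.image Prod.snd)
  obtain ⟨S, hS1, hS2, hS3, hS4⟩ := (e1.and (e2.and (e3.and e4))).exists
  set M := ∑ y ∈ S, q y with hM
  set s := ∑ y ∈ S, q y ^ 2 with hs
  have hM0 : 0 < M := by linarith
  have hM1 : M ≤ 1 := sum_le_hasSum S (fun y _ => hq0 y) hq1
  have hs0 : 0 < s := by linarith
  have hs1 : s ≤ p 0 := sum_le_hasSum S (fun y _ => sq_nonneg _) hq2
  have hX : p4 / 2 ≤ ∑ y ∈ S, ∑ y' ∈ S, q y * q y' * p (y' - y) := by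
    refine hT.trans ?_
    rw [← Finset.sum_product']
    refine Finset.sum_le_sum_of_subset_of_nonneg ?_ fun x _ _ =>
      mul_nonneg (mul_nonneg (hq0 _) (hq0 _)) (walk_nonneg z hr2 _)
    intro x hx
    rw [Finset.mem_product]
    exact ⟨hS4 (Finset.mem_union_left _ (Finset.mem_image_of_mem _ hx)),
      hS4 (Finset.mem_union_right _ (Finset.mem_image_of_mem _ hx))⟩
  have hσ2 : ∑ y ∈ S, (q y / M) ^ 2 = s / M ^ 2 := by
    rw [hs, Finset.sum_div]
    exact Finset.sum_congr rfl fun y _ => by rw [div_pow]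
  have hM2 : M ^ 2 ≤ 1 := pow_le_one₀ hM0.le hM1
  have hsM : s ≤ s / M ^ 2 := by
    rw [le_div_iff₀ (by positivity)]
    calc s * M ^ 2 ≤ s * 1 := mul_le_mul_of_nonneg_left hM2 hs0.le
      _ = s := mul_one s
  obtain ⟨n, B, ψ, H, g, hn, hB, hH, hvol, hmass⟩ := law_form z hr2 (S := S)
    (σ := fun y => q y / M) (fun y _ => div_nonneg (hq0 y) hM0.le)
    (by rw [← Finset.sum_div, div_self hM0.ne']) (K := 2 * K) (by linarith)
    (by
      rw [hσ2]
      calc walk z (fun i => 2 * r i) 0 = p 0 := by rw [hp]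
        _ ≤ 2 * s := by linarith
        _ ≤ 2 * K * s := by nlinarith
        _ ≤ 2 * K * (s / M ^ 2) := mul_le_mul_of_nonneg_left hsM (by linarith))
    (by
      rw [hσ2]
      have h1 : ∑ y ∈ S, ∑ y' ∈ S, q y / M * (q y' / M) * walk z (fun i => 2 * r i) (y' - y) =
          (∑ y ∈ S, ∑ y' ∈ S, q y * q y' * p (y' - y)) / M ^ 2 := by
        rw [Finset.sum_div]
        refine Finset.sum_congr rfl fun y _ => ?_
        rw [Finset.sum_div]
        refine Finset.sum_congr rfl fun y' _ => ?_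
        rw [hp]
        field_simp
      rw [h1, ← mul_div_assoc]
      refine div_le_div_of_nonneg_right ?_ (by positivity)
      calc s ≤ p 0 := hs1
        _ ≤ K * p4 := h
        _ = 2 * K * (p4 / 2) := by ring
        _ ≤ _ := mul_le_mul_of_nonneg_left hX (by linarith))
  rw [hσ2] at hvol
  have hlog : 0.69 ≤ Real.log (2 * K) := by
    have h3 := Real.log_two_gt_d9
    have h4 := Real.log_le_log (by norm_num : (0 : ℝ) < 2) (by linarith : (2 : ℝ) ≤ 2 * K)
    linarith
  have hlog4 : Real.log (2 * (2 * K)) ≤ 2.1 * Real.log (2 * K) := by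
    rw [Real.log_mul (by norm_num) (by positivity)]
    have := Real.log_two_lt_d9
    linarith
  refine ⟨n, B, ψ, H, g, ?_, hB, hH, ?_, ?_⟩
  · linarith
  · set V := (lat B).ncard * Nat.card H with hV
    have h1 : (V : ℝ) * s ≤ 1 := le_trans (mul_le_mul_of_nonneg_left hsM (Nat.cast_nonneg _)) hvol
    have h2 : (V : ℝ) < N₁ := by
      by_contra hcon
      push Not at hcon
      have h3 : (N₁ : ℝ) * s ≤ 1 := le_trans (mul_le_mul_of_nonneg_right hcon hs0.le) h1
      have h4 : (0 : ℝ) < N₁ := by positivity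
      rw [div_lt_iff₀ h4] at hS3
      linarith
    have h3 : V ≤ ⌊1 / p 0⌋₊ := by
      have : V < N₁ := by exact_mod_cast h2
      omega
    rw [Nat.le_floor_iff (by positivity), le_div_iff₀ hp0] at h3
    exact h3
  · have h1 : ∑ y ∈ S.filter (fun y => ∃ w ∈ lat B, ∃ h ∈ H, y = g + ψ w + h), q y ≤
        ∑' y : {y : Γ // ∃ w ∈ lat B, ∃ h ∈ H, y = g + ψ w + h}, q y := by
      have h2 : Summable fun y : {y : Γ // ∃ w ∈ lat B, ∃ h ∈ H, y = g + ψ w + h} => q y :=
        hq1.summable.subtype _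
      have h3 := h2.sum_le_tsum ((S.filter (fun y => ∃ w ∈ lat B, ∃ h ∈ H,
        y = g + ψ w + h)).subtype _) (fun y _ => hq0 y)
      rwa [Finset.sum_subtype_of_mem q (fun y hy => (Finset.mem_filter.1 hy).2)] at h3
    refine le_trans ?_ h1
    rw [← Finset.sum_div, le_div_iff₀ hM0] at hmass
    refine le_trans ?_ hmass
    have h2 : Real.exp (-(10 ^ 22 * Real.log (2 * K))) ≤
        Real.exp (-(10 ^ 21 * Real.log (2 * (2 * K)))) * Real.exp (-1) := by
      rw [← Real.exp_add]
      refine Real.exp_le_exp.2 ?_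
      linarith
    refine h2.trans (mul_le_mul_of_nonneg_left ?_ (Real.exp_pos _).le)
    have h3 : Real.exp (-1) ≤ 1 / 2 := by
      rw [Real.exp_neg, one_div]
      refine inv_anti₀ (by norm_num) ?_
      have := Real.add_one_le_exp (1 : ℝ)
      linarith
    linarith

end T9h11.RW
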