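import Pool.Agent.TH513.IS.Final

set_option autoImplicit false
set_option linter.unusedSectionVars false

/-! Many-fold additive energy: half of the set has a small iterated sumset. -/

namespace T9h11.Energy

open Finset
open scoped Pointwise ENNReal

variable {G : Type*} [AddCommGroup G] [DecidableEq G]

/-- number of representations of `x` as a sum of `j` elements of `A` -/
def rep (A : Finset G) : ℕ → G → ℝ
  | 0, x => if x = 0 then 1 else 0
  | j + 1, x => ∑ a ∈ A, rep A j (x - a)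

theorem rep_nonneg (A : Finset G) : ∀ (j : ℕ) (x : G), 0 ≤ rep A j x
  | 0, x => by unfold rep; split_ifs <;> norm_num
  | j + 1, x => by
    unfold rep
    exact Finset.sum_nonneg fun a _ => rep_nonneg A j _

theorem rep_eq_card (A : Finset G) : ∀ (j : ℕ) (x : G),
    rep A j x = (((Fintype.piFinset fun _ : Fin j => A).filter (fun f => ∑ i, f i = x)).card : ℝ)
  | 0, x => by
    unfold rep
    by_cases hx : x = 0
    · subst hx
      rw [if_pos rfl]
      have : ((Fintype.piFinset fun _ : Fin 0 => A).filter (fun f => ∑ i, f i = (0 : G))) =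
          Finset.univ := by
        ext f; simp
      rw [this]; simp
    · rw [if_neg hx]
      have : ((Fintype.piFinset fun _ : Fin 0 => A).filter (fun f => ∑ i, f i = x)) = ∅ := by
        ext f; simp [Ne.symm hx]
      rw [this]; simp
  | j + 1, x => by
    have h1 : ((Fintype.piFinset fun _ : Fin (j + 1) => A).filter (fun f => ∑ i, f i = x)).card =
        ∑ a ∈ A, ((Fintype.piFinset fun _ : Fin j => A).filter
          (fun f => ∑ i, f i = x - a)).card := by
      rw [← Finset.card_sigma]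
      refine Finset.card_bij' (fun f _ => ⟨f 0, fun i => f i.succ⟩)
        (fun p _ => Fin.cons p.1 p.2) ?_ ?_ ?_ ?_
      · intro f hf
        rw [Finset.mem_filter, Fintype.mem_piFinset] at hf
        rw [Finset.mem_sigma, Finset.mem_filter, Fintype.mem_piFinset]
        refine ⟨hf.1 0, fun i => hf.1 i.succ, ?_⟩
        rw [← hf.2, Fin.sum_univ_succ]
        simp
      · intro p hp
        rw [Finset.mem_sigma, Finset.mem_filter, Fintype.mem_piFinset] at hp
        rw [Finset.mem_filter, Fintype.mem_piFinset]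
        refine ⟨?_, ?_⟩
        · intro i
          refine Fin.cases ?_ (fun i => ?_) i
          · simpa using hp.1
          · simpa using hp.2.1 i
        · rw [Fin.sum_univ_succ]
          simp only [Fin.cons_zero, Fin.cons_succ]
          rw [hp.2.2]; abel
      · intro f _
        ext i
        refine Fin.cases ?_ (fun i => ?_) i <;> simp
      · intro p _
        simp
    rw [h1]
    push_cast
    unfold rep
    exact Finset.sum_congr rfl fun a _ => rep_eq_card A j _

theorem rep_supp (A : Finset G) (j : ℕ) {x : G} (h : rep A j x ≠ 0) : x ∈ Pool.Agent.TH513.IS.sm A j := by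
  rw [rep_eq_card] at h
  have h1 : ((Fintype.piFinset fun _ : Fin j => A).filter (fun f => ∑ i, f i = x)).Nonempty := by
    rw [← Finset.card_pos]
    exact Nat.pos_of_ne_zero (by exact_mod_cast h)
  obtain ⟨f, hf⟩ := h1
  rw [Finset.mem_filter] at hf
  exact Finset.mem_image.2 ⟨f, hf.1, hf.2⟩

theorem rep_finite (A : Finset G) (j : ℕ) : (Function.support (rep A j)).Finite :=
  (Pool.Agent.TH513.IS.sm A j).finite_toSet.subset fun _ hx => Finset.mem_coe.2 (rep_supp A j hx)

theorem rep_sum (A : Finset G) (j : ℕ) : ∑ x ∈ Pool.Agent.TH513.IS.sm A j, rep A j x = (A.card : ℝ) ^ j := by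
  have h1 : (∑ x ∈ Pool.Agent.TH513.IS.sm A j,
      ((Fintype.piFinset fun _ : Fin j => A).filter (fun f => ∑ i, f i = x)).card) =
      (Fintype.piFinset fun _ : Fin j => A).card := by
    rw [← Finset.card_eq_sum_card_fiberwise]
    intro f hf
    exact Finset.mem_coe.2 (Finset.mem_image.2 ⟨f, hf, rfl⟩)
  have h2 : (Fintype.piFinset fun _ : Fin j => A).card = A.card ^ j := by
    rw [Fintype.card_piFinset]; simp
  rw [h2] at h1
  calc ∑ x ∈ Pool.Agent.TH513.IS.sm A j, rep A j x = ∑ x ∈ Pool.Agent.TH513.IS.sm A j,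
      (((Fintype.piFinset fun _ : Fin j => A).filter (fun f => ∑ i, f i = x)).card : ℝ) :=
        Finset.sum_congr rfl fun x _ => rep_eq_card A j x
    _ = ((A.card ^ j : ℕ) : ℝ) := by rw [← h1]; push_cast; rfl
    _ = _ := by push_cast; rfl

/-- the number of pairs of `j`-tuples with equal sums -/
def ener (A : Finset G) (j : ℕ) : ℕ :=
  (((Fintype.piFinset fun _ : Fin j => A) ×ˢ (Fintype.piFinset fun _ : Fin j => A)).filter
    (fun p => ∑ i, p.1 i = ∑ i, p.2 i)).card

theorem ener_eq (A : Finset G) (j : ℕ) :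
    (ener A j : ℝ) = ∑ x ∈ Pool.Agent.TH513.IS.sm A j, rep A j x ^ 2 := by
  have h1 : ener A j = ∑ x ∈ Pool.Agent.TH513.IS.sm A j,
      ((Fintype.piFinset fun _ : Fin j => A).filter (fun f => ∑ i, f i = x)).card ^ 2 := by
    unfold ener
    rw [Finset.card_eq_sum_card_fiberwise (f := fun p => ∑ i, p.1 i) (t := Pool.Agent.TH513.IS.sm A j)]
    · refine Finset.sum_congr rfl fun x _ => ?_
      rw [sq, ← Finset.card_product]
      congr 1
      ext p
      simp only [Finset.mem_filter, Finset.mem_product]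
      constructor
      · rintro ⟨⟨⟨h1, h2⟩, h3⟩, h4⟩
        exact ⟨⟨h1, h4⟩, h2, by rw [← h3, h4]⟩
      · rintro ⟨⟨h1, h4⟩, h2, h3⟩
        exact ⟨⟨⟨h1, h2⟩, by rw [h4, h3]⟩, h4⟩
    · intro p hp
      rw [Finset.mem_coe, Finset.mem_filter, Finset.mem_product] at hp
      exact Finset.mem_coe.2 (Finset.mem_image.2 ⟨p.1, hp.1.1, rfl⟩)
  rw [h1]
  push_cast
  exact Finset.sum_congr rfl fun x _ => by rw [rep_eq_card]

/-! ### vectors -/

section vec
variable (v : G → ℝ) (hv : (Function.support v).Finite)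

theorem shift_supp (hv : (Function.support v).Finite) (x : G) :
    (Function.support fun y => v (y - x)).Finite := by
  have h1 : (Function.support fun y => v (y - x)) ⊆ (fun z => z + x) '' Function.support v := by
    intro y hy
    exact ⟨y - x, hy, by simp⟩
  exact (hv.image _).subset h1

theorem memlp_of_supp {u : G → ℝ} (hu : (Function.support u).Finite) :
    Memℓp (E := fun _ : G => ℝ) u 2 := by
  refine memℓp_gen ?_
  refine summable_of_finite_support ?_
  refine hu.subset ?_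
  intro y hy
  rw [Function.mem_support] at hy ⊢
  intro h0
  apply hy
  rw [h0]; simp

/-- shifted vector -/
noncomputable def W (hv : (Function.support v).Finite) (x : G) : lp (fun _ : G => ℝ) 2 :=
  ⟨fun y => v (y - x), memlp_of_supp (shift_supp v hv x)⟩

/-- autocorrelation -/
noncomputable def cor (z : G) : ℝ := ∑' y, v (y + z) * v y

theorem inner_W (x x' : G) : inner ℝ (W v hv x) (W v hv x') = cor v (x' - x) := by
  rw [lp.inner_eq_tsum]
  unfold cor
  rw [← (Equiv.addRight x').tsum_eq]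
  refine tsum_congr fun y => ?_
  change inner ℝ (v (y + x' - x)) (v (y + x' - x')) = _
  rw [add_sub_cancel_right, add_sub_assoc]
  simp [mul_comm]

theorem cor_symm (z : G) : cor v (-z) = cor v z := by
  unfold cor
  rw [← (Equiv.addRight z).tsum_eq]
  refine tsum_congr fun y => ?_
  change v (y + z + -z) * v (y + z) = _
  rw [add_neg_cancel_right, mul_comm]

theorem dist_W (x x' : G) : ‖W v hv x - W v hv x'‖ ^ 2 = 2 * cor v 0 - 2 * cor v (x - x') := by
  rw [@norm_sub_sq ℝ, ← real_inner_self_eq_norm_sq, ← real_inner_self_eq_norm_sq, inner_W, inner_W,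
    inner_W, sub_self, sub_self]
  simp only [RCLike.re_to_real]
  have : cor v (x' - x) = cor v (x - x') := by rw [← cor_symm, neg_sub]
  rw [this]; ring

theorem dist_W_shift (x x' y : G) :
    ‖W v hv (x + y) - W v hv (x' + y)‖ = ‖W v hv x - W v hv x'‖ := by
  have h1 : ‖W v hv (x + y) - W v hv (x' + y)‖ ^ 2 = ‖W v hv x - W v hv x'‖ ^ 2 := by
    rw [dist_W, dist_W, add_sub_add_right_eq_sub]
  exact (pow_left_inj₀ (norm_nonneg _) (norm_nonneg _) two_ne_zero).1 h1

theorem dist_W_path (m : ℕ) (f g : Fin m → G) (c : ℝ)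
    (h : ∀ i, ‖W v hv (f i) - W v hv (g i)‖ ≤ c) :
    ‖W v hv (∑ i, f i) - W v hv (∑ i, g i)‖ ≤ m * c := by
  induction m with
  | zero => simp
  | succ m ih =>
    rw [Fin.sum_univ_succ, Fin.sum_univ_succ]
    have h1 := ih (fun i => f i.succ) (fun i => g i.succ) (fun i => h i.succ)
    have h2 : ‖W v hv (f 0 + ∑ i : Fin m, f i.succ) - W v hv (g 0 + ∑ i : Fin m, f i.succ)‖ ≤ c := by
      rw [dist_W_shift]; exact h 0
    have h3 : ‖W v hv (g 0 + ∑ i : Fin m, f i.succ) - W v hv (g 0 + ∑ i : Fin m, g i.succ)‖ ≤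
        m * c := by
      rw [add_comm (g 0), add_comm (g 0), dist_W_shift]; exact h1
    calc _ ≤ _ := norm_sub_le_norm_sub_add_norm_sub _
            (W v hv (g 0 + ∑ i : Fin m, f i.succ)) _
      _ ≤ c + m * c := add_le_add h2 h3
      _ = ((m + 1 : ℕ) : ℝ) * c := by push_cast; ring

theorem cor_zero (S : Finset G) (hS : ∀ x, v x ≠ 0 → x ∈ S) : cor v 0 = ∑ x ∈ S, v x ^ 2 := by
  unfold cor
  rw [tsum_eq_sum (s := S)]
  · exact Finset.sum_congr rfl fun x _ => by rw [add_zero, sq]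
  · intro x hx
    have : v x = 0 := by
      by_contra h; exact hx (hS x h)
    rw [this, mul_zero]

theorem sum_cor_le (h0 : ∀ x, 0 ≤ v x) (S X : Finset G) (hS : ∀ x, v x ≠ 0 → x ∈ S) :
    ∑ z ∈ X, cor v z ≤ (∑ x ∈ S, v x) ^ 2 := by
  have h1 : ∀ z, cor v z = ∑ y ∈ S, v (y + z) * v y := by
    intro z
    unfold cor
    rw [tsum_eq_sum (s := S)]
    intro x hx
    have : v x = 0 := by
      by_contra h; exact hx (hS x h)
    rw [this, mul_zero]
  have h2 : ∀ y, ∑ z ∈ X, v (y + z) ≤ ∑ x ∈ S, v x := by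
    intro y
    have e1 : ∑ z ∈ X, v (y + z) = ∑ x ∈ X.image (fun z => y + z), v x := by
      rw [Finset.sum_image]
      intro a _ b _ hab
      exact add_left_cancel hab
    rw [e1]
    calc ∑ x ∈ X.image (fun z => y + z), v x ≤ ∑ x ∈ X.image (fun z => y + z) ∪ S, v x :=
          Finset.sum_le_sum_of_subset_of_nonneg Finset.subset_union_left fun x _ _ => h0 x
      _ = ∑ x ∈ S, v x := by
        symm
        refine Finset.sum_subset Finset.subset_union_right fun x _ hx => ?_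
        by_contra h; exact hx (hS x h)
  calc ∑ z ∈ X, cor v z = ∑ y ∈ S, (∑ z ∈ X, v (y + z)) * v y := by
        rw [Finset.sum_congr rfl fun z _ => h1 z, Finset.sum_comm]
        exact Finset.sum_congr rfl fun y _ => by rw [Finset.sum_mul]
    _ ≤ ∑ y ∈ S, (∑ x ∈ S, v x) * v y :=
        Finset.sum_le_sum fun y _ => mul_le_mul_of_nonneg_right (h2 y) (h0 y)
    _ = (∑ x ∈ S, v x) ^ 2 := by rw [← Finset.mul_sum, sq]

end vec

theorem ener_eq_cor (A : Finset G) (j : ℕ) : (ener A j : ℝ) = cor (rep A j) 0 := by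
  rw [ener_eq, cor_zero (rep A j) (Pool.Agent.TH513.IS.sm A j) fun x hx => rep_supp A j hx]

theorem sum_W (A : Finset G) (j : ℕ) :
    ∑ a ∈ A, W (rep A j) (rep_finite A j) a = W (rep A (j + 1)) (rep_finite A (j + 1)) 0 := by
  ext y
  have h1 : ((∑ a ∈ A, W (rep A j) (rep_finite A j) a : lp (fun _ : G => ℝ) 2) : G → ℝ) y =
      ∑ a ∈ A, (W (rep A j) (rep_finite A j) a : G → ℝ) y := by
    rw [lp.coeFn_sum, Finset.sum_apply]
  rw [h1]
  change ∑ a ∈ A, rep A j (y - a) = rep A (j + 1) (y - 0)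
  rw [sub_zero]
  rfl

theorem ener_pos {A : Finset G} (hA : A.Nonempty) (j : ℕ) : 0 < ener A j := by
  obtain ⟨a, ha⟩ := hA
  unfold ener
  rw [Finset.card_pos]
  refine ⟨(fun _ => a, fun _ => a), ?_⟩
  rw [Finset.mem_filter, Finset.mem_product]
  exact ⟨⟨Fintype.mem_piFinset.2 fun _ => ha, Fintype.mem_piFinset.2 fun _ => ha⟩, rfl⟩

theorem ener_one (A : Finset G) : (ener A 1 : ℝ) = A.card := by
  rw [ener_eq]
  have h0 : ∀ x, rep A 1 x = if x ∈ A then 1 else 0 := by
    intro x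
    unfold rep rep
    have : ∀ a ∈ A, (if x - a = 0 then (1 : ℝ) else 0) = if a = x then 1 else 0 := by
      intro a _
      by_cases h : a = x
      · rw [if_pos h, if_pos (by rw [h, sub_self])]
      · rw [if_neg h, if_neg (fun h1 => h (sub_eq_zero.1 h1).symm)]
    rw [Finset.sum_congr rfl this, Finset.sum_ite_eq']
  rw [Pool.Agent.TH513.IS.sm_one]
  rw [Finset.sum_congr rfl fun x hx => by rw [h0 x, if_pos hx]]
  simp

/-- the energies of consecutive orders -/
theorem sum_dist (A : Finset G) (j : ℕ) :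
    ∑ a' ∈ A, ∑ a ∈ A, ‖W (rep A j) (rep_finite A j) a - W (rep A j) (rep_finite A j) a'‖ ^ 2 =
      2 * (A.card : ℝ) ^ 2 * ener A j - 2 * ener A (j + 1) := by
  set w := W (rep A j) (rep_finite A j) with hw
  have h1 : ∀ a, ‖w a‖ ^ 2 = ener A j := by
    intro a
    rw [← real_inner_self_eq_norm_sq, hw, inner_W, sub_self, ener_eq_cor]
  have h2 : ‖∑ a ∈ A, w a‖ ^ 2 = ener A (j + 1) := by
    rw [hw, sum_W, ← real_inner_self_eq_norm_sq, inner_W, sub_self, ener_eq_cor]
  have h3 : ∑ a' ∈ A, ∑ a ∈ A, inner ℝ (w a) (w a') = ener A (j + 1) := by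
    rw [← h2, ← real_inner_self_eq_norm_sq, inner_sum]
    refine Finset.sum_congr rfl fun a' _ => ?_
    rw [sum_inner]
  have h4 : ∀ a a', ‖w a - w a'‖ ^ 2 = 2 * ener A j - 2 * inner ℝ (w a) (w a') := by
    intro a a'
    rw [@norm_sub_sq ℝ, h1, h1]
    simp only [RCLike.re_to_real]
    ring
  simp only [h4]
  rw [← h3]
  simp only [Finset.sum_sub_distrib, Finset.sum_const, nsmul_eq_mul, ← Finset.mul_sum]
  ring

theorem ener_succ_le (A : Finset G) (j : ℕ) :
    (ener A (j + 1) : ℝ) ≤ (A.card : ℝ) ^ 2 * ener A j := by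
  have h1 := sum_dist A j
  have h2 : 0 ≤ ∑ a' ∈ A, ∑ a ∈ A,
      ‖W (rep A j) (rep_finite A j) a - W (rep A j) (rep_finite A j) a'‖ ^ 2 :=
    Finset.sum_nonneg fun _ _ => Finset.sum_nonneg fun _ _ => by positivity
  linarith

theorem ener_add_le (A : Finset G) (j i : ℕ) :
    (ener A (j + i) : ℝ) ≤ (A.card : ℝ) ^ (2 * i) * ener A j := by
  induction i with
  | zero => simp
  | succ i ih =>
    calc (ener A (j + (i + 1)) : ℝ) ≤ (A.card : ℝ) ^ 2 * ener A (j + i) := ener_succ_le A (j + i)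
      _ ≤ (A.card : ℝ) ^ 2 * ((A.card : ℝ) ^ (2 * i) * ener A j) :=
        mul_le_mul_of_nonneg_left ih (by positivity)
      _ = _ := by ring

/-- one order at which the energy hardly drops -/
theorem exists_order {A : Finset G} (hA : A.Nonempty) {K δ : ℝ} {k : ℕ} (hK : 1 ≤ K)
    (hδ0 : 0 < δ) (hδ1 : δ ≤ 1) (hk : 1 ≤ k) (hkδ : Real.log (2 * K) ≤ δ * ((k : ℝ) - 1))
    (hE : (A.card : ℝ) ^ (2 * k - 1) ≤ K * ener A k) :
    ∃ j, 1 ≤ j ∧ j < k ∧ (1 - δ) * ((A.card : ℝ) ^ 2 * ener A j) ≤ ener A (j + 1) := by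
  by_contra hcon
  push Not at hcon
  have hc : (0 : ℝ) < A.card := by exact_mod_cast hA.card_pos
  have h1 : ∀ i : ℕ, 1 + i ≤ k →
      (ener A (1 + i) : ℝ) ≤ (1 - δ) ^ i * ((A.card : ℝ) ^ (2 * i) * A.card) := by
    intro i
    induction i with
    | zero => intro _; rw [add_zero, ener_one]; simp
    | succ i ih =>
      intro hi
      have h2 := (hcon (1 + i) (by omega) (by omega)).le
      have h3 := ih (by omega)
      have h4 : (0 : ℝ) ≤ 1 - δ := by linarith
      calc (ener A (1 + (i + 1)) : ℝ) ≤ (1 - δ) * ((A.card : ℝ) ^ 2 * ener A (1 + i)) := h2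
        _ ≤ (1 - δ) * ((A.card : ℝ) ^ 2 * ((1 - δ) ^ i * ((A.card : ℝ) ^ (2 * i) * A.card))) := by
          refine mul_le_mul_of_nonneg_left (mul_le_mul_of_nonneg_left h3 (by positivity)) h4
        _ = _ := by ring
  obtain ⟨i, rfl⟩ := Nat.exists_eq_add_of_le hk
  have h2 := h1 i le_rfl
  have e1 : 2 * (1 + i) - 1 = 2 * i + 1 := by omega
  rw [e1] at hE
  push_cast at hkδ
  have h3 : (1 - δ) ^ i ≤ Real.exp (-(δ * i)) := by
    have : 1 - δ ≤ Real.exp (-δ) := by
      have := Real.add_one_le_exp (-δ); linarith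
    calc (1 - δ) ^ i ≤ Real.exp (-δ) ^ i := pow_le_pow_left₀ (by linarith) this i
      _ = _ := by rw [← Real.exp_nat_mul]; congr 1; ring
  have h4 : Real.exp (-(δ * i)) ≤ 1 / (2 * K) := by
    rw [Real.exp_neg, one_div]
    refine inv_anti₀ (by linarith) ?_
    have h5 : Real.log (2 * K) ≤ δ * i := by
      have : δ * (1 + (i : ℝ) - 1) = δ * i := by ring
      linarith
    calc 2 * K = Real.exp (Real.log (2 * K)) := (Real.exp_log (by linarith)).symm
      _ ≤ _ := Real.exp_le_exp.2 h5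
  have h5 : (ener A (1 + i) : ℝ) ≤ 1 / (2 * K) * ((A.card : ℝ) ^ (2 * i) * A.card) :=
    h2.trans (mul_le_mul_of_nonneg_right (h3.trans h4) (by positivity))
  have h6 : (A.card : ℝ) ^ (2 * i + 1) ≤ K * (1 / (2 * K) * ((A.card : ℝ) ^ (2 * i) * A.card)) :=
    hE.trans (mul_le_mul_of_nonneg_left h5 (by linarith))
  have h7 : K * (1 / (2 * K) * ((A.card : ℝ) ^ (2 * i) * A.card)) =
      (A.card : ℝ) ^ (2 * i + 1) / 2 := by
    have : K ≠ 0 := by linarith
    rw [pow_succ]
    field_simp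
  rw [h7] at h6
  have h8 : (0 : ℝ) < (A.card : ℝ) ^ (2 * i + 1) := by positivity
  linarith

/-- half of the set has a small iterated sumset -/
theorem exists_half {A : Finset G} (hA : A.Nonempty) {K : ℝ} {k m : ℕ} (hK : 1 ≤ K) (hm : 1 ≤ m)
    (hk : 1 + 4 * (m : ℝ) ^ 2 * Real.log (2 * K) ≤ k)
    (hE : (A.card : ℝ) ^ (2 * k - 1) ≤ K * ener A k) :
    ∃ A' ⊆ A, (A.card : ℝ) ≤ 2 * A'.card ∧ ((Pool.Agent.TH513.IS.sm A' m).card : ℝ) ≤ 2 * K * A.card := by
  have hc : (0 : ℝ) < A.card := by exact_mod_cast hA.card_pos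
  have hm0 : (0 : ℝ) < m := by exact_mod_cast hm
  have hlog : 0 < Real.log (2 * K) := Real.log_pos (by linarith)
  have hk1 : 1 ≤ k := by
    have : (1 : ℝ) ≤ k := by nlinarith [mul_pos (pow_pos hm0 2) hlog]
    exact_mod_cast this
  set δ : ℝ := 1 / (4 * (m : ℝ) ^ 2) with hδ
  have hδ0 : 0 < δ := by positivity
  have hδ1 : δ ≤ 1 := by
    rw [hδ, div_le_one (by positivity)]
    have : (1 : ℝ) ≤ m := by exact_mod_cast hm
    nlinarith
  have hkδ : Real.log (2 * K) ≤ δ * ((k : ℝ) - 1) := by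
    rw [hδ, div_mul_eq_mul_div, one_mul, le_div_iff₀ (by positivity)]
    linarith
  obtain ⟨j, hj1, hjk, hj⟩ := exists_order hA hK hδ0 hδ1 hk1 hkδ hE
  set v := rep A j with hv
  set w := W v (rep_finite A j) with hw
  set N : ℝ := (ener A j : ℝ) with hN
  have hNpos : 0 < N := by rw [hN]; exact_mod_cast ener_pos hA j
  have hsum := sum_dist A j
  have hsum2 : ∑ a' ∈ A, ∑ a ∈ A, ‖w a - w a'‖ ^ 2 ≤ ∑ a' ∈ A, (2 * δ * A.card * N) := by
    rw [Finset.sum_const, nsmul_eq_mul]
    have hsum' : ∑ a' ∈ A, ∑ a ∈ A, ‖w a - w a'‖ ^ 2 =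
        2 * (A.card : ℝ) ^ 2 * N - 2 * ener A (j + 1) := hsum
    rw [hsum']
    nlinarith [hj]
  obtain ⟨a₀, ha₀, ha₀s⟩ := Finset.exists_le_of_sum_le hA hsum2
  set A' := A.filter (fun a => ‖w a - w a₀‖ ^ 2 ≤ N / (m : ℝ) ^ 2) with hA'
  refine ⟨A', Finset.filter_subset _ _, ?_, ?_⟩
  · set Bd := A.filter (fun a => ¬ ‖w a - w a₀‖ ^ 2 ≤ N / (m : ℝ) ^ 2) with hBd
    have h1 : A'.card + Bd.card = A.card := Finset.card_filter_add_card_filter_not _
    have h2 : (Bd.card : ℝ) * (N / (m : ℝ) ^ 2) ≤ ∑ a ∈ A, ‖w a - w a₀‖ ^ 2 := by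
      calc (Bd.card : ℝ) * (N / (m : ℝ) ^ 2) = ∑ a ∈ Bd, N / (m : ℝ) ^ 2 := by
            rw [Finset.sum_const, nsmul_eq_mul]
        _ ≤ ∑ a ∈ Bd, ‖w a - w a₀‖ ^ 2 := Finset.sum_le_sum fun a ha =>
            (not_le.1 (Finset.mem_filter.1 ha).2).le
        _ ≤ _ := Finset.sum_le_sum_of_subset_of_nonneg (Finset.filter_subset _ _)
            fun _ _ _ => by positivity
    have h3 : (Bd.card : ℝ) * (N / (m : ℝ) ^ 2) ≤ (A.card / 2) * (N / (m : ℝ) ^ 2) := by
      refine (h2.trans ha₀s).trans (le_of_eq ?_)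
      rw [hδ]; field_simp; ring
    have h4 : (Bd.card : ℝ) ≤ A.card / 2 := le_of_mul_le_mul_right h3 (by positivity)
    have h5 : (A'.card : ℝ) + Bd.card = A.card := by exact_mod_cast h1
    linarith
  · -- the sumset
    set X : Finset G := (Pool.Agent.TH513.IS.sm A' m).image (fun x => x - m • a₀) with hX
    have hXc : X.card = (Pool.Agent.TH513.IS.sm A' m).card := by
      rw [hX, Finset.card_image_of_injective]
      intro x y hxy
      exact sub_left_injective hxy
    have h1 : ∀ z ∈ X, N / 2 ≤ cor v z := by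
      intro z hz
      obtain ⟨x, hx, rfl⟩ := Finset.mem_image.1 hz
      obtain ⟨f, hf, rfl⟩ := Finset.mem_image.1 hx
      rw [Fintype.mem_piFinset] at hf
      have h2 := dist_W_path v (rep_finite A j) m f (fun _ => a₀) (Real.sqrt N / m) (fun i => by
        have h3 := (Finset.mem_filter.1 (hf i)).2
        have h4 : ‖w (f i) - w a₀‖ ≤ Real.sqrt (N / (m : ℝ) ^ 2) := Real.le_sqrt_of_sq_le h3
        rwa [Real.sqrt_div hNpos.le, Real.sqrt_sq hm0.le] at h4)
      rw [mul_div_cancel₀ _ hm0.ne'] at h2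
      have h3 : ‖W v (rep_finite A j) (∑ i, f i) - W v (rep_finite A j) (∑ _i : Fin m, a₀)‖ ^ 2 ≤
          N := by
        calc _ ≤ Real.sqrt N ^ 2 := pow_le_pow_left₀ (norm_nonneg _) h2 2
          _ = N := Real.sq_sqrt hNpos.le
      rw [dist_W, ← ener_eq_cor, Finset.sum_const, Finset.card_univ, Fintype.card_fin] at h3
      change 2 * N - _ ≤ N at h3
      linarith
    have h2 : (X.card : ℝ) * (N / 2) ≤ ((A.card : ℝ) ^ j) ^ 2 := by
      calc (X.card : ℝ) * (N / 2) = ∑ z ∈ X, N / 2 := by rw [Finset.sum_const, nsmul_eq_mul]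
        _ ≤ ∑ z ∈ X, cor v z := Finset.sum_le_sum h1
        _ ≤ (∑ x ∈ Pool.Agent.TH513.IS.sm A j, v x) ^ 2 :=
          sum_cor_le v (rep_nonneg A j) _ X fun x hx => rep_supp A j hx
        _ = _ := by rw [hv, rep_sum]
    have h3 : (A.card : ℝ) ^ (2 * k - 1) ≤ K * ((A.card : ℝ) ^ (2 * (k - j)) * N) := by
      have h4 := ener_add_le A j (k - j)
      rw [Nat.add_sub_cancel' hjk.le] at h4
      exact hE.trans (mul_le_mul_of_nonneg_left h4 (by linarith))
    have h4 : (A.card : ℝ) ^ (2 * k - 1) = (A.card : ℝ) ^ (2 * (k - j)) * (A.card : ℝ) ^ (2 * j - 1) := by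
      rw [← pow_add]; congr 1; omega
    rw [h4] at h3
    have h5 : (A.card : ℝ) ^ (2 * j - 1) ≤ K * N := by
      have h6 : (A.card : ℝ) ^ (2 * (k - j)) * (A.card : ℝ) ^ (2 * j - 1) ≤
          (A.card : ℝ) ^ (2 * (k - j)) * (K * N) := by
        refine h3.trans (le_of_eq ?_); ring
      exact le_of_mul_le_mul_left h6 (by positivity)
    have h6 : ((A.card : ℝ) ^ j) ^ 2 = A.card * (A.card : ℝ) ^ (2 * j - 1) := by
      rw [← pow_mul, ← pow_succ']
      congr 1; omega
    rw [h6] at h2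
    rw [← hXc]
    have h7 : (X.card : ℝ) * (N / 2) ≤ (2 * K * A.card) * (N / 2) := by
      calc (X.card : ℝ) * (N / 2) ≤ A.card * (A.card : ℝ) ^ (2 * j - 1) := h2
        _ ≤ A.card * (K * N) := mul_le_mul_of_nonneg_left h5 hc.le
        _ = _ := by ring
    exact le_of_mul_le_mul_right h7 (by positivity)

end T9h11.Energy
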