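import Pool.Agent.T9h11.RMC
import Pool.Agent.Y806.DF.C
import Pool.Agent.H112R2.Cover

set_option autoImplicit false
set_option linter.unusedSectionVars false
set_option linter.unusedVariables false

/-! Homomorphic images of the short vectors of a lattice. -/

namespace T9h11.RM

open H460

section shrink
open scoped Pointwise
open Pool.Agent.Y806.DF

variable {Γ : Type*} [AddCommGroup Γ]

/-- Reduction of the volume of a coset progression, at the cost of few translates. -/
theorem shrink {r : ℕ} {B : Set (Fin r → ℝ)} (hB : Sym B) (ψ : (Fin r → ℤ) →+ Γ)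
    (H : AddSubgroup Γ) (hH : Finite H) {a : ℕ} (ha : 1 ≤ a) :
    ∃ (d : ℕ) (B' : Set (Fin d → ℝ)) (ψ' : (Fin d → ℤ) →+ Γ) (H' : AddSubgroup Γ) (T : Finset Γ),
      d ≤ max r 1 ∧ Body B' ∧ Finite H' ∧ (lat B').ncard * Nat.card H' ≤ a ∧
      (T.card : ℝ) ≤ 6 * 1024 ^ r * max 1 (((lat B).ncard * Nat.card H : ℕ) / (a : ℝ)) ∧
      ∀ v ∈ lat B, ∀ h ∈ H, ∃ t ∈ T, ∃ w ∈ lat B', ∃ h' ∈ H', ψ v + h = t + ψ' w + h' := by
  classical
  have haR : (1 : ℝ) ≤ a := by exact_mod_cast ha
  have haR0 : (0 : ℝ) < a := by linarith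
  have hHpos : 0 < Nat.card H := Nat.card_pos
  have hHr : (0 : ℝ) < Nat.card H := by exact_mod_cast hHpos
  have hnum : num B 1 = (lat B).ncard := by unfold num; rw [one_smul]
  have hfinB : (lat B).Finite := by
    have := hB.finite 1
    rwa [one_smul] at this
  have h1024 : (1 : ℝ) ≤ 1024 ^ r := one_le_pow₀ (by norm_num)
  rcases Nat.lt_or_ge a (Nat.card H) with hbig | hsmall
  · obtain ⟨l, g, H₁, T₁, hfin1, hle, hvol, hT₁, hcov₁⟩ := H112.big_subgroup H hH ha hbig
    let θ : (Fin 1 → ℤ) →+ Γ :=
      { toFun := fun c => c 0 • g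
        map_zero' := by simp
        map_add' := by intro a b; simp [add_smul] }
    refine ⟨1, Metric.closedBall 0 ((l : ℝ) + 1 / 2), θ, H₁, hfinB.toFinset.image ψ + T₁,
      le_max_right _ _, ⟨?_, ?_, ?_, ?_⟩, hfin1, ?_, ?_, ?_⟩
    · exact convex_closedBall _ _
    · exact isCompact_closedBall _ _
    · refine ⟨0, mem_interior.2 ⟨Metric.ball 0 ((l : ℝ) + 1 / 2), Metric.ball_subset_closedBall,
        Metric.isOpen_ball, Metric.mem_ball_self (by positivity)⟩⟩
    · intro x hx
      rw [mem_closedBall_zero_iff] at hx ⊢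
      rw [norm_neg]
      exact hx
    · have h1 : (lat (Metric.closedBall (0 : Fin 1 → ℝ) ((l : ℝ) + 1 / 2))).ncard ≤ 2 * l + 1 := by
        have h2 : (lat (Metric.closedBall (0 : Fin 1 → ℝ) ((l : ℝ) + 1 / 2))).ncard ≤
            (Set.Icc (-(l : ℤ)) (l : ℤ)).ncard := by
          refine Set.ncard_le_ncard_of_injOn (fun c => c 0) ?_ ?_ (Set.finite_Icc _ _)
          · intro c hc
            have h3 := mem_closedBall_zero_iff.1 hc
            have h4 := (norm_le_pi_norm (re c) 0).trans h3
            have h5 : |((c 0 : ℤ) : ℝ)| ≤ (l : ℝ) + 1 / 2 := h4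
            have h6 : |c 0| ≤ (l : ℤ) := by
              by_contra hcon
              push Not at hcon
              have h7 : ((l : ℤ) : ℝ) + 1 ≤ (|c 0| : ℤ) := by exact_mod_cast hcon
              push_cast at h7
              linarith
            exact ⟨(abs_le.1 h6).1, (abs_le.1 h6).2⟩
          · intro a _ b _ hab
            funext i
            fin_cases i
            exact hab
        have h8 : (Set.Icc (-(l : ℤ)) (l : ℤ)).ncard = 2 * l + 1 := by
          rw [Set.ncard_eq_toFinset_card', Set.toFinset_Icc, Int.card_Icc]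
          omega
        omega
      exact (Nat.mul_le_mul_right _ h1).trans hvol
    · have h1 : (T₁.card : ℝ) ≤ 6 * Nat.card H / a := by
        rw [le_div_iff₀ haR0]; exact hT₁
      have h2 : ((hfinB.toFinset.image ψ + T₁).card : ℝ) ≤ (lat B).ncard * T₁.card := by
        have h3 : (hfinB.toFinset.image ψ + T₁).card ≤ (hfinB.toFinset.image ψ).card * T₁.card :=
          Finset.card_add_le
        have h4 : (hfinB.toFinset.image ψ).card ≤ (lat B).ncard := by
          rw [Set.ncard_eq_toFinset_card _ hfinB]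
          exact Finset.card_image_le
        exact_mod_cast h3.trans (Nat.mul_le_mul_right _ h4)
      calc ((hfinB.toFinset.image ψ + T₁).card : ℝ) ≤ (lat B).ncard * T₁.card := h2
        _ ≤ (lat B).ncard * (6 * Nat.card H / a) := mul_le_mul_of_nonneg_left h1 (by positivity)
        _ = 6 * 1 * (((lat B).ncard * Nat.card H : ℕ) / (a : ℝ)) := by push_cast; ring
        _ ≤ 6 * 1024 ^ r * max 1 (((lat B).ncard * Nat.card H : ℕ) / (a : ℝ)) := by
          gcongr
          exact le_max_right _ _
    · intro v hv h hh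
      obtain ⟨t', ht', c, hc, k, hk, hk2⟩ := hcov₁ h hh
      refine ⟨ψ v + t', Finset.add_mem_add (Finset.mem_image_of_mem _
        ((Set.Finite.mem_toFinset _).2 hv)) ht', fun _ => c, ?_, k, hk, ?_⟩
      · show re (fun _ => c) ∈ Metric.closedBall (0 : Fin 1 → ℝ) ((l : ℝ) + 1 / 2)
        rw [mem_closedBall_zero_iff, pi_norm_le_iff_of_nonneg (by positivity)]
        intro i
        show |(c : ℝ)| ≤ _
        have : |(c : ℝ)| ≤ l := by exact_mod_cast hc
        linarith
      · show ψ v + h = ψ v + t' + c • g + k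
        rw [hk2]
        abel
  · have hm : (1 : ℝ) ≤ (a : ℝ) / Nat.card H := by
      rw [le_div_iff₀ hHr, one_mul]
      exact_mod_cast hsmall
    obtain ⟨s, F, hs, hsm, hF, hcovF⟩ := scale hB hm
    obtain ⟨B', hB', hlat⟩ := fatten (hB.smul s)
    refine ⟨r, B', ψ, H, F.image ψ, le_max_left _ _, hB', hH, ?_, ?_, ?_⟩
    · rw [hlat]
      have h1 : (num B s : ℝ) * Nat.card H ≤ a := by
        rw [le_div_iff₀ hHr] at hsm
        exact hsm
      exact_mod_cast h1
    · have h1 : ((F.image ψ).card : ℝ) ≤ F.card := by exact_mod_cast Finset.card_image_le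
      have h2 : (num B 1 : ℝ) / ((a : ℝ) / Nat.card H) =
          ((lat B).ncard * Nat.card H : ℕ) / (a : ℝ) := by
        rw [hnum]; push_cast; field_simp
      rw [h2] at hF
      refine h1.trans (hF.trans ?_)
      have h3 : (0 : ℝ) ≤ max 1 (((lat B).ncard * Nat.card H : ℕ) / (a : ℝ)) :=
        zero_le_one.trans (le_max_left _ _)
      have h4 : (1024 : ℝ) ^ r ≤ 6 * 1024 ^ r := by linarith
      exact mul_le_mul_of_nonneg_right h4 h3
    · intro v hv h hh
      obtain ⟨f, hf, w, hw, rfl⟩ := hcovF v (by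
        have := hB.mono (s := 1) (t := 2) zero_le_one (by norm_num)
        rw [one_smul] at this
        exact lat_mono this hv)
      refine ⟨ψ f, Finset.mem_image_of_mem _ hf, w, ?_, h, hh, ?_⟩
      · rw [hlat]
        exact lat_mono (hB.mono (by positivity) (by linarith)) hw
      · rw [map_add]

end shrink

end T9h11.RM
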