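import Pool.Agent.T9h11.GP1

set_option autoImplicit false
set_option linter.unusedSectionVars false
set_option linter.unusedVariables false

/-! Homomorphic images of the short vectors of a lattice: the lattice part. -/

namespace T9h11.RM

open H460

variable {E : Type*} [NormedAddCommGroup E] [InnerProductSpace ℝ E] [FiniteDimensional ℝ E]

/-- a saturated sublattice of almost maximal `w` -/
theorem near_max {Γ : AddSubgroup E} (h : Disc Γ) : ∃ U : Submodule ℝ E, Sat Γ U ∧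
    ∀ N : AddSubgroup E, N ≤ Γ → w N ≤ 2 * w (cut Γ U) := by
  set S : Set ℝ := {c | ∃ N : AddSubgroup E, N ≤ Γ ∧ w N = c} with hS
  have hbd : ∀ N : AddSubgroup E, N ≤ Γ → w N ≤ th Γ 0 1 := by
    intro N hN
    have h1 := w_le (h.mono hN) 0
    simp only [pow_zero, zero_mul, div_one] at h1
    exact h1.trans (th_mono h hN 0 one_pos)
  have hSne : S.Nonempty := ⟨w (⊥ : AddSubgroup E), ⊥, bot_le, rfl⟩
  have hSb : BddAbove S := ⟨th Γ 0 1, by rintro c ⟨N, hN, rfl⟩; exact hbd N hN⟩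
  have h1 : 1 ≤ sSup S := by
    have := le_csSup hSb ⟨⊥, bot_le, rfl⟩
    rwa [w_bot] at this
  obtain ⟨c, ⟨M, hM, rfl⟩, hlt⟩ := exists_lt_of_lt_csSup hSne (show sSup S / 2 < sSup S by linarith)
  set U : Submodule ℝ E := Submodule.span ℝ (M : Set E) with hU
  have hMc : M ≤ cut Γ U := fun x hx => ⟨hM hx, Submodule.subset_span hx⟩
  have hcU : Submodule.span ℝ (cut Γ U : Set E) = U := by
    apply le_antisymm
    · rw [Submodule.span_le]
      intro x hx
      exact hx.2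
    · exact Submodule.span_mono hMc
  refine ⟨U, hcU, fun N hN => ?_⟩
  have h2 : w N ≤ sSup S := le_csSup hSb ⟨N, hN, rfl⟩
  have h3 : w M ≤ w (cut Γ U) := w_mono (h.mono inf_le_left) hMc (by
    unfold rk; rw [hcU])
  linarith

/-- sublattices of a quotient -/
theorem w_sub_quo {Γ : AddSubgroup E} (h : Disc Γ) {U : Submodule ℝ E} (hU : Sat Γ U) {B : ℝ}
    (hB : ∀ M : AddSubgroup E, M ≤ Γ → w M ≤ B) {N : AddSubgroup E} (hN : N ≤ quo Γ U) :
    w N ≤ B / w (cut Γ U) := by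
  set M : AddSubgroup E := Γ ⊓ N.comap (QuoA_p U).toAddMonoidHom with hM
  have hMΓ : M ≤ Γ := inf_le_left
  have hmemM : ∀ x, x ∈ M ↔ x ∈ Γ ∧ QuoA_p U x ∈ N := fun x => Iff.rfl
  have hcut : cut M U = cut Γ U := by
    ext x
    rw [QuoA_mem_cut, QuoA_mem_cut, hmemM]
    constructor
    · rintro ⟨⟨h1, _⟩, h2⟩; exact ⟨h1, h2⟩
    · rintro ⟨h1, h2⟩
      refine ⟨⟨h1, ?_⟩, h2⟩
      rw [QuoA_p_eq_zero.2 h2]; exact N.zero_mem
  have hquo : quo M U = N := by
    ext y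
    rw [QuoA_mem]
    constructor
    · rintro ⟨x, hx, rfl⟩; exact ((hmemM x).1 hx).2
    · intro hy
      obtain ⟨x, hx, rfl⟩ := QuoA_mem.1 (hN hy)
      exact ⟨x, (hmemM x).2 ⟨hx, hy⟩, rfl⟩
  have hSat : Sat M U := by unfold Sat; rw [hcut]; exact hU
  have h1 := w_quo (h.mono hMΓ) hSat
  rw [hcut, hquo] at h1
  have h2 : 0 < w (cut Γ U) := w_pos (h.mono inf_le_left)
  rw [le_div_iff₀ h2, mul_comm, ← h1]
  exact hB M hMΓ

theorem th_half {Γ : AddSubgroup E} (h : Disc Γ) :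
    th Γ 0 (1 / 2) ≤ Real.sqrt 2 ^ rk Γ * th Γ 0 1 := by
  obtain ⟨c, hc⟩ := exists_poi h
  have h1 := hc.real one_pos
  have h2 := hc.real (s := 1 / 2) (by norm_num)
  rw [Real.sqrt_one, one_pow, mul_one, one_div_one] at h1
  rw [one_div_one_div] at h2
  have h3 : th (du Γ) 0 2 ≤ th (du Γ) 0 1 := th_anti hc.ddisc 0 one_pos (by norm_num)
  have h4 : th Γ 0 (1 / 2) * Real.sqrt (1 / 2) ^ rk Γ ≤ th Γ 0 1 := by
    rw [h1, h2]; exact mul_le_mul_of_nonneg_left h3 hc.pos.le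
  have h5 : Real.sqrt 2 ^ rk Γ * Real.sqrt (1 / 2) ^ rk Γ = 1 := by
    rw [← mul_pow, ← Real.sqrt_mul (by norm_num)]; norm_num
  calc th Γ 0 (1 / 2) = Real.sqrt 2 ^ rk Γ * (th Γ 0 (1 / 2) * Real.sqrt (1 / 2) ^ rk Γ) := by
        linear_combination (-th Γ 0 (1 / 2)) * h5
    _ ≤ _ := mul_le_mul_of_nonneg_left h4 (by positivity)

/-- the short vectors carry half of the Gaussian sum -/
theorem card_short {Γ : AddSubgroup E} (h : Disc Γ) {n : ℕ} (hn : 1 ≤ n) (hr : rk Γ ≤ n)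
    {ρ : ℝ} (hρ : 0 ≤ ρ) (hρ2 : ρ ^ 2 = 4 * n) {S : Finset E} (hS : ∀ x ∈ Γ, ‖x‖ ≤ ρ → x ∈ S) :
    th Γ 0 1 ≤ 2 * S.card := by
  classical
  have hs := th_summable h 0 one_pos
  have hs2 := th_summable h 0 (t := 1 / 2) (by norm_num)
  have hn1 : (1 : ℝ) ≤ n := by exact_mod_cast hn
  set S' : Finset Γ := S.subtype (· ∈ Γ) with hS'
  have hcard : (S'.card : ℝ) ≤ S.card := by
    rw [hS', Finset.card_subtype]; exact_mod_cast Finset.card_filter_le _ _
  have hind : Summable fun x : Γ => (if x ∈ S' then (1 : ℝ) else 0) :=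
    summable_of_ne_finset_zero (s := S') (fun b hb => if_neg hb)
  have hindt : ∑' x : Γ, (if x ∈ S' then (1 : ℝ) else 0) = S'.card := by
    rw [tsum_eq_sum (s := S') (fun b hb => if_neg hb)]
    rw [Finset.sum_ite_mem, Finset.inter_self, Finset.sum_const, nsmul_eq_mul, mul_one]
  have hpt : ∀ x : Γ, Real.exp (-1 * ‖(x : E) + 0‖ ^ 2) ≤
      (if x ∈ S' then (1 : ℝ) else 0) + Real.exp (-(2 * n)) * Real.exp (-(1 / 2) * ‖(x : E) + 0‖ ^ 2) := by
    intro x
    by_cases hx : x ∈ S'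
    · rw [if_pos hx]
      have h1 : Real.exp (-1 * ‖(x : E) + 0‖ ^ 2) ≤ 1 := by
        apply Real.exp_le_one_iff.2
        have : 0 ≤ ‖(x : E) + 0‖ ^ 2 := by positivity
        linarith
      have h2 : 0 ≤ Real.exp (-(2 * (n : ℝ))) * Real.exp (-(1 / 2) * ‖(x : E) + 0‖ ^ 2) := by positivity
      linarith
    · rw [if_neg hx, zero_add, ← Real.exp_add]
      apply Real.exp_le_exp.2
      have hlt : ρ < ‖(x : E)‖ := by
        by_contra hcon
        exact hx (by rw [hS', Finset.mem_subtype]; exact hS x x.2 (not_lt.1 hcon))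
      have h2 : ρ ^ 2 < ‖(x : E)‖ ^ 2 := by gcongr
      rw [add_zero]
      linarith
  have h1 := Summable.tsum_le_tsum hpt hs (hind.add (hs2.mul_left _))
  rw [hind.tsum_add (hs2.mul_left _), hindt, tsum_mul_left] at h1
  have h2 : th Γ 0 1 ≤ S'.card + Real.exp (-(2 * (n : ℝ))) * th Γ 0 (1 / 2) := h1
  have h3 := th_half h
  have hpos := th_pos h 0 one_pos
  have h4 : Real.exp (-(2 * (n : ℝ))) * Real.sqrt 2 ^ rk Γ ≤ 1 / 2 := by
    have h5 : Real.sqrt 2 ^ rk Γ ≤ Real.sqrt 2 ^ n :=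
      pow_le_pow_right₀ (by rw [Real.one_le_sqrt]; norm_num) hr
    have h6 : Real.exp (-(2 * (n : ℝ))) = (Real.exp (-2)) ^ n := by
      rw [← Real.exp_nat_mul]; congr 1; ring
    rw [h6]
    calc Real.exp (-2) ^ n * Real.sqrt 2 ^ rk Γ ≤ Real.exp (-2) ^ n * Real.sqrt 2 ^ n :=
          mul_le_mul_of_nonneg_left h5 (by positivity)
      _ = (Real.exp (-2) * Real.sqrt 2) ^ n := by rw [mul_pow]
      _ ≤ (1 / 2) ^ n := by
        apply pow_le_pow_left₀ (by positivity)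
        have h7 : Real.sqrt 2 ≤ 3 / 2 := by
          rw [Real.sqrt_le_left (by norm_num)]; norm_num
        have h8 : (3 : ℝ) ≤ Real.exp 2 := by
          have := Real.add_one_le_exp (2 : ℝ)
          linarith
        have h9 : Real.exp (-2) ≤ 1 / 3 := by
          rw [Real.exp_neg, inv_eq_one_div]
          exact one_div_le_one_div_of_le (by norm_num) h8
        calc Real.exp (-2) * Real.sqrt 2 ≤ 1 / 3 * (3 / 2) :=
              mul_le_mul h9 h7 (by positivity) (by norm_num)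
          _ = 1 / 2 := by norm_num
      _ ≤ (1 / 2) ^ 1 := pow_le_pow_of_le_one (by norm_num) (by norm_num) hn
      _ = 1 / 2 := by norm_num
  have h5 : Real.exp (-(2 * (n : ℝ))) * th Γ 0 (1 / 2) ≤ 1 / 2 * th Γ 0 1 := by
    calc Real.exp (-(2 * (n : ℝ))) * th Γ 0 (1 / 2) ≤
        Real.exp (-(2 * (n : ℝ))) * (Real.sqrt 2 ^ rk Γ * th Γ 0 1) :=
          mul_le_mul_of_nonneg_left h3 (by positivity)
      _ = Real.exp (-(2 * (n : ℝ))) * Real.sqrt 2 ^ rk Γ * th Γ 0 1 := by ring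
      _ ≤ _ := mul_le_mul_of_nonneg_right h4 hpos.le
  linarith

section image
variable {G : Type*} [AddCommGroup G]

/-- fibres of an additive map on the short vectors -/
theorem card_fibre {L : AddSubgroup E} {F : E → G} (hF : ∀ x ∈ L, ∀ y ∈ L, F (x + y) = F x + F y)
    {R : AddSubgroup E} (hR : Disc R) (hmR : ∀ x ∈ L, F x = 0 → x ∈ R) {ρ : ℝ} (hρ : 0 ≤ ρ)
    {S : Finset E} (hS : ∀ x ∈ S, x ∈ L ∧ ‖x‖ ≤ ρ) [DecidableEq G] :
    (S.card : ℝ) ≤ (S.image F).card * (Real.exp (ρ ^ 2) * th R 0 1) := by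
  classical
  have h1 : (S.card : ℝ) = ∑ g ∈ S.image F, ((S.filter (fun x => F x = g)).card : ℝ) := by
    rw [← Nat.cast_sum]
    congr 1
    exact Finset.card_eq_sum_card_image F S
  rw [h1, ← nsmul_eq_mul]
  apply Finset.sum_le_card_nsmul
  intro g hg
  obtain ⟨x0, hx0, rfl⟩ := Finset.mem_image.1 hg
  have hsub : ∀ x ∈ L, ∀ y ∈ L, F (x - y) = F x - F y := by
    intro x hx y hy
    have h2 := hF (x - y) (L.sub_mem hx hy) y hy
    rw [sub_add_cancel] at h2
    rw [h2, add_sub_cancel_right]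
  have h2 : ∑ x ∈ S.filter (fun x => F x = F x0), Real.exp (-1 * ‖x‖ ^ 2) ≤ th R x0 1 := by
    apply sum_le_th hR one_pos
    intro x hx
    obtain ⟨hxS, hxF⟩ := Finset.mem_filter.1 hx
    apply hmR _ (L.sub_mem (hS x hxS).1 (hS x0 hx0).1)
    rw [hsub x (hS x hxS).1 x0 (hS x0 hx0).1, hxF, sub_self]
  have h3 : ((S.filter (fun x => F x = F x0)).card : ℝ) * Real.exp (-(ρ ^ 2)) ≤
      ∑ x ∈ S.filter (fun x => F x = F x0), Real.exp (-1 * ‖x‖ ^ 2) := by
    rw [← nsmul_eq_mul]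
    apply Finset.card_nsmul_le_sum
    intro x hx
    have h4 := (hS x (Finset.mem_filter.1 hx).1).2
    apply Real.exp_le_exp.2
    have : ‖x‖ ^ 2 ≤ ρ ^ 2 := by gcongr
    linarith
  have h4 := (h3.trans h2).trans (th_shift_le hR x0 one_pos)
  calc ((S.filter (fun x => F x = F x0)).card : ℝ) =
      Real.exp (ρ ^ 2) * (((S.filter (fun x => F x = F x0)).card : ℝ) * Real.exp (-(ρ ^ 2))) := by
        rw [mul_comm ((S.filter (fun x => F x = F x0)).card : ℝ), ← mul_assoc, ← Real.exp_add]; simp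
    _ ≤ _ := mul_le_mul_of_nonneg_left h4 (Real.exp_pos _).le

end image

end T9h11.RM
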