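import Pool.Agent.T9h11.GP2

set_option autoImplicit false
set_option linter.unusedSectionVars false
set_option linter.unusedVariables false

/-! Homomorphic images of the short vectors of a lattice: the core. -/

namespace T9h11.RM

open H460 Pool.Agent.Y806.DF

variable {E : Type*} [NormedAddCommGroup E] [InnerProductSpace ℝ E] [FiniteDimensional ℝ E]
variable {G : Type*} [AddCommGroup G]

/-- the real linear combinations -/
noncomputable def lc {d : ℕ} (b : Fin d → E) : (Fin d → ℝ) →ₗ[ℝ] E :=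
  ∑ i, (LinearMap.proj i).smulRight (b i)

theorem lc_apply {d : ℕ} (b : Fin d → E) (c : Fin d → ℝ) : lc b c = ∑ i, c i • b i := by
  unfold lc
  rw [LinearMap.sum_apply]
  rfl

theorem lc_inj {d : ℕ} {b : Fin d → E} (hb : LinearIndependent ℝ b) :
    Function.Injective (lc b) := by
  rw [← LinearMap.ker_eq_bot, LinearMap.ker_eq_bot']
  intro c hc
  rw [lc_apply] at hc
  have := Fintype.linearIndependent_iff.1 hb c hc
  funext i; exact this i

/-- the ellipsoid -/
def ell {d : ℕ} (b : Fin d → E) (ρ : ℝ) : Set (Fin d → ℝ) := {c | ‖lc b c‖ ≤ ρ}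

theorem ell_sym {d : ℕ} {b : Fin d → E} (hb : LinearIndependent ℝ b) {ρ : ℝ} (hρ : 0 ≤ ρ) :
    Sym (ell b ρ) := by
  have he : ell b ρ = (lc b) ⁻¹' (Metric.closedBall 0 ρ) := by
    ext c
    show ‖lc b c‖ ≤ ρ ↔ lc b c ∈ Metric.closedBall 0 ρ
    rw [mem_closedBall_zero_iff]
  refine ⟨?_, ?_, ?_, ?_⟩
  · rw [he]
    exact (convex_closedBall (0 : E) ρ).linear_preimage (lc b)
  · rw [he]
    have h1 := LinearMap.isClosedEmbedding_of_injective (LinearMap.ker_eq_bot.2 (lc_inj hb))
    exact h1.isCompact_preimage (isCompact_closedBall 0 ρ)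
  · intro x hx
    show ‖lc b (-x)‖ ≤ ρ
    rw [map_neg, norm_neg]; exact hx
  · exact ⟨0, by show ‖lc b 0‖ ≤ ρ; rw [map_zero, norm_zero]; exact hρ⟩

theorem lc_int_mem {d : ℕ} {b : Fin d → E} {Γ : AddSubgroup E} (hb : ∀ i, b i ∈ Γ) (c : Fin d → ℤ) :
    lc b (re c) ∈ Γ := by
  rw [lc_apply]
  refine AddSubgroup.sum_mem _ fun i _ => ?_
  show ((c i : ℤ) : ℝ) • b i ∈ Γ
  rw [Int.cast_smul_eq_zsmul]
  exact AddSubgroup.zsmul_mem _ (hb i) _

theorem exists_int {d : ℕ} {b : Fin d → E} {Γ : AddSubgroup E}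
    (hcl : AddSubgroup.closure (Set.range b) = Γ) {x : E} (hx : x ∈ Γ) :
    ∃ c : Fin d → ℤ, lc b (re c) = x := by
  rw [← hcl] at hx
  refine AddSubgroup.closure_induction (p := fun x _ => ∃ c : Fin d → ℤ, lc b (re c) = x)
    ?_ ?_ ?_ ?_ hx
  · rintro _ ⟨i, rfl⟩
    refine ⟨Pi.single i 1, ?_⟩
    rw [lc_apply, Finset.sum_eq_single i]
    · simp [re]
    · intro j _ hj
      simp [re, Pi.single_eq_of_ne hj]
    · simp
  · exact ⟨0, by
      have : re (0 : Fin d → ℤ) = 0 := by funext i; simp [re]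
      rw [this, map_zero]⟩
  · rintro _ _ _ _ ⟨c, rfl⟩ ⟨c', rfl⟩
    exact ⟨c + c', by rw [re_add, map_add]⟩
  · rintro _ _ ⟨c, rfl⟩
    exact ⟨-c, by rw [re_neg, map_neg]⟩

theorem ell_card {d : ℕ} {b : Fin d → E} (hb : LinearIndependent ℝ b) {Γ : AddSubgroup E}
    (hΓ : Disc Γ) (hbΓ : ∀ i, b i ∈ Γ) {ρ : ℝ} (hρ : 0 ≤ ρ) :
    ((lat (ell b ρ)).ncard : ℝ) ≤ Real.exp (ρ ^ 2) * th Γ 0 1 := by
  classical
  have hfin : (lat (ell b ρ)).Finite := lat_finite (ell_sym hb hρ).comp.isBounded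
  rw [Set.ncard_eq_toFinset_card _ hfin]
  have hinj : Function.Injective (fun c : Fin d → ℤ => lc b (re c)) := by
    intro c c' hcc
    have h1 := lc_inj hb hcc
    funext i
    have h2 := congrFun h1 i
    have h3 : ((c i : ℤ) : ℝ) = ((c' i : ℤ) : ℝ) := h2
    exact_mod_cast h3
  have h1 := card_le_th hΓ one_pos (ρ := ρ ^ 2)
    (S := hfin.toFinset.image (fun c : Fin d → ℤ => lc b (re c))) (by
      intro x hx
      obtain ⟨c, hc, rfl⟩ := Finset.mem_image.1 hx
      rw [Set.Finite.mem_toFinset] at hc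
      have hc' : ‖lc b (re c)‖ ≤ ρ := hc
      refine ⟨lc_int_mem hbΓ c, ?_⟩
      gcongr)
  rw [Finset.card_image_of_injective _ hinj, one_mul] at h1
  exact h1

/-- additive maps on a lattice: linear combinations -/
theorem add_zsmul_sum {L : AddSubgroup E} {F : E → G} (hF : ∀ x ∈ L, ∀ y ∈ L, F (x + y) = F x + F y)
    {d : ℕ} {l : Fin d → E} (hl : ∀ i, l i ∈ L) (c : Fin d → ℤ) :
    F (lc l (re c)) = ∑ i, c i • F (l i) := by
  let f : L →+ G :=
    { toFun := fun x => F x
      map_zero' := by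
        have := hF 0 L.zero_mem 0 L.zero_mem
        rw [add_zero] at this
        simpa using this
      map_add' := fun x y => hF x x.2 y y.2 }
  have h1 : lc l (re c) = ((∑ i, c i • (⟨l i, hl i⟩ : L) : L) : E) := by
    rw [lc_apply, AddSubgroup.val_finsetSum]
    refine Finset.sum_congr rfl fun i _ => ?_
    show ((c i : ℤ) : ℝ) • l i = c i • l i
    rw [Int.cast_smul_eq_zsmul]
  rw [h1]
  show f _ = _
  rw [map_sum]
  refine Finset.sum_congr rfl fun i _ => ?_
  rw [map_zsmul]
  rfl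

theorem image_core {L : AddSubgroup E} (h : Disc L) {F : E → G}
    (hF : ∀ x ∈ L, ∀ y ∈ L, F (x + y) = F x + F y) {n : ℕ} (hn : 1 ≤ n) (hr : rk L ≤ n) {D : ℝ}
    (hD : th (du L) 0 1 ≤ D) {ρ : ℝ} (hρ : 0 ≤ ρ) (hρ2 : ρ ^ 2 = 4 * n) [DecidableEq G]
    {S : Finset E} (hS : ∀ x, x ∈ S ↔ x ∈ L ∧ ‖x‖ ≤ ρ) :
    ∃ (d : ℕ) (b : Fin d → E) (ψ : (Fin d → ℤ) →+ G) (H : AddSubgroup G), d ≤ n ∧
      LinearIndependent ℝ b ∧ Finite H ∧
      (∀ x ∈ L, ‖x‖ ≤ 2 * ρ → ∃ c ∈ lat (ell b (2 * ρ)), ∃ h ∈ H, F x = ψ c + h) ∧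
      (((lat (ell b (2 * ρ))).ncard * Nat.card H : ℕ) : ℝ) ≤
        4 * Real.exp (340 * n) * D * (S.image F).card := by
  have hF0 : F 0 = 0 := by
    have := hF 0 L.zero_mem 0 L.zero_mem
    rw [add_zero] at this
    simpa using this
  have hFneg : ∀ x ∈ L, F (-x) = - F x := by
    intro x hx
    have h1 := hF x hx (-x) (L.neg_mem hx)
    rw [add_neg_cancel, hF0] at h1
    exact (neg_eq_of_add_eq_zero_right h1.symm).symm
  -- the kernel
  let R : AddSubgroup E :=
    { carrier := {x | x ∈ L ∧ F x = 0}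
      zero_mem' := ⟨L.zero_mem, hF0⟩
      add_mem' := by
        rintro a b ⟨ha, ha'⟩ ⟨hb, hb'⟩
        exact ⟨L.add_mem ha hb, by rw [hF a ha b hb, ha', hb', add_zero]⟩
      neg_mem' := by
        rintro a ⟨ha, ha'⟩
        exact ⟨L.neg_mem ha, by rw [hFneg a ha, ha', neg_zero]⟩ }
  have hmR : ∀ x, x ∈ R ↔ x ∈ L ∧ F x = 0 := fun x => Iff.rfl
  have hRL : R ≤ L := fun x hx => hx.1
  have hdR : Disc R := h.mono hRL
  obtain ⟨U, hU, hmax⟩ := near_max hdR
  set R0 := cut R U with hR0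
  set L0 := cut L U with hL0
  set L1 := quo L U with hL1
  have hdR0 : Disc R0 := hdR.mono inf_le_left
  have hR0L0 : R0 ≤ L0 := fun x hx => ⟨hx.1.1, hx.2⟩
  have hdL0 : Disc L0 := h.mono inf_le_left
  have hSat : Sat L U := by
    apply le_antisymm
    · rw [Submodule.span_le]
      intro x hx
      exact hx.2
    · have h1 : Submodule.span ℝ (R0 : Set E) = U := hU
      conv_lhs => rw [← h1]
      exact Submodule.span_mono hR0L0
  have hdL1 : Disc L1 := disc_quo h hSat
  have hrk : rk L = rk L0 + rk L1 := rk_quo h hSat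
  have hw : w L = w L0 * w L1 := w_quo h hSat
  have hrk0 : rk R0 = rk L0 := by
    have h1 : Submodule.span ℝ (R0 : Set E) = U := hU
    have h2 : Submodule.span ℝ (L0 : Set E) = U := hSat
    unfold rk
    rw [h1, h2]
  have hidx := w_index hdL0 hR0L0 hrk0
  have hidx0 := relIndex_ne_zero hdL0 hR0L0 hrk0
  have hwR0 := w_pos hdR0
  have hwL0 := w_pos hdL0
  have hwL1 := w_pos hdL1
  have hwL := w_pos h
  -- the finite subgroup
  let f : L0 →+ G :=
    { toFun := fun x => F x
      map_zero' := hF0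
      map_add' := fun x y => hF x x.2.1 y y.2.1 }
  set H : AddSubgroup G := f.range with hH
  have hker : f.ker = R0.addSubgroupOf L0 := by
    ext x
    rw [AddMonoidHom.mem_ker, AddSubgroup.mem_addSubgroupOf]
    constructor
    · intro hx
      exact ⟨⟨x.2.1, hx⟩, x.2.2⟩
    · intro hx
      exact hx.1.2
  have hcardH : Nat.card H = R0.relIndex L0 := by
    rw [AddSubgroup.relIndex, ← hker, AddSubgroup.index_ker]
  have hHfin : Finite H := Nat.finite_of_card_ne_zero (by rw [hcardH]; exact hidx0)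
  have hHw : (Nat.card H : ℝ) = w L0 / w R0 := by
    rw [hcardH, eq_div_iff hwR0.ne', ← hidx]
  -- the basis of the quotient
  obtain ⟨b, hb, hcl⟩ := hdL1.exists_basis
  have hbL1 : ∀ i, b i ∈ L1 := fun i => hcl ▸ AddSubgroup.subset_closure ⟨i, rfl⟩
  have hlift : ∀ i, ∃ x ∈ L, QuoA_p U x = b i := fun i => QuoA_mem.1 (hbL1 i)
  choose l hl hlb using hlift
  let ψ : (Fin (rk L1) → ℤ) →+ G :=
    { toFun := fun c => ∑ i, c i • F (l i)
      map_zero' := by simp
      map_add' := by
        intro c c'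
        rw [← Finset.sum_add_distrib]
        exact Finset.sum_congr rfl fun i _ => by rw [Pi.add_apply, add_smul] }
  have hρ' : 0 ≤ 2 * ρ := by positivity
  refine ⟨rk L1, b, ψ, H, by omega, hb, hHfin, ?_, ?_⟩
  · intro x hx hxρ
    obtain ⟨c, hc⟩ := exists_int hcl (QuoA_mem.2 ⟨x, hx, rfl⟩ : QuoA_p U x ∈ L1)
    have hlL : lc l (re c) ∈ L := lc_int_mem hl c
    have hp : QuoA_p U (lc l (re c)) = lc b (re c) := by
      rw [lc_apply, lc_apply, map_sum]
      refine Finset.sum_congr rfl fun i _ => ?_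
      rw [map_smul, hlb]
    have hx0 : x - lc l (re c) ∈ L0 := by
      refine QuoA_mem_cut.2 ⟨L.sub_mem hx hlL, ?_⟩
      rw [← QuoA_p_eq_zero, map_sub, hp, hc, sub_self]
    refine ⟨c, ?_, F (x - lc l (re c)), ⟨⟨_, hx0⟩, rfl⟩, ?_⟩
    · show ‖lc b (re c)‖ ≤ 2 * ρ
      rw [hc]
      refine le_trans ?_ hxρ
      have : QuoA_p U x = (Uᗮ).starProjection x := rfl
      rw [this]
      exact Submodule.norm_starProjection_apply_le _ _
    · have h1 := hF (lc l (re c)) hlL (x - lc l (re c)) (L.sub_mem hx hlL)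
      rw [add_sub_cancel] at h1
      rw [h1, add_zsmul_sum hF hl c]
      rfl
  · -- the volume
    have hcard := ell_card hb hdL1 hbL1 hρ'
    obtain ⟨c1, hc1⟩ := exists_poi hdL1
    have e1 := hc1.real one_pos
    rw [Real.sqrt_one, one_pow, mul_one, one_div_one, hc1.eq_w] at e1
    have hduL : du L1 ≤ du L := by
      intro y hy
      have hyU : ∀ u ∈ U, inner ℝ u y = 0 := by
        intro u hu
        have hsp : Submodule.span ℝ (L1 : Set E) ≤ Uᗮ := by
          rw [Submodule.span_le]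
          intro z hz
          obtain ⟨x, _, rfl⟩ := QuoA_mem.1 hz
          exact QuoA_p_mem U x
        exact (Submodule.mem_orthogonal _ _).1 (hsp hy.1) u hu
      refine ⟨?_, ?_⟩
      · have hsp : Submodule.span ℝ (L1 : Set E) ≤ Submodule.span ℝ (L : Set E) := by
          rw [Submodule.span_le]
          intro z hz
          obtain ⟨x, hx, rfl⟩ := QuoA_mem.1 hz
          have h1 : QuoA_p U x = x - (x - QuoA_p U x) := by abel
          have h2 : x - QuoA_p U x ∈ Submodule.span ℝ (L : Set E) := by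
            have h3 : U ≤ Submodule.span ℝ (L : Set E) := by
              have h4 : Submodule.span ℝ (L0 : Set E) = U := hSat
              rw [← h4]
              exact Submodule.span_mono (fun x hx => hx.1)
            exact h3 (QuoA_sub_mem U x)
          rw [SetLike.mem_coe, h1]
          exact Submodule.sub_mem _ (Submodule.subset_span hx) h2
        exact hsp hy.1
      · intro x hx
        obtain ⟨z, hz⟩ := hy.2 (QuoA_p U x) (QuoA_mem.2 ⟨x, hx, rfl⟩)
        refine ⟨z, ?_⟩
        rw [← hz]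
        have h5 := hyU _ (QuoA_sub_mem U x)
        rw [inner_sub_left, sub_eq_zero] at h5
        exact h5
    obtain ⟨cL, hcL⟩ := exists_poi h
    have h2 : th (du L1) 0 1 ≤ D := (th_mono hcL.ddisc hduL 0 one_pos).trans hD
    have hD0 : 0 ≤ D := (th_pos hc1.ddisc 0 one_pos).le.trans h2
    -- lower bound for the image
    have h3 := rm hdR hmax
    have hrkR : (rk R : ℝ) ≤ n := by exact_mod_cast (rk_mono hRL).trans hr
    have h4 : th R 0 1 ≤ Real.exp (260 * n) * (2 * w R0) := by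
      refine h3.trans (mul_le_mul_of_nonneg_right ?_ (by positivity))
      exact Real.exp_le_exp.2 (by linarith)
    have h5 := card_short h hn hr hρ hρ2 (S := S) (fun x hx hxρ => (hS x).2 ⟨hx, hxρ⟩)
    have h6 := card_fibre hF hdR (fun x hx hx0 => ⟨hx, hx0⟩) hρ (S := S) (fun x hx => (hS x).1 hx)
    have h7 : w L ≤ th L 0 1 := by
      have := w_le h 0
      simpa using this
    have hI : (0 : ℝ) ≤ (S.image F).card := Nat.cast_nonneg _
    have h8 : w L ≤ 4 * Real.exp (264 * n) * w R0 * (S.image F).card := by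
      calc w L ≤ 2 * S.card := h7.trans h5
        _ ≤ 2 * ((S.image F).card * (Real.exp (ρ ^ 2) * th R 0 1)) := by linarith
        _ ≤ 2 * ((S.image F).card * (Real.exp (ρ ^ 2) * (Real.exp (260 * n) * (2 * w R0)))) :=
          mul_le_mul_of_nonneg_left (mul_le_mul_of_nonneg_left
            (mul_le_mul_of_nonneg_left h4 (Real.exp_pos _).le) hI) (by norm_num)
        _ = 4 * (Real.exp (ρ ^ 2) * Real.exp (260 * n)) * w R0 * (S.image F).card := by ring
        _ = 4 * Real.exp (264 * n) * w R0 * (S.image F).card := by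
          rw [← Real.exp_add, hρ2]
          congr 4
          ring
    push_cast
    have hw' : w L = w L0 * w L1 := hw
    calc ((lat (ell b (2 * ρ))).ncard : ℝ) * Nat.card H ≤
        (Real.exp ((2 * ρ) ^ 2) * (w L1 * D)) * (w L0 / w R0) := by
          rw [hHw]
          apply mul_le_mul_of_nonneg_right _ (by positivity)
          refine hcard.trans (mul_le_mul_of_nonneg_left ?_ (Real.exp_pos _).le)
          rw [e1]
          exact mul_le_mul_of_nonneg_left h2 hwL1.le
      _ = Real.exp ((2 * ρ) ^ 2) * D * (w L / w R0) := by rw [hw']; ring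
      _ ≤ Real.exp ((2 * ρ) ^ 2) * D * (4 * Real.exp (264 * n) * (S.image F).card) := by
          apply mul_le_mul_of_nonneg_left _ (by positivity)
          rw [div_le_iff₀ hwR0]
          linarith
      _ = 4 * (Real.exp ((2 * ρ) ^ 2) * Real.exp (264 * n)) * D * (S.image F).card := by ring
      _ ≤ 4 * Real.exp (340 * n) * D * (S.image F).card := by
          rw [← Real.exp_add]
          have h9 : (0 : ℝ) ≤ n := Nat.cast_nonneg _
          have h10 : Real.exp ((2 * ρ) ^ 2 + 264 * n) ≤ Real.exp (340 * n) := by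
            apply Real.exp_le_exp.2
            rw [mul_pow, hρ2]
            linarith
          exact mul_le_mul_of_nonneg_right (mul_le_mul_of_nonneg_right
            (mul_le_mul_of_nonneg_left h10 (by norm_num)) hD0) hI

end T9h11.RM
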