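import Pool.Agent.T9h11.GP3

set_option autoImplicit false
set_option linter.unusedSectionVars false
set_option linter.unusedVariables false

/-! Homomorphic images of the short vectors of a lattice. -/

namespace T9h11.RM

open H460 Pool.Agent.Y806.DF

variable {E : Type*} [NormedAddCommGroup E] [InnerProductSpace ℝ E] [FiniteDimensional ℝ E]
variable {G : Type*} [AddCommGroup G]

theorem p_norm (U : Submodule ℝ E) (x : E) : ‖QuoA_p U x‖ ≤ ‖x‖ := by
  have : QuoA_p U x = (Uᗮ).starProjection x := rfl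
  rw [this]
  exact Submodule.norm_starProjection_apply_le _ _

theorem ell_image {L : AddSubgroup E} (h : Disc L) {F : E → G}
    (hF : ∀ x ∈ L, ∀ y ∈ L, F (x + y) = F x + F y) {n : ℕ} (hn : 1 ≤ n) (hr : rk L ≤ n)
    {ρ : ℝ} (hρ : 0 ≤ ρ) (hρ2 : ρ ^ 2 = 4 * n) [DecidableEq G]
    {S : Finset E} (hS : ∀ x, x ∈ S ↔ x ∈ L ∧ ‖x‖ ≤ ρ) :
    ∃ (d : ℕ) (b : Fin d → E) (ψ : (Fin d → ℤ) →+ G) (H : AddSubgroup G) (T : Finset G), d ≤ n ∧
      LinearIndependent ℝ b ∧ Finite H ∧ (T.card : ℝ) ≤ 2 * Real.exp (264 * n) ∧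
      (∀ x ∈ S, ∃ t ∈ T, ∃ c ∈ lat (ell b (2 * ρ)), ∃ h ∈ H, F x = t + (ψ c + h)) ∧
      (((lat (ell b (2 * ρ))).ncard * Nat.card H : ℕ) : ℝ) ≤
        8 * Real.exp (600 * n) * (S.image F).card := by
  classical
  obtain ⟨U, hU, hmax⟩ := near_max h
  set L' := cut L U with hL'
  have hL'L : L' ≤ L := inf_le_left
  have hd' : Disc L' := h.mono hL'L
  have hw' : 0 < w L' := w_pos hd'
  obtain ⟨c', hc'⟩ := exists_poi hd'
  have hn0 : (0 : ℝ) ≤ n := Nat.cast_nonneg _
  -- the dual of `L'`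
  have hdu : th (du L') 0 1 ≤ 2 * Real.exp (260 * n) := by
    have h1 := rm hc'.ddisc (B := 2) (by
      intro N hN
      have h2 := w_sub_du hd' (B := 2 * w L') (fun M hM => hmax M (hM.trans hL'L)) hN
      rwa [mul_div_assoc, div_self hw'.ne', mul_one] at h2)
    rw [hc'.rk_du] at h1
    have h3 : (rk L' : ℝ) ≤ n := by exact_mod_cast (rk_mono hL'L).trans hr
    calc th (du L') 0 1 ≤ Real.exp (260 * rk L') * 2 := h1
      _ = 2 * Real.exp (260 * rk L') := by ring
      _ ≤ 2 * Real.exp (260 * n) := by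
        apply mul_le_mul_of_nonneg_left _ (by norm_num)
        exact Real.exp_le_exp.2 (by linarith)
  -- the quotient
  have hdQ := disc_quo h hU
  have hQ : th (quo L U) 0 1 ≤ 2 * Real.exp (260 * n) := by
    have h1 := rm hdQ (B := 2) (by
      intro N hN
      have h2 := w_sub_quo h hU (B := 2 * w L') hmax hN
      rwa [← hL', mul_div_assoc, div_self hw'.ne', mul_one] at h2)
    have h3 : (rk (quo L U) : ℝ) ≤ n := by
      have := rk_quo h hU
      exact_mod_cast (by omega : rk (quo L U) ≤ n)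
    calc th (quo L U) 0 1 ≤ Real.exp (260 * rk (quo L U)) * 2 := h1
      _ = 2 * Real.exp (260 * rk (quo L U)) := by ring
      _ ≤ 2 * Real.exp (260 * n) := by
        apply mul_le_mul_of_nonneg_left _ (by norm_num)
        exact Real.exp_le_exp.2 (by linarith)
  obtain ⟨d, b, ψ, H, hd, hb, hH, hcov, hvol⟩ := image_core hd' (F := F)
    (fun x hx y hy => hF x (hL'L hx) y (hL'L hy)) hn ((rk_mono hL'L).trans hr) hdu hρ hρ2
    (S := S.filter (fun x => x ∈ L')) (by
      intro x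
      rw [Finset.mem_filter, hS]
      constructor
      · rintro ⟨⟨_, h1⟩, h2⟩; exact ⟨h2, h1⟩
      · rintro ⟨h1, h2⟩; exact ⟨⟨hL'L h1, h2⟩, h1⟩)
  -- representatives
  have hrep : ∀ y ∈ S.image (QuoA_p U), ∃ x ∈ S, QuoA_p U x = y := fun y hy => Finset.mem_image.1 hy
  choose! r hrS hrp using hrep
  refine ⟨d, b, ψ, H, (S.image (QuoA_p U)).image (fun y => F (r y)), hd, hb, hH, ?_, ?_, ?_⟩
  · have h1 : ((S.image (QuoA_p U)).card : ℝ) ≤ Real.exp (1 * (4 * n)) * th (quo L U) 0 1 := by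
      apply card_le_th hdQ one_pos
      intro y hy
      obtain ⟨x, hx, rfl⟩ := Finset.mem_image.1 hy
      obtain ⟨hxL, hxρ⟩ := (hS x).1 hx
      refine ⟨QuoA_mem.2 ⟨x, hxL, rfl⟩, ?_⟩
      rw [← hρ2]
      have := (p_norm U x).trans hxρ
      gcongr
    calc (((S.image (QuoA_p U)).image (fun y => F (r y))).card : ℝ) ≤ (S.image (QuoA_p U)).card := by
          exact_mod_cast Finset.card_image_le
      _ ≤ Real.exp (1 * (4 * n)) * th (quo L U) 0 1 := h1
      _ ≤ Real.exp (1 * (4 * n)) * (2 * Real.exp (260 * n)) :=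
          mul_le_mul_of_nonneg_left hQ (Real.exp_pos _).le
      _ = 2 * (Real.exp (1 * (4 * n)) * Real.exp (260 * n)) := by ring
      _ = 2 * Real.exp (264 * n) := by
          rw [← Real.exp_add]; congr 2; ring
  · intro x hx
    have hy : QuoA_p U x ∈ S.image (QuoA_p U) := Finset.mem_image_of_mem _ hx
    obtain ⟨hxL, hxρ⟩ := (hS x).1 hx
    obtain ⟨hrL, hrρ⟩ := (hS _).1 (hrS _ hy)
    have h1 : x - r (QuoA_p U x) ∈ L' := by
      refine QuoA_mem_cut.2 ⟨L.sub_mem hxL hrL, ?_⟩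
      rw [← QuoA_p_eq_zero, map_sub, hrp _ hy, sub_self]
    have h2 : ‖x - r (QuoA_p U x)‖ ≤ 2 * ρ := by
      calc _ ≤ ‖x‖ + ‖r (QuoA_p U x)‖ := norm_sub_le _ _
        _ ≤ ρ + ρ := add_le_add hxρ hrρ
        _ = 2 * ρ := by ring
    obtain ⟨c, hc, h', hh', he⟩ := hcov _ h1 h2
    refine ⟨F (r (QuoA_p U x)), Finset.mem_image_of_mem _ hy, c, hc, h', hh', ?_⟩
    rw [← he, ← hF _ hrL _ (L.sub_mem hxL hrL), add_sub_cancel]
  · refine hvol.trans ?_
    have h1 : (((S.filter (fun x => x ∈ L')).image F).card : ℝ) ≤ (S.image F).card := by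
      exact_mod_cast Finset.card_le_card (Finset.image_subset_image (Finset.filter_subset _ _))
    calc 4 * Real.exp (340 * n) * (2 * Real.exp (260 * n)) *
          ((S.filter (fun x => x ∈ L')).image F).card
        = 8 * (Real.exp (340 * n) * Real.exp (260 * n)) *
          ((S.filter (fun x => x ∈ L')).image F).card := by ring
      _ = 8 * Real.exp (600 * n) * ((S.filter (fun x => x ∈ L')).image F).card := by
          rw [← Real.exp_add]; congr 3; ring
      _ ≤ _ := mul_le_mul_of_nonneg_left h1 (by positivity)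

end T9h11.RM
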