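import Pool.Agent.T9h11.GP4

set_option autoImplicit false
set_option linter.unusedSectionVars false
set_option linter.unusedVariables false

/-! Coset progressions which need not be proper. -/

namespace T9h11.RM

open H460 Pool.Agent.Y806.DF

variable {E : Type*} [NormedAddCommGroup E] [InnerProductSpace ℝ E] [FiniteDimensional ℝ E]
variable {Γ : Type*} [AddCommGroup Γ]

theorem comap_card (H₀ : AddSubgroup Γ) (H : AddSubgroup (Γ ⧸ H₀)) :
    Nat.card (H.comap (QuotientAddGroup.mk' H₀)) = Nat.card H * Nat.card H₀ := by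
  classical
  obtain ⟨s, hs⟩ : ∃ s : Γ ⧸ H₀ → Γ, ∀ y, QuotientAddGroup.mk' H₀ (s y) = y :=
    ⟨fun y => (QuotientAddGroup.mk'_surjective H₀ y).choose,
      fun y => (QuotientAddGroup.mk'_surjective H₀ y).choose_spec⟩
  have hmem : ∀ x : Γ, x - s (QuotientAddGroup.mk' H₀ x) ∈ H₀ := by
    intro x
    have h1 : x - s (QuotientAddGroup.mk' H₀ x) ∈ (QuotientAddGroup.mk' H₀).ker := by
      rw [AddMonoidHom.mem_ker, map_sub, hs, sub_self]
    rwa [QuotientAddGroup.ker_mk'] at h1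
  have h0 : ∀ x ∈ H₀, QuotientAddGroup.mk' H₀ x = 0 := by
    intro x hx
    rw [← AddMonoidHom.mem_ker, QuotientAddGroup.ker_mk']; exact hx
  let e : H.comap (QuotientAddGroup.mk' H₀) ≃ H × H₀ :=
    { toFun := fun x => (⟨QuotientAddGroup.mk' H₀ x, x.2⟩, ⟨_, hmem x⟩)
      invFun := fun p => ⟨s p.1 + p.2, by
        rw [AddSubgroup.mem_comap, map_add, hs, h0 _ p.2.2, add_zero]; exact p.1.2⟩
      left_inv := by
        intro x
        apply Subtype.ext
        simp
      right_inv := by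
        rintro ⟨⟨y, hy⟩, ⟨x, hx⟩⟩
        have h1 : QuotientAddGroup.mk' H₀ (s y + x) = y := by
          rw [map_add, hs, h0 _ hx, add_zero]
        refine Prod.ext (Subtype.ext h1) (Subtype.ext ?_)
        show s y + x - s (QuotientAddGroup.mk' H₀ (s y + x)) = x
        rw [h1]; abel }
  rw [Nat.card_congr e, Nat.card_prod]

theorem lift_hom (H₀ : AddSubgroup Γ) {d : ℕ} (ψ : (Fin d → ℤ) →+ Γ ⧸ H₀) :
    ∃ ψ' : (Fin d → ℤ) →+ Γ, ∀ c, QuotientAddGroup.mk' H₀ (ψ' c) = ψ c := by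
  classical
  have hg : ∀ i, ∃ g : Γ, QuotientAddGroup.mk' H₀ g = ψ (Pi.single i 1) := fun i =>
    QuotientAddGroup.mk'_surjective H₀ _
  choose g hg using hg
  refine ⟨{ toFun := fun c => ∑ i, c i • g i
            map_zero' := by simp
            map_add' := by
              intro c c'
              rw [← Finset.sum_add_distrib]
              exact Finset.sum_congr rfl fun i _ => by rw [Pi.add_apply, add_smul] }, ?_⟩
  intro c
  show QuotientAddGroup.mk' H₀ (∑ i, c i • g i) = ψ c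
  rw [map_sum]
  have h1 : c = ∑ i, c i • (Pi.single i (1 : ℤ) : Fin d → ℤ) := by
    funext j
    rw [Finset.sum_apply, Finset.sum_eq_single j]
    · simp
    · intro i _ hij
      rw [Pi.smul_apply, Pi.single_eq_of_ne (Ne.symm hij), smul_zero]
    · simp
  conv_rhs => rw [h1]
  rw [map_sum]
  refine Finset.sum_congr rfl fun i _ => ?_
  rw [map_zsmul, map_zsmul, hg]

theorem ell_group {L : AddSubgroup E} (h : Disc L) {F : E → Γ}
    (hF : ∀ x ∈ L, ∀ y ∈ L, F (x + y) = F x + F y) {n : ℕ} (hn : 1 ≤ n) (hr : rk L ≤ n)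
    {ρ : ℝ} (hρ : 0 ≤ ρ) (hρ2 : ρ ^ 2 = 4 * n) (H₀ : AddSubgroup Γ) (hH₀ : Finite H₀)
    {P : Set Γ} (hP : P = {g | ∃ x ∈ L, ‖x‖ ≤ ρ ∧ ∃ h ∈ H₀, g = F x + h}) {a : ℕ} (ha : 1 ≤ a)
    {κ : ℝ} (hκ : 1 ≤ κ) (hPa : (P.ncard : ℝ) ≤ κ * a) :
    P.Finite ∧
    ∃ (d : ℕ) (B : Set (Fin d → ℝ)) (ψ : (Fin d → ℤ) →+ Γ) (H : AddSubgroup Γ) (T : Finset Γ),
      d ≤ n ∧ Body B ∧ Finite H ∧ (lat B).ncard * Nat.card H ≤ a ∧
      (T.card : ℝ) ≤ Real.exp (876 * n) * κ ∧
      ∀ g ∈ P, ∃ t ∈ T, ∃ w ∈ lat B, ∃ h ∈ H, g = t + ψ w + h := by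
  classical
  set q := QuotientAddGroup.mk' H₀ with hq
  have hq0 : ∀ x ∈ H₀, q x = 0 := by
    intro x hx
    rw [← AddMonoidHom.mem_ker, hq, QuotientAddGroup.ker_mk']; exact hx
  set S : Finset E := (h ρ).toFinset with hSdef
  have hS : ∀ x, x ∈ S ↔ x ∈ L ∧ ‖x‖ ≤ ρ := by
    intro x; rw [hSdef, Set.Finite.mem_toFinset]; rfl
  obtain ⟨d, b, ψ₀, H, T, hd, hb, hH, hT, hcov, hvol⟩ := ell_image h (F := fun x => q (F x))
    (fun x hx y hy => by
      show q (F (x + y)) = q (F x) + q (F y)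
      rw [hF x hx y hy, map_add]) hn hr hρ hρ2 hS
  obtain ⟨ψ, hψ⟩ := lift_hom H₀ ψ₀
  set K := H.comap q with hK
  have hKcard : Nat.card K = Nat.card H * Nat.card H₀ := comap_card H₀ H
  have hKfin : Finite K := Nat.finite_of_card_ne_zero (by
    rw [hKcard]; exact (Nat.mul_pos Nat.card_pos Nat.card_pos).ne')
  have hsym := ell_sym hb (ρ := 2 * ρ) (by positivity)
  -- the size of `P`
  have hHf : Fintype H₀ := Fintype.ofFinite H₀
  set PF : Finset Γ := (S ×ˢ (Finset.univ : Finset H₀)).image (fun p => F p.1 + (p.2 : Γ)) with hPF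
  have hPPF : P = (PF : Set Γ) := by
    ext g
    rw [hP, hPF, Finset.mem_coe, Finset.mem_image]
    constructor
    · rintro ⟨x, hx, hxρ, k, hk, rfl⟩
      exact ⟨(x, ⟨k, hk⟩), Finset.mem_product.2 ⟨(hS x).2 ⟨hx, hxρ⟩, Finset.mem_univ _⟩, rfl⟩
    · rintro ⟨⟨x, k⟩, hp, rfl⟩
      obtain ⟨hx, hxρ⟩ := (hS x).1 (Finset.mem_product.1 hp).1
      exact ⟨x, hx, hxρ, k, k.2, rfl⟩
  have hPcard : P.ncard = PF.card := by rw [hPPF, Set.ncard_coe_finset]
  have hsize : (S.image (fun x => q (F x))).card * Nat.card H₀ ≤ P.ncard := by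
    rw [hPcard]
    have hrep : ∀ y ∈ S.image (fun x => q (F x)), ∃ x ∈ S, q (F x) = y := fun y hy =>
      Finset.mem_image.1 hy
    choose! r hrS hrq using hrep
    have h1 : ((S.image (fun x => q (F x))) ×ˢ (Finset.univ : Finset H₀)).card ≤ PF.card := by
      refine Finset.card_le_card_of_injOn (fun p => F (r p.1) + (p.2 : Γ)) ?_ ?_
      · rintro ⟨y, k⟩ hp
        rw [Finset.mem_coe, Finset.mem_product] at hp
        rw [Finset.mem_coe, hPF, Finset.mem_image]
        exact ⟨(r y, k), Finset.mem_product.2 ⟨hrS y hp.1, Finset.mem_univ _⟩, rfl⟩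
      · rintro ⟨y, k⟩ hp ⟨y', k'⟩ hp' heq
        rw [Finset.mem_coe, Finset.mem_product] at hp hp'
        have heq' : F (r y) + (k : Γ) = F (r y') + (k' : Γ) := heq
        have h2 := congrArg q heq'
        rw [map_add, map_add, hq0 _ k.2, hq0 _ k'.2, add_zero, add_zero, hrq y hp.1,
          hrq y' hp'.1] at h2
        subst h2
        have h3 := add_left_cancel heq'
        rw [Subtype.ext h3]
    rw [Finset.card_product, Finset.card_univ, ← Nat.card_eq_fintype_card] at h1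
    exact h1
  obtain ⟨d', B', ψ', H', T', hd', hB', hH', hvol', hT', hcov'⟩ := shrink hsym ψ K hKfin ha
  -- lifts of the translates
  obtain ⟨s, hs⟩ : ∃ s : Γ ⧸ H₀ → Γ, ∀ y, q (s y) = y :=
    ⟨fun y => (QuotientAddGroup.mk'_surjective H₀ y).choose,
      fun y => (QuotientAddGroup.mk'_surjective H₀ y).choose_spec⟩
  refine ⟨by rw [hPPF]; exact PF.finite_toSet, d', B', ψ', H',
    ((T.image s) ×ˢ T').image (fun p => p.1 + p.2), ?_, hB', hH', hvol', ?_, ?_⟩
  · exact hd'.trans (max_le hd hn)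
  · have ha0 : (0 : ℝ) < a := by exact_mod_cast ha
    have h1 : ((((T.image s) ×ˢ T').image (fun p => p.1 + p.2)).card : ℝ) ≤ T.card * T'.card := by
      have h2 : (((T.image s) ×ˢ T').image (fun p => p.1 + p.2)).card ≤ T.card * T'.card := by
        refine Finset.card_image_le.trans ?_
        rw [Finset.card_product]
        exact Nat.mul_le_mul_right _ Finset.card_image_le
      exact_mod_cast h2
    have h3 : ((((lat (ell b (2 * ρ))).ncard * Nat.card K : ℕ) : ℝ) / (a : ℝ)) ≤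
        8 * Real.exp (600 * n) * κ := by
      rw [div_le_iff₀ ha0, hKcard]
      have h4 : (((S.image (fun x => q (F x))).card * Nat.card H₀ : ℕ) : ℝ) ≤ κ * a := by
        refine le_trans ?_ hPa
        exact_mod_cast hsize
      push_cast at h4 hvol ⊢
      calc ((lat (ell b (2 * ρ))).ncard : ℝ) * (Nat.card H * Nat.card H₀) =
          ((lat (ell b (2 * ρ))).ncard * Nat.card H) * Nat.card H₀ := by ring
        _ ≤ (8 * Real.exp (600 * n) * (S.image (fun x => q (F x))).card) * Nat.card H₀ :=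
          mul_le_mul_of_nonneg_right hvol (Nat.cast_nonneg _)
        _ = 8 * Real.exp (600 * n) * ((S.image (fun x => q (F x))).card * Nat.card H₀) := by ring
        _ ≤ 8 * Real.exp (600 * n) * (κ * a) := mul_le_mul_of_nonneg_left h4 (by positivity)
        _ = _ := by ring
    have hn0 : (0 : ℝ) ≤ n := Nat.cast_nonneg _
    have hn1 : (1 : ℝ) ≤ n := by exact_mod_cast hn
    have h5 : max 1 ((((lat (ell b (2 * ρ))).ncard * Nat.card K : ℕ) : ℝ) / (a : ℝ)) ≤
        8 * Real.exp (600 * n) * κ := by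
      apply max_le _ h3
      have h6 : 1 ≤ Real.exp (600 * n) := Real.one_le_exp (by positivity)
      nlinarith
    have h7 : (1024 : ℝ) ^ d ≤ Real.exp (7 * n) := by
      have h8 : (1024 : ℝ) ≤ Real.exp 7 := by
        have h9 := Real.exp_one_gt_d9
        have h10 : Real.exp 7 = Real.exp 1 ^ 7 := by rw [← Real.exp_nat_mul]; norm_num
        rw [h10]
        calc (1024 : ℝ) ≤ 2.71 ^ 7 := by norm_num
          _ ≤ Real.exp 1 ^ 7 := by gcongr; linarith
      calc (1024 : ℝ) ^ d ≤ 1024 ^ n := pow_le_pow_right₀ (by norm_num) hd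
        _ ≤ Real.exp 7 ^ n := by gcongr
        _ = Real.exp (7 * n) := by rw [← Real.exp_nat_mul]; congr 1; ring
    have h96 : (96 : ℝ) ≤ Real.exp (5 * n) := by
      have h9 := Real.exp_one_gt_d9
      have h10 : Real.exp 5 = Real.exp 1 ^ 5 := by rw [← Real.exp_nat_mul]; norm_num
      calc (96 : ℝ) ≤ 2.71 ^ 5 := by norm_num
        _ ≤ Real.exp 1 ^ 5 := by gcongr; linarith
        _ = Real.exp 5 := h10.symm
        _ ≤ Real.exp (5 * n) := Real.exp_le_exp.2 (by linarith)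
    calc ((((T.image s) ×ˢ T').image (fun p => p.1 + p.2)).card : ℝ) ≤ T.card * T'.card := h1
      _ ≤ (2 * Real.exp (264 * n)) * (6 * 1024 ^ d *
          max 1 ((((lat (ell b (2 * ρ))).ncard * Nat.card K : ℕ) : ℝ) / (a : ℝ))) :=
          mul_le_mul hT hT' (Nat.cast_nonneg _) (by positivity)
      _ ≤ (2 * Real.exp (264 * n)) * (6 * Real.exp (7 * n) * (8 * Real.exp (600 * n) * κ)) := by
          apply mul_le_mul_of_nonneg_left _ (by positivity)
          apply mul_le_mul (mul_le_mul_of_nonneg_left h7 (by norm_num)) h5 _ (by positivity)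
          exact zero_le_one.trans (le_max_left _ _)
      _ = 96 * (Real.exp (264 * n) * Real.exp (7 * n) * Real.exp (600 * n)) * κ := by ring
      _ ≤ Real.exp (5 * n) * (Real.exp (264 * n) * Real.exp (7 * n) * Real.exp (600 * n)) * κ := by
          gcongr
      _ = Real.exp (876 * n) * κ := by
          rw [← Real.exp_add, ← Real.exp_add, ← Real.exp_add]; congr 2; ring
  · intro g hg
    rw [hP] at hg
    obtain ⟨x, hx, hxρ, k, hk, rfl⟩ := hg
    obtain ⟨t, ht, c, hc, h', hh', he⟩ := hcov x ((hS x).2 ⟨hx, hxρ⟩)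
    have h1 : F x + k - s t - ψ c ∈ K := by
      rw [hK, AddSubgroup.mem_comap, map_sub, map_sub, map_add, hq0 k hk, hs, hψ]
      have he' : q (F x) = t + (ψ₀ c + h') := he
      rw [he']
      have : t + (ψ₀ c + h') + 0 - t - ψ₀ c = h' := by abel
      rw [this]; exact hh'
    obtain ⟨t', ht', w', hw', h'', hh'', he2⟩ := hcov' c hc _ h1
    refine ⟨s t + t', Finset.mem_image.2 ⟨(s t, t'), Finset.mem_product.2
      ⟨Finset.mem_image_of_mem _ ht, ht'⟩, rfl⟩, w', hw', h'', hh'', ?_⟩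
    have h2 : F x + k = s t + (ψ c + (F x + k - s t - ψ c)) := by abel
    rw [h2, he2]
    abel

end T9h11.RM
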