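import Pool.Agent.T9h11.GP5

set_option autoImplicit false
set_option linter.unusedSectionVars false
set_option linter.unusedVariables false

/-! Coset progressions which need not be proper: final forms. -/

namespace T9h11.RM

open H460 Pool.Agent.Y806.DF

variable {E : Type*} [NormedAddCommGroup E] [InnerProductSpace ℝ E] [FiniteDimensional ℝ E]
variable {Γ : Type*} [AddCommGroup Γ]

theorem re_single {n : ℕ} (c : Fin n → ℝ) : c = ∑ i, c i • (Pi.single i (1 : ℝ) : Fin n → ℝ) := by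
  funext j
  rw [Finset.sum_apply, Finset.sum_eq_single j]
  · simp
  · intro i _ hij
    rw [Pi.smul_apply, Pi.single_eq_of_ne (Ne.symm hij), smul_zero]
  · simp

/-- ellipsoids -/
theorem ell_hom {n : ℕ} (hn : 1 ≤ n) (T : (Fin n → ℝ) →ₗ[ℝ] E) (hT : Function.Injective T)
    (φ : (Fin n → ℤ) →+ Γ) (H₀ : AddSubgroup Γ) (hH₀ : Finite H₀)
    {P : Set Γ} (hP : P = {g | ∃ z : Fin n → ℤ, ‖T (re z)‖ ≤ 1 ∧ ∃ h ∈ H₀, g = φ z + h})
    {a : ℕ} (ha : 1 ≤ a) {κ : ℝ} (hκ : 1 ≤ κ) (hPa : (P.ncard : ℝ) ≤ κ * a) :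
    P.Finite ∧
    ∃ (d : ℕ) (B : Set (Fin d → ℝ)) (ψ : (Fin d → ℤ) →+ Γ) (H : AddSubgroup Γ) (T : Finset Γ),
      d ≤ n ∧ Body B ∧ Finite H ∧ (lat B).ncard * Nat.card H ≤ a ∧
      (T.card : ℝ) ≤ Real.exp (876 * n) * κ ∧
      ∀ g ∈ P, ∃ t ∈ T, ∃ w ∈ lat B, ∃ h ∈ H, g = t + ψ w + h := by
  classical
  have hn0 : (0 : ℝ) < n := by exact_mod_cast hn
  set ρ : ℝ := Real.sqrt (4 * n) with hρ
  have hρ2 : ρ ^ 2 = 4 * n := Real.sq_sqrt (by positivity)
  have hρ0 : 0 < ρ := Real.sqrt_pos.2 (by positivity)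
  set b : Fin n → E := fun i => ρ • T (Pi.single i 1) with hb
  have hlc : ∀ c : Fin n → ℝ, lc b c = ρ • T c := by
    intro c
    conv_rhs => rw [re_single c]
    rw [lc_apply, map_sum, Finset.smul_sum]
    refine Finset.sum_congr rfl fun i _ => ?_
    rw [hb, map_smul, smul_comm]
  have hlcinj : Function.Injective (lc b) := by
    intro c c' hcc
    rw [hlc, hlc] at hcc
    exact hT (smul_right_injective E hρ0.ne' hcc)
  have hbli : LinearIndependent ℝ b := by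
    rw [Fintype.linearIndependent_iff]
    intro c hc i
    rw [← lc_apply, ← map_zero (lc b)] at hc
    exact congrFun (hlcinj hc) i
  obtain ⟨hd, hrk⟩ := disc_closure hbli
  set L := AddSubgroup.closure (Set.range b) with hL
  have hex : ∀ x ∈ L, ∃ z : Fin n → ℤ, lc b (re z) = x := fun x hx => exists_int hL.symm hx
  have hinj : ∀ z z' : Fin n → ℤ, lc b (re z) = lc b (re z') → z = z' := by
    intro z z' hzz
    have h1 := hlcinj hzz
    funext i
    have h2 : ((z i : ℤ) : ℝ) = ((z' i : ℤ) : ℝ) := congrFun h1 i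
    exact_mod_cast h2
  choose! ζ hζ using hex
  set F : E → Γ := fun x => φ (ζ x) with hFdef
  have hFz : ∀ z : Fin n → ℤ, F (lc b (re z)) = φ z := by
    intro z
    have h1 : lc b (re z) ∈ L := lc_int_mem (fun i => AddSubgroup.subset_closure (Set.mem_range_self i)) z
    show φ (ζ _) = φ z
    rw [hinj _ _ (hζ _ h1)]
  have hF : ∀ x ∈ L, ∀ y ∈ L, F (x + y) = F x + F y := by
    intro x hx y hy
    show φ (ζ (x + y)) = φ (ζ x) + φ (ζ y)
    rw [← map_add]
    congr 1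
    apply hinj
    rw [hζ _ (L.add_mem hx hy), re_add, map_add, hζ x hx, hζ y hy]
  refine ell_group hd hF hn hrk.le hρ0.le hρ2 H₀ hH₀ ?_ ha hκ hPa
  rw [hP]
  ext g
  constructor
  · rintro ⟨z, hz, h, hh, rfl⟩
    refine ⟨lc b (re z), lc_int_mem (fun i => AddSubgroup.subset_closure (Set.mem_range_self i)) z, ?_, h, hh, ?_⟩
    · rw [hlc, norm_smul, Real.norm_eq_abs, abs_of_pos hρ0]
      nlinarith
    · rw [hFz]
  · rintro ⟨x, hx, hxρ, h, hh, rfl⟩
    refine ⟨ζ x, ?_, h, hh, rfl⟩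
    rw [← hζ x hx, hlc, norm_smul, Real.norm_eq_abs, abs_of_pos hρ0] at hxρ
    by_contra hcon
    push Not at hcon
    nlinarith

/-- number of integer vectors of bounded `ℓ¹` norm -/
theorem card_l1 (n M : ℕ) :
    (((Fintype.piFinset fun _ : Fin n => Finset.Icc (-(M : ℤ)) M).filter
      (fun k => ∑ i, |k i| ≤ 3 * (n : ℤ))).card : ℝ) ≤ 24 ^ n := by
  classical
  have h1 : ∀ M : ℕ, ∑ k ∈ Finset.Icc (-(M : ℤ)) M, (1 / 2 : ℝ) ^ k.natAbs ≤ 3 - (1 / 2) ^ M * 2 := by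
    intro M
    induction M with
    | zero => simp; norm_num
    | succ M ih =>
      have h2 : Finset.Icc (-((M + 1 : ℕ) : ℤ)) ((M + 1 : ℕ) : ℤ) =
          insert (-((M + 1 : ℕ) : ℤ)) (insert ((M + 1 : ℕ) : ℤ) (Finset.Icc (-(M : ℤ)) M)) := by
        ext x
        simp only [Finset.mem_insert, Finset.mem_Icc]
        omega
      rw [h2, Finset.sum_insert, Finset.sum_insert]
      · have h3 : (-((M + 1 : ℕ) : ℤ)).natAbs = M + 1 := by omega
        have h4 : (((M + 1 : ℕ) : ℤ)).natAbs = M + 1 := by omega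
        rw [h3, h4]
        have h5 : (1 / 2 : ℝ) ^ (M + 1) = (1 / 2) ^ M * (1 / 2) := pow_succ _ _
        rw [h5]
        linarith
      · simp only [Finset.mem_Icc]; omega
      · simp only [Finset.mem_insert, Finset.mem_Icc]; omega
  have h2 : ∑ k ∈ Fintype.piFinset fun _ : Fin n => Finset.Icc (-(M : ℤ)) M,
      ∏ i, (1 / 2 : ℝ) ^ (k i).natAbs ≤ 3 ^ n := by
    rw [← Finset.prod_univ_sum (fun _ : Fin n => Finset.Icc (-(M : ℤ)) M)
      (fun _ k => (1 / 2 : ℝ) ^ k.natAbs)]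
    calc ∏ i : Fin n, ∑ k ∈ Finset.Icc (-(M : ℤ)) M, (1 / 2 : ℝ) ^ k.natAbs ≤
        ∏ i : Fin n, (3 : ℝ) := by
          refine Finset.prod_le_prod (fun i _ => Finset.sum_nonneg fun k _ => by positivity)
            fun i _ => (h1 M).trans ?_
          have : (0 : ℝ) ≤ (1 / 2) ^ M * 2 := by positivity
          linarith
      _ = 3 ^ n := by simp
  set K := (Fintype.piFinset fun _ : Fin n => Finset.Icc (-(M : ℤ)) M).filter
      (fun k => ∑ i, |k i| ≤ 3 * (n : ℤ)) with hK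
  have h3 : (K.card : ℝ) * (1 / 2) ^ (3 * n) ≤ ∑ k ∈ K, ∏ i, (1 / 2 : ℝ) ^ (k i).natAbs := by
    rw [← nsmul_eq_mul]
    apply Finset.card_nsmul_le_sum
    intro k hk
    have h4 := (Finset.mem_filter.1 hk).2
    rw [Finset.prod_pow_eq_pow_sum]
    apply pow_le_pow_of_le_one (by norm_num) (by norm_num)
    have h5 : ((∑ i, (k i).natAbs : ℕ) : ℤ) ≤ ((3 * n : ℕ) : ℤ) := by
      push_cast
      exact h4
    exact_mod_cast h5
  have h4 : ∑ k ∈ K, ∏ i, (1 / 2 : ℝ) ^ (k i).natAbs ≤ 3 ^ n := by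
    refine (Finset.sum_le_sum_of_subset_of_nonneg (Finset.filter_subset _ _) ?_).trans h2
    intro k _ _
    exact Finset.prod_nonneg fun i _ => by positivity
  have h5 : (1 / 2 : ℝ) ^ (3 * n) * 8 ^ n = 1 := by
    rw [pow_mul, ← mul_pow]; norm_num
  calc (K.card : ℝ) = (K.card : ℝ) * (1 / 2) ^ (3 * n) * 8 ^ n := by rw [mul_assoc, h5, mul_one]
    _ ≤ 3 ^ n * 8 ^ n := mul_le_mul_of_nonneg_right (h3.trans h4) (by positivity)
    _ = 24 ^ n := by rw [← mul_pow]; norm_num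

/-- reduction of an integer modulo `2 N + 1` -/
theorem round_mod (N : ℕ) (z : ℤ) : ∃ k : ℤ, |z - (2 * N + 1) * k| ≤ N ∧
    (|k| : ℝ) ≤ 3 / 2 * (|(z : ℝ)| / (N + 1)) := by
  set D : ℤ := 2 * N + 1 with hD
  have hD0 : 0 < D := by omega
  refine ⟨(z + N) / D, ?_, ?_⟩
  · have h1 := Int.emod_add_mul_ediv (z + N) D
    have h2 := Int.emod_nonneg (z + N) hD0.ne'
    have h3 := Int.emod_lt_of_pos (z + N) hD0
    rw [abs_le]
    constructor <;> linarith
  · set k := (z + N) / D with hk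
    have h1 := Int.emod_add_mul_ediv (z + N) D
    have h2 := Int.emod_nonneg (z + N) hD0.ne'
    have h3 := Int.emod_lt_of_pos (z + N) hD0
    rw [← hk] at h1
    have h4 : |z - D * k| ≤ N := by
      rw [abs_le]; constructor <;> linarith
    have hN : (0 : ℝ) ≤ N := Nat.cast_nonneg _
    by_cases hk0 : k = 0
    · rw [hk0]; simp; positivity
    · have hk1 : 1 ≤ |k| := Int.one_le_abs hk0
      have h5 : D * |k| ≤ |z| + N := by
        have h6 : D * |k| = |D * k| := by rw [abs_mul, abs_of_pos hD0]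
        rw [h6]
        have h7 : D * k = z - (z - D * k) := by ring
        rw [h7]
        exact (abs_sub _ _).trans (by linarith)
      have h6 : (N : ℤ) + 1 ≤ |z| := by nlinarith
      have h7 : ((2 * N + 1 : ℤ) : ℝ) * (|k| : ℤ) ≤ (|z| : ℤ) + (N : ℤ) := by exact_mod_cast h5
      have h8 : ((N : ℤ) : ℝ) + 1 ≤ ((|z| : ℤ) : ℝ) := by exact_mod_cast h6
      have h9 : (1 : ℝ) ≤ ((|k| : ℤ) : ℝ) := by exact_mod_cast hk1
      push_cast at h7 h8 h9 ⊢
      rw [← mul_div_assoc, le_div_iff₀ (by positivity)]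
      nlinarith
end T9h11.RM
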