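import Pool.Agent.T9h11.GP6

set_option autoImplicit false
set_option linter.unusedSectionVars false
set_option linter.unusedVariables false

/-! Coset progressions which need not be proper: boxes. -/

namespace T9h11.RM

open H460 Pool.Agent.Y806.DF

variable {Γ : Type*} [AddCommGroup Γ]

theorem pow24 (n : ℕ) : (24 : ℝ) ^ n ≤ Real.exp (4 * n) := by
  have h9 := Real.exp_one_gt_d9
  have h10 : Real.exp 4 = Real.exp 1 ^ 4 := by rw [← Real.exp_nat_mul]; norm_num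
  have h8 : (24 : ℝ) ≤ Real.exp 4 := by
    rw [h10]
    calc (24 : ℝ) ≤ 2.71 ^ 4 := by norm_num
      _ ≤ Real.exp 1 ^ 4 := by gcongr; linarith
  calc (24 : ℝ) ^ n ≤ Real.exp 4 ^ n := by gcongr
    _ = Real.exp (4 * n) := by rw [← Real.exp_nat_mul]; congr 1; ring

/-- boxes -/
theorem box_hom {n : ℕ} (hn : 1 ≤ n) (N : Fin n → ℕ)
    (φ : (Fin n → ℤ) →+ Γ) (H₀ : AddSubgroup Γ) (hH₀ : Finite H₀)
    {P : Set Γ} (hP : P = {g | ∃ z : Fin n → ℤ, (∀ i, |z i| ≤ N i) ∧ ∃ h ∈ H₀, g = φ z + h})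
    {a : ℕ} (ha : 1 ≤ a) {κ : ℝ} (hκ : 1 ≤ κ) (hPa : (P.ncard : ℝ) ≤ κ * a) :
    ∃ (d : ℕ) (B : Set (Fin d → ℝ)) (ψ : (Fin d → ℤ) →+ Γ) (H : AddSubgroup Γ) (T : Finset Γ),
      d ≤ n ∧ Body B ∧ Finite H ∧ (lat B).ncard * Nat.card H ≤ a ∧
      (T.card : ℝ) ≤ Real.exp (880 * n) * κ ∧
      ∀ g ∈ P, ∃ t ∈ T, ∃ w ∈ lat B, ∃ h ∈ H, g = t + ψ w + h := by
  classical
  have hn0 : (0 : ℝ) < n := by exact_mod_cast hn
  have hsn : 0 < Real.sqrt n := Real.sqrt_pos.2 hn0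
  have hsn2 : Real.sqrt n ^ 2 = n := Real.sq_sqrt hn0.le
  -- the ellipsoid
  let T : (Fin n → ℝ) →ₗ[ℝ] EuclideanSpace ℝ (Fin n) :=
    (WithLp.linearEquiv 2 ℝ (Fin n → ℝ)).symm.toLinearMap ∘ₗ
      LinearMap.pi (fun i => (1 / (((N i : ℝ) + 1) * Real.sqrt n)) • LinearMap.proj i)
  have hTa : ∀ (c : Fin n → ℝ) (i : Fin n), T c i = 1 / (((N i : ℝ) + 1) * Real.sqrt n) * c i := by
    intro c i; rfl
  have hTn : ∀ c : Fin n → ℝ, ‖T c‖ ^ 2 = (1 / n) * ∑ i, (|c i| / ((N i : ℝ) + 1)) ^ 2 := by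
    intro c
    rw [EuclideanSpace.norm_sq_eq, Finset.mul_sum]
    refine Finset.sum_congr rfl fun i _ => ?_
    rw [hTa, Real.norm_eq_abs, sq_abs, div_pow, sq_abs, mul_pow, div_pow, mul_pow, hsn2]
    have : (0 : ℝ) < (N i : ℝ) + 1 := by positivity
    field_simp
  have hTinj : Function.Injective T := by
    rw [← LinearMap.ker_eq_bot, LinearMap.ker_eq_bot']
    intro c hc
    funext i
    have h1 := hTa c i
    rw [hc] at h1
    have h2 : (0 : ℝ) = 1 / (((N i : ℝ) + 1) * Real.sqrt n) * c i := h1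
    have h3 : (0 : ℝ) < (N i : ℝ) + 1 := by positivity
    rcases mul_eq_zero.1 h2.symm with h4 | h4
    · have h5 : (0 : ℝ) < 1 / (((N i : ℝ) + 1) * Real.sqrt n) := by positivity
      exact absurd h4 h5.ne'
    · exact h4
  set P' : Set Γ := {g | ∃ z : Fin n → ℤ, ‖T (re z)‖ ≤ 1 ∧ ∃ h ∈ H₀, g = φ z + h} with hP'
  have hsub : P ⊆ P' := by
    rw [hP]
    rintro g ⟨z, hz, h, hh, rfl⟩
    refine ⟨z, ?_, h, hh, rfl⟩
    have h1 : ‖T (re z)‖ ^ 2 ≤ 1 := by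
      rw [hTn]
      have h2 : ∑ i, (|re z i| / ((N i : ℝ) + 1)) ^ 2 ≤ ∑ i : Fin n, (1 : ℝ) := by
        refine Finset.sum_le_sum fun i _ => ?_
        have h3 : |re z i| ≤ N i := by
          have := hz i
          show |((z i : ℤ) : ℝ)| ≤ _
          exact_mod_cast this
        have h4 : |re z i| / ((N i : ℝ) + 1) ≤ 1 := by
          rw [div_le_one (by positivity)]; linarith
        exact pow_le_one₀ (by positivity) h4
      have h5 : ∑ i : Fin n, (1 : ℝ) = n := by simp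
      rw [h5] at h2
      calc (1 / (n : ℝ)) * ∑ i, (|re z i| / ((N i : ℝ) + 1)) ^ 2 ≤ (1 / n) * n :=
            mul_le_mul_of_nonneg_left h2 (by positivity)
        _ = 1 := by field_simp
    nlinarith [norm_nonneg (T (re z))]
  -- the size of the ellipsoid
  have hHf : Fintype H₀ := Fintype.ofFinite H₀
  set PF : Finset Γ := ((Fintype.piFinset fun i : Fin n => Finset.Icc (-(N i : ℤ)) (N i)) ×ˢ
    (Finset.univ : Finset H₀)).image (fun p => φ p.1 + (p.2 : Γ)) with hPF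
  have hPPF : P = (PF : Set Γ) := by
    ext g
    rw [hP, hPF, Finset.mem_coe, Finset.mem_image]
    constructor
    · rintro ⟨z, hz, k, hk, rfl⟩
      exact ⟨(z, ⟨k, hk⟩), Finset.mem_product.2 ⟨Fintype.mem_piFinset.2 fun i =>
        Finset.mem_Icc.2 (abs_le.1 (hz i)), Finset.mem_univ _⟩, rfl⟩
    · rintro ⟨⟨z, k⟩, hp, rfl⟩
      have h1 := Fintype.mem_piFinset.1 (Finset.mem_product.1 hp).1
      exact ⟨z, fun i => abs_le.2 (Finset.mem_Icc.1 (h1 i)), k, k.2, rfl⟩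
  have hPcard : P.ncard = PF.card := by rw [hPPF, Set.ncard_coe_finset]
  set K := (Fintype.piFinset fun _ : Fin n => Finset.Icc (-((3 * n : ℕ) : ℤ)) ((3 * n : ℕ) : ℤ)).filter
      (fun k => ∑ i, |k i| ≤ 3 * (n : ℤ)) with hK
  have hKcard : (K.card : ℝ) ≤ 24 ^ n := card_l1 n (3 * n)
  set U : Finset Γ := (K ×ˢ PF).image (fun p => φ (fun i => (2 * (N i : ℤ) + 1) * p.1 i) + p.2) with hU
  have hP'U : P' ⊆ (U : Set Γ) := by
    rintro g ⟨z, hz, h, hh, rfl⟩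
    have hk : ∀ i, ∃ k : ℤ, |z i - (2 * (N i : ℤ) + 1) * k| ≤ N i ∧
      (|k| : ℝ) ≤ 3 / 2 * (|(z i : ℝ)| / (N i + 1)) := fun i => round_mod (N i) (z i)
    choose k hk1 hk2 using hk
    have h1 : ∑ i, (|((z i : ℤ) : ℝ)| / ((N i : ℝ) + 1)) ^ 2 ≤ (n : ℝ) := by
      have h2 : ‖T (re z)‖ ^ 2 ≤ 1 := pow_le_one₀ (norm_nonneg _) hz
      rw [hTn] at h2
      have h3 : ∑ i, (|re z i| / ((N i : ℝ) + 1)) ^ 2 ≤ (n : ℝ) := by
        rw [one_div, inv_mul_le_iff₀ hn0, mul_one] at h2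
        exact h2
      exact h3
    have h2 : ∑ i, |k i| ≤ 3 * (n : ℤ) := by
      have h3 : ∑ i, ((|k i| : ℤ) : ℝ) ≤ 3 * n := by
        calc ∑ i, ((|k i| : ℤ) : ℝ) ≤ ∑ i, 9 / 4 * (|((z i : ℤ) : ℝ)| / ((N i : ℝ) + 1)) ^ 2 := by
              refine Finset.sum_le_sum fun i _ => ?_
              have h4 := hk2 i
              have h5 : ((|k i| : ℤ) : ℝ) ≤ ((|k i| : ℤ) : ℝ) ^ 2 := by
                have h6 : |k i| ≤ |k i| ^ 2 := by
                  rcases (abs_nonneg (k i)).eq_or_lt with h7 | h7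
                  · rw [← h7]; norm_num
                  · nlinarith
                exact_mod_cast h6
              have h6 : (0 : ℝ) ≤ ((|k i| : ℤ) : ℝ) := by positivity
              push_cast at h4 h5 h6 ⊢
              have h7 : |(k i : ℝ)| ^ 2 ≤ (3 / 2 * (|(z i : ℝ)| / (N i + 1))) ^ 2 := by gcongr
              rw [mul_pow] at h7
              linarith
          _ = 9 / 4 * ∑ i, (|((z i : ℤ) : ℝ)| / ((N i : ℝ) + 1)) ^ 2 := by rw [Finset.mul_sum]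
          _ ≤ 9 / 4 * n := by linarith
          _ ≤ 3 * n := by linarith
      exact_mod_cast h3
    rw [hU, Finset.mem_coe, Finset.mem_image]
    refine ⟨(k, φ (fun i => z i - (2 * (N i : ℤ) + 1) * k i) + h), Finset.mem_product.2 ⟨?_, ?_⟩, ?_⟩
    · rw [hK, Finset.mem_filter]
      refine ⟨Fintype.mem_piFinset.2 fun i => ?_, h2⟩
      have h3 : |k i| ≤ ∑ j, |k j| :=
        Finset.single_le_sum (f := fun j => |k j|) (fun j _ => abs_nonneg _) (Finset.mem_univ i)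
      rw [Finset.mem_Icc, ← abs_le]
      push_cast
      linarith
    · have h3 : φ (fun i => z i - (2 * (N i : ℤ) + 1) * k i) + h ∈ P := by
        rw [hP]
        exact ⟨_, hk1, h, hh, rfl⟩
      rw [hPPF] at h3
      exact h3
    · show φ (fun i => (2 * (N i : ℤ) + 1) * k i) + (φ (fun i => z i - (2 * (N i : ℤ) + 1) * k i) + h) = _
      rw [← add_assoc, ← map_add]
      congr 2
      funext i
      show (2 * (N i : ℤ) + 1) * k i + (z i - (2 * (N i : ℤ) + 1) * k i) = z i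
      ring
  have hP'card : (P'.ncard : ℝ) ≤ 24 ^ n * P.ncard := by
    have h1 : P'.ncard ≤ U.card := by
      rw [← Set.ncard_coe_finset]
      exact Set.ncard_le_ncard hP'U U.finite_toSet
    have h2 : U.card ≤ K.card * PF.card := by
      refine Finset.card_image_le.trans ?_
      rw [Finset.card_product]
    have h3 : ((U.card : ℕ) : ℝ) ≤ K.card * PF.card := by exact_mod_cast h2
    have h4 : (P'.ncard : ℝ) ≤ U.card := by exact_mod_cast h1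
    rw [hPcard]
    exact (h4.trans h3).trans (mul_le_mul_of_nonneg_right hKcard (Nat.cast_nonneg _))
  have hκ' : 1 ≤ Real.exp (4 * n) * κ := by
    have h1 : 1 ≤ Real.exp (4 * n) := Real.one_le_exp (by positivity)
    nlinarith
  obtain ⟨-, d, B, ψ, H, T₁, hd, hB, hH, hvol, hT₁, hcov⟩ :=
    ell_hom hn T hTinj φ H₀ hH₀ hP' ha hκ' (by
      refine hP'card.trans ?_
      calc (24 : ℝ) ^ n * P.ncard ≤ Real.exp (4 * n) * (κ * a) :=
            mul_le_mul (pow24 n) hPa (Nat.cast_nonneg _) (Real.exp_pos _).le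
        _ = _ := by ring)
  refine ⟨d, B, ψ, H, T₁, hd, hB, hH, hvol, hT₁.trans ?_, fun g hg => hcov g (hsub hg)⟩
  rw [← mul_assoc, ← Real.exp_add]
  apply mul_le_mul_of_nonneg_right _ (by linarith)
  exact Real.exp_le_exp.2 (by linarith)

/-- the final form -/
theorem nonproper {n : ℕ} (hn : 1 ≤ n) (S : Set (Fin n → ℤ))
    (hS : (∃ N : Fin n → ℕ, S = {z | ∀ i, |z i| ≤ (N i : ℤ)}) ∨
      ∃ (m : ℕ) (T : (Fin n → ℝ) →ₗ[ℝ] EuclideanSpace ℝ (Fin m)), Function.Injective T ∧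
        S = {z | ‖T (fun i => (z i : ℝ))‖ ≤ 1})
    (φ : (Fin n → ℤ) →+ Γ) (H₀ : AddSubgroup Γ) (hH₀ : Finite H₀)
    {a : ℕ} (ha : 1 ≤ a) {κ : ℝ} (hκ : 1 ≤ κ)
    (hPa : (({g | ∃ z ∈ S, ∃ h ∈ H₀, g = φ z + h} : Set Γ).ncard : ℝ) ≤ κ * a) :
    ∃ (d : ℕ) (B : Set (Fin d → ℝ)) (ψ : (Fin d → ℤ) →+ Γ) (H : AddSubgroup Γ) (T : Finset Γ),
      d ≤ n ∧ Body B ∧ Finite H ∧ (lat B).ncard * Nat.card H ≤ a ∧
      (T.card : ℝ) ≤ Real.exp (880 * n) * κ ∧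
      ∀ z ∈ S, ∀ h₀ ∈ H₀, ∃ t ∈ T, ∃ w ∈ lat B, ∃ h ∈ H, φ z + h₀ = t + ψ w + h := by
  rcases hS with ⟨N, hS⟩ | ⟨m, T, hT, hS⟩
  · obtain ⟨d, B, ψ, H, T₁, hd, hB, hH, hvol, hT₁, hcov⟩ := box_hom hn N φ H₀ hH₀
      (P := {g | ∃ z ∈ S, ∃ h ∈ H₀, g = φ z + h}) (by rw [hS]; rfl) ha hκ hPa
    exact ⟨d, B, ψ, H, T₁, hd, hB, hH, hvol, hT₁, fun z hz h₀ hh₀ => hcov _ ⟨z, hz, h₀, hh₀, rfl⟩⟩
  · obtain ⟨-, d, B, ψ, H, T₁, hd, hB, hH, hvol, hT₁, hcov⟩ := ell_hom hn T hT φ H₀ hH₀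
      (P := {g | ∃ z ∈ S, ∃ h ∈ H₀, g = φ z + h}) (by rw [hS]; rfl) ha hκ hPa
    refine ⟨d, B, ψ, H, T₁, hd, hB, hH, hvol, hT₁.trans ?_,
      fun z hz h₀ hh₀ => hcov _ ⟨z, hz, h₀, hh₀, rfl⟩⟩
    apply mul_le_mul_of_nonneg_right _ (by linarith)
    have : (0 : ℝ) ≤ n := Nat.cast_nonneg _
    exact Real.exp_le_exp.2 (by linarith)

end T9h11.RM
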