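import Pool.Agent.T9h11.RW7

set_option autoImplicit false
set_option linter.unusedSectionVars false
set_option linter.unusedVariables false

/-! Lifts of group elements with respect to a family of characters, and the structure of the
elements on which these characters are close to one. -/

namespace T9h11.HB

open Finset H460 T9h11.RM T9h11.RW Pool.Agent.Y806.DF
open scoped Classical Pointwise

variable {G : Type*} [AddCommGroup G] [Fintype G] {ι : Type*} [Fintype ι]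

/-- the energy -/
noncomputable def eg (γ : ι → AddChar G ℂ) (y : G) : ℝ := ∑ j, (1 - (γ j y).re)

/-- `u` is a lift of `y` -/
def Lf (γ : ι → AddChar G ℂ) (u : EuclideanSpace ℝ ι) (y : G) : Prop :=
  ∀ j, Complex.exp (2 * Complex.I * ((u j : ℝ) : ℂ)) = γ j y

/-- the principal lift -/
noncomputable def pl (γ : ι → AddChar G ℂ) (y : G) : EuclideanSpace ℝ ι :=
  WithLp.toLp 2 (fun j => (γ j y).arg / 2)

variable {γ : ι → AddChar G ℂ}

theorem eg_nonneg (γ : ι → AddChar G ℂ) (y : G) : 0 ≤ eg γ y :=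
  Finset.sum_nonneg fun j _ => by linarith [re_le_one (γ j) y]

theorem pl_apply (γ : ι → AddChar G ℂ) (y : G) (j : ι) : pl γ y j = (γ j y).arg / 2 := rfl

theorem lf_pl (γ : ι → AddChar G ℂ) (y : G) : Lf γ (pl γ y) y := by
  intro j
  rw [pl_apply]
  have h := Complex.norm_mul_exp_arg_mul_I (γ j y)
  rw [norm_char, Complex.ofReal_one, one_mul] at h
  rw [← h]
  congr 1
  push_cast
  rw [h]
  ring

theorem Lf.add {u v : EuclideanSpace ℝ ι} {y z : G} (hu : Lf γ u y) (hv : Lf γ v z) :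
    Lf γ (u + v) (y + z) := by
  intro j
  rw [AddChar.map_add_eq_mul, ← hu j, ← hv j, ← Complex.exp_add]
  congr 1
  rw [PiLp.add_apply]
  push_cast
  ring

theorem Lf.zero (γ : ι → AddChar G ℂ) : Lf γ 0 0 := by
  intro j
  simp

theorem Lf.neg {u : EuclideanSpace ℝ ι} {y : G} (hu : Lf γ u y) : Lf γ (-u) (-y) := by
  intro j
  rw [AddChar.map_neg_eq_inv, ← hu j, ← Complex.exp_neg]
  congr 1
  rw [PiLp.neg_apply]
  push_cast
  ring

theorem Lf.sub {u v : EuclideanSpace ℝ ι} {y z : G} (hu : Lf γ u y) (hv : Lf γ v z) :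
    Lf γ (u - v) (y - z) := by
  rw [sub_eq_add_neg, sub_eq_add_neg]
  exact hu.add hv.neg

theorem Lf.re {u : EuclideanSpace ℝ ι} {y : G} (hu : Lf γ u y) (j : ι) :
    (γ j y).re = Real.cos (2 * u j) := by
  rw [← hu j]
  have : 2 * Complex.I * ((u j : ℝ) : ℂ) = ((2 * u j : ℝ) : ℂ) * Complex.I := by
    push_cast; ring
  rw [this, Complex.exp_ofReal_mul_I_re]

theorem Lf.eg_le {u : EuclideanSpace ℝ ι} {y : G} (hu : Lf γ u y) : eg γ y ≤ 2 * ‖u‖ ^ 2 := by
  rw [EuclideanSpace.norm_sq_eq, Finset.mul_sum]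
  unfold eg
  refine Finset.sum_le_sum fun j _ => ?_
  rw [hu.re j, Real.norm_eq_abs, sq_abs]
  have := Real.one_sub_sq_div_two_le_cos (x := 2 * u j)
  nlinarith

theorem pl_norm (γ : ι → AddChar G ℂ) (y : G) : ‖pl γ y‖ ^ 2 ≤ 5 / 4 * eg γ y := by
  rw [EuclideanSpace.norm_sq_eq]
  unfold eg
  rw [Finset.mul_sum]
  refine Finset.sum_le_sum fun j _ => ?_
  rw [pl_apply, Real.norm_eq_abs, sq_abs]
  have h1 : (γ j y).re = Real.cos (γ j y).arg := by
    have h := (lf_pl γ y).re j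
    rw [h, pl_apply]
    congr 1; ring
  rw [h1]
  have h2 := Real.cos_le_one_sub_mul_cos_sq (Complex.abs_arg_le_pi (γ j y))
  have h3 : 2 / Real.pi ^ 2 ≥ 1 / 5 := by
    rw [ge_iff_le, div_le_div_iff₀ (by norm_num) (by positivity)]
    have := Real.pi_lt_d2
    have := Real.pi_pos
    nlinarith
  have h4 : 1 / 5 * (γ j y).arg ^ 2 ≤ 2 / Real.pi ^ 2 * (γ j y).arg ^ 2 :=
    mul_le_mul_of_nonneg_right h3 (sq_nonneg _)
  nlinarith

theorem pl_add {y z : G} (hy : ∀ j, ‖γ j y - 1‖ < 1 / 2) (hz : ∀ j, ‖γ j z - 1‖ < 1 / 2) :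
    pl γ (y + z) = pl γ y + pl γ z := by
  have key : ∀ {y : G}, (∀ j, ‖γ j y - 1‖ < 1 / 2) → ∀ j, |(γ j y).arg| < Real.pi / 2 := by
    intro y h j
    rw [Complex.abs_arg_lt_pi_div_two_iff]
    left
    have h1 := norm_sub_one_sq (γ j) y
    have h2 := h j
    have h3 := norm_nonneg (γ j y - 1)
    nlinarith
  ext j
  rw [PiLp.add_apply, pl_apply, pl_apply, pl_apply, AddChar.map_add_eq_mul]
  have h1 := abs_lt.1 (key hy j)
  have h2 := abs_lt.1 (key hz j)
  have hne : ∀ y : G, γ j y ≠ 0 := by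
    intro y h0
    have := norm_char (γ j) y
    rw [h0, norm_zero] at this
    norm_num at this
  rw [Complex.arg_mul (hne y) (hne z) ⟨by linarith, by linarith⟩]
  ring

theorem eg_add (γ : ι → AddChar G ℂ) (y z : G) : eg γ (y + z) ≤ 2 * (eg γ y + eg γ z) := by
  unfold eg
  rw [← Finset.sum_add_distrib, Finset.mul_sum]
  refine Finset.sum_le_sum fun j _ => ?_
  have h1 : ‖γ j (y + z) - 1‖ ^ 2 ≤ 2 * (‖γ j y - 1‖ ^ 2 + ‖γ j z - 1‖ ^ 2) := by
    have h2 : γ j (y + z) - 1 = (γ j y - 1) * γ j z + (γ j z - 1) := by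
      rw [AddChar.map_add_eq_mul]; ring
    have h3 : ‖γ j (y + z) - 1‖ ≤ ‖γ j y - 1‖ + ‖γ j z - 1‖ := by
      rw [h2]
      refine (norm_add_le _ _).trans ?_
      rw [norm_mul, norm_char, mul_one]
    have h4 := norm_nonneg (γ j (y + z) - 1)
    nlinarith [sq_nonneg (‖γ j y - 1‖ - ‖γ j z - 1‖)]
  rw [norm_sub_one_sq, norm_sub_one_sq, norm_sub_one_sq] at h1
  linarith

/-- the group of all lifts -/
def LG (γ : ι → AddChar G ℂ) : AddSubgroup (EuclideanSpace ℝ ι) where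
  carrier := {u | ∃ y, Lf γ u y}
  zero_mem' := ⟨0, Lf.zero γ⟩
  add_mem' := by
    rintro a b ⟨y, hy⟩ ⟨z, hz⟩
    exact ⟨y + z, hy.add hz⟩
  neg_mem' := by
    rintro a ⟨y, hy⟩
    exact ⟨-y, hy.neg⟩

theorem Lf.nsmul {u : EuclideanSpace ℝ ι} {y : G} (hu : Lf γ u y) (m : ℕ) :
    Lf γ (m • u) (m • y) := by
  induction m with
  | zero => simpa using Lf.zero γ
  | succ m ih =>
    rw [succ_nsmul, succ_nsmul]
    exact ih.add hu

theorem lf_zero {u : EuclideanSpace ℝ ι} (h : Lf γ u 0) : ∀ j, ∃ z : ℤ, u j = Real.pi * z := by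
  intro j
  have h0 := h j
  rw [AddChar.map_zero_eq_one, Complex.exp_eq_one_iff] at h0
  obtain ⟨z, hz⟩ := h0
  refine ⟨z, ?_⟩
  have h1 : (2 * Complex.I) * ((u j : ℝ) : ℂ) = (2 * Complex.I) * ((Real.pi * z : ℝ) : ℂ) := by
    rw [hz]; push_cast; ring
  have h2 := mul_left_cancel₀ (by simp [Complex.I_ne_zero]) h1
  exact_mod_cast h2

theorem disc_LG (γ : ι → AddChar G ℂ) : Disc (LG γ) := by
  intro R
  set n := Fintype.card G with hn
  have hn0 : (0 : ℝ) < n := by
    have : 0 < n := Fintype.card_pos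
    exact_mod_cast this
  set N : ℕ := ⌈(n : ℝ) * R⌉₊ with hN
  have hfin : ((fun z : ι → ℤ => (WithLp.toLp 2 (fun j => Real.pi * z j / n) :
      EuclideanSpace ℝ ι)) '' (Fintype.piFinset (fun _ : ι => Finset.Icc (-(N : ℤ)) N) :
        Finset (ι → ℤ))).Finite := (Finset.finite_toSet _).image _
  refine hfin.subset ?_
  rintro u ⟨⟨y, hy⟩, huR⟩
  have h0 := hy.nsmul n
  have h00 : n • y = 0 := by rw [hn]; exact card_nsmul_eq_zero
  rw [h00] at h0
  have h1 := lf_zero h0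
  choose z hz using h1
  have hz' : ∀ j, (n : ℝ) * u j = Real.pi * z j := by
    intro j
    have := hz j
    rw [PiLp.smul_apply, nsmul_eq_mul] at this
    exact this
  refine ⟨z, ?_, ?_⟩
  · rw [Finset.mem_coe, Fintype.mem_piFinset]
    intro j
    rw [Finset.mem_Icc, ← abs_le]
    have h2 : |u j| ≤ R := by
      have := PiLp.norm_apply_le u j
      rw [Real.norm_eq_abs] at this
      exact this.trans huR
    have h3 : |(z j : ℝ)| ≤ n * R := by
      have h4 : Real.pi * |(z j : ℝ)| = n * |u j| := by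
        have h5 := congrArg abs (hz' j)
        rw [abs_mul, abs_mul, abs_of_pos hn0, abs_of_pos Real.pi_pos] at h5
        exact h5.symm
      have h6 : n * |u j| ≤ n * R := mul_le_mul_of_nonneg_left h2 hn0.le
      have h7 : 1 * |(z j : ℝ)| ≤ Real.pi * |(z j : ℝ)| :=
        mul_le_mul_of_nonneg_right (by linarith [Real.pi_gt_three]) (abs_nonneg _)
      linarith
    have h4 : |(z j : ℝ)| ≤ (N : ℝ) := h3.trans (Nat.le_ceil _)
    exact_mod_cast h4
  · ext j
    show Real.pi * z j / n = u j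
    rw [← hz' j]
    field_simp

/-- the annihilator of the characters -/
def Hk (γ : ι → AddChar G ℂ) : AddSubgroup G where
  carrier := {y | ∀ j, γ j y = 1}
  zero_mem' := fun j => AddChar.map_zero_eq_one _
  add_mem' := by
    intro a b ha hb j
    rw [AddChar.map_add_eq_mul, ha j, hb j, one_mul]
  neg_mem' := by
    intro a ha j
    rw [AddChar.map_neg_eq_inv, ha j, inv_one]

theorem lf_diff {u : EuclideanSpace ℝ ι} {y z : G} (hy : Lf γ u y) (hz : Lf γ u z) :
    y - z ∈ Hk γ := by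
  intro j
  have h := (hy.sub hz) j
  rw [← h]
  simp

theorem lf_hk {u : EuclideanSpace ℝ ι} {y h : G} (hy : Lf γ u y) (hh : h ∈ Hk γ) :
    Lf γ u (y + h) := by
  intro j
  rw [AddChar.map_add_eq_mul, hh j, mul_one]
  exact hy j

/-- an additive section -/
theorem exists_sec {L : AddSubgroup (EuclideanSpace ℝ ι)} (hL : L ≤ LG γ) :
    ∃ F : EuclideanSpace ℝ ι → G, (∀ u ∈ L, ∀ v ∈ L, F (u + v) = F u + F v) ∧
      ∀ u ∈ L, Lf γ u (F u) := by
  classical
  have hd : Disc L := (disc_LG γ).mono hL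
  obtain ⟨b, hb, hcl⟩ := hd.exists_basis
  have hbL : ∀ i, b i ∈ L := by
    intro i
    have h1 : b i ∈ AddSubgroup.closure (Set.range b) :=
      AddSubgroup.subset_closure (Set.mem_range_self i)
    rwa [hcl] at h1
  have hy : ∀ i, ∃ y, Lf γ (b i) y := fun i => hL (hbL i)
  choose y hy using hy
  have hex : ∀ u ∈ L, ∃ c : Fin (rk L) → ℤ, lc b (Pool.Agent.Y806.DF.re c) = u := fun u hu =>
    exists_int hcl hu
  choose! ζ hζ using hex
  have hinj : ∀ c c' : Fin (rk L) → ℤ, lc b (Pool.Agent.Y806.DF.re c) =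
      lc b (Pool.Agent.Y806.DF.re c') → c = c' := by
    intro c c' h
    have h1 := lc_inj hb h
    funext i
    have h2 : ((c i : ℤ) : ℝ) = ((c' i : ℤ) : ℝ) := congrFun h1 i
    exact_mod_cast h2
  refine ⟨fun u => ∑ i, ζ u i • y i, ?_, ?_⟩
  · intro u hu v hv
    have h1 : ζ (u + v) = ζ u + ζ v := by
      apply hinj
      rw [hζ _ (L.add_mem hu hv), re_add, map_add, hζ u hu, hζ v hv]
    beta_reduce
    rw [h1, ← Finset.sum_add_distrib]
    exact Finset.sum_congr rfl fun i _ => by rw [Pi.add_apply, add_smul]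
  · intro u hu
    have h2 : u = ∑ i, ζ u i • b i := by
      conv_lhs => rw [← hζ u hu]
      rw [lc_apply]
      refine Finset.sum_congr rfl fun i _ => ?_
      show ((ζ u i : ℤ) : ℝ) • b i = _
      rw [Int.cast_smul_eq_zsmul]
    have h3 : ∀ (s : Finset (Fin (rk L))), Lf γ (∑ i ∈ s, ζ u i • b i) (∑ i ∈ s, ζ u i • y i) := by
      intro s
      induction s using Finset.induction_on with
      | empty => simpa using Lf.zero γ
      | insert i s hi ih =>
        rw [Finset.sum_insert hi, Finset.sum_insert hi]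
        refine Lf.add ?_ ih
        obtain ⟨n, hn | hn⟩ := Int.eq_nat_or_neg (ζ u i)
        · rw [hn, natCast_zsmul, natCast_zsmul]; exact (hy i).nsmul n
        · rw [hn, neg_smul, neg_smul, natCast_zsmul, natCast_zsmul]; exact ((hy i).nsmul n).neg
    have h4 := h3 Finset.univ
    rw [← h2] at h4
    exact h4

/-- The elements with a short lift in a lattice of small rank. -/
theorem cover_short {L : AddSubgroup (EuclideanSpace ℝ ι)} (hL : L ≤ LG γ) {R : ℝ} (hR : 0 < R)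
    {n : ℕ} (hn : 1 ≤ n) (hrk : rk L ≤ n) {a : ℕ} (ha : 1 ≤ a) {κ : ℝ} (hκ : 1 ≤ κ)
    (hcard : ((Finset.univ.filter fun y => eg γ y ≤ 2 * R ^ 2).card : ℝ) ≤ κ * a) :
    ∃ (d : ℕ) (B : Set (Fin d → ℝ)) (ψ : (Fin d → ℤ) →+ G) (H : AddSubgroup G) (T : Finset G),
      d ≤ n ∧ Body B ∧ Finite H ∧ (lat B).ncard * Nat.card H ≤ a ∧
      (T.card : ℝ) ≤ Real.exp (876 * n) * κ ∧
      ∀ g, (∃ u ∈ L, ‖u‖ ≤ R ∧ Lf γ u g) → ∃ t ∈ T, ∃ w ∈ lat B, ∃ h ∈ H, g = t + ψ w + h := by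
  classical
  obtain ⟨F, hF1, hF2⟩ := exists_sec hL
  have hd0 : Disc L := (disc_LG γ).mono hL
  have hn0 : (0 : ℝ) < n := by exact_mod_cast hn
  set P : Set G := {g | ∃ u ∈ L, ‖u‖ ≤ R ∧ Lf γ u g} with hP
  have hPsub : P ⊆ ((Finset.univ.filter fun y => eg γ y ≤ 2 * R ^ 2 : Finset G) : Set G) := by
    rintro g ⟨u, hu, huR, hl⟩
    rw [Finset.mem_coe, Finset.mem_filter]
    refine ⟨Finset.mem_univ _, hl.eg_le.trans ?_⟩
    have := norm_nonneg u
    gcongr
  have hPcard : (P.ncard : ℝ) ≤ κ * a := by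
    refine le_trans ?_ hcard
    have h1 := Set.ncard_le_ncard hPsub (Finset.finite_toSet _)
    rw [Set.ncard_coe_finset] at h1
    exact_mod_cast h1
  set ρ : ℝ := Real.sqrt (4 * n) with hρ
  have hρ2 : ρ ^ 2 = 4 * n := Real.sq_sqrt (by positivity)
  have hρ0 : 0 < ρ := Real.sqrt_pos.2 (by positivity)
  set c : ℝ := ρ / R with hc
  have hc0 : 0 < c := div_pos hρ0 hR
  obtain ⟨hd, hrk'⟩ := disc_scl hd0 hc0.ne'
  have hmem : ∀ v, v ∈ scl c L ↔ ∃ u ∈ L, c • u = v := by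
    intro v
    unfold scl
    rw [AddSubgroup.mem_map]
    rfl
  have hH0 : Finite (Hk γ) := inferInstance
  obtain ⟨-, h⟩ := ell_group (Γ := G) hd (F := fun v => F (c⁻¹ • v)) (by
      intro v hv w hw
      obtain ⟨u, hu, rfl⟩ := (hmem v).1 hv
      obtain ⟨u', hu', rfl⟩ := (hmem w).1 hw
      beta_reduce
      rw [smul_add, smul_smul, smul_smul, inv_mul_cancel₀ hc0.ne', one_smul, one_smul]
      exact hF1 u hu u' hu') hn (by
      rw [hrk']
      exact hrk) hρ0.le hρ2 (Hk γ) hH0 (P := P) (by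
      rw [hP]
      ext g
      constructor
      · rintro ⟨u, hu, huR, hl⟩
        refine ⟨c • u, (hmem _).2 ⟨u, hu, rfl⟩, ?_, g - F u, lf_diff hl (hF2 u hu), ?_⟩
        · rw [norm_smul, Real.norm_eq_abs, abs_of_pos hc0, hc, div_mul_eq_mul_div, div_le_iff₀ hR]
          exact mul_le_mul_of_nonneg_left huR hρ0.le
        · rw [smul_smul, inv_mul_cancel₀ hc0.ne', one_smul]
          abel
      · rintro ⟨v, hv, hvρ, k, hk, rfl⟩
        obtain ⟨u, hu, rfl⟩ := (hmem v).1 hv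
        refine ⟨u, hu, ?_, ?_⟩
        · rw [norm_smul, Real.norm_eq_abs, abs_of_pos hc0, hc, div_mul_eq_mul_div,
            div_le_iff₀ hR] at hvρ
          exact le_of_mul_le_mul_left hvρ hρ0
        · rw [smul_smul, inv_mul_cancel₀ hc0.ne', one_smul]
          exact lf_hk (hF2 u hu) hk) ha hκ hPcard
  obtain ⟨d, B, ψ, H, T, h1, h2, h3, h4, h5, h6⟩ := h
  exact ⟨d, B, ψ, H, T, h1, h2, h3, h4, h5, fun g hg => h6 g hg⟩

end T9h11.HB
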