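import Pool.Agent.T9h11.HB1

set_option autoImplicit false
set_option linter.unusedSectionVars false
set_option linter.unusedVariables false

/-! Structure of a set on which the characters are close to one. -/

namespace T9h11.HB

open Finset H460 T9h11.RM T9h11.RW Pool.Agent.Y806.DF
open scoped Classical Pointwise

/-- pigeonhole for masses -/
theorem mass_pigeon {Γ κ : Type*} {σ : Γ → ℝ} (hσ : ∀ y, 0 ≤ σ y) (T : Finset κ)
    (P : κ → Γ → Prop) (A S : Finset Γ) (hAS : A ⊆ S) (hT : T.Nonempty)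
    (h : ∀ a ∈ A, ∃ t ∈ T, P t a) :
    ∃ t ∈ T, ∑ y ∈ A, σ y ≤ T.card * ∑ y ∈ S.filter (P t), σ y := by
  by_contra hcon
  push Not at hcon
  have h1 : ∑ t ∈ T, T.card * ∑ y ∈ S.filter (P t), σ y < ∑ _t ∈ T, ∑ y ∈ A, σ y :=
    Finset.sum_lt_sum_of_nonempty hT hcon
  rw [Finset.sum_const, nsmul_eq_mul, ← Finset.mul_sum] at h1
  have hTpos : (0 : ℝ) < T.card := by exact_mod_cast Finset.card_pos.2 hT
  have h2 := lt_of_mul_lt_mul_left h1 hTpos.le
  have h3 : ∑ y ∈ A, σ y ≤ ∑ t ∈ T, ∑ y ∈ S.filter (P t), σ y := by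
    have h4 : A ⊆ T.biUnion (fun t => S.filter (P t)) := by
      intro a ha
      obtain ⟨t, ht, hP⟩ := h a ha
      exact Finset.mem_biUnion.2 ⟨t, ht, Finset.mem_filter.2 ⟨hAS ha, hP⟩⟩
    refine (Finset.sum_le_sum_of_subset_of_nonneg h4 fun y _ _ => hσ y).trans ?_
    induction T using Finset.induction_on with
    | empty => simp
    | insert t T' ht ih =>
      clear h1 h2 hTpos hcon h h4 hT
      have key : ∀ T'' : Finset κ, ∑ y ∈ T''.biUnion (fun t => S.filter (P t)), σ y ≤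
          ∑ t ∈ T'', ∑ y ∈ S.filter (P t), σ y := by
        intro T''
        induction T'' using Finset.induction_on with
        | empty => simp
        | insert t T''' ht ih =>
          rw [Finset.biUnion_insert, Finset.sum_insert ht]
          have h1 := Finset.sum_union_inter (s₁ := S.filter (P t))
            (s₂ := T'''.biUnion (fun t => S.filter (P t))) (f := σ)
          have h2 : 0 ≤ ∑ y ∈ S.filter (P t) ∩ T'''.biUnion (fun t => S.filter (P t)), σ y :=
            Finset.sum_nonneg fun y _ => hσ y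
          linarith
      exact key _
  linarith

variable {G : Type*} [AddCommGroup G] [Fintype G] {ι : Type*} [Fintype ι]

theorem hb_struct {γ : ι → AddChar G ℂ} {σ : G → ℝ} (hσ0 : ∀ y, 0 ≤ σ y) {P : Finset G}
    (hne : P.Nonempty) {s : ℝ} (hs : 0 < s)
    (hP : ∀ y ∈ P, (∀ j, ‖γ j y - 1‖ < 1 / 2) ∧ eg γ y ≤ s) {K' κ : ℝ} {a : ℕ} (ha : 1 ≤ a)
    (hκ : 1 ≤ κ)
    (h1 : ((Finset.univ.filter fun y => eg γ y ≤ 10 * s).card : ℝ) ≤ K' * P.card)
    (h2 : ((Finset.univ.filter fun y => eg γ y ≤ 10 * s).card : ℝ) ≤ κ * a) :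
    ∃ (d : ℕ) (B : Set (Fin d → ℝ)) (ψ : (Fin d → ℤ) →+ G) (H : AddSubgroup G) (g : G),
      (d : ℝ) ≤ 480 * Real.log K' + 2 ∧ Body B ∧ Finite H ∧ (lat B).ncard * Nat.card H ≤ a ∧
      ∑ y ∈ P, σ y ≤ K' ^ 185 * (Real.exp (876 * (480 * Real.log K' + 2)) * κ) *
        ∑ y ∈ Finset.univ.filter (fun y => ∃ w ∈ lat B, ∃ h ∈ H, y = g + ψ w + h), σ y := by
  have hPpos : (0 : ℝ) < P.card := by exact_mod_cast Finset.card_pos.2 hne
  have hPsub : P ⊆ Finset.univ.filter fun y => eg γ y ≤ 10 * s := by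
    intro y hy
    rw [Finset.mem_filter]
    exact ⟨Finset.mem_univ _, (hP y hy).2.trans (by linarith)⟩
  have hK1 : 1 ≤ K' := by
    have h3 : (P.card : ℝ) ≤ K' * P.card := le_trans (by exact_mod_cast Finset.card_le_card hPsub) h1
    by_contra hcon
    push Not at hcon
    nlinarith
  have hlogK : 0 ≤ Real.log K' := Real.log_nonneg hK1
  set g : G → G × EuclideanSpace ℝ ι := fun y => (y, pl γ y) with hg
  have hginj : Function.Injective g := fun a b h => congrArg Prod.fst h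
  set A := P.image g with hA
  have hAne : A.Nonempty := hne.image g
  have hAcard : A.card = P.card := Finset.card_image_of_injective _ hginj
  have hAA : ((A + A).card : ℝ) ≤ K' * A.card := by
    have h3 : A + A ⊆ (Finset.univ.filter fun y => eg γ y ≤ 10 * s).image g := by
      intro p hp
      obtain ⟨a, ha, b, hb, rfl⟩ := Finset.mem_add.1 hp
      obtain ⟨y, hy, rfl⟩ := Finset.mem_image.1 ha
      obtain ⟨z, hz, rfl⟩ := Finset.mem_image.1 hb
      have h4 := hP y hy
      have h5 := hP z hz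
      refine Finset.mem_image.2 ⟨y + z, Finset.mem_filter.2 ⟨Finset.mem_univ _, ?_⟩, ?_⟩
      · have := eg_add γ y z
        linarith
      · rw [hg]
        simp only [Prod.mk_add_mk]
        rw [pl_add h4.1 h5.1]
    have h4 : ((A + A).card : ℝ) ≤ ((Finset.univ.filter fun y => eg γ y ≤ 10 * s).card : ℝ) := by
      exact_mod_cast (Finset.card_le_card h3).trans Finset.card_image_le
    rw [hAcard]
    exact h4.trans h1
  obtain ⟨S, T, hS, hTA, hT, hcov⟩ := wm_proj hAne hAA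
  have hTne : T.Nonempty := by
    obtain ⟨a, ha⟩ := hAne
    obtain ⟨t, ht, -⟩ := hcov a ha
    exact ⟨t, ht⟩
  -- popular coset
  obtain ⟨t, ht, htm⟩ := mass_pigeon hσ0 T
    (fun t y => pl γ y - t.2 ∈ AddSubgroup.closure (S : Set (EuclideanSpace ℝ ι))) P P
    (Finset.Subset.refl _) hTne (fun y hy => hcov (y, pl γ y) (Finset.mem_image_of_mem g hy))
  obtain ⟨y₀, hy₀, rfl⟩ := Finset.mem_image.1 (hTA ht)
  set P₁ := P.filter (fun y => pl γ y - (g y₀).2 ∈
    AddSubgroup.closure (S : Set (EuclideanSpace ℝ ι))) with hP₁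
  set L : AddSubgroup (EuclideanSpace ℝ ι) := AddSubgroup.closure (S : Set _) ⊓ LG γ with hL
  have hLG : L ≤ LG γ := inf_le_right
  have hdisc : Disc L := (disc_LG γ).mono hLG
  have hrk : rk L ≤ S.card := rk_le_card hdisc inf_le_left
  set n := max 1 S.card with hn
  have hnr : (n : ℝ) ≤ 480 * Real.log K' + 2 := by
    rw [hn, Nat.cast_max]
    refine max_le ?_ (by linarith)
    push_cast
    linarith
  have hRarg : 0 < 5 * s := by positivity
  set R : ℝ := Real.sqrt (5 * s) with hR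
  have hR0 : 0 < R := Real.sqrt_pos.2 hRarg
  have hR2 : R ^ 2 = 5 * s := Real.sq_sqrt hRarg.le
  obtain ⟨d, B, ψ, H, T', hd, hB, hH, hvol, hT', hcov'⟩ := cover_short hLG hR0 (n := n)
    (le_max_left _ _) (hrk.trans (le_max_right _ _)) ha hκ (by
      rw [hR2]
      have : 2 * (5 * s) = 10 * s := by ring
      rw [this]
      exact h2)
  -- the elements of `P₁`
  have hshort : ∀ y ∈ P₁, ∃ t' ∈ T', ∃ w ∈ lat B, ∃ h ∈ H, y = (y₀ + t') + ψ w + h := by
    intro y hy
    rw [hP₁, Finset.mem_filter] at hy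
    obtain ⟨hyP, hycl⟩ := hy
    have h3 : Lf γ (pl γ y - pl γ y₀) (y - y₀) := (lf_pl γ y).sub (lf_pl γ y₀)
    have h4 : ‖pl γ y - pl γ y₀‖ ≤ R := by
      rw [hR]
      apply Real.le_sqrt_of_sq_le
      have h5 := pl_norm γ y
      have h6 := pl_norm γ y₀
      have h7 := (hP y hyP).2
      have h8 := (hP y₀ hy₀).2
      have h9 := norm_sub_le (pl γ y) (pl γ y₀)
      have h10 := norm_nonneg (pl γ y - pl γ y₀)
      nlinarith [sq_nonneg (‖pl γ y‖ - ‖pl γ y₀‖)]
    obtain ⟨t', ht', w, hw, h, hh, he⟩ := hcov' (y - y₀) ⟨_, ⟨hycl, y - y₀, h3⟩, h4, h3⟩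
    refine ⟨t', ht', w, hw, h, hh, ?_⟩
    have h5 : y = y₀ + (y - y₀) := by abel
    rw [h5, he]
    abel
  have hT'ne : T'.Nonempty := by
    obtain ⟨t', ht', -⟩ := hshort y₀ (by
      rw [hP₁, Finset.mem_filter]
      refine ⟨hy₀, ?_⟩
      show pl γ y₀ - pl γ y₀ ∈ _
      rw [sub_self]
      exact AddSubgroup.zero_mem _)
    exact ⟨t', ht'⟩
  obtain ⟨t', ht', htm'⟩ := mass_pigeon hσ0 T'
    (fun t' y => ∃ w ∈ lat B, ∃ h ∈ H, y = (y₀ + t') + ψ w + h) P₁ Finset.univ
    (Finset.subset_univ _) hT'ne hshort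
  refine ⟨d, B, ψ, H, y₀ + t', ?_, hB, hH, hvol, ?_⟩
  · exact le_trans (by exact_mod_cast hd) hnr
  · set m := ∑ y ∈ Finset.univ.filter (fun y => ∃ w ∈ lat B, ∃ h ∈ H, y = (y₀ + t') + ψ w + h),
      σ y with hm
    have hm0 : 0 ≤ m := Finset.sum_nonneg fun y _ => hσ0 y
    have h3 : (T'.card : ℝ) ≤ Real.exp (876 * (480 * Real.log K' + 2)) * κ := by
      refine hT'.trans ?_
      have : Real.exp (876 * n) ≤ Real.exp (876 * (480 * Real.log K' + 2)) :=
        Real.exp_le_exp.2 (by linarith)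
      exact mul_le_mul_of_nonneg_right this (by linarith)
    calc ∑ y ∈ P, σ y ≤ T.card * ∑ y ∈ P₁, σ y := htm
      _ ≤ T.card * (T'.card * m) := mul_le_mul_of_nonneg_left htm' (Nat.cast_nonneg _)
      _ ≤ K' ^ 185 * ((Real.exp (876 * (480 * Real.log K' + 2)) * κ) * m) := by
          refine mul_le_mul hT (mul_le_mul_of_nonneg_right h3 hm0) ?_ ?_
          · exact mul_nonneg (Nat.cast_nonneg _) hm0
          · exact (Nat.cast_nonneg _).trans hT
      _ = _ := by ring

end T9h11.HB
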