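import Pool.Agent.T9h11.RW8

set_option autoImplicit false
set_option linter.unusedSectionVars false
set_option linter.unusedVariables false

/-! Sampling: from a walk with arbitrary rates to a walk with few equal rates. -/

namespace T9h11.RW

open Finset H460 T9h11.RM Pool.Agent.Y806.DF
open scoped Classical

variable {Γ : Type*} [AddCommGroup Γ] [Fintype Γ] {κ' : Type*} [Fintype κ']

/-- the energy of a walk with rates `r` and steps `z` -/
noncomputable def Er (z : κ' → Γ) (r : κ' → ℝ) (χ : AddChar Γ ℂ) : ℝ :=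
  ∑ i, r i * (1 - (χ (z i)).re)

theorem Er_nonneg (z : κ' → Γ) {r : κ' → ℝ} (hr : ∀ i, 0 ≤ r i) (χ : AddChar Γ ℂ) :
    0 ≤ Er z r χ :=
  Finset.sum_nonneg fun i _ => mul_nonneg (hr i) (by linarith [re_le_one χ (z i)])

theorem neg_one_le_re (χ : AddChar Γ ℂ) (x : Γ) : -1 ≤ (χ x).re := by
  have h := Complex.abs_re_le_norm (χ x)
  rw [norm_char] at h
  exact (abs_le.1 h).1

theorem Er_le (z : κ' → Γ) {r : κ' → ℝ} (hr : ∀ i, 0 ≤ r i) (χ : AddChar Γ ℂ) :
    Er z r χ ≤ 2 * ∑ i, r i := by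
  unfold Er
  rw [Finset.mul_sum]
  refine Finset.sum_le_sum fun i _ => ?_
  have := neg_one_le_re χ (z i)
  nlinarith [hr i]

theorem sum_sq' (σ : Γ → ℝ) : ∑ χ, sq' σ χ = Fintype.card Γ * ∑ y, σ y ^ 2 := by
  unfold sq'
  rw [Finset.sum_comm, Finset.mul_sum]
  refine Finset.sum_congr rfl fun y _ => ?_
  rw [Finset.sum_comm]
  simp_rw [← Finset.mul_sum, sum_re]
  rw [Finset.sum_eq_single y]
  · simp; ring
  · intro y' _ hy'
    rw [if_neg (sub_ne_zero.2 hy'), mul_zero]
  · intro h; exact absurd (Finset.mem_univ _) h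

theorem sq'_le_one {σ : Γ → ℝ} (hσ0 : ∀ y, 0 ≤ σ y) (hσ1 : ∑ y, σ y = 1) (χ : AddChar Γ ℂ) :
    sq' σ χ ≤ 1 := by
  have h : (1 : ℝ) = ∑ y, ∑ y', σ y * σ y' := by
    rw [← Finset.sum_mul_sum, hσ1, one_mul]
  rw [h]
  unfold sq'
  refine Finset.sum_le_sum fun y _ => Finset.sum_le_sum fun y' _ => ?_
  have := re_le_one χ (y' - y)
  nlinarith [mul_nonneg (hσ0 y) (hσ0 y')]

/-- doubling the time -/
theorem cs_double {σ : Γ → ℝ} (E : AddChar Γ ℂ → ℝ) :
    (∑ χ, sq' σ χ * Real.exp (-E χ)) ^ 2 ≤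
      (∑ χ, sq' σ χ) * ∑ χ, sq' σ χ * Real.exp (-(2 * E χ)) := by
  have h := Finset.sum_mul_sq_le_sq_mul_sq (Finset.univ : Finset (AddChar Γ ℂ))
    (fun χ => Real.sqrt (sq' σ χ)) (fun χ => Real.sqrt (sq' σ χ) * Real.exp (-E χ))
  have e1 : ∀ χ : AddChar Γ ℂ, Real.sqrt (sq' σ χ) * (Real.sqrt (sq' σ χ) * Real.exp (-E χ)) =
      sq' σ χ * Real.exp (-E χ) := by
    intro χ
    rw [← mul_assoc, Real.mul_self_sqrt (sq'_nonneg σ χ)]
  have e2 : ∀ χ : AddChar Γ ℂ, Real.sqrt (sq' σ χ) ^ 2 = sq' σ χ := fun χ =>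
    Real.sq_sqrt (sq'_nonneg σ χ)
  have e3 : ∀ χ : AddChar Γ ℂ, (Real.sqrt (sq' σ χ) * Real.exp (-E χ)) ^ 2 =
      sq' σ χ * Real.exp (-(2 * E χ)) := by
    intro χ
    rw [mul_pow, Real.sq_sqrt (sq'_nonneg σ χ), ← Real.exp_nat_mul]
    congr 2
    push_cast; ring
  simp_rw [e1, e2, e3] at h
  exact h

/-- sampled energies: the two-sided estimate -/
theorem sample_bounds (z : κ' → Γ) {r : κ' → ℝ} (hr : ∀ i, 0 ≤ r i) {m : ℝ} (hm : ∑ i, r i = m)
    (hm0 : 0 < m) {M : ℕ} {T : ℝ} (hT0 : 0 ≤ T) (hT : T ≤ 1 / 2) (hTM : T * M = 2 * m)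
    (χ : AddChar Γ ℂ) :
    Real.exp (-(2 * Er z r χ)) ≤ ∑ ω : Fin M → κ', (∏ j, r (ω j) / m) *
        Real.exp (-T * ee (fun j => z (ω j)) χ) ∧
      ∑ ω : Fin M → κ', (∏ j, r (ω j) / m) * Real.exp (-T * ee (fun j => z (ω j)) χ) ≤
        Real.exp (-Er z r χ) := by
  set A : ℝ := ∑ i, r i / m * Real.exp (-T * (1 - (χ (z i)).re)) with hA
  have h1 : ∑ ω : Fin M → κ', (∏ j, r (ω j) / m) * Real.exp (-T * ee (fun j => z (ω j)) χ) =
      A ^ M := by
    have h2 : ∀ ω : Fin M → κ', (∏ j, r (ω j) / m) * Real.exp (-T * ee (fun j => z (ω j)) χ) =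
        ∏ j, (r (ω j) / m * Real.exp (-T * (1 - (χ (z (ω j))).re))) := by
      intro ω
      rw [Finset.prod_mul_distrib]
      congr 1
      rw [← Real.exp_sum]
      congr 1
      unfold ee
      rw [Finset.mul_sum]
    simp_rw [h2]
    have h3 := Finset.prod_univ_sum (fun _ : Fin M => (Finset.univ : Finset κ'))
      (fun _ i => r i / m * Real.exp (-T * (1 - (χ (z i)).re)))
    rw [Finset.prod_const, Finset.card_univ, Fintype.card_fin] at h3
    rw [hA, h3, Fintype.piFinset_univ]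
  rw [h1]
  have hq : ∑ i, r i / m = 1 := by
    rw [← Finset.sum_div, hm, div_self hm0.ne']
  have hu0 : ∀ i, 0 ≤ 1 - (χ (z i)).re := fun i => by linarith [re_le_one χ (z i)]
  have hu2 : ∀ i, 1 - (χ (z i)).re ≤ 2 := fun i => by linarith [neg_one_le_re χ (z i)]
  have hq0 : ∀ i, 0 ≤ r i / m := fun i => div_nonneg (hr i) hm0.le
  set e : ℝ := ∑ i, r i / m * (1 - (χ (z i)).re) with he
  have hEe : Er z r χ = m * e := by
    rw [he, Finset.mul_sum]
    unfold Er
    refine Finset.sum_congr rfl fun i _ => ?_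
    field_simp
  have hlow : Real.exp (-(T * e)) ≤ A := by
    have h2 : Real.exp (-(T * e)) = ∑ i, r i / m * (Real.exp (-(T * e)) *
        (-T * (1 - (χ (z i)).re) + T * e + 1)) := by
      have h3 : ∑ i, r i / m * (Real.exp (-(T * e)) * (-T * (1 - (χ (z i)).re) + T * e + 1)) =
          ∑ i, ((Real.exp (-(T * e)) * -T) * (r i / m * (1 - (χ (z i)).re)) +
            (Real.exp (-(T * e)) * (T * e + 1)) * (r i / m)) :=
        Finset.sum_congr rfl fun i _ => by ring
      rw [h3, Finset.sum_add_distrib, ← Finset.mul_sum, ← Finset.mul_sum, hq, ← he]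
      ring
    rw [h2, hA]
    refine Finset.sum_le_sum fun i _ => mul_le_mul_of_nonneg_left ?_ (hq0 i)
    have h3 := Real.add_one_le_exp (-T * (1 - (χ (z i)).re) + T * e)
    calc Real.exp (-(T * e)) * (-T * (1 - (χ (z i)).re) + T * e + 1) ≤
        Real.exp (-(T * e)) * Real.exp (-T * (1 - (χ (z i)).re) + T * e) :=
          mul_le_mul_of_nonneg_left h3 (Real.exp_pos _).le
      _ = Real.exp (-T * (1 - (χ (z i)).re)) := by rw [← Real.exp_add]; congr 1; ring
  have hup : A ≤ Real.exp (-(T * e / 2)) := by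
    have h2 : A ≤ 1 - T * e / 2 := by
      have h3 : 1 - T * e / 2 = ∑ i, r i / m * (1 - T * (1 - (χ (z i)).re) / 2) := by
        have h4 : ∑ i, r i / m * (1 - T * (1 - (χ (z i)).re) / 2) =
            ∑ i, r i / m - T * e / 2 := by
          rw [he, Finset.mul_sum, Finset.sum_div, ← Finset.sum_sub_distrib]
          refine Finset.sum_congr rfl fun i _ => ?_
          ring
        rw [h4, hq]
      rw [h3, hA]
      refine Finset.sum_le_sum fun i _ => mul_le_mul_of_nonneg_left ?_ (hq0 i)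
      set y := T * (1 - (χ (z i)).re) with hy
      have hy0 : 0 ≤ y := mul_nonneg hT0 (hu0 i)
      have hy1 : y ≤ 1 := by
        rw [hy]
        nlinarith [hu0 i, hu2 i]
      have h5 : -T * (1 - (χ (z i)).re) = -y := by rw [hy]; ring
      rw [h5]
      -- exp(-y) ≤ 1 - y/2 on [0,1]
      have h6 : Real.exp (-y) * (1 + y + y ^ 2 / 2) ≤ 1 := by
        have h7 := Real.quadratic_le_exp_of_nonneg hy0
        calc Real.exp (-y) * (1 + y + y ^ 2 / 2) ≤ Real.exp (-y) * Real.exp y :=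
              mul_le_mul_of_nonneg_left h7 (Real.exp_pos _).le
          _ = 1 := by rw [← Real.exp_add]; simp
      have h7 : 1 ≤ (1 - y / 2) * (1 + y + y ^ 2 / 2) := by nlinarith [sq_nonneg y, mul_nonneg hy0 hy0]
      have h8 : 0 < 1 + y + y ^ 2 / 2 := by positivity
      exact le_of_mul_le_mul_right (h6.trans h7) h8
    have h3 := Real.add_one_le_exp (-(T * e / 2))
    linarith
  have hA0 : 0 ≤ A := (Real.exp_pos _).le.trans hlow
  constructor
  · calc Real.exp (-(2 * Er z r χ)) = Real.exp (-(T * e)) ^ M := by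
          rw [← Real.exp_nat_mul, hEe]
          congr 1
          linear_combination e * hTM
      _ ≤ A ^ M := by gcongr
  · calc A ^ M ≤ Real.exp (-(T * e / 2)) ^ M := by gcongr
      _ = Real.exp (-Er z r χ) := by
          rw [← Real.exp_nat_mul, hEe]
          congr 1
          linear_combination (-e / 2) * hTM

/-- The theorem for finite groups, in Fourier form. -/
theorem fourier_form (z : κ' → Γ) {r : κ' → ℝ} (hr : ∀ i, 0 ≤ r i) {σ : Γ → ℝ}
    (hσ0 : ∀ y, 0 ≤ σ y) (hσ1 : ∑ y, σ y = 1) {K : ℝ} (hK : 1 ≤ K)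
    (h1 : ∑ χ, Real.exp (-Er z r χ) ≤ K * (Fintype.card Γ * ∑ y, σ y ^ 2))
    (h2 : Fintype.card Γ * ∑ y, σ y ^ 2 ≤ K * ∑ χ, sq' σ χ * Real.exp (-Er z r χ)) :
    ∃ (d : ℕ) (B : Set (Fin d → ℝ)) (ψ : (Fin d → ℤ) →+ Γ) (H : AddSubgroup Γ) (g : Γ),
      (d : ℝ) ≤ 10 ^ 15 * Real.log (2 * K) ∧ Body B ∧ Finite H ∧
      ((lat B).ncard * Nat.card H : ℕ) * (∑ y, σ y ^ 2) ≤ 1 ∧
      Real.exp (-(10 ^ 15 * Real.log (2 * K))) ≤
        ∑ y ∈ Finset.univ.filter (fun y => ∃ w ∈ lat B, ∃ h ∈ H, y = g + ψ w + h), σ y := by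
  have hn : (0 : ℝ) < Fintype.card Γ := by exact_mod_cast Fintype.card_pos
  set s₂ := ∑ y, σ y ^ 2 with hs₂
  have hs₂0 : 0 < s₂ := by
    obtain ⟨y, -, hy⟩ := Finset.exists_ne_zero_of_sum_ne_zero (by rw [hσ1]; norm_num :
      ∑ y, σ y ≠ 0)
    refine Finset.sum_pos' (fun y _ => sq_nonneg _) ⟨y, Finset.mem_univ _, ?_⟩
    positivity
  have hσle : ∀ y, σ y ≤ 1 := fun y => by
    rw [← hσ1]; exact Finset.single_le_sum (fun y _ => hσ0 y) (Finset.mem_univ y)
  have hs₂1 : s₂ ≤ 1 := by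
    rw [← hσ1]
    refine Finset.sum_le_sum fun y _ => ?_
    nlinarith [hσ0 y, hσle y]
  set n : ℝ := (Fintype.card Γ : ℝ) with hndef
  set m := ∑ i, r i with hm
  have hm0 : 0 ≤ m := Finset.sum_nonneg fun i _ => hr i
  have hK0 : 0 < K := by linarith
  have hlog : 0.69 ≤ Real.log (2 * K) := by
    have h3 := Real.log_two_gt_d9
    have h4 := Real.log_le_log (by norm_num : (0 : ℝ) < 2) (by linarith : (2 : ℝ) ≤ 2 * K)
    linarith
  have hlog0 : 0 ≤ Real.log (2 * K) := by linarith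
  rcases lt_or_ge m (1 / 4) with hsmall | hbig
  · -- no jumps
    have h3 : n * Real.exp (-(1 / 2)) ≤ K * (n * s₂) := by
      refine le_trans ?_ h1
      have h4 : ∀ χ ∈ (Finset.univ : Finset (AddChar Γ ℂ)), Real.exp (-(1 / 2)) ≤
          Real.exp (-Er z r χ) := by
        intro χ _
        apply Real.exp_le_exp.2
        have := Er_le z hr χ
        rw [← hm] at this
        linarith
      have h5 := Finset.card_nsmul_le_sum _ _ _ h4
      rw [Finset.card_univ, AddChar.card_eq, nsmul_eq_mul] at h5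
      exact h5
    have h4 : Real.exp (-(1 / 2)) ≤ K * s₂ := by
      have : n * Real.exp (-(1 / 2)) ≤ n * (K * s₂) := by linarith
      exact le_of_mul_le_mul_left this hn
    have h5 : 1 / 2 ≤ Real.exp (-(1 / 2)) := by
      have := Real.add_one_le_exp (-(1 / 2 : ℝ))
      linarith
    have h6 : 1 / (2 * K) ≤ s₂ := by
      rw [div_le_iff₀ (by positivity)]
      nlinarith
    obtain ⟨y, hy⟩ : ∃ y, 1 / (2 * K) ≤ σ y := by
      by_contra hcon
      push Not at hcon
      obtain ⟨y₁, -, hy₁⟩ := Finset.exists_ne_zero_of_sum_ne_zero (by rw [hσ1]; norm_num :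
        ∑ y, σ y ≠ 0)
      have h7 : s₂ < ∑ y, σ y * (1 / (2 * K)) := by
        rw [hs₂]
        refine Finset.sum_lt_sum (fun y _ => ?_) ⟨y₁, Finset.mem_univ _, ?_⟩
        · rw [sq]; exact mul_le_mul_of_nonneg_left (hcon y).le (hσ0 y)
        · rw [sq]
          exact mul_lt_mul_of_pos_left (hcon y₁) (lt_of_le_of_ne (hσ0 y₁) (Ne.symm hy₁))
      rw [← Finset.sum_mul, hσ1, one_mul] at h7
      linarith
    refine ⟨0, Set.univ, 0, ⊥, y, ?_, ⟨convex_univ, isCompact_univ, ?_, fun _ _ => Set.mem_univ _⟩,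
      inferInstance, ?_, ?_⟩
    · push_cast; positivity
    · rw [interior_univ]; exact Set.univ_nonempty
    · have h7 : (lat (Set.univ : Set (Fin 0 → ℝ))).ncard ≤ 1 := by
        rw [Set.ncard_le_one_iff_subsingleton]
        exact Set.subsingleton_of_subsingleton
      have h8 : ((lat (Set.univ : Set (Fin 0 → ℝ))).ncard * Nat.card (⊥ : AddSubgroup Γ) : ℕ) ≤ 1 := by
        rw [AddSubgroup.card_bot, mul_one]; exact h7
      have h9 : (((lat (Set.univ : Set (Fin 0 → ℝ))).ncard * Nat.card (⊥ : AddSubgroup Γ) : ℕ) : ℝ)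
          ≤ 1 := by exact_mod_cast h8
      calc _ ≤ 1 * s₂ := mul_le_mul_of_nonneg_right h9 hs₂0.le
        _ ≤ 1 := by linarith
    · refine le_trans (le_trans ?_ hy) (Finset.single_le_sum (f := σ) (fun y _ => hσ0 y) ?_)
      swap
      · simp only [Finset.mem_filter, Finset.mem_univ, true_and]
        exact ⟨0, Set.mem_univ _, 0, AddSubgroup.zero_mem _, by simp⟩
      have h8 : 1 / (2 * K) = Real.exp (-Real.log (2 * K)) := by
        rw [Real.exp_neg, Real.exp_log (by positivity), one_div]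
      rw [h8]
      apply Real.exp_le_exp.2
      nlinarith
  · -- sampling
    have hmpos : 0 < m := by linarith
    set M := ⌈4 * m⌉₊ with hM
    have hM1 : 4 * m ≤ M := Nat.le_ceil _
    have hM2 : (M : ℝ) < 4 * m + 1 := Nat.ceil_lt_add_one (by positivity)
    have hMpos : (0 : ℝ) < M := by linarith
    set T : ℝ := 2 * m / M with hT
    have hT0 : 0 ≤ T := by positivity
    have hT1 : T ≤ 1 / 2 := by
      rw [hT, div_le_iff₀ hMpos]; linarith
    have hT2 : 1 / 4 ≤ T := by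
      rw [hT, le_div_iff₀ hMpos]; linarith
    have hTM : T * M = 2 * m := by
      rw [hT]; field_simp
    have hsb := fun χ : AddChar Γ ℂ => sample_bounds z hr hm.symm hmpos hT0 hT1 hTM χ
    set q : (Fin M → κ') → ℝ := fun ω => ∏ j, r (ω j) / m with hq
    have hq0 : ∀ ω, 0 ≤ q ω := fun ω => Finset.prod_nonneg fun j _ => div_nonneg (hr _) hmpos.le
    have hq1 : ∑ ω, q ω = 1 := by
      have h3 := Finset.prod_univ_sum (fun _ : Fin M => (Finset.univ : Finset κ'))
        (fun _ i => r i / m)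
      rw [Fintype.piFinset_univ] at h3
      rw [hq, ← h3, ← Finset.sum_div, ← hm, div_self hmpos.ne']
      simp
    have hPars := sum_sq' σ
    rw [← hndef, ← hs₂] at hPars
    -- time doubling for the original walk
    have h3 : n * s₂ / K ^ 2 ≤ ∑ χ, sq' σ χ * Real.exp (-(2 * Er z r χ)) := by
      have h4 := cs_double (σ := σ) (Er z r)
      rw [hPars] at h4
      have h5 : (n * s₂ / K) ^ 2 ≤ (∑ χ, sq' σ χ * Real.exp (-Er z r χ)) ^ 2 := by
        have h6 : n * s₂ / K ≤ ∑ χ, sq' σ χ * Real.exp (-Er z r χ) := by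
          rw [div_le_iff₀ hK0]; linarith
        have h7 : 0 ≤ n * s₂ / K := by positivity
        gcongr
      have h6 : (n * s₂) * (n * s₂ / K ^ 2) ≤
          (n * s₂) * ∑ χ, sq' σ χ * Real.exp (-(2 * Er z r χ)) := by
        refine le_trans (le_of_eq ?_) (h5.trans h4)
        field_simp
      exact le_of_mul_le_mul_left h6 (by positivity)
    -- averages
    have h4 : ∑ χ, sq' σ χ * Real.exp (-(2 * Er z r χ)) ≤
        ∑ ω, q ω * SS (fun j => z (ω j)) T (sq' σ) := by
      have h5 : ∑ ω, q ω * SS (fun j => z (ω j)) T (sq' σ) =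
          ∑ χ, sq' σ χ * ∑ ω, q ω * Real.exp (-T * ee (fun j => z (ω j)) χ) := by
        unfold SS
        simp_rw [Finset.mul_sum]
        rw [Finset.sum_comm]
        refine Finset.sum_congr rfl fun χ _ => Finset.sum_congr rfl fun ω _ => ?_
        ring
      rw [h5]
      exact Finset.sum_le_sum fun χ _ => mul_le_mul_of_nonneg_left (hsb χ).1 (sq'_nonneg σ χ)
    have h5 : ∑ ω, q ω * SS (fun j => z (ω j)) T (fun _ => 1) ≤ K * (n * s₂) := by
      refine le_trans (le_of_eq ?_) ((Finset.sum_le_sum fun χ _ => (hsb χ).2).trans h1)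
      unfold SS
      simp_rw [Finset.mul_sum]
      rw [Finset.sum_comm]
      refine Finset.sum_congr rfl fun χ _ => Finset.sum_congr rfl fun ω _ => ?_
      ring
    -- a good sample
    obtain ⟨ω, hω⟩ : ∃ ω : Fin M → κ', n * s₂ / (2 * K ^ 2) ≤ SS (fun j => z (ω j)) T (sq' σ) -
        SS (fun j => z (ω j)) T (fun _ => 1) / (2 * K ^ 3) := by
      by_contra hcon
      push Not at hcon
      have h6 : ∑ ω, q ω * (SS (fun j => z (ω j)) T (sq' σ) -
        SS (fun j => z (ω j)) T (fun _ => 1) / (2 * K ^ 3)) < n * s₂ / (2 * K ^ 2) := by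
        have h7 : n * s₂ / (2 * K ^ 2) = ∑ ω, q ω * (n * s₂ / (2 * K ^ 2)) := by
          rw [← Finset.sum_mul, hq1, one_mul]
        conv_rhs => rw [h7]
        obtain ⟨ω, -, hω⟩ := Finset.exists_ne_zero_of_sum_ne_zero (by rw [hq1]; norm_num :
          ∑ ω, q ω ≠ 0)
        refine Finset.sum_lt_sum (fun ω _ => mul_le_mul_of_nonneg_left (hcon ω).le (hq0 ω))
          ⟨ω, Finset.mem_univ _, ?_⟩
        exact mul_lt_mul_of_pos_left (hcon ω) (lt_of_le_of_ne (hq0 ω) (Ne.symm hω))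
      have h7 : ∑ ω, q ω * (SS (fun j => z (ω j)) T (sq' σ) -
        SS (fun j => z (ω j)) T (fun _ => 1) / (2 * K ^ 3)) =
        ∑ ω, q ω * SS (fun j => z (ω j)) T (sq' σ) -
          (∑ ω, q ω * SS (fun j => z (ω j)) T (fun _ => 1)) / (2 * K ^ 3) := by
        rw [Finset.sum_div, ← Finset.sum_sub_distrib]
        refine Finset.sum_congr rfl fun ω _ => ?_
        ring
      rw [h7] at h6
      have h8 : (∑ ω, q ω * SS (fun j => z (ω j)) T (fun _ => 1)) / (2 * K ^ 3) ≤
          K * (n * s₂) / (2 * K ^ 3) := by gcongr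
      have h9 : K * (n * s₂) / (2 * K ^ 3) = n * s₂ / (2 * K ^ 2) := by
        field_simp
      have h10 : n * s₂ / K ^ 2 = n * s₂ / (2 * K ^ 2) + n * s₂ / (2 * K ^ 2) := by
        field_simp; norm_num
      linarith
    set x : Fin M → Γ := fun j => z (ω j) with hx
    set NT := SS x T (sq' σ) with hNT
    set ZT := SS x T (fun _ => 1) with hZT
    have hZT0 : 0 < ZT := SS_pos x T
    have hns : 0 < n * s₂ := by positivity
    have hNT1 : n * s₂ / (2 * K ^ 2) ≤ NT := by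
      have : 0 ≤ ZT / (2 * K ^ 3) := by positivity
      linarith
    have hNT2 : NT ≤ n * s₂ := by
      rw [← hPars, hNT]
      unfold SS
      refine Finset.sum_le_sum fun χ _ => ?_
      have h6 : Real.exp (-T * ee x χ) ≤ 1 := by
        apply Real.exp_le_one_iff.2
        have := ee_nonneg x χ
        nlinarith
      have h7 := mul_le_mul_of_nonneg_left h6 (sq'_nonneg σ χ)
      linarith
    have hZN : ZT ≤ 2 * K ^ 3 * (n * s₂) := by
      have h6 : 0 ≤ n * s₂ / (2 * K ^ 2) := by positivity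
      have h7 : ZT / (2 * K ^ 3) ≤ NT := by linarith
      rw [div_le_iff₀ (by positivity)] at h7
      calc ZT ≤ NT * (2 * K ^ 3) := h7
        _ ≤ (n * s₂) * (2 * K ^ 3) := mul_le_mul_of_nonneg_right hNT2 (by positivity)
        _ = _ := by ring
    -- doubling
    set β := 2 * T with hβ
    have hβ2 : β / 2 = T := by rw [hβ]; ring
    have hNβ : n * s₂ / (4 * K ^ 4) ≤ SS x β (sq' σ) := by
      have h6 := cs_double (σ := σ) (fun χ => T * ee x χ)
      rw [hPars] at h6
      have h7 : ∑ χ, sq' σ χ * Real.exp (-(T * ee x χ)) = NT := by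
        rw [hNT]; unfold SS
        refine Finset.sum_congr rfl fun χ _ => ?_
        rw [neg_mul]
      have h8 : ∑ χ, sq' σ χ * Real.exp (-(2 * (T * ee x χ))) = SS x β (sq' σ) := by
        unfold SS
        refine Finset.sum_congr rfl fun χ _ => ?_
        rw [hβ]; congr 2; ring
      rw [h7, h8] at h6
      have h9 : (n * s₂ / (2 * K ^ 2)) ^ 2 ≤ NT ^ 2 := by
        have : 0 ≤ n * s₂ / (2 * K ^ 2) := by positivity
        gcongr
      have h10 : (n * s₂) * (n * s₂ / (4 * K ^ 4)) ≤ (n * s₂) * SS x β (sq' σ) := by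
        refine le_trans (le_of_eq ?_) (h9.trans h6)
        field_simp
        norm_num
      exact le_of_mul_le_mul_left h10 hns
    have hZβ1 : SS x β (sq' σ) ≤ SS x β (fun _ => 1) :=
      SS_mono x β (sq'_le_one hσ0 hσ1)
    have hZβ2 : SS x β (fun _ => 1) ≤ ZT := by
      rw [hZT]; unfold SS
      refine Finset.sum_le_sum fun χ _ => ?_
      rw [one_mul, one_mul]
      apply Real.exp_le_exp.2
      have := ee_nonneg x χ
      rw [hβ]
      nlinarith
    set κ := Real.log (8 * K ^ 7) with hκ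
    have h8K : 0 < 8 * K ^ 7 := by positivity
    have hexpκ : Real.exp κ = 8 * K ^ 7 := Real.exp_log h8K
    have hexpκ' : Real.exp (-κ) = 1 / (8 * K ^ 7) := by rw [Real.exp_neg, hexpκ, one_div]
    have hK7 : 1 ≤ K ^ 7 := one_le_pow₀ hK
    have hκ0 : 0 ≤ κ := Real.log_nonneg (by linarith)
    have hκle : κ ≤ 7 * Real.log (2 * K) := by
      have h6 : 7 * Real.log (2 * K) = Real.log ((2 * K) ^ 7) := by
        rw [Real.log_pow]; norm_num
      rw [h6, hκ]
      apply Real.log_le_log h8K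
      have h7 : (2 * K) ^ 7 = 128 * K ^ 7 := by rw [mul_pow]; norm_num
      rw [h7]; linarith
    obtain ⟨d, B, ψ, H, g, hd, hB, hH, hvol, hmass⟩ := core (x := x) hσ0 hσ1 (β := β) (κ := κ)
      (lam := 2800001 * κ + 1) (by rw [hβ]; linarith) (by rw [hβ]; linarith) hκ0 le_rfl (by
        rw [hβ2, hexpκ, ← hZT]
        have h6 := hNβ.trans hZβ1
        calc ZT ≤ 2 * K ^ 3 * (n * s₂) := hZN
          _ = 8 * K ^ 7 * (n * s₂ / (4 * K ^ 4)) := by field_simp; norm_num
          _ ≤ 8 * K ^ 7 * SS x β (fun _ => 1) := mul_le_mul_of_nonneg_left h6 h8K.le) (by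
        rw [hexpκ', one_div, inv_mul_le_iff₀ h8K]
        calc SS x β (fun _ => 1) ≤ 2 * K ^ 3 * (n * s₂) := hZβ2.trans hZN
          _ = 8 * K ^ 7 * (n * s₂ / (4 * K ^ 4)) := by field_simp; norm_num
          _ ≤ 8 * K ^ 7 * SS x β (sq' σ) := mul_le_mul_of_nonneg_left hNβ h8K.le) (by
        refine le_trans ?_ (hNβ.trans hZβ1)
        rw [hexpκ', ← hndef, ← hs₂, one_div, inv_mul_le_iff₀ h8K]
        have h6 : 8 * K ^ 7 * (n * s₂ / (4 * K ^ 4)) = 2 * K ^ 3 * (n * s₂) := by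
          field_simp; norm_num
        rw [h6]
        have h7 : 1 ≤ K ^ 3 := one_le_pow₀ hK
        nlinarith)
    refine ⟨d, B, ψ, H, g, ?_, hB, hH, hvol, le_trans (Real.exp_le_exp.2 ?_) hmass⟩
    · refine hd.trans ?_
      nlinarith
    · nlinarith

end T9h11.RW
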