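import Pool.Agent.T9h11.HB2
import Pool.Agent.T9h11.RW9

set_option autoImplicit false
set_option linter.unusedSectionVars false
set_option linter.unusedVariables false

/-! Sampling of characters. -/

namespace T9h11.HB

open Finset H460 T9h11.RM T9h11.RW Pool.Agent.Y806.DF
open scoped Classical Pointwise

theorem exp_neg_chord {u : ℝ} (h0 : 0 ≤ u) (h2 : u ≤ 2) : Real.exp (-u) ≤ 1 - 2 / 5 * u := by
  have h := convexOn_exp.2 (Set.mem_univ (0 : ℝ)) (Set.mem_univ (-2 : ℝ))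
    (show (0 : ℝ) ≤ 1 - u / 2 by linarith) (show (0 : ℝ) ≤ u / 2 by linarith) (by ring)
  simp only [smul_eq_mul, mul_zero, zero_add, Real.exp_zero, mul_one] at h
  have h3 : u / 2 * -2 = -u := by ring
  rw [h3] at h
  have h4 : Real.exp (-2) ≤ 1 / 5 := by
    have h5 := Real.exp_one_gt_d9
    have h6 : Real.exp (-2) = (Real.exp 1 ^ 2)⁻¹ := by
      rw [← Real.exp_nat_mul, ← Real.exp_neg]; norm_num
    rw [h6, one_div]
    apply inv_anti₀ (by norm_num)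
    nlinarith
  nlinarith

theorem exp_chord {u : ℝ} (h0 : 0 ≤ u) (h2 : u ≤ 2) : Real.exp u ≤ 1 + 4 * u := by
  have h := convexOn_exp.2 (Set.mem_univ (0 : ℝ)) (Set.mem_univ (2 : ℝ))
    (show (0 : ℝ) ≤ 1 - u / 2 by linarith) (show (0 : ℝ) ≤ u / 2 by linarith) (by ring)
  simp only [smul_eq_mul, mul_zero, zero_add, Real.exp_zero, mul_one] at h
  have h3 : u / 2 * 2 = u := by ring
  rw [h3] at h
  have h4 : Real.exp 2 ≤ 9 := by
    have h5 := Real.exp_one_lt_d9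
    have h6 : Real.exp 2 = Real.exp 1 ^ 2 := by
      rw [← Real.exp_nat_mul]; norm_num
    rw [h6]
    nlinarith [Real.exp_pos 1]
  nlinarith

theorem one_sub_ge {x : ℝ} (h0 : 0 ≤ x) (h1 : x ≤ 1 / 2) : Real.exp (-(2 * x)) ≤ 1 - x := by
  have h := convexOn_exp.2 (Set.mem_univ (0 : ℝ)) (Set.mem_univ (-1 : ℝ))
    (show (0 : ℝ) ≤ 1 - 2 * x by linarith) (show (0 : ℝ) ≤ 2 * x by linarith) (by ring)
  simp only [smul_eq_mul, mul_zero, zero_add, Real.exp_zero, mul_one] at h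
  have h3 : 2 * x * -1 = -(2 * x) := by ring
  rw [h3] at h
  have h4 : Real.exp (-1) ≤ 1 / 2 := by
    rw [Real.exp_neg, inv_eq_one_div]
    apply one_div_le_one_div_of_le (by norm_num)
    linarith [Real.exp_one_gt_d9]
  nlinarith

variable {G : Type*} [AddCommGroup G] [Fintype G]

/-- the characteristic function of a random character -/
noncomputable def phi (P : AddChar G ℂ → ℝ) (y : G) : ℝ := ∑ γ, P γ * (γ y).re

variable {P : AddChar G ℂ → ℝ}

theorem phi_le_one (hP0 : ∀ γ, 0 ≤ P γ) (hP1 : ∑ γ, P γ = 1) (y : G) : phi P y ≤ 1 := by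
  rw [← hP1]
  refine Finset.sum_le_sum fun γ _ => ?_
  have := re_le_one γ y
  nlinarith [hP0 γ]

theorem sample_prod {M : ℕ} (f : AddChar G ℂ → ℝ) :
    ∑ ω : Fin M → AddChar G ℂ, (∏ j, P (ω j)) * ∏ j, f (ω j) = (∑ γ, P γ * f γ) ^ M := by
  have h2 : ∀ ω : Fin M → AddChar G ℂ, (∏ j, P (ω j)) * ∏ j, f (ω j) =
      ∏ j, (P (ω j) * f (ω j)) := fun ω => Finset.prod_mul_distrib.symm
  simp_rw [h2]
  have h3 := Finset.prod_univ_sum (fun _ : Fin M => (Finset.univ : Finset (AddChar G ℂ)))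
    (fun _ γ => P γ * f γ)
  rw [Finset.prod_const, Finset.card_univ, Fintype.card_fin] at h3
  rw [h3, Fintype.piFinset_univ]

theorem sample_one (hP1 : ∑ γ, P γ = 1) {M : ℕ} :
    ∑ ω : Fin M → AddChar G ℂ, ∏ j, P (ω j) = 1 := by
  have h := sample_prod (P := P) (M := M) (fun _ => 1)
  simp only [Finset.prod_const_one, mul_one, hP1, one_pow] at h
  exact h

theorem sum_one_sub (hP1 : ∑ γ, P γ = 1) (y : G) : ∑ γ, P γ * (1 - (γ y).re) = 1 - phi P y := by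
  have h : ∑ γ, P γ * (1 - (γ y).re) = ∑ γ, P γ - ∑ γ, P γ * (γ y).re := by
    rw [← Finset.sum_sub_distrib]
    exact Finset.sum_congr rfl fun γ _ => by ring
  rw [h, hP1]
  rfl

theorem sum_aff (hP1 : ∑ γ, P γ = 1) (y : G) (c : ℝ) :
    ∑ γ, P γ * (1 + c * (1 - (γ y).re)) = 1 + c * (1 - phi P y) := by
  have h : ∑ γ, P γ * (1 + c * (1 - (γ y).re)) = ∑ γ, P γ + c * ∑ γ, P γ * (1 - (γ y).re) := by
    rw [Finset.mul_sum, ← Finset.sum_add_distrib]
    exact Finset.sum_congr rfl fun γ _ => by ring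
  rw [h, hP1, sum_one_sub hP1]

theorem sample_upper (hP0 : ∀ γ, 0 ≤ P γ) (hP1 : ∑ γ, P γ = 1) {M : ℕ} (y : G) :
    ∑ ω : Fin M → AddChar G ℂ, (∏ j, P (ω j)) * Real.exp (-eg ω y) ≤
      Real.exp (-(2 / 5 * (M * (1 - phi P y)))) := by
  have h1 : ∀ ω : Fin M → AddChar G ℂ, Real.exp (-eg ω y) =
      ∏ j, Real.exp (-(1 - (ω j y).re)) := by
    intro ω
    rw [← Real.exp_sum]
    congr 1
    unfold eg
    rw [Finset.sum_neg_distrib]
  simp_rw [h1]
  rw [sample_prod (P := P) (fun γ => Real.exp (-(1 - (γ y).re)))]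
  have h2 : ∑ γ, P γ * Real.exp (-(1 - (γ y).re)) ≤ 1 - 2 / 5 * (1 - phi P y) := by
    have h3 : 1 - 2 / 5 * (1 - phi P y) = ∑ γ, P γ * (1 - 2 / 5 * (1 - (γ y).re)) := by
      have h4 := sum_aff hP1 y (-(2 / 5))
      rw [sub_eq_add_neg, ← neg_mul, ← h4]
      exact Finset.sum_congr rfl fun γ _ => by ring
    rw [h3]
    refine Finset.sum_le_sum fun γ _ => mul_le_mul_of_nonneg_left ?_ (hP0 γ)
    exact exp_neg_chord (by linarith [re_le_one γ y]) (by linarith [neg_one_le_re γ y])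
  have h4 : 0 ≤ ∑ γ, P γ * Real.exp (-(1 - (γ y).re)) :=
    Finset.sum_nonneg fun γ _ => mul_nonneg (hP0 γ) (Real.exp_pos _).le
  have h5 : ∑ γ, P γ * Real.exp (-(1 - (γ y).re)) ≤ Real.exp (-(2 / 5 * (1 - phi P y))) := by
    refine h2.trans ?_
    have := Real.add_one_le_exp (-(2 / 5 * (1 - phi P y)))
    linarith
  calc (∑ γ, P γ * Real.exp (-(1 - (γ y).re))) ^ M ≤
      Real.exp (-(2 / 5 * (1 - phi P y))) ^ M := by gcongr
    _ = Real.exp (-(2 / 5 * (M * (1 - phi P y)))) := by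
      rw [← Real.exp_nat_mul]; congr 1; ring

theorem sample_exp (hP0 : ∀ γ, 0 ≤ P γ) (hP1 : ∑ γ, P γ = 1) {M : ℕ} (y : G) :
    ∑ ω : Fin M → AddChar G ℂ, (∏ j, P (ω j)) * Real.exp (eg ω y) ≤
      Real.exp (4 * (M * (1 - phi P y))) := by
  have h1 : ∀ ω : Fin M → AddChar G ℂ, Real.exp (eg ω y) =
      ∏ j, Real.exp (1 - (ω j y).re) := by
    intro ω
    rw [← Real.exp_sum]
    rfl
  simp_rw [h1]
  rw [sample_prod (P := P) (fun γ => Real.exp (1 - (γ y).re))]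
  have h2 : ∑ γ, P γ * Real.exp (1 - (γ y).re) ≤ 1 + 4 * (1 - phi P y) := by
    have h3 : 1 + 4 * (1 - phi P y) = ∑ γ, P γ * (1 + 4 * (1 - (γ y).re)) :=
      (sum_aff hP1 y 4).symm
    rw [h3]
    refine Finset.sum_le_sum fun γ _ => mul_le_mul_of_nonneg_left ?_ (hP0 γ)
    exact exp_chord (by linarith [re_le_one γ y]) (by linarith [neg_one_le_re γ y])
  have h4 : 0 ≤ ∑ γ, P γ * Real.exp (1 - (γ y).re) :=
    Finset.sum_nonneg fun γ _ => mul_nonneg (hP0 γ) (Real.exp_pos _).le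
  have h5 : ∑ γ, P γ * Real.exp (1 - (γ y).re) ≤ Real.exp (4 * (1 - phi P y)) := by
    refine h2.trans ?_
    have := Real.add_one_le_exp (4 * (1 - phi P y))
    linarith
  calc (∑ γ, P γ * Real.exp (1 - (γ y).re)) ^ M ≤
      Real.exp (4 * (1 - phi P y)) ^ M := by gcongr
    _ = Real.exp (4 * (M * (1 - phi P y))) := by
      rw [← Real.exp_nat_mul]; congr 1; ring

theorem sample_nowrap (hP0 : ∀ γ, 0 ≤ P γ) (hP1 : ∑ γ, P γ = 1) {M : ℕ} {v : ℝ} {y : G}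
    (hv : M * (1 - phi P y) ≤ v) (hM : 16 * v ≤ M) (hM0 : 0 < M) :
    Real.exp (-(16 * v)) ≤ ∑ ω : Fin M → AddChar G ℂ, (∏ j, P (ω j)) *
      (if ∀ j, ‖ω j y - 1‖ < 1 / 2 then 1 else 0) := by
  have hM0' : (0 : ℝ) < M := by exact_mod_cast hM0
  have h1 : ∀ ω : Fin M → AddChar G ℂ, (if ∀ j, ‖ω j y - 1‖ < 1 / 2 then (1 : ℝ) else 0) =
      ∏ j, (if ‖ω j y - 1‖ < 1 / 2 then (1 : ℝ) else 0) := by
    intro ω
    by_cases h : ∀ j, ‖ω j y - 1‖ < 1 / 2
    · rw [if_pos h, Finset.prod_eq_one]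
      intro j _
      rw [if_pos (h j)]
    · rw [if_neg h]
      push Not at h
      obtain ⟨j, hj⟩ := h
      symm
      apply Finset.prod_eq_zero (Finset.mem_univ j)
      rw [if_neg (not_lt.2 hj)]
  simp_rw [h1]
  rw [sample_prod (P := P) (fun γ => if ‖γ y - 1‖ < 1 / 2 then (1 : ℝ) else 0)]
  have h2 : 1 - 8 * (1 - phi P y) ≤ ∑ γ, P γ * (if ‖γ y - 1‖ < 1 / 2 then (1 : ℝ) else 0) := by
    have h3 : 1 - 8 * (1 - phi P y) = ∑ γ, P γ * (1 - 8 * (1 - (γ y).re)) := by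
      have h4 := sum_aff hP1 y (-8)
      rw [sub_eq_add_neg, ← neg_mul, ← h4]
      exact Finset.sum_congr rfl fun γ _ => by ring
    rw [h3]
    refine Finset.sum_le_sum fun γ _ => mul_le_mul_of_nonneg_left ?_ (hP0 γ)
    split_ifs with hlt
    · linarith [re_le_one γ y]
    · have h4 := norm_sub_one_sq γ y
      push Not at hlt
      have h5 : (1 / 2 : ℝ) ^ 2 ≤ ‖γ y - 1‖ ^ 2 := by gcongr
      linarith
  set x : ℝ := 8 * (1 - phi P y) with hx
  have hx0 : 0 ≤ x := by linarith [phi_le_one hP0 hP1 y]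
  have hx1 : x ≤ 1 / 2 := by
    have h4 : M * x ≤ M * (1 / 2) := by
      rw [hx]
      nlinarith
    exact le_of_mul_le_mul_left h4 hM0'
  have h3 := one_sub_ge hx0 hx1
  calc Real.exp (-(16 * v)) ≤ Real.exp (-(2 * x)) ^ M := by
        rw [← Real.exp_nat_mul]
        apply Real.exp_le_exp.2
        rw [hx]
        nlinarith
    _ ≤ (1 - x) ^ M := by gcongr
    _ ≤ _ := by
      have : 0 ≤ 1 - x := by linarith
      gcongr

/-- many samples are good for a given element -/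
theorem sample_good (hP0 : ∀ γ, 0 ≤ P γ) (hP1 : ∑ γ, P γ = 1) {M : ℕ} {v : ℝ} {y : G}
    (hv : M * (1 - phi P y) ≤ v) (hM : 16 * v ≤ M) (hM0 : 0 < M) :
    1 / 2 * Real.exp (-(16 * v)) ≤ ∑ ω : Fin M → AddChar G ℂ, (∏ j, P (ω j)) *
      (if (∀ j, ‖ω j y - 1‖ < 1 / 2) ∧ eg ω y ≤ 20 * v + 1 then 1 else 0) := by
  have hW : ∀ ω : Fin M → AddChar G ℂ, 0 ≤ ∏ j, P (ω j) := fun ω =>
    Finset.prod_nonneg fun j _ => hP0 _
  have h1 := sample_nowrap hP0 hP1 hv hM hM0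
  have h2 := sample_exp hP0 hP1 (M := M) y
  have h3 : ∑ ω : Fin M → AddChar G ℂ, (∏ j, P (ω j)) *
      (if ∀ j, ‖ω j y - 1‖ < 1 / 2 then 1 else 0) ≤
      ∑ ω : Fin M → AddChar G ℂ, (∏ j, P (ω j)) *
      (if (∀ j, ‖ω j y - 1‖ < 1 / 2) ∧ eg ω y ≤ 20 * v + 1 then 1 else 0) +
      Real.exp (-(20 * v + 1)) * ∑ ω : Fin M → AddChar G ℂ, (∏ j, P (ω j)) *
        Real.exp (eg ω y) := by
    rw [Finset.mul_sum, ← Finset.sum_add_distrib]
    refine Finset.sum_le_sum fun ω _ => ?_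
    have h4 : (if ∀ j, ‖ω j y - 1‖ < 1 / 2 then (1 : ℝ) else 0) ≤
        (if (∀ j, ‖ω j y - 1‖ < 1 / 2) ∧ eg ω y ≤ 20 * v + 1 then 1 else 0) +
        Real.exp (-(20 * v + 1)) * Real.exp (eg ω y) := by
      have h5 : 0 ≤ Real.exp (-(20 * v + 1)) * Real.exp (eg ω y) := by positivity
      by_cases hn : ∀ j, ‖ω j y - 1‖ < 1 / 2
      · by_cases he : eg ω y ≤ 20 * v + 1
        · rw [if_pos hn, if_pos ⟨hn, he⟩]; linarith
        · rw [if_pos hn, if_neg (fun h => he h.2), zero_add, ← Real.exp_add]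
          apply Real.one_le_exp
          linarith
      · rw [if_neg hn, if_neg (fun h => hn h.1)]; linarith
    have h5 := mul_le_mul_of_nonneg_left h4 (hW ω)
    linarith
  have h4 : Real.exp (-(20 * v + 1)) * ∑ ω : Fin M → AddChar G ℂ, (∏ j, P (ω j)) *
        Real.exp (eg ω y) ≤ 1 / 2 * Real.exp (-(16 * v)) := by
    calc Real.exp (-(20 * v + 1)) * ∑ ω : Fin M → AddChar G ℂ, (∏ j, P (ω j)) *
        Real.exp (eg ω y) ≤ Real.exp (-(20 * v + 1)) * Real.exp (4 * v) := by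
          refine mul_le_mul_of_nonneg_left (h2.trans (Real.exp_le_exp.2 ?_)) (Real.exp_pos _).le
          linarith
      _ = Real.exp (-1) * Real.exp (-(16 * v)) := by
          rw [← Real.exp_add, ← Real.exp_add]; congr 1; ring
      _ ≤ 1 / 2 * Real.exp (-(16 * v)) := by
          refine mul_le_mul_of_nonneg_right ?_ (Real.exp_pos _).le
          rw [Real.exp_neg, inv_eq_one_div]
          apply one_div_le_one_div_of_le (by norm_num)
          linarith [Real.exp_one_gt_d9]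
  linarith

/-- a sample which is good on the average -/
theorem exists_sample (hP0 : ∀ γ, 0 ≤ P γ) (hP1 : ∑ γ, P γ = 1) {σ : G → ℝ}
    (hσ0 : ∀ y, 0 ≤ σ y) {M : ℕ} {v : ℝ} (S₀ : Finset G)
    (hv : ∀ y ∈ S₀, M * (1 - phi P y) ≤ v) (hM : 16 * v ≤ M) (hM0 : 0 < M) {δ Z : ℝ} (hδ : 0 < δ)
    (hδ1 : δ ≤ ∑ y ∈ S₀, σ y) (hZ0 : 0 < Z)
    (hZ : ∑ y, Real.exp (-(2 / 5 * (M * (1 - phi P y)))) ≤ Z) :
    ∃ ω : Fin M → AddChar G ℂ,
      δ * Real.exp (-(16 * v)) / 4 ≤ ∑ y ∈ S₀.filter (fun y =>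
        (∀ j, ‖ω j y - 1‖ < 1 / 2) ∧ eg ω y ≤ 20 * v + 1), σ y ∧
      ((Finset.univ.filter fun y => eg ω y ≤ 10 * (20 * v + 1)).card : ℝ) ≤
        (4 * Real.exp (10 * (20 * v + 1)) * Z / (δ * Real.exp (-(16 * v)))) *
        ∑ y ∈ S₀.filter (fun y => (∀ j, ‖ω j y - 1‖ < 1 / 2) ∧ eg ω y ≤ 20 * v + 1), σ y := by
  have hW : ∀ ω : Fin M → AddChar G ℂ, 0 ≤ ∏ j, P (ω j) := fun ω =>
    Finset.prod_nonneg fun j _ => hP0 _
  have hW1 := sample_one (P := P) hP1 (M := M)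
  set s : ℝ := 20 * v + 1 with hs
  set X : (Fin M → AddChar G ℂ) → ℝ := fun ω => ∑ y ∈ S₀.filter (fun y =>
        (∀ j, ‖ω j y - 1‖ < 1 / 2) ∧ eg ω y ≤ s), σ y with hX
  set Y : (Fin M → AddChar G ℂ) → ℝ := fun ω =>
    ((Finset.univ.filter fun y => eg ω y ≤ 10 * s).card : ℝ) with hY
  set α : ℝ := δ * Real.exp (-(16 * v)) with hα
  have hα0 : 0 < α := by positivity
  have hEX : α / 2 ≤ ∑ ω, (∏ j, P (ω j)) * X ω := by
    have h1 : ∑ ω, (∏ j, P (ω j)) * X ω = ∑ y ∈ S₀, σ y * ∑ ω : Fin M → AddChar G ℂ,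
        (∏ j, P (ω j)) * (if (∀ j, ‖ω j y - 1‖ < 1 / 2) ∧ eg ω y ≤ s then 1 else 0) := by
      rw [hX]
      simp_rw [Finset.sum_filter, Finset.mul_sum]
      rw [Finset.sum_comm]
      refine Finset.sum_congr rfl fun y _ => Finset.sum_congr rfl fun ω _ => ?_
      split_ifs <;> ring
    rw [h1]
    calc α / 2 = δ * (1 / 2 * Real.exp (-(16 * v))) := by rw [hα]; ring
      _ ≤ (∑ y ∈ S₀, σ y) * (1 / 2 * Real.exp (-(16 * v))) :=
          mul_le_mul_of_nonneg_right hδ1 (by positivity)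
      _ = ∑ y ∈ S₀, σ y * (1 / 2 * Real.exp (-(16 * v))) := Finset.sum_mul _ _ _
      _ ≤ _ := Finset.sum_le_sum fun y hy =>
          mul_le_mul_of_nonneg_left (sample_good hP0 hP1 (hv y hy) hM hM0) (hσ0 y)
  have hEY : ∑ ω, (∏ j, P (ω j)) * Y ω ≤ Real.exp (10 * s) * Z := by
    have h1 : ∀ ω, Y ω ≤ ∑ y, Real.exp (10 * s) * Real.exp (-eg ω y) := by
      intro ω
      rw [hY]
      beta_reduce
      rw [Finset.card_filter]
      push_cast
      refine Finset.sum_le_sum fun y _ => ?_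
      rw [← Real.exp_add]
      split_ifs with h
      · apply Real.one_le_exp; linarith
      · exact (Real.exp_pos _).le
    calc ∑ ω, (∏ j, P (ω j)) * Y ω ≤
        ∑ ω, (∏ j, P (ω j)) * ∑ y, Real.exp (10 * s) * Real.exp (-eg ω y) :=
          Finset.sum_le_sum fun ω _ => mul_le_mul_of_nonneg_left (h1 ω) (hW ω)
      _ = Real.exp (10 * s) * ∑ y, ∑ ω : Fin M → AddChar G ℂ,
          (∏ j, P (ω j)) * Real.exp (-eg ω y) := by
          simp_rw [Finset.mul_sum]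
          rw [Finset.sum_comm]
          refine Finset.sum_congr rfl fun y _ => Finset.sum_congr rfl fun ω _ => ?_
          ring
      _ ≤ Real.exp (10 * s) * Z := by
          refine mul_le_mul_of_nonneg_left ?_ (Real.exp_pos _).le
          exact (Finset.sum_le_sum fun y _ => sample_upper hP0 hP1 y).trans hZ
  set β : ℝ := Real.exp (10 * s) * Z with hβ
  have hβ0 : 0 < β := by positivity
  obtain ⟨ω, hω⟩ : ∃ ω : Fin M → AddChar G ℂ, α / 4 ≤ X ω - α / (4 * β) * Y ω := by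
    by_contra hcon
    push Not at hcon
    have h1 : ∑ ω : Fin M → AddChar G ℂ, (∏ j, P (ω j)) * (X ω - α / (4 * β) * Y ω) < α / 4 := by
      have h2 : α / 4 = ∑ ω : Fin M → AddChar G ℂ, (∏ j, P (ω j)) * (α / 4) := by
        rw [← Finset.sum_mul, hW1, one_mul]
      conv_rhs => rw [h2]
      obtain ⟨ω, -, hω⟩ := Finset.exists_ne_zero_of_sum_ne_zero (by rw [hW1]; norm_num :
        ∑ ω : Fin M → AddChar G ℂ, ∏ j, P (ω j) ≠ 0)
      refine Finset.sum_lt_sum (fun ω _ => mul_le_mul_of_nonneg_left (hcon ω).le (hW ω))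
        ⟨ω, Finset.mem_univ _, ?_⟩
      exact mul_lt_mul_of_pos_left (hcon ω) (lt_of_le_of_ne (hW ω) (Ne.symm hω))
    have h2 : ∑ ω : Fin M → AddChar G ℂ, (∏ j, P (ω j)) * (X ω - α / (4 * β) * Y ω) =
        ∑ ω, (∏ j, P (ω j)) * X ω - α / (4 * β) * ∑ ω, (∏ j, P (ω j)) * Y ω := by
      rw [Finset.mul_sum, ← Finset.sum_sub_distrib]
      exact Finset.sum_congr rfl fun ω _ => by ring
    rw [h2] at h1
    have h3 : α / (4 * β) * ∑ ω, (∏ j, P (ω j)) * Y ω ≤ α / (4 * β) * β :=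
      mul_le_mul_of_nonneg_left hEY (by positivity)
    have h4 : α / (4 * β) * β = α / 4 := by field_simp
    linarith
  refine ⟨ω, ?_, ?_⟩
  · have h1 : 0 ≤ α / (4 * β) * Y ω := by
      have : 0 ≤ Y ω := Nat.cast_nonneg _
      positivity
    show α / 4 ≤ X ω
    linarith
  · show Y ω ≤ 4 * Real.exp (10 * s) * Z / α * X ω
    have h1 : α / (4 * β) * Y ω ≤ X ω := by linarith
    have h2 : 4 * Real.exp (10 * s) * Z / α = 4 * β / α := by rw [hβ]; ring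
    rw [h2]
    calc Y ω = 4 * β / α * (α / (4 * β) * Y ω) := by field_simp
      _ ≤ 4 * β / α * X ω := mul_le_mul_of_nonneg_left h1 (by positivity)

end T9h11.HB
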