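import Pool.Agent.T9h11.HB3

set_option autoImplicit false
set_option linter.unusedSectionVars false
set_option linter.unusedVariables false

/-! The theorem for finite groups. -/

namespace T9h11.HB

open Finset H460 T9h11.RM T9h11.RW Pool.Agent.Y806.DF
open scoped Classical Pointwise

variable {G : Type*} [AddCommGroup G] [Fintype G] {P : AddChar G ℂ → ℝ}

theorem hb_finite (hP0 : ∀ γ, 0 ≤ P γ) (hP1 : ∑ γ, P γ = 1) {σ : G → ℝ}
    (hσ0 : ∀ y, 0 ≤ σ y) (hσ1 : ∑ y, σ y = 1) {M : ℕ} {Λ : ℝ} (hΛ : 1 ≤ Λ) (S₀ : Finset G)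
    (hv : ∀ y ∈ S₀, M * (1 - phi P y) ≤ Λ) (hM : 16 * Λ ≤ M)
    (hδ : Real.exp (-Λ) ≤ ∑ y ∈ S₀, σ y)
    (hZ : (∑ y, Real.exp (-(2 / 5 * (M * (1 - phi P y))))) * ∑ y, σ y ^ 2 ≤ Real.exp Λ) :
    ∃ (d : ℕ) (B : Set (Fin d → ℝ)) (ψ : (Fin d → ℤ) →+ G) (H : AddSubgroup G) (g : G),
      (d : ℝ) ≤ 10 ^ 6 * Λ ∧ Body B ∧ Finite H ∧
      ((lat B).ncard * Nat.card H : ℕ) * (∑ y, σ y ^ 2) ≤ 1 ∧
      Real.exp (-(10 ^ 9 * Λ)) ≤
        ∑ y ∈ Finset.univ.filter (fun y => ∃ w ∈ lat B, ∃ h ∈ H, y = g + ψ w + h), σ y := by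
  set s₂ := ∑ y, σ y ^ 2 with hs₂
  have hs₂0 : 0 < s₂ := by
    obtain ⟨y, -, hy⟩ := Finset.exists_ne_zero_of_sum_ne_zero (by rw [hσ1]; norm_num :
      ∑ y, σ y ≠ 0)
    refine Finset.sum_pos' (fun y _ => sq_nonneg _) ⟨y, Finset.mem_univ _, ?_⟩
    positivity
  have hσle : ∀ y, σ y ≤ 1 := fun y => by
    rw [← hσ1]; exact Finset.single_le_sum (fun y _ => hσ0 y) (Finset.mem_univ y)
  have hs₂1 : s₂ ≤ 1 := by
    rw [← hσ1]
    refine Finset.sum_le_sum fun y _ => ?_
    nlinarith [hσ0 y, hσle y]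
  have hM0 : 0 < M := by
    have : (0 : ℝ) < M := by linarith
    exact_mod_cast this
  set Z := ∑ y, Real.exp (-(2 / 5 * (M * (1 - phi P y)))) with hZdef
  have hZ0 : 0 < Z := Finset.sum_pos (fun y _ => Real.exp_pos _) Finset.univ_nonempty
  obtain ⟨ω, hX, hY⟩ := exists_sample hP0 hP1 hσ0 S₀ hv hM hM0 (Real.exp_pos (-Λ)) hδ hZ0 le_rfl
  set s : ℝ := 20 * Λ + 1 with hs
  have hs0 : 0 < s := by linarith
  set P' := S₀.filter (fun y => (∀ j, ‖ω j y - 1‖ < 1 / 2) ∧ eg ω y ≤ s) with hP'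
  set X := ∑ y ∈ P', σ y with hXdef
  have hα : Real.exp (-Λ) * Real.exp (-(16 * Λ)) = Real.exp (-(17 * Λ)) := by
    rw [← Real.exp_add]; congr 1; ring
  rw [hα] at hX hY
  have hX0 : 0 < X := lt_of_lt_of_le (by positivity) hX
  have hP'ne : P'.Nonempty := by
    rw [Finset.nonempty_iff_ne_empty]
    intro h0
    rw [hXdef, h0, Finset.sum_empty] at hX0
    exact lt_irrefl _ hX0
  have hX1 : X ≤ 1 := by
    rw [← hσ1]
    exact Finset.sum_le_sum_of_subset_of_nonneg (Finset.subset_univ _) fun y _ _ => hσ0 y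
  have hCS : X ^ 2 ≤ P'.card * s₂ := by
    have h3 := sq_sum_le_card_mul_sum_sq (s := P') (f := σ)
    have h5 : ∑ y ∈ P', σ y ^ 2 ≤ s₂ :=
      Finset.sum_le_sum_of_subset_of_nonneg (Finset.subset_univ _) fun _ _ _ => sq_nonneg _
    have h6 : (P'.card : ℝ) * ∑ y ∈ P', σ y ^ 2 ≤ P'.card * s₂ :=
      mul_le_mul_of_nonneg_left h5 (Nat.cast_nonneg _)
    exact h3.trans h6
  set Yn := (Finset.univ.filter fun y => eg ω y ≤ 10 * s).card with hYn
  have h4e : (4 : ℝ) ≤ Real.exp (3 / 2 * Λ) := by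
    have h1 : (4 : ℝ) ≤ Real.exp (3 / 2) := by
      have h2 := Real.exp_one_gt_d9
      have h3 : Real.exp (3 / 2) ^ 2 = Real.exp 1 ^ 3 := by
        rw [← Real.exp_nat_mul, ← Real.exp_nat_mul]; norm_num
      have h4 : (16 : ℝ) ≤ Real.exp (3 / 2) ^ 2 := by
        rw [h3]
        calc (16 : ℝ) ≤ 2.7 ^ 3 := by norm_num
          _ ≤ _ := by gcongr; linarith
      nlinarith [Real.exp_pos (3 / 2 : ℝ)]
    exact h1.trans (Real.exp_le_exp.2 (by linarith))
  have h2e : (2 : ℝ) ≤ Real.exp Λ := by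
    have h1 := Real.add_one_le_exp Λ
    linarith
  have hYle : (Yn : ℝ) * s₂ ≤ Real.exp (229.5 * Λ) * X := by
    calc (Yn : ℝ) * s₂ ≤ (4 * Real.exp (10 * s) * Z / Real.exp (-(17 * Λ)) * X) * s₂ :=
          mul_le_mul_of_nonneg_right hY hs₂0.le
      _ = 4 * Real.exp (10 * s) * (Z * s₂) * Real.exp (17 * Λ) * X := by
          rw [Real.exp_neg]; field_simp
      _ ≤ Real.exp (3 / 2 * Λ) * Real.exp (210 * Λ) * Real.exp Λ * Real.exp (17 * Λ) * X := by
          have h1 : Real.exp (10 * s) ≤ Real.exp (210 * Λ) := Real.exp_le_exp.2 (by linarith)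
          gcongr
      _ = Real.exp (229.5 * Λ) * X := by
          rw [← Real.exp_add, ← Real.exp_add, ← Real.exp_add]
          congr 2
          ring
  -- the volume
  set a : ℕ := ⌊1 / s₂⌋₊ with ha'
  have hinv : 1 ≤ 1 / s₂ := by rw [le_div_iff₀ hs₂0]; linarith
  have ha1 : 1 ≤ a := by rw [ha', Nat.le_floor_iff (by positivity)]; simpa using hinv
  have has : (a : ℝ) * s₂ ≤ 1 := by
    have := Nat.floor_le (by positivity : 0 ≤ 1 / s₂)
    rw [← ha', le_div_iff₀ hs₂0] at this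
    exact this
  have has2 : 1 ≤ 2 * a * s₂ := by
    have h3 := Nat.lt_floor_add_one (1 / s₂)
    rw [← ha'] at h3
    have h4 : (1 : ℝ) ≤ a := by exact_mod_cast ha1
    have h5 : 1 / s₂ ≤ 2 * a := by linarith
    rw [div_le_iff₀ hs₂0] at h5
    exact h5
  obtain ⟨d, B, ψ, H, g, hd, hB, hH, hvol, hmass⟩ := hb_struct (γ := ω) hσ0 hP'ne hs0
    (fun y hy => (Finset.mem_filter.1 hy).2) (K' := Real.exp (248 * Λ))
    (κ := Real.exp (231 * Λ)) ha1 (Real.one_le_exp (by linarith)) (by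
      have h1 : (Yn : ℝ) * s₂ * X ≤ (Real.exp (248 * Λ) * P'.card) * s₂ * X := by
        calc (Yn : ℝ) * s₂ * X ≤ Real.exp (229.5 * Λ) * X * X :=
              mul_le_mul_of_nonneg_right hYle hX0.le
          _ = Real.exp (229.5 * Λ) * X ^ 2 := by ring
          _ ≤ Real.exp (229.5 * Λ) * (P'.card * s₂) :=
              mul_le_mul_of_nonneg_left hCS (Real.exp_pos _).le
          _ = Real.exp (229.5 * Λ) * P'.card * s₂ * 1 := by ring
          _ ≤ Real.exp (229.5 * Λ) * P'.card * s₂ * (Real.exp (18.5 * Λ) * X) := by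
              refine mul_le_mul_of_nonneg_left ?_ (by positivity)
              calc (1 : ℝ) = Real.exp (3 / 2 * Λ) * Real.exp (17 * Λ) *
                    (Real.exp (-(17 * Λ)) / Real.exp (3 / 2 * Λ)) := by
                    rw [Real.exp_neg]; field_simp
                _ ≤ Real.exp (3 / 2 * Λ) * Real.exp (17 * Λ) * (Real.exp (-(17 * Λ)) / 4) := by
                    gcongr
                _ ≤ Real.exp (3 / 2 * Λ) * Real.exp (17 * Λ) * X :=
                    mul_le_mul_of_nonneg_left hX (by positivity)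
                _ = Real.exp (18.5 * Λ) * X := by
                    rw [← Real.exp_add]; congr 2; ring
          _ = (Real.exp (229.5 * Λ) * Real.exp (18.5 * Λ)) * P'.card * s₂ * X := by ring
          _ = _ := by
              rw [← Real.exp_add]
              congr 4
              ring
      have h2 : (Yn : ℝ) * (s₂ * X) ≤ (Real.exp (248 * Λ) * P'.card) * (s₂ * X) := by
        rw [← mul_assoc, ← mul_assoc]; exact h1
      exact le_of_mul_le_mul_right h2 (by positivity)) (by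
      have h1 : (Yn : ℝ) * s₂ ≤ (Real.exp (231 * Λ) * a) * s₂ := by
        calc (Yn : ℝ) * s₂ ≤ Real.exp (229.5 * Λ) * X := hYle
          _ ≤ Real.exp (229.5 * Λ) * 1 := mul_le_mul_of_nonneg_left hX1 (Real.exp_pos _).le
          _ ≤ Real.exp (229.5 * Λ) * (2 * a * s₂) :=
              mul_le_mul_of_nonneg_left has2 (Real.exp_pos _).le
          _ = Real.exp (229.5 * Λ) * 2 * a * s₂ := by ring
          _ ≤ Real.exp (229.5 * Λ) * Real.exp (3 / 2 * Λ) * a * s₂ := by
              gcongr; linarith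
          _ = _ := by
              rw [← Real.exp_add]
              congr 3
              ring
      exact le_of_mul_le_mul_right h1 hs₂0)
  rw [Real.log_exp] at hd hmass
  refine ⟨d, B, ψ, H, g, ?_, hB, hH, ?_, ?_⟩
  · linarith
  · refine le_trans (mul_le_mul_of_nonneg_right ?_ hs₂0.le) has
    exact_mod_cast hvol
  · set m := ∑ y ∈ Finset.univ.filter (fun y => ∃ w ∈ lat B, ∃ h ∈ H, y = g + ψ w + h), σ y
    have h1 : Real.exp (-(17 * Λ)) / 4 ≤ Real.exp (248 * Λ) ^ 185 *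
        (Real.exp (876 * (480 * (248 * Λ) + 2)) * Real.exp (231 * Λ)) * m := hX.trans hmass
    have h2 : Real.exp (248 * Λ) ^ 185 *
        (Real.exp (876 * (480 * (248 * Λ) + 2)) * Real.exp (231 * Λ)) =
        Real.exp (185 * (248 * Λ) + (876 * (480 * (248 * Λ) + 2) + 231 * Λ)) := by
      rw [← Real.exp_nat_mul, ← Real.exp_add, ← Real.exp_add]
      norm_num
    rw [h2] at h1
    set t := 185 * (248 * Λ) + (876 * (480 * (248 * Λ) + 2) + 231 * Λ) with ht
    have h3 : Real.exp (-t) * (Real.exp (-(17 * Λ)) / 4) ≤ m := by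
      calc Real.exp (-t) * (Real.exp (-(17 * Λ)) / 4) ≤ Real.exp (-t) * (Real.exp t * m) :=
            mul_le_mul_of_nonneg_left h1 (Real.exp_pos _).le
        _ = m := by rw [← mul_assoc, ← Real.exp_add]; simp
    refine le_trans ?_ h3
    have h4 : Real.exp (-(3 / 2 * Λ)) ≤ 1 / 4 := by
      rw [Real.exp_neg, one_div]
      exact inv_anti₀ (by norm_num) h4e
    calc Real.exp (-(10 ^ 9 * Λ)) ≤
        Real.exp (-t) * (Real.exp (-(17 * Λ)) * Real.exp (-(3 / 2 * Λ))) := by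
          rw [← Real.exp_add, ← Real.exp_add]
          apply Real.exp_le_exp.2
          rw [ht]
          linarith
      _ ≤ Real.exp (-t) * (Real.exp (-(17 * Λ)) / 4) := by
          refine mul_le_mul_of_nonneg_left ?_ (Real.exp_pos _).le
          calc Real.exp (-(17 * Λ)) * Real.exp (-(3 / 2 * Λ)) ≤ Real.exp (-(17 * Λ)) * (1 / 4) :=
                mul_le_mul_of_nonneg_left h4 (Real.exp_pos _).le
            _ = _ := by ring

end T9h11.HB
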