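import Mathlib
import Pool.Agent.T9h11.GP1

set_option autoImplicit false
set_option linter.unusedSectionVars false
set_option linter.unusedVariables false

/-! Lifting coset progressions from `(ℤ/N)^d × O` to `ℤ^d × O`. -/

namespace T9h11.RW

open Finset T9h11.RM Pool.Agent.Y806.DF
open scoped Pointwise

section
variable {d : ℕ} {O : Type*} [AddCommGroup O]

/-- reduction modulo `N` -/
def rd (N : ℕ) : (Fin d → ℤ) × O →+ (Fin d → ZMod N) × O where
  toFun p := (fun i => ((p.1 i : ℤ) : ZMod N), p.2)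
  map_zero' := by
    refine Prod.ext ?_ rfl
    funext i
    simp
  map_add' x y := by
    refine Prod.ext ?_ rfl
    funext i
    simp

theorem rd_surj (N : ℕ) (s : (Fin d → ZMod N) × O) : ∃ p : (Fin d → ℤ) × O, rd N p = s := by
  choose c hc using fun i => ZMod.intCast_surjective (s.1 i)
  exact ⟨(c, s.2), Prod.ext (funext hc) rfl⟩

theorem rd_dvd {N : ℕ} {k : (Fin d → ℤ) × O} (h : (rd N k).1 = 0) (i : Fin d) :
    (N : ℤ) ∣ k.1 i := by
  have h1 : (fun i => ((k.1 i : ℤ) : ZMod N)) = 0 := h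
  exact (ZMod.intCast_zmod_eq_zero_iff_dvd _ N).1 (congrFun h1 i)

variable {d' : ℕ}

/-- the last coordinates -/
def bpart (v : Fin (d + d') → ℤ) : Fin d' → ℤ := fun j => v (Fin.natAdd d j)

/-- the first coordinates -/
def wpart (v : Fin (d + d') → ℤ) : Fin d → ℤ := fun i => v (Fin.castAdd d' i)

/-- the homomorphism with the modulus made explicit -/
def bigHom (N : ℕ) (c : Fin d' → (Fin d → ℤ) × O) : (Fin (d + d') → ℤ) →+ (Fin d → ℤ) × O where
  toFun v := ((fun i => (N : ℤ) * wpart v i), 0) + ∑ j, bpart v j • c j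
  map_zero' := by
    have h1 : ∀ j, bpart (0 : Fin (d + d') → ℤ) j • c j = 0 := fun j => by simp [bpart]
    simp_rw [h1]
    simp only [Finset.sum_const_zero, add_zero]
    refine Prod.ext ?_ rfl
    funext i
    simp [wpart]
  map_add' v v' := by
    have h1 : ∀ j, bpart (v + v') j • c j = bpart v j • c j + bpart v' j • c j := fun j => by
      simp [bpart, add_smul]
    simp_rw [h1]
    rw [Finset.sum_add_distrib]
    have h2 : (((fun i => (N : ℤ) * wpart (v + v') i), 0) : (Fin d → ℤ) × O) =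
        ((fun i => (N : ℤ) * wpart v i), 0) + ((fun i => (N : ℤ) * wpart v' i), 0) := by
      refine Prod.ext ?_ (by simp)
      funext i
      simp [wpart, mul_add]
    rw [h2]
    abel

theorem bigHom_apply (N : ℕ) (c : Fin d' → (Fin d → ℤ) × O) (v : Fin (d + d') → ℤ) :
    bigHom N c v = ((fun i => (N : ℤ) * wpart v i), 0) + ∑ j, bpart v j • c j := rfl

theorem bigHom_fst (N : ℕ) (c : Fin d' → (Fin d → ℤ) × O) (v : Fin (d + d') → ℤ) (i : Fin d) :
    (bigHom N c v).1 i = N * wpart v i + ∑ j, bpart v j * (c j).1 i := by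
  rw [bigHom_apply]
  simp [Prod.fst_sum, Finset.sum_apply]

/-- the part of `H` with trivial first coordinate -/
def Htl {N : ℕ} (H : AddSubgroup ((Fin d → ZMod N) × O)) : AddSubgroup ((Fin d → ℤ) × O) where
  carrier := {p | p.1 = 0 ∧ ((0, p.2) : (Fin d → ZMod N) × O) ∈ H}
  zero_mem' := ⟨rfl, H.zero_mem⟩
  add_mem' := by
    rintro a b ⟨ha, ha'⟩ ⟨hb, hb'⟩
    refine ⟨by rw [Prod.fst_add, ha, hb, add_zero], ?_⟩
    have := H.add_mem ha' hb'
    rwa [Prod.mk_add_mk, add_zero] at this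
  neg_mem' := by
    rintro a ⟨ha, ha'⟩
    refine ⟨by rw [Prod.fst_neg, ha, neg_zero], ?_⟩
    have := H.neg_mem ha'
    rwa [Prod.neg_mk, neg_zero] at this

theorem Htl_card {N : ℕ} (H : AddSubgroup ((Fin d → ZMod N) × O)) (hH : Finite H) :
    Finite (Htl H) ∧ Nat.card (Htl H) ≤ Nat.card H := by
  let f : Htl H → H := fun p => ⟨(0, p.1.2), p.2.2⟩
  have hf : Function.Injective f := by
    intro p q h
    have h1 : p.1.2 = q.1.2 := congrArg (fun z : H => z.1.2) h
    exact Subtype.ext (Prod.ext (p.2.1.trans q.2.1.symm) h1)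
  exact ⟨Finite.of_injective f hf, Nat.card_le_card_of_injective f hf⟩

theorem fst_zero {N : ℕ} (hN : N.Prime) (H : AddSubgroup ((Fin d → ZMod N) × O)) (hH : Finite H)
    (hc : Nat.card H < N) {h : (Fin d → ZMod N) × O} (hh : h ∈ H) : h.1 = 0 := by
  have : Fact N.Prime := ⟨hN⟩
  have h1 : Nat.card H • (⟨h, hh⟩ : H) = 0 := card_nsmul_eq_zero'
  have h2 : Nat.card H • h = 0 := congrArg (fun z : H => (z : (Fin d → ZMod N) × O)) h1
  funext i
  have h3 : (Nat.card H : ZMod N) * h.1 i = 0 := by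
    have h4 := congrFun (congrArg Prod.fst h2) i
    rw [Prod.smul_fst, Pi.smul_apply, nsmul_eq_mul] at h4
    exact h4
  rcases mul_eq_zero.1 h3 with h4 | h4
  · exfalso
    rw [ZMod.natCast_eq_zero_iff] at h4
    exact absurd (Nat.le_of_dvd Nat.card_pos h4) (not_le.2 hc)
  · exact h4

/-- the convex set used for the lift -/
def Kc (N : ℕ) (c : Fin d' → (Fin d → ℤ) × O) (g : Fin d → ℤ) (R : ℝ) (B : Set (Fin d' → ℝ)) :
    Set (Fin (d + d') → ℝ) :=
  {y | (fun j => y (Fin.natAdd d j)) ∈ B ∧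
    ∀ i : Fin d, |(g i : ℝ) + (N * y (Fin.castAdd d' i) +
      ∑ j, y (Fin.natAdd d j) * ((c j).1 i : ℝ))| ≤ R}

theorem Kc_convex (N : ℕ) (c : Fin d' → (Fin d → ℤ) × O) (g : Fin d → ℤ) (R : ℝ)
    {B : Set (Fin d' → ℝ)} (hB : Convex ℝ B) : Convex ℝ (Kc N c g R B) := by
  intro x hx y hy a b ha hb hab
  obtain ⟨hx1, hx2⟩ := hx
  obtain ⟨hy1, hy2⟩ := hy
  refine ⟨hB hx1 hy1 ha hb hab, fun i => ?_⟩
  have h1 : (g i : ℝ) + (N * (a • x + b • y) (Fin.castAdd d' i) +
      ∑ j, (a • x + b • y) (Fin.natAdd d j) * ((c j).1 i : ℝ)) =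
      a * ((g i : ℝ) + (N * x (Fin.castAdd d' i) +
        ∑ j, x (Fin.natAdd d j) * ((c j).1 i : ℝ))) +
      b * ((g i : ℝ) + (N * y (Fin.castAdd d' i) +
        ∑ j, y (Fin.natAdd d j) * ((c j).1 i : ℝ))) := by
    have h2 : ∑ j, (a • x + b • y) (Fin.natAdd d j) * ((c j).1 i : ℝ) =
        a * ∑ j, x (Fin.natAdd d j) * ((c j).1 i : ℝ) +
          b * ∑ j, y (Fin.natAdd d j) * ((c j).1 i : ℝ) := by
      rw [Finset.mul_sum, Finset.mul_sum, ← Finset.sum_add_distrib]
      refine Finset.sum_congr rfl fun j _ => ?_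
      simp only [Pi.add_apply, Pi.smul_apply, smul_eq_mul]
      ring
    rw [h2]
    simp only [Pi.add_apply, Pi.smul_apply, smul_eq_mul]
    linear_combination (-(g i : ℝ)) * hab
  rw [h1]
  calc |a * ((g i : ℝ) + (N * x (Fin.castAdd d' i) +
        ∑ j, x (Fin.natAdd d j) * ((c j).1 i : ℝ))) +
      b * ((g i : ℝ) + (N * y (Fin.castAdd d' i) +
        ∑ j, y (Fin.natAdd d j) * ((c j).1 i : ℝ)))| ≤ a * R + b * R := by
        refine (abs_add_le _ _).trans (add_le_add ?_ ?_)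
        · rw [abs_mul, abs_of_nonneg ha]; exact mul_le_mul_of_nonneg_left (hx2 i) ha
        · rw [abs_mul, abs_of_nonneg hb]; exact mul_le_mul_of_nonneg_left (hy2 i) hb
    _ = R := by rw [← add_mul, hab, one_mul]

theorem mem_lat_Kc {N : ℕ} {c : Fin d' → (Fin d → ℤ) × O} {g : Fin d → ℤ} {R : ℤ}
    {B : Set (Fin d' → ℝ)} {v : Fin (d + d') → ℤ} :
    v ∈ lat (Kc N c g (R : ℝ) B) ↔ bpart v ∈ lat B ∧ ∀ i, |g i + (bigHom N c v).1 i| ≤ R := by
  show (re v ∈ Kc N c g (R : ℝ) B) ↔ _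
  have e2 : ∀ i : Fin d, (g i : ℝ) + (N * (re v) (Fin.castAdd d' i) +
      ∑ j, (re v) (Fin.natAdd d j) * ((c j).1 i : ℝ)) = ((g i + (bigHom N c v).1 i : ℤ) : ℝ) := by
    intro i
    rw [bigHom_fst]
    push_cast
    rfl
  constructor
  · rintro ⟨h1, h2⟩
    refine ⟨h1, fun i => ?_⟩
    have h3 := h2 i
    rw [e2] at h3
    exact_mod_cast h3
  · rintro ⟨h1, h2⟩
    refine ⟨h1, fun i => ?_⟩
    rw [e2]
    exact_mod_cast h2 i

/-- injectivity of the last coordinates -/
theorem bpart_inj {N : ℕ} (hN : 0 < N) {c : Fin d' → (Fin d → ℤ) × O} {g : Fin d → ℤ} {R : ℤ}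
    (hR : 2 * R < N) {v v' : Fin (d + d') → ℤ} (hv : ∀ i, |g i + (bigHom N c v).1 i| ≤ R)
    (hv' : ∀ i, |g i + (bigHom N c v').1 i| ≤ R) (h : bpart v = bpart v') : v = v' := by
  have hw : wpart v = wpart v' := by
    funext i
    have h1 := hv i
    have h2 := hv' i
    rw [bigHom_fst] at h1 h2
    rw [h] at h1
    set S := ∑ j, bpart v' j * (c j).1 i
    rw [abs_le] at h1 h2
    have h3 : |(N : ℤ) * (wpart v i - wpart v' i)| < N := by
      rw [abs_lt]
      constructor <;> nlinarith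
    rw [abs_mul, Nat.abs_cast] at h3
    have h4 : |wpart v i - wpart v' i| < 1 := by
      by_contra hcon
      push Not at hcon
      have : (N : ℤ) * 1 ≤ N * |wpart v i - wpart v' i| :=
        mul_le_mul_of_nonneg_left hcon (by positivity)
      linarith
    have h5 := Int.abs_lt_one_iff.1 h4
    linarith
  funext k
  refine Fin.addCases (fun i => ?_) (fun j => ?_) k
  · exact congrFun hw i
  · exact congrFun h j

theorem shrink_num {r : ℕ} {B : Set (Fin r → ℝ)} (hB : Sym B) :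
    ((lat ((2 : ℝ) • B)).ncard : ℝ) ≤ 4 ^ r * (num B 1 : ℝ) := by
  have h := num_double hB (t := 1) zero_le_one
  rw [mul_one] at h
  exact_mod_cast h

/-- lifting a covering of a finite set -/
theorem lift_cover {N : ℕ} (hN : N.Prime) {B : Set (Fin d' → ℝ)} (hB : Body B)
    (ψ : (Fin d' → ℤ) →+ (Fin d → ZMod N) × O) (H : AddSubgroup ((Fin d → ZMod N) × O))
    (hH : Finite H) (hcard : Nat.card H < N) (g' : (Fin d → ZMod N) × O) {R : ℤ} (hR : 4 * R < N)
    {A : Finset ((Fin d → ℤ) × O)} (hA : A.Nonempty) (hAR : ∀ a ∈ A, ∀ i, |a.1 i| ≤ R)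
    (hAB : ∀ a ∈ A, ∃ w ∈ lat B, ∃ h ∈ H, rd N a = g' + ψ w + h) {a₀ : ℕ}
    (hvol : (lat B).ncard * Nat.card H ≤ a₀) {K : ℝ} (hK1 : 1 ≤ K) (hK : (a₀ : ℝ) ≤ K * A.card) :
    ∃ (r : ℕ) (B' : Set (Fin r → ℝ)) (θ : (Fin r → ℤ) →+ (Fin d → ℤ) × O)
      (H' : AddSubgroup ((Fin d → ℤ) × O)) (T : Finset ((Fin d → ℤ) × O)),
      (r : ℝ) ≤ 480 * Real.log (4 ^ d' * K) + 1 ∧ Body B' ∧ Finite H' ∧
      (lat B').ncard * Nat.card H' ≤ a₀ ∧
      (T.card : ℝ) ≤ Real.exp (12 + 5040 * Real.log (4 ^ d' * K)) ∧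
      ∀ a ∈ A, ∃ t ∈ T, ∃ w ∈ lat B', ∃ h ∈ H', a = t + θ w + h := by
  classical
  have hN0 : 0 < N := hN.pos
  have hsym : Sym B := ⟨hB.1, hB.2.1, hB.2.2.2, hB.2.2.1.mono interior_subset⟩
  have hlatfin : (lat B).Finite := lat_finite hB.2.1.isBounded
  -- lifts
  choose c hc using fun j : Fin d' => rd_surj N (ψ (Pi.single j 1))
  obtain ⟨g, hg⟩ := rd_surj N g'
  have hψ : ∀ b : Fin d' → ℤ, rd N (∑ j, b j • c j) = ψ b := by
    intro b
    rw [map_sum]
    conv_rhs => rw [← Finset.univ_sum_single b]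
    rw [map_sum]
    refine Finset.sum_congr rfl fun j _ => ?_
    rw [map_zsmul, hc, ← map_zsmul]
    congr 1
    rw [← Pi.single_smul]
    simp
  obtain ⟨hHt, hHtc⟩ := Htl_card H hH
  set Ht := Htl H with hHtdef
  set Ψ := bigHom N c with hΨ
  -- decomposition
  have hdec : ∀ a ∈ A, ∃ v ∈ lat (Kc N c g.1 (R : ℝ) B), ∃ h ∈ Ht, a = g + Ψ v + h := by
    intro a ha
    obtain ⟨b, hb, h, hh, he⟩ := hAB a ha
    have h1 : rd N (a - g - ∑ j, b j • c j) = h := by
      rw [map_sub, map_sub, he, hg, hψ]; abel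
    have h2 : h.1 = 0 := fst_zero hN H hH hcard hh
    have h3 : (rd N (a - g - ∑ j, b j • c j)).1 = 0 := by rw [h1]; exact h2
    have h4 := rd_dvd h3
    choose w hw using h4
    have h5 : (a - g - ∑ j, b j • c j).2 = h.2 := congrArg Prod.snd h1
    have h6 : ((0, h.2) : (Fin d → ZMod N) × O) ∈ H := by
      have : h = (0, h.2) := Prod.ext h2 rfl
      rw [← this]; exact hh
    set v : Fin (d + d') → ℤ := Fin.append w b with hv
    have hvb : bpart v = b := by funext j; simp [bpart, hv]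
    have hvw : wpart v = w := by funext i; simp [wpart, hv]
    have h7 : a = g + Ψ v + ((0, h.2) : (Fin d → ℤ) × O) := by
      rw [hΨ, bigHom_apply, hvb, hvw]
      have h8 : a - g - ∑ j, b j • c j =
          ((fun i => (N : ℤ) * w i), 0) + ((0, h.2) : (Fin d → ℤ) × O) := by
        refine Prod.ext ?_ ?_
        · funext i
          rw [hw i]
          simp
        · rw [h5]; simp
      have h9 : a = g + (a - g - ∑ j, b j • c j) + ∑ j, b j • c j := by abel
      rw [h8] at h9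
      conv_lhs => rw [h9]
      abel
    refine ⟨v, mem_lat_Kc.2 ⟨by rw [hvb]; exact hb, fun i => ?_⟩, (0, h.2), ⟨rfl, h6⟩, h7⟩
    have h8 : a.1 i = g.1 i + (Ψ v).1 i := by
      conv_lhs => rw [h7]
      simp
    rw [← h8]
    exact hAR a ha i
  have hRnn : 0 ≤ R ∨ d = 0 := by
    rcases Nat.eq_zero_or_pos d with h | h
    · exact Or.inr h
    · left
      obtain ⟨a, ha⟩ := hA
      exact (abs_nonneg _).trans (hAR a ha ⟨0, h⟩)
  have hKfin : (lat (Kc N c g.1 (R : ℝ) B)).Finite := by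
    refine Set.Finite.of_injOn (f := bpart) (t := lat B) ?_ ?_ hlatfin
    · intro v hv; exact (mem_lat_Kc.1 hv).1
    · intro v hv v' hv' h
      rcases hRnn with hR0 | hd0
      · exact bpart_inj hN0 (by linarith) (mem_lat_Kc.1 hv).2 (mem_lat_Kc.1 hv').2 h
      · subst hd0
        funext k
        refine Fin.addCases (fun i => i.elim0) (fun j => ?_) k
        exact congrFun h j
  have hinj1 : Set.InjOn bpart (lat (Kc N c g.1 (R : ℝ) B)) := by
    intro v hv v' hv' h
    rcases hRnn with hR0 | hd0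
    · exact bpart_inj hN0 (by linarith) (mem_lat_Kc.1 hv).2 (mem_lat_Kc.1 hv').2 h
    · subst hd0
      funext k
      refine Fin.addCases (fun i => i.elim0) (fun j => ?_) k
      exact congrFun h j
  set X : Finset (Fin (d + d') → ℤ) := hKfin.toFinset.filter (fun v => ∃ h ∈ Ht, g + Ψ v + h ∈ A)
    with hX
  have hXmem : ∀ v ∈ X, v ∈ lat (Kc N c g.1 (R : ℝ) B) := fun v hv =>
    (Set.Finite.mem_toFinset _).1 (Finset.mem_filter.1 hv).1
  have hXne : X.Nonempty := by
    obtain ⟨a, ha⟩ := hA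
    obtain ⟨v, hv, h, hh, he⟩ := hdec a ha
    exact ⟨v, Finset.mem_filter.2 ⟨(Set.Finite.mem_toFinset _).2 hv, h, hh, he ▸ ha⟩⟩
  have hHtf : Fintype Ht := Fintype.ofFinite Ht
  have hAX : A.card ≤ X.card * Nat.card Ht := by
    have h1 : A ⊆ (X ×ˢ (Finset.univ : Finset Ht)).image (fun p => g + Ψ p.1 + (p.2 : _)) := by
      intro a ha
      obtain ⟨v, hv, h, hh, he⟩ := hdec a ha
      refine Finset.mem_image.2 ⟨(v, ⟨h, hh⟩), Finset.mem_product.2 ⟨?_, Finset.mem_univ _⟩, he.symm⟩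
      exact Finset.mem_filter.2 ⟨(Set.Finite.mem_toFinset _).2 hv, h, hh, he ▸ ha⟩
    refine (Finset.card_le_card h1).trans (Finset.card_image_le.trans ?_)
    rw [Finset.card_product, Finset.card_univ, Nat.card_eq_fintype_card]
  have hXB : X.card ≤ (lat B).ncard := by
    rw [← Set.ncard_coe_finset]
    refine Set.ncard_le_ncard_of_injOn bpart ?_ ?_ hlatfin
    · intro v hv; exact (mem_lat_Kc.1 (hXmem v hv)).1
    · exact hinj1.mono fun v hv => hXmem v hv
  have hHtpos : (0 : ℝ) < Nat.card Ht := by exact_mod_cast Nat.card_pos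
  have hBX : ((lat B).ncard : ℝ) ≤ K * X.card := by
    have h1 : ((lat B).ncard : ℝ) * Nat.card Ht ≤ (K * X.card) * Nat.card Ht := by
      calc ((lat B).ncard : ℝ) * Nat.card Ht ≤ (lat B).ncard * Nat.card H := by
            have : (Nat.card Ht : ℝ) ≤ Nat.card H := by exact_mod_cast hHtc
            gcongr
        _ ≤ a₀ := by exact_mod_cast hvol
        _ ≤ K * A.card := hK
        _ ≤ K * (X.card * Nat.card Ht) := by
            have : (A.card : ℝ) ≤ X.card * Nat.card Ht := by exact_mod_cast hAX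
            gcongr
        _ = _ := by ring
    exact le_of_mul_le_mul_right h1 hHtpos
  have h4d : (1 : ℝ) ≤ 4 ^ d' := one_le_pow₀ (by norm_num)
  set K₂ : ℝ := 4 ^ d' * K with hK₂
  have hK₂1 : 1 ≤ K₂ := by
    rw [hK₂]; nlinarith
  have hK₂0 : 0 < K₂ := by linarith
  have hKK₂ : K ≤ K₂ := by
    rw [hK₂]; nlinarith
  have hdbl : ((X + X).card : ℝ) ≤ K₂ * X.card := by
    have h1 : ((X + X).card : ℝ) ≤ ((lat ((2 : ℝ) • B)).ncard : ℝ) := by
      have h2 : (X + X).card ≤ (lat ((2 : ℝ) • B)).ncard := by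
        rw [← Set.ncard_coe_finset]
        refine Set.ncard_le_ncard_of_injOn bpart ?_ ?_ (hsym.finite 2)
        · intro v hv
          obtain ⟨v₁, hv₁, v₂, hv₂, rfl⟩ := Finset.mem_add.1 (Finset.mem_coe.1 hv)
          have h3 : bpart (v₁ + v₂) = bpart v₁ + bpart v₂ := rfl
          rw [h3]
          have h4 : (2 : ℝ) = 1 + 1 := by norm_num
          rw [h4]
          refine hsym.add zero_le_one zero_le_one ?_ ?_
          · rw [one_smul]; exact (mem_lat_Kc.1 (hXmem _ hv₁)).1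
          · rw [one_smul]; exact (mem_lat_Kc.1 (hXmem _ hv₂)).1
        · intro v hv v' hv' h
          rcases hRnn with hR0 | hd0
          · have key : ∀ v ∈ X + X, ∀ i, |(g.1 + g.1) i + (Ψ v).1 i| ≤ 2 * R := by
              intro v hv i
              obtain ⟨v₁, hv₁, v₂, hv₂, rfl⟩ := Finset.mem_add.1 hv
              have h3 := abs_le.1 ((mem_lat_Kc.1 (hXmem _ hv₁)).2 i)
              have h4 := abs_le.1 ((mem_lat_Kc.1 (hXmem _ hv₂)).2 i)
              rw [map_add, Prod.fst_add, Pi.add_apply, Pi.add_apply, abs_le]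
              constructor <;> linarith
            exact bpart_inj hN0 (by linarith) (key v hv) (key v' hv') h
          · subst hd0
            funext k
            refine Fin.addCases (fun i => i.elim0) (fun j => ?_) k
            exact congrFun h j
      exact_mod_cast h2
    have h2 := shrink_num hsym
    have h3 : num B 1 = (lat B).ncard := by unfold num; rw [one_smul]
    rw [h3] at h2
    calc ((X + X).card : ℝ) ≤ 4 ^ d' * ((lat B).ncard : ℝ) := h1.trans h2
      _ ≤ 4 ^ d' * (K * X.card) := by gcongr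
      _ = K₂ * X.card := by rw [hK₂]; ring
  have hhull : ((hull X).ncard : ℝ) ≤ K₂ * X.card := by
    have h1 : hull X ⊆ lat (Kc N c g.1 (R : ℝ) B) := by
      intro v hv
      have h2 : convexHull ℝ (re '' (X : Set (Fin (d + d') → ℤ))) ⊆ Kc N c g.1 (R : ℝ) B := by
        refine convexHull_min ?_ (Kc_convex N c g.1 R hB.1)
        rintro _ ⟨v, hv, rfl⟩
        exact hXmem v hv
      exact h2 hv
    have h2 : (hull X).ncard ≤ (lat B).ncard := by
      refine Set.ncard_le_ncard_of_injOn bpart ?_ ?_ hlatfin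
      · intro v hv; exact (mem_lat_Kc.1 (h1 hv)).1
      · exact hinj1.mono h1
    calc ((hull X).ncard : ℝ) ≤ (lat B).ncard := by exact_mod_cast h2
      _ ≤ K * X.card := hBX
      _ ≤ K₂ * X.card := by gcongr
  obtain ⟨r, φ, B₁, F, hr, hB₁, hnum, hF, hcovF⟩ := struct X hXne hK₂1 hdbl hhull
  have ha₀ : 1 ≤ a₀ := by
    have h1 : 0 < (lat B).ncard := by
      have := num_pos hsym 1
      rwa [num, one_smul] at this
    have h2 : 0 < Nat.card H := Nat.card_pos
    have := Nat.mul_pos h1 h2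
    omega
  have ha₀r : (0 : ℝ) < a₀ := by exact_mod_cast ha₀
  obtain ⟨r', B', θ, H', T, hr', hB', hH', hvol', hT, hcovT⟩ :=
    shrink (hB₁.smul 2) (Ψ.comp φ) Ht hHt ha₀
  have hlogK₂ : 0 ≤ Real.log K₂ := Real.log_nonneg hK₂1
  have h4r : (1 : ℝ) ≤ 4 ^ r := one_le_pow₀ (by norm_num)
  have hratio : max 1 ((((lat ((2 : ℝ) • B₁)).ncard * Nat.card Ht : ℕ) : ℝ) / (a₀ : ℝ)) ≤
      4 ^ r * K₂ := by
    apply max_le
    · nlinarith
    · rw [div_le_iff₀ ha₀r]
      push_cast
      have h1 := shrink_num hB₁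
      have h2 : (X.card : ℝ) * Nat.card Ht ≤ a₀ := by
        calc (X.card : ℝ) * Nat.card Ht ≤ (lat B).ncard * Nat.card H := by
              have e1 : (X.card : ℝ) ≤ (lat B).ncard := by exact_mod_cast hXB
              have e2 : (Nat.card Ht : ℝ) ≤ Nat.card H := by exact_mod_cast hHtc
              exact mul_le_mul e1 e2 (Nat.cast_nonneg _) (Nat.cast_nonneg _)
          _ ≤ a₀ := by exact_mod_cast hvol
      calc ((lat ((2 : ℝ) • B₁)).ncard : ℝ) * Nat.card Ht ≤
          (4 ^ r * (K₂ * X.card)) * Nat.card Ht := by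
            apply mul_le_mul_of_nonneg_right _ hHtpos.le
            exact h1.trans (mul_le_mul_of_nonneg_left hnum (by positivity))
        _ = 4 ^ r * K₂ * (X.card * Nat.card Ht) := by ring
        _ ≤ 4 ^ r * K₂ * a₀ := mul_le_mul_of_nonneg_left h2 (by positivity)
  refine ⟨r', B', θ, H', (F ×ˢ T).image (fun p => g + Ψ p.1 + p.2), ?_, hB', hH', hvol', ?_, ?_⟩
  · have h1 : ((max r 1 : ℕ) : ℝ) ≤ 480 * Real.log K₂ + 1 := by
      rw [Nat.cast_max]
      apply max_le hr
      push_cast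
      linarith
    exact le_trans (by exact_mod_cast hr') h1
  · have h1 : (((F ×ˢ T).image (fun p => g + Ψ p.1 + p.2)).card : ℝ) ≤ F.card * T.card := by
      have := (Finset.card_image_le (s := F ×ˢ T) (f := fun p => g + Ψ p.1 + p.2))
      rw [Finset.card_product] at this
      exact_mod_cast this
    have h16 : (4 : ℝ) ^ r * 1024 ^ r * 4 ^ r = 16384 ^ r := by
      rw [← mul_pow, ← mul_pow]; norm_num
    have h2 : (F.card : ℝ) * T.card ≤ 6 * 16384 ^ r * K₂ ^ 373 := by
      calc (F.card : ℝ) * T.card ≤ (K₂ ^ 372 * 4 ^ r) * (6 * 1024 ^ r * (4 ^ r * K₂)) := by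
            refine mul_le_mul hF (hT.trans (mul_le_mul_of_nonneg_left hratio (by positivity)))
              (Nat.cast_nonneg _) (by positivity)
        _ = 6 * ((4 : ℝ) ^ r * 1024 ^ r * 4 ^ r) * K₂ ^ 373 := by
            rw [pow_succ K₂ 372]; ring
        _ = _ := by rw [h16]
    have hexp1 := Real.exp_one_gt_d9
    have h3 : (16384 : ℝ) ^ r ≤ Real.exp (9.71 * r) := by
      have h4 : (16384 : ℝ) ≤ Real.exp 9.71 := by
        have h5 : Real.log 16384 ≤ 9.71 := by
          have h6 : Real.log 16384 = 14 * Real.log 2 := by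
            rw [show (16384 : ℝ) = 2 ^ 14 by norm_num, Real.log_pow]; norm_num
          rw [h6]
          have := Real.log_two_lt_d9
          linarith
        rw [← Real.log_le_iff_le_exp (by norm_num)]
        exact h5
      calc (16384 : ℝ) ^ r ≤ Real.exp 9.71 ^ r := by gcongr
        _ = Real.exp (9.71 * r) := by rw [← Real.exp_nat_mul]; congr 1; ring
    have h4 : (6 : ℝ) ≤ Real.exp 2 := by
      have h' : Real.exp 2 = Real.exp 1 ^ 2 := by rw [← Real.exp_nat_mul]; norm_num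
      rw [h']; nlinarith
    have h5 : K₂ ^ 373 = Real.exp (373 * Real.log K₂) := by
      have h6 : (373 : ℝ) * Real.log K₂ = ((373 : ℕ) : ℝ) * Real.log K₂ := by norm_num
      rw [h6, Real.exp_nat_mul, Real.exp_log hK₂0]
    refine h1.trans (h2.trans ?_)
    calc (6 : ℝ) * 16384 ^ r * K₂ ^ 373 ≤
        Real.exp 2 * Real.exp (9.71 * r) * Real.exp (373 * Real.log K₂) := by
          rw [h5]; gcongr
      _ = Real.exp (2 + 9.71 * r + 373 * Real.log K₂) := by rw [← Real.exp_add, ← Real.exp_add]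
      _ ≤ Real.exp (12 + 5040 * Real.log K₂) := Real.exp_le_exp.2 (by nlinarith)
  · intro a ha
    obtain ⟨v, hv, h, hh, he⟩ := hdec a ha
    have hvX : v ∈ X := Finset.mem_filter.2 ⟨(Set.Finite.mem_toFinset _).2 hv, h, hh, he ▸ ha⟩
    obtain ⟨f, hf, w, hw, rfl⟩ := hcovF v hvX
    obtain ⟨t, ht, w', hw', h', hh', he'⟩ := hcovT w hw h hh
    refine ⟨g + Ψ f + t, Finset.mem_image.2 ⟨(f, t), Finset.mem_product.2 ⟨hf, ht⟩, rfl⟩, w', hw',
      h', hh', ?_⟩
    have h1 : Ψ (φ w) + h = t + θ w' + h' := he'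
    rw [he, map_add]
    have h2 : g + (Ψ f + Ψ (φ w)) + h = g + Ψ f + (Ψ (φ w) + h) := by abel
    rw [h2, h1]
    abel

end

end T9h11.RW
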