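import Pool.Agent.T9h11.HB4
import Pool.Agent.T9h11.RW11

set_option autoImplicit false
set_option linter.unusedSectionVars false
set_option linter.unusedVariables false

/-! Positive definite kernels of Hilbertian energies and the weights on the dual group. -/

namespace T9h11.HB

open Finset H460 T9h11.RM T9h11.RW Pool.Agent.Y806.DF
open scoped Classical Pointwise

section kernel

variable {H : Type*} [NormedAddCommGroup H] [InnerProductSpace ℝ H] {n : Type*} [Fintype n]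

theorem gram_pow_psd (v : n → H) (k : ℕ) :
    (Matrix.of fun i j => (inner ℝ (v i) (v j) : ℝ) ^ k).PosSemidef := by
  induction k with
  | zero =>
    have h := Matrix.posSemidef_gram ℝ (fun _ : n => (1 : ℝ))
    have he : (Matrix.of fun i j => (inner ℝ (v i) (v j) : ℝ) ^ 0) =
        Matrix.gram ℝ (fun _ : n => (1 : ℝ)) := by
      ext i j
      simp [Matrix.gram_apply]
    rw [he]
    exact h
  | succ k ih =>
    have h := Matrix.PosSemidef.hadamard (𝕜 := ℝ) ih (Matrix.posSemidef_gram ℝ v)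
    have he : (Matrix.of fun i j => (inner ℝ (v i) (v j) : ℝ) ^ (k + 1)) =
        Matrix.hadamard (Matrix.of fun i j => (inner ℝ (v i) (v j) : ℝ) ^ k)
          (Matrix.gram ℝ v) := by
      ext i j
      simp [Matrix.hadamard_apply, Matrix.gram_apply, pow_succ]
    rw [he]
    exact h

theorem gram_pow_nonneg (v : n → H) (k : ℕ) (c : n → ℝ) :
    0 ≤ ∑ i, ∑ j, c i * c j * (inner ℝ (v i) (v j) : ℝ) ^ k := by
  have h := (gram_pow_psd v k).dotProduct_mulVec_nonneg c
  refine h.trans (le_of_eq ?_)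
  simp only [dotProduct, Matrix.mulVec, Matrix.of_apply, Pi.star_apply, star_trivial]
  refine Finset.sum_congr rfl fun i _ => ?_
  rw [Finset.mul_sum]
  refine Finset.sum_congr rfl fun j _ => ?_
  ring

/-- the Gaussian kernel is positive semidefinite -/
theorem gauss_pd (v : n → H) (c : n → ℝ) {t : ℝ} (ht : 0 ≤ t) :
    0 ≤ ∑ i, ∑ j, c i * c j * Real.exp (-(t * ‖v i - v j‖ ^ 2)) := by
  set c' : n → ℝ := fun i => c i * Real.exp (-(t * ‖v i‖ ^ 2)) with hc'
  have h1 : ∀ i j, c i * c j * Real.exp (-(t * ‖v i - v j‖ ^ 2)) =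
      c' i * c' j * Real.exp (2 * t * inner ℝ (v i) (v j)) := by
    intro i j
    rw [norm_sub_sq_real]
    have h2 : -(t * (‖v i‖ ^ 2 - 2 * inner ℝ (v i) (v j) + ‖v j‖ ^ 2)) =
        -(t * ‖v i‖ ^ 2) + -(t * ‖v j‖ ^ 2) + 2 * t * inner ℝ (v i) (v j) := by ring
    rw [h2, Real.exp_add, Real.exp_add, hc']
    ring
  simp_rw [h1]
  have h2 : HasSum (fun k : ℕ => (2 * t) ^ k / (k.factorial : ℝ) *
      ∑ i, ∑ j, c' i * c' j * (inner ℝ (v i) (v j) : ℝ) ^ k)
      (∑ i, ∑ j, c' i * c' j * Real.exp (2 * t * inner ℝ (v i) (v j))) := by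
    simp_rw [Finset.mul_sum]
    refine hasSum_sum fun i _ => hasSum_sum fun j _ => ?_
    have h3 : HasSum (fun k : ℕ => (2 * t * inner ℝ (v i) (v j)) ^ k / (k.factorial : ℝ))
        (Real.exp (2 * t * inner ℝ (v i) (v j))) := by
      rw [Real.exp_eq_exp_ℝ]
      exact NormedSpace.expSeries_div_hasSum_exp _
    refine (h3.mul_left (c' i * c' j)).congr_fun ?_
    intro k
    rw [mul_pow]
    ring
  exact h2.nonneg fun k => mul_nonneg (by positivity) (gram_pow_nonneg v k c')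

end kernel

/-- all Gaussian kernels of the energy `E` are positive definite -/
def PDE {Γ : Type*} [AddCommGroup Γ] (E : Γ → ℝ) : Prop :=
  ∀ t : ℝ, 0 ≤ t → ∀ (U : Finset Γ) (c : Γ → ℝ),
    0 ≤ ∑ u ∈ U, ∑ v ∈ U, c u * c v * Real.exp (-(t * E (u - v)))

theorem pde_of_hilbert {Γ H : Type*} [AddCommGroup Γ] [NormedAddCommGroup H]
    [InnerProductSpace ℝ H] (b : Γ → H) (hb : ∀ x y z, ‖b (x + z) - b (y + z)‖ = ‖b x - b y‖) :
    PDE (fun x => ‖b x - b 0‖ ^ 2) := by
  intro t ht U c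
  have h := gauss_pd (fun u : U => b u) (fun u : U => c u) ht
  refine h.trans (le_of_eq ?_)
  rw [← Finset.sum_coe_sort U (fun u => ∑ v ∈ U, c u * c v *
    Real.exp (-(t * ‖b (u - v) - b 0‖ ^ 2)))]
  refine Finset.sum_congr rfl fun u _ => ?_
  rw [← Finset.sum_coe_sort U (fun v => c u * c v *
    Real.exp (-(t * ‖b (u - v) - b 0‖ ^ 2)))]
  refine Finset.sum_congr rfl fun v _ => ?_
  have h1 := hb ((u : Γ) - v) 0 v
  rw [sub_add_cancel, zero_add] at h1
  rw [h1]

theorem PDE.comp {Γ Γ' : Type*} [AddCommGroup Γ] [AddCommGroup Γ'] {E : Γ → ℝ} (h : PDE E)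
    (j : Γ' →+ Γ) (hj : Function.Injective j) : PDE (fun x => E (j x)) := by
  intro t ht U c
  have h1 := h t ht (U.map ⟨j, hj⟩) (Function.extend j c 0)
  refine h1.trans (le_of_eq ?_)
  rw [Finset.sum_map]
  refine Finset.sum_congr rfl fun u _ => ?_
  rw [Finset.sum_map]
  refine Finset.sum_congr rfl fun v _ => ?_
  simp only [Function.Embedding.coeFn_mk]
  rw [hj.extend_apply, hj.extend_apply, map_sub]

section weights

variable {Γ G : Type*} [AddCommGroup Γ] [AddCommGroup G] [Fintype G]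

/-- the weights on the dual group -/
noncomputable def wt (E : Γ → ℝ) (t : ℝ) (q : Γ →+ G) (U : Finset Γ) (γ : AddChar G ℂ) : ℝ :=
  (∑ u ∈ U, ∑ v ∈ U, (γ (q (u - v))).re * Real.exp (-(t * E (u - v)))) /
    (Fintype.card G * U.card)

theorem wt_nonneg {E : Γ → ℝ} (hE : PDE E) {t : ℝ} (ht : 0 ≤ t) (q : Γ →+ G) (U : Finset Γ)
    (γ : AddChar G ℂ) : 0 ≤ wt E t q U γ := by
  unfold wt
  refine div_nonneg ?_ (by positivity)
  have h1 := hE t ht U (fun u => (γ (q u)).re)
  have h2 := hE t ht U (fun u => (γ (q u)).im)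
  have h3 : ∑ u ∈ U, ∑ v ∈ U, (γ (q (u - v))).re * Real.exp (-(t * E (u - v))) =
      ∑ u ∈ U, ∑ v ∈ U, (γ (q u)).re * (γ (q v)).re * Real.exp (-(t * E (u - v))) +
      ∑ u ∈ U, ∑ v ∈ U, (γ (q u)).im * (γ (q v)).im * Real.exp (-(t * E (u - v))) := by
    rw [← Finset.sum_add_distrib]
    refine Finset.sum_congr rfl fun u _ => ?_
    rw [← Finset.sum_add_distrib]
    refine Finset.sum_congr rfl fun v _ => ?_
    rw [sub_eq_add_neg u v, map_add, map_neg, AddChar.map_add_eq_mul, T9h11.RW.re_neg]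
    simp only [Complex.mul_re, Complex.conj_re, Complex.conj_im]
    ring
  rw [h3]
  exact add_nonneg h1 h2

theorem char_orth (x y : G) : ∑ γ : AddChar G ℂ, (γ x).re * (γ y).re =
    (Fintype.card G : ℝ) * (((if x + y = 0 then 1 else 0) + (if x - y = 0 then 1 else 0)) / 2) := by
  simp_rw [re_mul_re]
  rw [← Finset.sum_div, Finset.sum_add_distrib, sum_re, sum_re]
  split_ifs <;> ring

theorem phi_wt {E : Γ → ℝ} (hEn : ∀ x, E (-x) = E x) (t : ℝ) (q : Γ →+ G) {U : Finset Γ}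
    (hU : U.Nonempty) (y : G) :
    phi (wt E t q U) y = (∑ u ∈ U, ∑ v ∈ U, if q (u - v) = y then Real.exp (-(t * E (u - v)))
      else 0) / U.card := by
  have hUc : (0 : ℝ) < U.card := by exact_mod_cast hU.card_pos
  have hG : (0 : ℝ) < Fintype.card G := by exact_mod_cast Fintype.card_pos
  have h1 : phi (wt E t q U) y = (∑ u ∈ U, ∑ v ∈ U, Real.exp (-(t * E (u - v))) *
      ∑ γ : AddChar G ℂ, (γ (q (u - v))).re * (γ y).re) / (Fintype.card G * U.card) := by
    unfold phi wt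
    rw [Finset.sum_div]
    simp_rw [Finset.sum_div, Finset.mul_sum, Finset.sum_div, Finset.sum_mul]
    rw [Finset.sum_comm]
    refine Finset.sum_congr rfl fun u _ => ?_
    rw [Finset.sum_comm]
    refine Finset.sum_congr rfl fun v _ => ?_
    refine Finset.sum_congr rfl fun γ _ => ?_
    ring
  have h2 : ∑ u ∈ U, ∑ v ∈ U, Real.exp (-(t * E (u - v))) *
      ∑ γ : AddChar G ℂ, (γ (q (u - v))).re * (γ y).re =
      Fintype.card G * ((∑ u ∈ U, ∑ v ∈ U, (if q (u - v) + y = 0 then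
        Real.exp (-(t * E (u - v))) else 0)) + ∑ u ∈ U, ∑ v ∈ U, (if q (u - v) = y then
        Real.exp (-(t * E (u - v))) else 0)) / 2 := by
    rw [← Finset.sum_add_distrib, Finset.mul_sum, Finset.sum_div]
    refine Finset.sum_congr rfl fun u _ => ?_
    rw [← Finset.sum_add_distrib, Finset.mul_sum, Finset.sum_div]
    refine Finset.sum_congr rfl fun v _ => ?_
    rw [char_orth]
    simp_rw [sub_eq_zero]
    split_ifs <;> ring
  have h3 : ∑ u ∈ U, ∑ v ∈ U, (if q (u - v) + y = 0 then Real.exp (-(t * E (u - v))) else 0) =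
      ∑ u ∈ U, ∑ v ∈ U, (if q (u - v) = y then Real.exp (-(t * E (u - v))) else 0) := by
    rw [Finset.sum_comm]
    refine Finset.sum_congr rfl fun v _ => Finset.sum_congr rfl fun u _ => ?_
    have h4 : E (u - v) = E (v - u) := by rw [← hEn, neg_sub]
    have h5 : (q (u - v) + y = 0) ↔ (q (v - u) = y) := by
      rw [← neg_sub v u, map_neg, neg_add_eq_zero]
    rw [h4]
    by_cases h6 : q (v - u) = y
    · rw [if_pos h6, if_pos (h5.2 h6)]
    · rw [if_neg h6, if_neg (fun h => h6 (h5.1 h))]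
  rw [h1, h2, h3]
  field_simp
  ring

theorem wt_sum {E : Γ → ℝ} (hE0 : E 0 = 0) (hEn : ∀ x, E (-x) = E x) (t : ℝ) (q : Γ →+ G)
    {U : Finset Γ} (hU : U.Nonempty) (hq : ∀ u ∈ U, ∀ v ∈ U, q (u - v) = 0 → u = v) :
    ∑ γ, wt E t q U γ = 1 := by
  have hUc : (0 : ℝ) < U.card := by exact_mod_cast hU.card_pos
  have h1 := phi_wt hEn t q hU 0
  have h2 : phi (wt E t q U) 0 = ∑ γ, wt E t q U γ := by
    unfold phi
    refine Finset.sum_congr rfl fun γ _ => ?_
    rw [AddChar.map_zero_eq_one, Complex.one_re, mul_one]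
  rw [← h2, h1, div_eq_one_iff_eq hUc.ne']
  have h3 : ∀ u ∈ U, ∑ v ∈ U, (if q (u - v) = 0 then Real.exp (-(t * E (u - v))) else 0) = 1 := by
    intro u hu
    rw [Finset.sum_eq_single u]
    · rw [sub_self, map_zero, if_pos rfl, hE0, mul_zero, neg_zero, Real.exp_zero]
    · intro v hv hne
      rw [if_neg]
      intro h
      exact hne (hq u hu v hv h).symm
    · intro h; exact absurd hu h
  rw [Finset.sum_congr rfl h3, Finset.sum_const, nsmul_eq_mul, mul_one]

theorem phi_wt_ge {E : Γ → ℝ} (hEn : ∀ x, E (-x) = E x) (t : ℝ) (q : Γ →+ G) {U : Finset Γ}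
    (hU : U.Nonempty) (x : Γ) {V : Finset Γ} (hV : ∀ v ∈ V, v ∈ U ∧ v + x ∈ U) :
    (V.card : ℝ) / U.card * Real.exp (-(t * E x)) ≤ phi (wt E t q U) (q x) := by
  have hUc : (0 : ℝ) < U.card := by exact_mod_cast hU.card_pos
  rw [phi_wt hEn t q hU, div_mul_eq_mul_div]
  refine div_le_div_of_nonneg_right ?_ hUc.le
  have hnn : ∀ v, ∀ u ∈ U, 0 ≤ (if q (u - v) = q x then Real.exp (-(t * E (u - v))) else 0) := by
    intro v u _
    split_ifs
    · positivity
    · exact le_rfl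
  rw [Finset.sum_comm, Finset.card_eq_sum_ones, Nat.cast_sum, Finset.sum_mul]
  refine le_trans (Finset.sum_le_sum fun v hv => ?_)
    (Finset.sum_le_sum_of_subset_of_nonneg (fun v hv => (hV v hv).1)
      fun v _ _ => Finset.sum_nonneg (hnn v))
  refine le_trans ?_ (Finset.single_le_sum (hnn v) (hV v hv).2)
  rw [add_sub_cancel_left, if_pos rfl, Nat.cast_one, one_mul]

theorem phi_wt_zero {E : Γ → ℝ} (hEn : ∀ x, E (-x) = E x) (t : ℝ) (q : Γ →+ G) {U : Finset Γ}
    (hU : U.Nonempty) {y : G} (hy : ∀ u ∈ U, ∀ v ∈ U, q (u - v) ≠ y) :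
    phi (wt E t q U) y = 0 := by
  rw [phi_wt hEn t q hU]
  rw [Finset.sum_eq_zero, zero_div]
  intro u hu
  refine Finset.sum_eq_zero fun v hv => ?_
  rw [if_neg (hy u hu v hv)]

theorem phi_wt_le {E : Γ → ℝ} (hEn : ∀ x, E (-x) = E x) (t : ℝ) (q : Γ →+ G) {U : Finset Γ}
    (hU : U.Nonempty) (hq : ∀ u ∈ U, ∀ v ∈ U, ∀ u' ∈ U, ∀ v' ∈ U, q (u - v) = q (u' - v') →
      u - v = u' - v') {x : Γ} (hx : ∃ u ∈ U, ∃ v ∈ U, x = u - v) :
    phi (wt E t q U) (q x) ≤ Real.exp (-(t * E x)) := by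
  obtain ⟨u₁, hu₁, v₁, hv₁, rfl⟩ := hx
  set x := u₁ - v₁ with hx
  have hUc : (0 : ℝ) < U.card := by exact_mod_cast hU.card_pos
  rw [phi_wt hEn t q hU, div_le_iff₀ hUc, Finset.sum_comm]
  have h1 : ∀ v ∈ U, ∑ u ∈ U, (if q (u - v) = q x then Real.exp (-(t * E (u - v))) else 0) ≤
      Real.exp (-(t * E x)) := by
    intro v hv
    by_cases h : v + x ∈ U
    · rw [Finset.sum_eq_single (v + x)]
      · rw [add_sub_cancel_left, if_pos rfl]
      · intro u hu hne
        rw [if_neg]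
        intro h2
        have h3 := hq u hu v hv u₁ hu₁ v₁ hv₁ h2
        exact hne (by rw [hx, ← h3]; abel)
      · intro h2; exact absurd h h2
    · rw [Finset.sum_eq_zero]
      · positivity
      · intro u hu
        rw [if_neg]
        intro h2
        have h3 := hq u hu v hv u₁ hu₁ v₁ hv₁ h2
        apply h
        rw [hx, ← h3, add_sub_cancel]
        exact hu
  calc ∑ v ∈ U, ∑ u ∈ U, (if q (u - v) = q x then Real.exp (-(t * E (u - v))) else 0)
      ≤ ∑ v ∈ U, Real.exp (-(t * E x)) := Finset.sum_le_sum h1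
    _ = Real.exp (-(t * E x)) * U.card := by rw [Finset.sum_const, nsmul_eq_mul, mul_comm]

theorem chord_half {s : ℝ} (h0 : 0 ≤ s) (h1 : s ≤ 1) : s / 2 ≤ 1 - Real.exp (-s) := by
  have h2 := Real.add_one_le_exp s
  have h3 : Real.exp (-s) ≤ 1 / (1 + s) := by
    rw [Real.exp_neg, inv_eq_one_div]
    exact one_div_le_one_div_of_le (by linarith) (by linarith)
  have h4 : 1 / (1 + s) ≤ 1 - s / 2 := by
    rw [div_le_iff₀ (by linarith)]
    nlinarith
  linarith

theorem scal_bound {M : ℝ} (hM : 0 < M) {e f : ℝ} (he : 0 ≤ e)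
    (hf : f ≤ Real.exp (-(5 / M * e))) :
    Real.exp (-(2 / 5 * (M * (1 - f)))) ≤ Real.exp (-e) + Real.exp (-(M / 5)) := by
  have h1 : Real.exp (-(2 / 5 * (M * (1 - f)))) ≤
      Real.exp (-(2 / 5 * (M * (1 - Real.exp (-(5 / M * e)))))) := by
    apply Real.exp_le_exp.2
    nlinarith
  have hs0 : 0 ≤ 5 / M * e := by positivity
  rcases le_total (5 / M * e) 1 with hs | hs
  · have h2 := chord_half hs0 hs
    have h3 : e ≤ 2 / 5 * (M * (1 - Real.exp (-(5 / M * e)))) := by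
      have h4 : e = 2 / 5 * (M * (5 / M * e / 2)) := by field_simp
      calc e = 2 / 5 * (M * (5 / M * e / 2)) := h4
        _ ≤ _ := by gcongr
    have h5 : Real.exp (-(2 / 5 * (M * (1 - Real.exp (-(5 / M * e)))))) ≤ Real.exp (-e) :=
      Real.exp_le_exp.2 (by linarith)
    have h6 := Real.exp_pos (-(M / 5))
    linarith
  · have h2 := chord_half zero_le_one le_rfl
    have h3 : Real.exp (-(5 / M * e)) ≤ Real.exp (-1) := Real.exp_le_exp.2 (by linarith)
    have h4 : M / 5 ≤ 2 / 5 * (M * (1 - Real.exp (-(5 / M * e)))) := by nlinarith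
    have h5 : Real.exp (-(2 / 5 * (M * (1 - Real.exp (-(5 / M * e)))))) ≤ Real.exp (-(M / 5)) :=
      Real.exp_le_exp.2 (by linarith)
    have h6 := Real.exp_pos (-e)
    linarith

theorem Z_bound {E : Γ → ℝ} (hEnn : ∀ x, 0 ≤ E x) (hEn : ∀ x, E (-x) = E x) {M : ℕ} (hM : 0 < M)
    (q : Γ →+ G) {U : Finset Γ} (hU : U.Nonempty)
    (hq : ∀ u ∈ U, ∀ v ∈ U, ∀ u' ∈ U, ∀ v' ∈ U, q (u - v) = q (u' - v') → u - v = u' - v') :
    ∃ D : Finset Γ, ∑ y, Real.exp (-(2 / 5 * (M * (1 - phi (wt E (5 / M) q U) y)))) ≤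
      ∑ x ∈ D, Real.exp (-E x) + Fintype.card G * Real.exp (-(M / 5)) := by
  refine ⟨U - U, ?_⟩
  have hM' : (0 : ℝ) < M := by exact_mod_cast hM
  have h1 : ∀ y, Real.exp (-(2 / 5 * (M * (1 - phi (wt E (5 / M) q U) y)))) ≤
      (∑ x ∈ U - U, if q x = y then Real.exp (-E x) else 0) + Real.exp (-(M / 5)) := by
    intro y
    by_cases hy : ∃ x ∈ U - U, q x = y
    · obtain ⟨x, hx, rfl⟩ := hy
      have hx' : ∃ u ∈ U, ∃ v ∈ U, x = u - v := by
        obtain ⟨u, hu, v, hv, he⟩ := Finset.mem_sub.1 hx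
        exact ⟨u, hu, v, hv, he.symm⟩
      have h2 := scal_bound hM' (hEnn x) (phi_wt_le hEn (5 / M) q hU hq hx')
      have h3 : (if q x = q x then Real.exp (-E x) else 0) ≤
          ∑ x' ∈ U - U, if q x' = q x then Real.exp (-E x') else 0 :=
        Finset.single_le_sum (f := fun x' => if q x' = q x then Real.exp (-E x') else 0)
          (fun x' _ => by
            beta_reduce
            split_ifs
            · positivity
            · exact le_rfl) hx
      rw [if_pos rfl] at h3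
      linarith
    · push Not at hy
      rw [phi_wt_zero hEn (5 / M) q hU (fun u hu v hv => hy _ (Finset.sub_mem_sub hu hv))]
      have h2 : 0 ≤ ∑ x ∈ U - U, (if q x = y then Real.exp (-E x) else 0) :=
        Finset.sum_nonneg fun x _ => by
          split_ifs
          · positivity
          · exact le_rfl
      have h3 : Real.exp (-(2 / 5 * ((M : ℝ) * (1 - 0)))) ≤ Real.exp (-(M / 5)) :=
        Real.exp_le_exp.2 (by linarith)
      linarith
  calc ∑ y, Real.exp (-(2 / 5 * (M * (1 - phi (wt E (5 / M) q U) y))))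
      ≤ ∑ y, ((∑ x ∈ U - U, if q x = y then Real.exp (-E x) else 0) + Real.exp (-(M / 5))) :=
        Finset.sum_le_sum fun y _ => h1 y
    _ = _ := by
      rw [Finset.sum_add_distrib, Finset.sum_const, nsmul_eq_mul, Finset.card_univ,
        Finset.sum_comm]
      congr 1
      refine Finset.sum_congr rfl fun x _ => ?_
      rw [Finset.sum_ite_eq]
      simp

end weights

section box

variable {d : ℕ} {O : Type*} [AddCommGroup O] [Fintype O]

/-- the box -/
noncomputable def bx (d : ℕ) (O : Type*) [Fintype O] (N : ℕ) : Finset ((Fin d → ℤ) × O) :=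
  (Fintype.piFinset fun _ => Finset.Ico (0 : ℤ) N) ×ˢ Finset.univ

theorem mem_bx {N : ℕ} {x : (Fin d → ℤ) × O} : x ∈ bx d O N ↔ ∀ i, 0 ≤ x.1 i ∧ x.1 i < N := by
  unfold bx
  rw [Finset.mem_product, Fintype.mem_piFinset]
  simp [Finset.mem_Ico]

theorem card_bx (N : ℕ) : (bx d O N).card = N ^ d * Fintype.card O := by
  unfold bx
  rw [Finset.card_product, Fintype.card_piFinset]
  simp

theorem bx_nonempty {N : ℕ} (hN : 0 < N) : (bx d O N).Nonempty := by
  refine ⟨0, mem_bx.2 fun i => ?_⟩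
  simp
  exact hN

theorem bx_inj {N p : ℕ} (hp : 2 * N ≤ p) {u v u' v' : (Fin d → ℤ) × O}
    (hu : u ∈ bx d O N) (hv : v ∈ bx d O N) (hu' : u' ∈ bx d O N) (hv' : v' ∈ bx d O N)
    (h : rd p (u - v) = rd p (u' - v')) : u - v = u' - v' := by
  rw [mem_bx] at hu hv hu' hv'
  have h0 : rd p ((u - v) - (u' - v')) = 0 := by rw [map_sub, h, sub_self]
  rw [← sub_eq_zero]
  have h02 : (rd p ((u - v) - (u' - v'))).2 = 0 := congrArg Prod.snd h0
  refine Prod.ext ?_ h02
  funext i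
  refine Int.eq_zero_of_abs_lt_dvd (rd_dvd (congrArg Prod.fst h0) i) ?_
  have h1 := hu i
  have h2 := hv i
  have h3 := hu' i
  have h4 := hv' i
  have h5 : (2 * N : ℤ) ≤ p := by exact_mod_cast hp
  simp only [Prod.fst_sub, Pi.sub_apply]
  rw [abs_lt]
  constructor <;> linarith

theorem bx_shift {N : ℕ} {R : ℕ} (hR : R ≤ N) {x : (Fin d → ℤ) × O} (hx : ∀ i, |x.1 i| ≤ R) :
    ∃ V : Finset ((Fin d → ℤ) × O), (∀ v ∈ V, v ∈ bx d O N ∧ v + x ∈ bx d O N) ∧
      (N - R) ^ d * Fintype.card O ≤ V.card := by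
  refine ⟨(Fintype.piFinset fun i => Finset.Ico (max 0 (-x.1 i)) (min (N : ℤ) (N - x.1 i))) ×ˢ
      (Finset.univ : Finset O), ?_, ?_⟩
  · intro v hv
    rw [Finset.mem_product, Fintype.mem_piFinset] at hv
    rw [mem_bx, mem_bx]
    refine ⟨fun i => ?_, fun i => ?_⟩
    · have h2 := Finset.mem_Ico.1 (hv.1 i)
      have h3 := le_max_left 0 (-x.1 i)
      have h4 := min_le_left (N : ℤ) (N - x.1 i)
      constructor <;> linarith
    · have h2 := Finset.mem_Ico.1 (hv.1 i)
      have h3 := le_max_right 0 (-x.1 i)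
      have h4 := min_le_right (N : ℤ) (N - x.1 i)
      rw [Prod.fst_add, Pi.add_apply]
      constructor <;> linarith
  rw [Finset.card_product, Fintype.card_piFinset, Finset.card_univ]
  refine Nat.mul_le_mul_right _ ?_
  calc (N - R) ^ d = ∏ i : Fin d, (N - R) := by simp
    _ ≤ _ := Finset.prod_le_prod' fun i _ => ?_
  rw [Int.card_Ico]
  have h2 := abs_le.1 (hx i)
  rcases le_total 0 (x.1 i) with h3 | h3
  · rw [max_eq_left (by linarith), min_eq_right (by linarith)]
    omega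
  · rw [max_eq_right (by linarith), min_eq_left (by linarith)]
    omega

theorem bx_ratio {N R : ℕ} (hN : 0 < N) (hR : R ≤ N) {x : (Fin d → ℤ) × O}
    (hx : ∀ i, |x.1 i| ≤ R) :
    ∃ V : Finset ((Fin d → ℤ) × O), (∀ v ∈ V, v ∈ bx d O N ∧ v + x ∈ bx d O N) ∧
      1 - (d : ℝ) * (R / N) ≤ (V.card : ℝ) / (bx d O N).card := by
  have hN' : (0 : ℝ) < N := by exact_mod_cast hN
  have hO : (0 : ℝ) < Fintype.card O := by exact_mod_cast Fintype.card_pos
  obtain ⟨V, hV, h1⟩ := bx_shift hR hx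
  refine ⟨V, hV, ?_⟩
  have h2 : ((N - R : ℕ) : ℝ) ^ d * Fintype.card O ≤ V.card := by exact_mod_cast h1
  rw [Nat.cast_sub hR] at h2
  have h3 : 1 + (d : ℝ) * (-(R / N)) ≤ (1 + -((R : ℝ) / N)) ^ d := by
    apply one_add_mul_le_pow
    have : (R : ℝ) / N ≤ 1 := by
      rw [div_le_one hN']; exact_mod_cast hR
    linarith
  have hc : ((bx d O N).card : ℝ) = (N : ℝ) ^ d * Fintype.card O := by
    rw [card_bx]; push_cast; ring
  rw [le_div_iff₀ (by rw [hc]; positivity), hc]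
  calc (1 - (d : ℝ) * (R / N)) * ((N : ℝ) ^ d * Fintype.card O)
      ≤ (1 + -((R : ℝ) / N)) ^ d * ((N : ℝ) ^ d * Fintype.card O) := by
        refine mul_le_mul_of_nonneg_right ?_ (by positivity)
        linarith
    _ = ((N : ℝ) - R) ^ d * Fintype.card O := by
        rw [← mul_assoc, ← mul_pow]
        congr 2
        field_simp
        ring
    _ ≤ _ := h2

end box

end T9h11.HB
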