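import Pool.Agent.T9h11.RW10
import Pool.Agent.T9h11.RW11

set_option autoImplicit false
set_option linter.unusedSectionVars false
set_option linter.unusedVariables false

/-! The theorem for `ℤ^d × O`, `O` finite. -/

namespace T9h11.RW

open Finset H460 T9h11.RM Pool.Agent.Y806.DF
open scoped Classical Pointwise

theorem sum_filter_biUnion {Γ : Type*} {S : Finset Γ} {f : Γ → ℝ} (hf : ∀ y ∈ S, 0 ≤ f y)
    {κ : Type*} (T : Finset κ) (P : κ → Γ → Prop) (A : Finset Γ) (hA : A ⊆ S)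
    (h : ∀ a ∈ A, ∃ t ∈ T, P t a) : ∑ y ∈ A, f y ≤ ∑ t ∈ T, ∑ y ∈ S.filter (P t), f y := by
  have h1 : ∑ t ∈ T, ∑ y ∈ S.filter (P t), f y = ∑ y ∈ S, ∑ t ∈ T, if P t y then f y else 0 := by
    rw [Finset.sum_comm]
    refine Finset.sum_congr rfl fun t _ => ?_
    rw [Finset.sum_filter]
  rw [h1]
  refine (Finset.sum_le_sum fun y hy => ?_).trans (Finset.sum_le_sum_of_subset_of_nonneg hA
    fun y hy _ => Finset.sum_nonneg fun t _ => ?_)
  · obtain ⟨t, ht, hP⟩ := h y hy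
    have h2 : (if P t y then f y else 0) ≤ ∑ t ∈ T, if P t y then f y else 0 :=
      Finset.single_le_sum (f := fun t => if P t y then f y else 0) (fun t _ => by
        beta_reduce
        split_ifs
        · exact hf y (hA hy)
        · exact le_rfl) ht
    rw [if_pos hP] at h2
    exact h2
  · split_ifs
    · exact hf y hy
    · exact le_rfl

theorem red_form {d : ℕ} {O : Type*} [AddCommGroup O] [Finite O] {m : ℕ}
    (z : Fin m → (Fin d → ℤ) × O) {r : Fin m → ℝ} (hr : ∀ i, 0 ≤ r i)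
    {S : Finset ((Fin d → ℤ) × O)} {σ : (Fin d → ℤ) × O → ℝ}
    (hσ0 : ∀ y ∈ S, 0 ≤ σ y) (hσ1 : ∑ y ∈ S, σ y = 1) {K : ℝ} (hK : 1 ≤ K)
    (h1 : walk z r 0 ≤ K * ∑ y ∈ S, σ y ^ 2)
    (h2 : ∑ y ∈ S, σ y ^ 2 ≤ K * ∑ y ∈ S, ∑ y' ∈ S, σ y * σ y' * walk z r (y' - y)) :
    ∃ (n : ℕ) (B : Set (Fin n → ℝ)) (ψ : (Fin n → ℤ) →+ (Fin d → ℤ) × O)
      (H : AddSubgroup ((Fin d → ℤ) × O)) (g : (Fin d → ℤ) × O),
      (n : ℝ) ≤ 10 ^ 21 * Real.log (2 * K) ∧ Body B ∧ Finite H ∧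
      ((lat B).ncard * Nat.card H : ℕ) * (∑ y ∈ S, σ y ^ 2) ≤ 1 ∧
      Real.exp (-(10 ^ 21 * Real.log (2 * K))) ≤
        ∑ y ∈ S.filter (fun y => ∃ w ∈ lat B, ∃ h ∈ H, y = g + ψ w + h), σ y := by
  set s₂ := ∑ y ∈ S, σ y ^ 2 with hs₂
  have hs₂0 : 0 < s₂ := by
    obtain ⟨y, hyS, hy⟩ := Finset.exists_ne_zero_of_sum_ne_zero (by rw [hσ1]; norm_num :
      ∑ y ∈ S, σ y ≠ 0)
    refine Finset.sum_pos' (fun y _ => sq_nonneg _) ⟨y, hyS, ?_⟩
    positivity
  have hσle : ∀ y ∈ S, σ y ≤ 1 := fun y hy => by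
    rw [← hσ1]; exact Finset.single_le_sum (fun y hy => hσ0 y hy) hy
  have hs₂1 : s₂ ≤ 1 := by
    rw [← hσ1]
    refine Finset.sum_le_sum fun y hy => ?_
    nlinarith [hσ0 y hy, hσle y hy]
  have hlog : 0.69 ≤ Real.log (2 * K) := by
    have h3 := Real.log_two_gt_d9
    have h4 := Real.log_le_log (by norm_num : (0 : ℝ) < 2) (by linarith : (2 : ℝ) ≤ 2 * K)
    linarith
  have hlog4 : Real.log (2 * (2 * K)) ≤ 2.1 * Real.log (2 * K) := by
    rw [Real.log_mul (by norm_num) (by positivity)]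
    have := Real.log_two_lt_d9
    linarith
  have hlog40 : 0 ≤ Real.log (2 * (2 * K)) := Real.log_nonneg (by linarith)
  obtain ⟨k₀, hk₀⟩ := walk_push_zero z hr hs₂0
  -- bound for the coordinates
  set D := S ∪ reach z k₀ with hD
  obtain ⟨R, hR0, hR⟩ : ∃ R : ℤ, 0 ≤ R ∧ ∀ a ∈ D, ∀ i, |a.1 i| ≤ R := by
    refine ⟨∑ a ∈ D, ∑ i, |a.1 i|, Finset.sum_nonneg fun a _ => Finset.sum_nonneg fun i _ =>
      abs_nonneg _, fun a ha i => ?_⟩
    calc |a.1 i| ≤ ∑ i, |a.1 i| := Finset.single_le_sum (f := fun i => |a.1 i|)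
          (fun i _ => abs_nonneg _) (Finset.mem_univ i)
      _ ≤ _ := Finset.single_le_sum (f := fun a : (Fin d → ℤ) × O => ∑ i, |a.1 i|)
          (fun a _ => Finset.sum_nonneg fun i _ => abs_nonneg _) ha
  obtain ⟨N, hN1, hNp⟩ := Nat.exists_infinite_primes (4 * R.toNat + ⌈1 / s₂⌉₊ + 1)
  have hRN : 4 * R < N := by
    have h3 : (4 * R.toNat + ⌈1 / s₂⌉₊ + 1 : ℕ) ≤ N := hN1
    have h4 : (R.toNat : ℤ) = R := Int.toNat_of_nonneg hR0
    omega
  have hsN : 1 / s₂ < N := by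
    have h3 : ((4 * R.toNat + ⌈1 / s₂⌉₊ + 1 : ℕ) : ℝ) ≤ N := by exact_mod_cast hN1
    have h4 := Nat.le_ceil (1 / s₂)
    push_cast at h3
    have h5 : (0 : ℝ) ≤ (R.toNat : ℝ) := Nat.cast_nonneg _
    linarith
  have : NeZero N := ⟨hNp.ne_zero⟩
  have : Fintype O := Fintype.ofFinite O
  set q : (Fin d → ℤ) × O →+ (Fin d → ZMod N) × O := rd N with hq
  have hqz : ∀ y : (Fin d → ℤ) × O, (∀ i, |y.1 i| < N) → q y = 0 → y = 0 := by
    intro y hy h0
    refine Prod.ext ?_ ?_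
    · funext i
      have h3 : (rd N y).1 = 0 := congrArg Prod.fst h0
      exact Int.eq_zero_of_abs_lt_dvd (rd_dvd h3 i) (hy i)
    · have h3 : (rd N y).2 = 0 := congrArg Prod.snd h0
      exact h3
  have hinj : Set.InjOn q (S : Set ((Fin d → ℤ) × O)) := by
    intro a ha b hb hab
    have h3 := hqz (a - b) (fun i => by
      have h4 := abs_le.1 (hR a (Finset.mem_union_left _ ha) i)
      have h5 := abs_le.1 (hR b (Finset.mem_union_left _ hb) i)
      rw [Prod.fst_sub, Pi.sub_apply, abs_lt]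
      constructor <;> linarith) (by rw [map_sub, hab, sub_self])
    exact sub_eq_zero.1 h3
  -- the law in the quotient
  set τ : (Fin d → ZMod N) × O → ℝ := fun y' => ∑ y ∈ S, if q y = y' then σ y else 0 with hτ
  have hτ0 : ∀ y', 0 ≤ τ y' := fun y' => Finset.sum_nonneg fun y hy => by
    split_ifs
    · exact hσ0 y hy
    · exact le_rfl
  have hτf : ∀ f : (Fin d → ZMod N) × O → ℝ, ∑ y', τ y' * f y' = ∑ y ∈ S, σ y * f (q y) := by
    intro f
    rw [hτ]
    simp_rw [Finset.sum_mul]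
    rw [Finset.sum_comm]
    refine Finset.sum_congr rfl fun y _ => ?_
    rw [Finset.sum_eq_single (q y)]
    · rw [if_pos rfl]
    · intro y' _ hy'
      rw [if_neg (Ne.symm hy'), zero_mul]
    · intro h; exact absurd (Finset.mem_univ _) h
  have hτ1 : ∑ y', τ y' = 1 := by
    have h3 := hτf (fun _ => 1)
    simp only [mul_one] at h3
    rw [h3, hσ1]
  have hτq : ∀ y ∈ S, τ (q y) = σ y := by
    intro y hy
    rw [hτ]
    beta_reduce
    rw [Finset.sum_eq_single y]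
    · rw [if_pos rfl]
    · intro y' hy' hne
      rw [if_neg]
      intro h
      exact hne (hinj hy' hy h)
    · intro h; exact absurd hy h
  have hτ2 : ∑ y', τ y' ^ 2 = s₂ := by
    have h3 := hτf τ
    have h4 : ∑ y', τ y' ^ 2 = ∑ y', τ y' * τ y' := Finset.sum_congr rfl fun y _ => sq _
    rw [h4, h3, hs₂]
    refine Finset.sum_congr rfl fun y hy => ?_
    rw [hτq y hy, sq]
  have hwN : walk (fun i => q (z i)) r 0 ≤ (2 * K) * s₂ := by
    have h3 := hk₀ q (fun y hy h0 => hqz y (fun i => by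
      have h4 := hR y (Finset.mem_union_right _ hy) i
      linarith) h0)
    calc walk (fun i => q (z i)) r 0 ≤ walk z r 0 + s₂ := h3
      _ ≤ K * s₂ + s₂ := by linarith
      _ ≤ (2 * K) * s₂ := by nlinarith
  have hcorr : s₂ ≤ (2 * K) * ∑ y, ∑ y', τ y * τ y' * walk (fun i => q (z i)) r (y' - y) := by
    have h3 : ∑ y, ∑ y', τ y * τ y' * walk (fun i => q (z i)) r (y' - y) =
        ∑ y ∈ S, ∑ y' ∈ S, σ y * σ y' * walk (fun i => q (z i)) r (q (y' - y)) := by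
      have h4 : ∀ y, ∑ y', τ y * τ y' * walk (fun i => q (z i)) r (y' - y) =
          τ y * ∑ y' ∈ S, σ y' * walk (fun i => q (z i)) r (q y' - y) := by
        intro y
        rw [← hτf (fun y' => walk (fun i => q (z i)) r (y' - y)), Finset.mul_sum]
        exact Finset.sum_congr rfl fun y' _ => by ring
      simp_rw [h4]
      rw [hτf (fun y => ∑ y' ∈ S, σ y' * walk (fun i => q (z i)) r (q y' - y))]
      refine Finset.sum_congr rfl fun y _ => ?_
      rw [Finset.mul_sum]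
      refine Finset.sum_congr rfl fun y' _ => ?_
      rw [map_sub]; ring
    rw [h3]
    have h4 : ∑ y ∈ S, ∑ y' ∈ S, σ y * σ y' * walk z r (y' - y) ≤
        ∑ y ∈ S, ∑ y' ∈ S, σ y * σ y' * walk (fun i => q (z i)) r (q (y' - y)) := by
      refine Finset.sum_le_sum fun y hy => Finset.sum_le_sum fun y' hy' => ?_
      exact mul_le_mul_of_nonneg_left (walk_push_ge z q hr _) (mul_nonneg (hσ0 y hy) (hσ0 y' hy'))
    have h5 : 0 ≤ ∑ y ∈ S, ∑ y' ∈ S, σ y * σ y' * walk z r (y' - y) :=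
      Finset.sum_nonneg fun y hy => Finset.sum_nonneg fun y' hy' =>
        mul_nonneg (mul_nonneg (hσ0 y hy) (hσ0 y' hy')) (walk_nonneg z hr _)
    nlinarith
  obtain ⟨d', B, ψ, H, g', hd', hB, hH, hvol, hmass⟩ := finite_form (fun i => q (z i)) hr hτ0 hτ1
    (K := 2 * K) (by linarith) (by rw [hτ2]; exact hwN) (by rw [hτ2]; exact hcorr)
  rw [hτ2] at hvol
  set Λ := Real.log (2 * (2 * K)) with hΛ
  set δ := Real.exp (-(10 ^ 15 * Λ)) with hδ
  have hδ0 : 0 < δ := Real.exp_pos _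
  set A := S.filter (fun y => ∃ w ∈ lat B, ∃ h ∈ H, q y = g' + ψ w + h) with hA
  have hmassA : δ ≤ ∑ y ∈ A, σ y := by
    refine hmass.trans (le_of_eq ?_)
    have h3 := hτf (fun y' => if ∃ w ∈ lat B, ∃ h ∈ H, y' = g' + ψ w + h then 1 else 0)
    rw [Finset.sum_filter, hA, Finset.sum_filter]
    refine Eq.trans ?_ (h3.trans ?_)
    · refine Finset.sum_congr rfl fun y _ => ?_
      split_ifs <;> simp
    · refine Finset.sum_congr rfl fun y _ => ?_
      split_ifs <;> simp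
  have hAS : A ⊆ S := Finset.filter_subset _ _
  have hAne : A.Nonempty := by
    rw [Finset.nonempty_iff_ne_empty]
    intro h0
    rw [h0, Finset.sum_empty] at hmassA
    linarith
  have hAcard : δ ^ 2 ≤ A.card * s₂ := by
    have h3 := sq_sum_le_card_mul_sum_sq (s := A) (f := σ)
    have h4 : δ ^ 2 ≤ (∑ y ∈ A, σ y) ^ 2 := by gcongr
    have h5 : ∑ y ∈ A, σ y ^ 2 ≤ s₂ :=
      Finset.sum_le_sum_of_subset_of_nonneg hAS fun _ _ _ => sq_nonneg _
    have h6 : (A.card : ℝ) * ∑ y ∈ A, σ y ^ 2 ≤ A.card * s₂ :=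
      mul_le_mul_of_nonneg_left h5 (Nat.cast_nonneg _)
    linarith
  set a₀ : ℕ := ⌊1 / s₂⌋₊ with ha₀
  have ha₀s : (a₀ : ℝ) * s₂ ≤ 1 := by
    have := Nat.floor_le (by positivity : 0 ≤ 1 / s₂)
    rw [← ha₀, le_div_iff₀ hs₂0] at this
    exact this
  have hvol' : (lat B).ncard * Nat.card H ≤ a₀ := by
    rw [ha₀, Nat.le_floor_iff (by positivity), le_div_iff₀ hs₂0]
    exact hvol
  have hHpos : 0 < Nat.card H := Nat.card_pos
  have hlatpos : 0 < (lat B).ncard := by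
    have hsym : Sym B := ⟨hB.1, hB.2.1, hB.2.2.2, hB.2.2.1.mono interior_subset⟩
    have := num_pos hsym 1
    rwa [num, one_smul] at this
  have hHN : Nat.card H < N := by
    have h3 : Nat.card H ≤ a₀ := (Nat.le_mul_of_pos_left _ hlatpos).trans hvol'
    have h4 : (a₀ : ℝ) ≤ 1 / s₂ := Nat.floor_le (by positivity)
    have h5 : (Nat.card H : ℝ) < N := by
      have : (Nat.card H : ℝ) ≤ a₀ := by exact_mod_cast h3
      linarith
    exact_mod_cast h5
  set K₁ := Real.exp (2 * (10 ^ 15 * Λ)) with hK₁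
  have hK₁δ : K₁ * δ ^ 2 = 1 := by
    rw [hK₁, hδ, ← Real.exp_nat_mul, ← Real.exp_add]
    rw [Real.exp_eq_one_iff]
    push_cast
    ring
  have hK₁1 : 1 ≤ K₁ := Real.one_le_exp (by positivity)
  obtain ⟨n, B', θ, H', T, hn, hB', hH', hvolB, hT, hcov⟩ := lift_cover hNp hB ψ H hH hHN g' hRN
    hAne (fun a ha i => hR a (Finset.mem_union_left _ (hAS ha)) i)
    (fun a ha => (Finset.mem_filter.1 ha).2) hvol' hK₁1 (by
      have h3 : (a₀ : ℝ) * s₂ ≤ (K₁ * A.card) * s₂ := by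
        calc (a₀ : ℝ) * s₂ ≤ 1 := ha₀s
          _ = K₁ * δ ^ 2 := hK₁δ.symm
          _ ≤ K₁ * (A.card * s₂) := mul_le_mul_of_nonneg_left hAcard (by positivity)
          _ = _ := by ring
      exact le_of_mul_le_mul_right h3 hs₂0)
  have hℓ : Real.log (4 ^ d' * K₁) ≤ 7.2 * 10 ^ 15 * Real.log (2 * K) := by
    rw [Real.log_mul (by positivity) (by positivity), Real.log_pow, hK₁, Real.log_exp]
    have h3 : Real.log 4 ≤ 1.39 := by
      have h4 : Real.log 4 = 2 * Real.log 2 := by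
        rw [show (4 : ℝ) = 2 ^ 2 by norm_num, Real.log_pow]; norm_num
      rw [h4]
      have := Real.log_two_lt_d9
      linarith
    have h40 : 0 ≤ Real.log 4 := Real.log_nonneg (by norm_num)
    have h5 : (d' : ℝ) * Real.log 4 ≤ (10 ^ 15 * Λ) * 1.39 :=
      mul_le_mul hd' h3 h40 (by positivity)
    have h6 : (10 : ℝ) ^ 15 * Λ ≤ 10 ^ 15 * (2.1 * Real.log (2 * K)) :=
      mul_le_mul_of_nonneg_left hlog4 (by positivity)
    linarith
  set ℓ := Real.log (4 ^ d' * K₁) with hℓdef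
  -- pigeonhole
  have hlogpos : 0 < Real.log (2 * K) := by linarith
  obtain ⟨t, ht, htt⟩ : ∃ t ∈ T, Real.exp (-(10 ^ 21 * Real.log (2 * K))) ≤
      ∑ y ∈ S.filter (fun y => ∃ w ∈ lat B', ∃ h ∈ H', y = t + θ w + h), σ y := by
    by_contra hcon
    push Not at hcon
    have h3 := sum_filter_biUnion hσ0 T (fun t y => ∃ w ∈ lat B', ∃ h ∈ H', y = t + θ w + h) A hAS
      hcov
    have h4 : ∑ t ∈ T, ∑ y ∈ S.filter (fun y => ∃ w ∈ lat B', ∃ h ∈ H', y = t + θ w + h), σ y ≤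
        T.card * Real.exp (-(10 ^ 21 * Real.log (2 * K))) := by
      rw [← nsmul_eq_mul]
      exact Finset.sum_le_card_nsmul _ _ _ fun t ht => (hcon t ht).le
    have h5 : (T.card : ℝ) * Real.exp (-(10 ^ 21 * Real.log (2 * K))) ≤
        Real.exp (12 + 5040 * ℓ - 10 ^ 21 * Real.log (2 * K)) := by
      calc (T.card : ℝ) * Real.exp (-(10 ^ 21 * Real.log (2 * K))) ≤
          Real.exp (12 + 5040 * ℓ) * Real.exp (-(10 ^ 21 * Real.log (2 * K))) :=
            mul_le_mul_of_nonneg_right hT (Real.exp_pos _).le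
        _ = _ := by rw [← Real.exp_add]; congr 1
    have h6 : Real.exp (12 + 5040 * ℓ - 10 ^ 21 * Real.log (2 * K)) < δ := by
      rw [hδ]
      apply Real.exp_lt_exp.2
      nlinarith
    have h7 := hmassA.trans (h3.trans (h4.trans h5))
    linarith
  refine ⟨n, B', θ, H', t, ?_, hB', hH', ?_, htt⟩
  · nlinarith
  · refine le_trans (mul_le_mul_of_nonneg_right ?_ hs₂0.le) ha₀s
    exact_mod_cast hvolB

end T9h11.RW
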