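import Pool.Agent.T9h11.HB5
import Pool.Agent.T9h11.RW12

set_option autoImplicit false
set_option linter.unusedSectionVars false
set_option linter.unusedVariables false

/-! The theorem for `ℤ^d × O`, `O` finite. -/

namespace T9h11.HB

open Finset H460 T9h11.RM T9h11.RW Pool.Agent.Y806.DF
open scoped Classical Pointwise

theorem exists_M {a c : ℝ} (ha : 0 ≤ a) (hc : 0 ≤ c) (d M₀ : ℕ) :
    ∃ M : ℕ, M₀ ≤ M ∧ (a * M) ^ d * c * Real.exp (-(M / 5)) ≤ 1 := by
  have h1 := Real.tendsto_pow_mul_exp_neg_atTop_nhds_zero d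
  have h2 : Filter.Tendsto (fun M : ℕ => (M : ℝ) / 5) Filter.atTop Filter.atTop :=
    Filter.Tendsto.atTop_div_const (by norm_num) tendsto_natCast_atTop_atTop
  have h3 := (h1.comp h2).const_mul ((5 * a) ^ d * c)
  rw [mul_zero] at h3
  have h4 := (h3.eventually_lt_const (show (0 : ℝ) < 1 by norm_num)).and
    (Filter.eventually_ge_atTop M₀)
  obtain ⟨M, hM1, hM2⟩ := h4.exists
  refine ⟨M, hM2, ?_⟩
  refine le_trans (le_of_eq ?_) hM1.le
  simp only [Function.comp]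
  have h5 : (a * M) ^ d = (5 * a) ^ d * ((M : ℝ) / 5) ^ d := by
    rw [← mul_pow]
    congr 1
    ring
  rw [h5]
  ring

theorem hb_red {d : ℕ} {O : Type*} [AddCommGroup O] [Finite O] {E : (Fin d → ℤ) × O → ℝ}
    (hEnn : ∀ x, 0 ≤ E x) (hE0 : E 0 = 0) (hEn : ∀ x, E (-x) = E x) (hE : PDE E)
    {S : Finset ((Fin d → ℤ) × O)} {σ : (Fin d → ℤ) × O → ℝ}
    (hσ0 : ∀ y ∈ S, 0 ≤ σ y) (hσ1 : ∑ y ∈ S, σ y = 1) {L : ℝ} (hL : 1 ≤ L)
    (h1 : ∀ F : Finset ((Fin d → ℤ) × O), (∑ x ∈ F, Real.exp (-E x)) * ∑ y ∈ S, σ y ^ 2 ≤ L)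
    (h2 : 1 / L ≤ ∑ y ∈ S, ∑ y' ∈ S, σ y * σ y' * Real.exp (-E (y - y'))) :
    ∃ (n : ℕ) (B : Set (Fin n → ℝ)) (ψ : (Fin n → ℤ) →+ (Fin d → ℤ) × O)
      (H : AddSubgroup ((Fin d → ℤ) × O)) (g : (Fin d → ℤ) × O),
      (n : ℝ) ≤ 10 ^ 15 * Real.log (2 * L) ∧ Body B ∧ Finite H ∧
      ((lat B).ncard * Nat.card H : ℕ) * (∑ y ∈ S, σ y ^ 2) ≤ 1 ∧
      Real.exp (-(10 ^ 15 * Real.log (2 * L))) ≤
        ∑ y ∈ S.filter (fun y => ∃ w ∈ lat B, ∃ h ∈ H, y = g + ψ w + h), σ y := by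
  set s₂ := ∑ y ∈ S, σ y ^ 2 with hs₂
  have hs₂0 : 0 < s₂ := by
    obtain ⟨y, hyS, hy⟩ := Finset.exists_ne_zero_of_sum_ne_zero (by rw [hσ1]; norm_num :
      ∑ y ∈ S, σ y ≠ 0)
    refine Finset.sum_pos' (fun y _ => sq_nonneg _) ⟨y, hyS, ?_⟩
    positivity
  have hσle : ∀ y ∈ S, σ y ≤ 1 := fun y hy => by
    rw [← hσ1]; exact Finset.single_le_sum (fun y hy => hσ0 y hy) hy
  have hs₂1 : s₂ ≤ 1 := by
    rw [← hσ1]
    refine Finset.sum_le_sum fun y hy => ?_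
    nlinarith [hσ0 y hy, hσle y hy]
  have hL0 : 0 < L := by linarith
  set ℓ₀ := Real.log (2 * L) with hℓ₀
  have hlog : 0.69 ≤ ℓ₀ := by
    have h3 := Real.log_two_gt_d9
    have h4 := Real.log_le_log (by norm_num : (0 : ℝ) < 2) (by linarith : (2 : ℝ) ≤ 2 * L)
    linarith
  have hexpℓ : Real.exp (-ℓ₀) = 1 / (2 * L) := by
    rw [Real.exp_neg, hℓ₀, Real.exp_log (by linarith), one_div]
  -- the centre
  obtain ⟨y₀, hy₀, hcen⟩ : ∃ y₀ ∈ S, 1 / L ≤ ∑ y ∈ S, σ y * Real.exp (-E (y - y₀)) := by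
    by_contra hcon
    push Not at hcon
    have h3 : ∑ y ∈ S, ∑ y' ∈ S, σ y * σ y' * Real.exp (-E (y - y')) =
        ∑ y' ∈ S, σ y' * ∑ y ∈ S, σ y * Real.exp (-E (y - y')) := by
      rw [Finset.sum_comm]
      refine Finset.sum_congr rfl fun y' _ => ?_
      rw [Finset.mul_sum]
      exact Finset.sum_congr rfl fun y _ => by ring
    rw [h3] at h2
    have h4 : ∑ y' ∈ S, σ y' * ∑ y ∈ S, σ y * Real.exp (-E (y - y')) <
        ∑ y' ∈ S, σ y' * (1 / L) := by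
      obtain ⟨y, hyS, hy⟩ := Finset.exists_ne_zero_of_sum_ne_zero (by rw [hσ1]; norm_num :
        ∑ y ∈ S, σ y ≠ 0)
      have hypos : 0 < σ y := lt_of_le_of_ne (hσ0 y hyS) (Ne.symm hy)
      refine Finset.sum_lt_sum (fun y' hy' => mul_le_mul_of_nonneg_left (hcon y' hy').le
        (hσ0 y' hy')) ⟨y, hyS, mul_lt_mul_of_pos_left (hcon y hyS) hypos⟩
    rw [← Finset.sum_mul, hσ1, one_mul] at h4
    linarith
  set S₁ := S.filter (fun y => E (y - y₀) ≤ ℓ₀) with hS₁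
  have hS₁mass : Real.exp (-ℓ₀) ≤ ∑ y ∈ S₁, σ y := by
    have h3 : ∑ y ∈ S, σ y * Real.exp (-E (y - y₀)) ≤
        ∑ y ∈ S, ((if E (y - y₀) ≤ ℓ₀ then σ y else 0) + σ y * Real.exp (-ℓ₀)) := by
      refine Finset.sum_le_sum fun y hy => ?_
      by_cases h : E (y - y₀) ≤ ℓ₀
      · rw [if_pos h]
        have h4 : Real.exp (-E (y - y₀)) ≤ 1 := Real.exp_le_one_iff.2 (by linarith [hEnn (y - y₀)])
        have h5 := hσ0 y hy
        have h6 := Real.exp_pos (-ℓ₀)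
        nlinarith
      · rw [if_neg h, zero_add]
        push Not at h
        exact mul_le_mul_of_nonneg_left (Real.exp_le_exp.2 (by linarith)) (hσ0 y hy)
    rw [Finset.sum_add_distrib, ← Finset.sum_mul, hσ1, one_mul, ← Finset.sum_filter] at h3
    have h4 : Real.exp (-ℓ₀) + Real.exp (-ℓ₀) = 1 / L := by
      rw [hexpℓ]; field_simp; norm_num
    linarith
  -- bound for the coordinates
  obtain ⟨R, hR⟩ : ∃ R : ℕ, ∀ a ∈ S, ∀ i, |a.1 i| ≤ R := by
    refine ⟨(∑ a ∈ S, ∑ i, |a.1 i|).toNat, fun a ha i => ?_⟩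
    have h3 : 0 ≤ ∑ a ∈ S, ∑ i, |a.1 i| :=
      Finset.sum_nonneg fun a _ => Finset.sum_nonneg fun i _ => abs_nonneg _
    rw [Int.toNat_of_nonneg h3]
    calc |a.1 i| ≤ ∑ i, |a.1 i| := Finset.single_le_sum (f := fun i => |a.1 i|)
          (fun i _ => abs_nonneg _) (Finset.mem_univ i)
      _ ≤ _ := Finset.single_le_sum (f := fun a : (Fin d → ℤ) × O => ∑ i, |a.1 i|)
          (fun a _ => Finset.sum_nonneg fun i _ => abs_nonneg _) ha
  have : Fintype O := Fintype.ofFinite O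
  set Λ := 10 * ℓ₀ with hΛ
  obtain ⟨M, hM₀, hMexp⟩ := exists_M (a := 4 * (2 * (d + 1) * R + 1)) (c := Fintype.card O)
    (by positivity) (by positivity) d (⌈16 * Λ⌉₊ + ⌈1 / s₂⌉₊ + 1)
  have hM0 : 0 < M := by omega
  have hM0' : (0 : ℝ) < M := by exact_mod_cast hM0
  have hMr : 16 * Λ + 1 / s₂ ≤ M := by
    have h3 := Nat.le_ceil (16 * Λ)
    have h4 := Nat.le_ceil (1 / s₂)
    have h5 : ((⌈16 * Λ⌉₊ + ⌈1 / s₂⌉₊ + 1 : ℕ) : ℝ) ≤ M := by exact_mod_cast hM₀
    push_cast at h5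
    linarith
  have hs₂i : 0 < 1 / s₂ := by positivity
  set N := M * (2 * (d + 1) * R + 1) with hN
  have hN0 : 0 < N := Nat.mul_pos hM0 (Nat.succ_pos _)
  have hN0' : (0 : ℝ) < N := by exact_mod_cast hN0
  have hMN : M ≤ N := by
    rw [hN]; exact Nat.le_mul_of_pos_right _ (Nat.succ_pos _)
  have hRN : 2 * R ≤ N := by
    rw [hN]
    calc 2 * R ≤ 2 * (d + 1) * R + 1 := by nlinarith
      _ ≤ M * (2 * (d + 1) * R + 1) := Nat.le_mul_of_pos_left _ hM0
  obtain ⟨p, hp, hNp, hpN⟩ := Nat.exists_prime_lt_and_le_two_mul (2 * N) (by omega)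
  have : NeZero p := ⟨hp.ne_zero⟩
  set q : (Fin d → ℤ) × O →+ (Fin d → ZMod p) × O := rd p with hq
  have hqz : ∀ y : (Fin d → ℤ) × O, (∀ i, |y.1 i| < p) → q y = 0 → y = 0 := by
    intro y hy h0
    refine Prod.ext ?_ ?_
    · funext i
      have h3 : (rd p y).1 = 0 := congrArg Prod.fst h0
      exact Int.eq_zero_of_abs_lt_dvd (rd_dvd h3 i) (hy i)
    · have h3 : (rd p y).2 = 0 := congrArg Prod.snd h0
      exact h3
  have hinj : ∀ a ∈ S, ∀ b ∈ S, q (a - y₀) = q (b - y₀) → a = b := by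
    intro a ha b hb hab
    have h3 := hqz (a - b) (fun i => by
      have h4 := abs_le.1 (hR a ha i)
      have h5 := abs_le.1 (hR b hb i)
      have h6 : (2 * R : ℤ) ≤ N := by exact_mod_cast hRN
      have h7 : (2 * N : ℤ) < p := by exact_mod_cast hNp
      have h8 : (0 : ℤ) < N := by exact_mod_cast hN0
      rw [Prod.fst_sub, Pi.sub_apply, abs_lt]
      constructor <;> linarith) (by
        have : a - b = (a - y₀) - (b - y₀) := by abel
        rw [this, map_sub, hab, sub_self])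
    exact sub_eq_zero.1 h3
  -- the law in the quotient
  set τ : (Fin d → ZMod p) × O → ℝ := fun y' => ∑ y ∈ S, if q (y - y₀) = y' then σ y else 0
    with hτ
  have hτ0 : ∀ y', 0 ≤ τ y' := fun y' => Finset.sum_nonneg fun y hy => by
    split_ifs
    · exact hσ0 y hy
    · exact le_rfl
  have hτf : ∀ f : (Fin d → ZMod p) × O → ℝ,
      ∑ y', τ y' * f y' = ∑ y ∈ S, σ y * f (q (y - y₀)) := by
    intro f
    rw [hτ]
    simp_rw [Finset.sum_mul]
    rw [Finset.sum_comm]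
    refine Finset.sum_congr rfl fun y _ => ?_
    rw [Finset.sum_eq_single (q (y - y₀))]
    · rw [if_pos rfl]
    · intro y' _ hy'
      rw [if_neg (Ne.symm hy'), zero_mul]
    · intro h; exact absurd (Finset.mem_univ _) h
  have hτ1 : ∑ y', τ y' = 1 := by
    have h3 := hτf (fun _ => 1)
    simp only [mul_one] at h3
    rw [h3, hσ1]
  have hτq : ∀ y ∈ S, τ (q (y - y₀)) = σ y := by
    intro y hy
    rw [hτ]
    beta_reduce
    rw [Finset.sum_eq_single y]
    · rw [if_pos rfl]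
    · intro y' hy' hne
      rw [if_neg]
      intro h
      exact hne (hinj y' hy' y hy h)
    · intro h; exact absurd hy h
  have hτ2 : ∑ y', τ y' ^ 2 = s₂ := by
    have h3 := hτf τ
    have h4 : ∑ y', τ y' ^ 2 = ∑ y', τ y' * τ y' := Finset.sum_congr rfl fun y _ => sq _
    rw [h4, h3, hs₂]
    refine Finset.sum_congr rfl fun y hy => ?_
    rw [hτq y hy, sq]
  -- the weights
  set U := bx d O N with hU
  have hUne : U.Nonempty := bx_nonempty hN0
  have ht0 : (0 : ℝ) ≤ 5 / M := by positivity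
  have hqU : ∀ u ∈ U, ∀ v ∈ U, ∀ u' ∈ U, ∀ v' ∈ U, q (u - v) = q (u' - v') →
      u - v = u' - v' := fun u hu v hv u' hu' v' hv' h => bx_inj hNp.le hu hv hu' hv' h
  have hP0 : ∀ γ, 0 ≤ wt E (5 / M) q U γ := fun γ => wt_nonneg hE ht0 q U γ
  have hP1 : ∑ γ, wt E (5 / M) q U γ = 1 := wt_sum hE0 hEn (5 / M) q hUne (by
    intro u hu v hv h
    have h3 := hqU u hu v hv u hu u hu (by rw [h, sub_self, map_zero])
    rw [sub_self] at h3
    exact sub_eq_zero.1 h3)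
  have hΛ1 : 1 ≤ Λ := by rw [hΛ]; linarith
  obtain ⟨d', B, ψ, H, g', hd', hB, hH, hvol, hmass⟩ := hb_finite hP0 hP1 hτ0 hτ1 (M := M) hΛ1
    (S₁.image fun y => q (y - y₀)) (by
      intro y' hy'
      obtain ⟨y, hy, rfl⟩ := Finset.mem_image.1 hy'
      obtain ⟨hyS, hyE⟩ := Finset.mem_filter.1 hy
      have h4 : ∀ i, |(y - y₀).1 i| ≤ ((2 * R : ℕ) : ℤ) := by
        intro i
        have h4 := abs_le.1 (hR y hyS i)
        have h5 := abs_le.1 (hR y₀ hy₀ i)
        rw [Prod.fst_sub, Pi.sub_apply, abs_le]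
        push_cast
        constructor <;> linarith
      obtain ⟨V, hV, h5⟩ := bx_ratio (O := O) hN0 hRN h4
      have h3 := phi_wt_ge hEn (5 / M) q hUne (y - y₀) hV
      have h6 : (d : ℝ) * (((2 * R : ℕ) : ℝ) / N) ≤ 1 / M := by
        rw [← mul_div_assoc, div_le_div_iff₀ hN0' hM0', hN]
        push_cast
        have h7 : (0 : ℝ) ≤ R := Nat.cast_nonneg _
        nlinarith
      set ρ := (V.card : ℝ) / (bx d O N).card with hρ
      have h7 : 1 - 1 / (M : ℝ) ≤ ρ := by linarith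
      have h8 : 1 - 5 / M * E (y - y₀) ≤ Real.exp (-(5 / M * E (y - y₀))) := by
        have := Real.add_one_le_exp (-(5 / M * E (y - y₀)))
        linarith
      have h9 : Real.exp (-(5 / M * E (y - y₀))) ≤ 1 := by
        apply Real.exp_le_one_iff.2
        have := mul_nonneg ht0 (hEnn (y - y₀))
        linarith
      have h10 : Real.exp (-(5 / M * E (y - y₀))) - 1 / M ≤ phi (wt E (5 / M) q U) (q (y - y₀)) := by
        refine le_trans ?_ h3
        have h11 : (1 - 1 / (M : ℝ)) * Real.exp (-(5 / M * E (y - y₀))) ≤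
            ρ * Real.exp (-(5 / M * E (y - y₀))) :=
          mul_le_mul_of_nonneg_right h7 (Real.exp_pos _).le
        have h12 : 1 / (M : ℝ) * Real.exp (-(5 / M * E (y - y₀))) ≤ 1 / M * 1 :=
          mul_le_mul_of_nonneg_left h9 (by positivity)
        linarith
      have h13 : 1 - phi (wt E (5 / M) q U) (q (y - y₀)) ≤ 5 / M * E (y - y₀) + 1 / M := by
        linarith
      calc (M : ℝ) * (1 - phi (wt E (5 / M) q U) (q (y - y₀)))
          ≤ M * (5 / M * E (y - y₀) + 1 / M) := mul_le_mul_of_nonneg_left h13 hM0'.le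
        _ = 5 * E (y - y₀) + 1 := by field_simp
        _ ≤ Λ := by rw [hΛ]; linarith) (by linarith) (by
      have h3 : ∑ y ∈ S₁, σ y ≤ ∑ y' ∈ S₁.image (fun y => q (y - y₀)), τ y' := by
        rw [Finset.sum_image (fun a ha b hb h => hinj a (Finset.mem_filter.1 ha).1 b
          (Finset.mem_filter.1 hb).1 h)]
        exact le_of_eq (Finset.sum_congr rfl fun y hy => (hτq y (Finset.mem_filter.1 hy).1).symm)
      have h4 : Real.exp (-Λ) ≤ Real.exp (-ℓ₀) := Real.exp_le_exp.2 (by rw [hΛ]; linarith)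
      linarith) (by
      rw [hτ2]
      obtain ⟨D, h3⟩ := Z_bound hEnn hEn hM0 q hUne hqU
      have h4 : (Fintype.card ((Fin d → ZMod p) × O) : ℝ) * Real.exp (-(M / 5)) ≤ 1 := by
        refine le_trans (mul_le_mul_of_nonneg_right ?_ (Real.exp_pos _).le) hMexp
        rw [Fintype.card_prod, Fintype.card_fun, ZMod.card, Fintype.card_fin]
        push_cast
        refine mul_le_mul_of_nonneg_right ?_ (Nat.cast_nonneg _)
        refine pow_le_pow_left₀ (Nat.cast_nonneg _) ?_ _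
        have h5 : (p : ℝ) ≤ ((2 * (2 * N) : ℕ) : ℝ) := by exact_mod_cast hpN
        refine h5.trans (le_of_eq ?_)
        rw [hN]
        push_cast
        ring
      have h5 := h1 D
      calc _ ≤ (∑ x ∈ D, Real.exp (-E x) + 1) * s₂ :=
            mul_le_mul_of_nonneg_right (h3.trans (by linarith)) hs₂0.le
        _ ≤ L + 1 := by linarith
        _ ≤ 2 * L := by linarith
        _ = Real.exp ℓ₀ := by rw [hℓ₀, Real.exp_log (by linarith)]
        _ ≤ Real.exp Λ := Real.exp_le_exp.2 (by rw [hΛ]; linarith))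
  rw [hτ2] at hvol
  set δ := Real.exp (-(10 ^ 9 * Λ)) with hδ
  have hδ0 : 0 < δ := Real.exp_pos _
  set A := S.filter (fun y => ∃ w ∈ lat B, ∃ h ∈ H, q (y - y₀) = g' + ψ w + h) with hA
  have hmassA : δ ≤ ∑ y ∈ A, σ y := by
    refine hmass.trans (le_of_eq ?_)
    have h3 := hτf (fun y' => if ∃ w ∈ lat B, ∃ h ∈ H, y' = g' + ψ w + h then 1 else 0)
    rw [Finset.sum_filter, hA, Finset.sum_filter]
    refine Eq.trans ?_ (h3.trans ?_)
    · refine Finset.sum_congr rfl fun y _ => ?_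
      split_ifs <;> simp
    · refine Finset.sum_congr rfl fun y _ => ?_
      split_ifs <;> simp
  have hAS : A ⊆ S := Finset.filter_subset _ _
  have hAne : A.Nonempty := by
    rw [Finset.nonempty_iff_ne_empty]
    intro h0
    rw [h0, Finset.sum_empty] at hmassA
    linarith
  have hAcard : δ ^ 2 ≤ A.card * s₂ := by
    have h3 := sq_sum_le_card_mul_sum_sq (s := A) (f := σ)
    have h4 : δ ^ 2 ≤ (∑ y ∈ A, σ y) ^ 2 := by gcongr
    have h5 : ∑ y ∈ A, σ y ^ 2 ≤ s₂ :=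
      Finset.sum_le_sum_of_subset_of_nonneg hAS fun _ _ _ => sq_nonneg _
    have h6 : (A.card : ℝ) * ∑ y ∈ A, σ y ^ 2 ≤ A.card * s₂ :=
      mul_le_mul_of_nonneg_left h5 (Nat.cast_nonneg _)
    linarith
  set a₀ : ℕ := ⌊1 / s₂⌋₊ with ha₀
  have ha₀s : (a₀ : ℝ) * s₂ ≤ 1 := by
    have := Nat.floor_le (by positivity : 0 ≤ 1 / s₂)
    rw [← ha₀, le_div_iff₀ hs₂0] at this
    exact this
  have hvol' : (lat B).ncard * Nat.card H ≤ a₀ := by
    rw [ha₀, Nat.le_floor_iff (by positivity), le_div_iff₀ hs₂0]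
    exact hvol
  have hHpos : 0 < Nat.card H := Nat.card_pos
  have hlatpos : 0 < (lat B).ncard := by
    have hsym : Sym B := ⟨hB.1, hB.2.1, hB.2.2.2, hB.2.2.1.mono interior_subset⟩
    have := num_pos hsym 1
    rwa [num, one_smul] at this
  have hHN : Nat.card H < p := by
    have h3 : Nat.card H ≤ a₀ := (Nat.le_mul_of_pos_left _ hlatpos).trans hvol'
    have h4 : (a₀ : ℝ) ≤ 1 / s₂ := Nat.floor_le (by positivity)
    have h5 : (Nat.card H : ℝ) < p := by
      have h6 : (Nat.card H : ℝ) ≤ a₀ := by exact_mod_cast h3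
      have h7 : (M : ℝ) ≤ N := by exact_mod_cast hMN
      have h8 : ((2 * N : ℕ) : ℝ) < p := by exact_mod_cast hNp
      push_cast at h8
      linarith
    exact_mod_cast h5
  set K₁ := Real.exp (2 * (10 ^ 9 * Λ)) with hK₁
  have hK₁δ : K₁ * δ ^ 2 = 1 := by
    rw [hK₁, hδ, ← Real.exp_nat_mul, ← Real.exp_add]
    rw [Real.exp_eq_one_iff]
    push_cast
    ring
  have hK₁1 : 1 ≤ K₁ := Real.one_le_exp (by positivity)
  obtain ⟨n, B', θ, H', T, hn, hB', hH', hvolB, hT, hcov⟩ := lift_cover (R := (R : ℤ)) hp hB ψ H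
    hH hHN (g' + q y₀) (by
      have h6 : (2 * R : ℤ) ≤ N := by exact_mod_cast hRN
      have h7 : (2 * N : ℤ) < p := by exact_mod_cast hNp
      linarith)
    hAne (fun a ha i => hR a (hAS ha) i)
    (fun a ha => by
      obtain ⟨w, hw, h, hh, he⟩ := (Finset.mem_filter.1 ha).2
      refine ⟨w, hw, h, hh, ?_⟩
      have h3 : rd p a = q (a - y₀) + q y₀ := by rw [← map_add, sub_add_cancel]
      rw [h3, he]
      abel) hvol' hK₁1 (by
      have h3 : (a₀ : ℝ) * s₂ ≤ (K₁ * A.card) * s₂ := by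
        calc (a₀ : ℝ) * s₂ ≤ 1 := ha₀s
          _ = K₁ * δ ^ 2 := hK₁δ.symm
          _ ≤ K₁ * (A.card * s₂) := mul_le_mul_of_nonneg_left hAcard (by positivity)
          _ = _ := by ring
      exact le_of_mul_le_mul_right h3 hs₂0)
  have hℓ : Real.log (4 ^ d' * K₁) ≤ 3 * 10 ^ 10 * ℓ₀ := by
    rw [Real.log_mul (by positivity) (by positivity), Real.log_pow, hK₁, Real.log_exp]
    have h3 : Real.log 4 ≤ 1.39 := by
      have h4 : Real.log 4 = 2 * Real.log 2 := by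
        rw [show (4 : ℝ) = 2 ^ 2 by norm_num, Real.log_pow]; norm_num
      rw [h4]
      have := Real.log_two_lt_d9
      linarith
    have h40 : 0 ≤ Real.log 4 := Real.log_nonneg (by norm_num)
    have h5 : (d' : ℝ) * Real.log 4 ≤ (10 ^ 6 * Λ) * 1.39 :=
      mul_le_mul hd' h3 h40 (by positivity)
    rw [hΛ] at h5 ⊢
    linarith
  set ℓ := Real.log (4 ^ d' * K₁) with hℓdef
  -- pigeonhole
  obtain ⟨t, ht, htt⟩ : ∃ t ∈ T, Real.exp (-(10 ^ 15 * ℓ₀)) ≤
      ∑ y ∈ S.filter (fun y => ∃ w ∈ lat B', ∃ h ∈ H', y = t + θ w + h), σ y := by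
    by_contra hcon
    push Not at hcon
    have h3 := sum_filter_biUnion hσ0 T (fun t y => ∃ w ∈ lat B', ∃ h ∈ H', y = t + θ w + h) A hAS
      hcov
    have h4 : ∑ t ∈ T, ∑ y ∈ S.filter (fun y => ∃ w ∈ lat B', ∃ h ∈ H', y = t + θ w + h), σ y ≤
        T.card * Real.exp (-(10 ^ 15 * ℓ₀)) := by
      rw [← nsmul_eq_mul]
      exact Finset.sum_le_card_nsmul _ _ _ fun t ht => (hcon t ht).le
    have h5 : (T.card : ℝ) * Real.exp (-(10 ^ 15 * ℓ₀)) ≤
        Real.exp (12 + 5040 * ℓ - 10 ^ 15 * ℓ₀) := by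
      calc (T.card : ℝ) * Real.exp (-(10 ^ 15 * ℓ₀)) ≤
          Real.exp (12 + 5040 * ℓ) * Real.exp (-(10 ^ 15 * ℓ₀)) :=
            mul_le_mul_of_nonneg_right hT (Real.exp_pos _).le
        _ = _ := by rw [← Real.exp_add]; congr 1
    have h6 : Real.exp (12 + 5040 * ℓ - 10 ^ 15 * ℓ₀) < δ := by
      rw [hδ]
      apply Real.exp_lt_exp.2
      rw [hΛ]
      nlinarith
    have h7 := hmassA.trans (h3.trans (h4.trans h5))
    linarith
  refine ⟨n, B', θ, H', t, ?_, hB', hH', ?_, htt⟩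
  · nlinarith
  · refine le_trans (mul_le_mul_of_nonneg_right ?_ hs₂0.le) ha₀s
    exact_mod_cast hvolB

end T9h11.HB
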