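import Pool.Agent.T9h11.HB6
import Pool.Agent.T9h11.RW14

set_option autoImplicit false
set_option linter.unusedSectionVars false
set_option linter.unusedVariables false

/-! The theorem for all abelian groups, and for sets. -/

namespace T9h11.HB

open Finset H460 T9h11.RM T9h11.RW Pool.Agent.Y806.DF
open scoped Classical Pointwise

theorem hb_law {Γ : Type*} [AddCommGroup Γ] {E : Γ → ℝ}
    (hEnn : ∀ x, 0 ≤ E x) (hE0 : E 0 = 0) (hEn : ∀ x, E (-x) = E x) (hE : PDE E)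
    {S : Finset Γ} {σ : Γ → ℝ}
    (hσ0 : ∀ y ∈ S, 0 ≤ σ y) (hσ1 : ∑ y ∈ S, σ y = 1) {L : ℝ} (hL : 1 ≤ L)
    (h1 : ∀ F : Finset Γ, (∑ x ∈ F, Real.exp (-E x)) * ∑ y ∈ S, σ y ^ 2 ≤ L)
    (h2 : 1 / L ≤ ∑ y ∈ S, ∑ y' ∈ S, σ y * σ y' * Real.exp (-E (y - y'))) :
    ∃ (n : ℕ) (B : Set (Fin n → ℝ)) (ψ : (Fin n → ℤ) →+ Γ)
      (H : AddSubgroup Γ) (g : Γ),
      (n : ℝ) ≤ 10 ^ 15 * Real.log (2 * L) ∧ Body B ∧ Finite H ∧
      ((lat B).ncard * Nat.card H : ℕ) * (∑ y ∈ S, σ y ^ 2) ≤ 1 ∧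
      Real.exp (-(10 ^ 15 * Real.log (2 * L))) ≤
        ∑ y ∈ S.filter (fun y => ∃ w ∈ lat B, ∃ h ∈ H, y = g + ψ w + h), σ y := by
  obtain ⟨d, O, hO, hOf, j, hj, hF⟩ := exists_embed S
  set S' : Finset ((Fin d → ℤ) × O) := S.preimage j hj.injOn with hS'
  have hmap : S = S'.map ⟨j, hj⟩ := by
    ext a
    rw [Finset.mem_map]
    constructor
    · intro ha
      obtain ⟨b, hb⟩ := hF a ha
      refine ⟨b, ?_, hb⟩
      rw [hS', Finset.mem_preimage, hb]
      exact ha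
    · rintro ⟨b, hb, rfl⟩
      rw [hS', Finset.mem_preimage] at hb
      exact hb
  have hsum : ∀ f : Γ → ℝ, ∑ y ∈ S, f y = ∑ y ∈ S', f (j y) := by
    intro f
    rw [hmap, Finset.sum_map]
    rfl
  obtain ⟨n, B, ψ, H, g, hn, hB, hH, hvol, hmass⟩ := hb_red (E := fun x => E (j x))
    (fun x => hEnn _) (by rw [map_zero, hE0]) (fun x => by rw [map_neg, hEn]) (hE.comp j hj)
    (S := S') (σ := fun y => σ (j y)) (fun y hy => hσ0 _ (by
      rw [hS', Finset.mem_preimage] at hy; exact hy)) (by rw [← hsum σ, hσ1]) hL (by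
      intro F
      rw [← hsum (fun y => σ y ^ 2)]
      have h3 := h1 (F.map ⟨j, hj⟩)
      rw [Finset.sum_map] at h3
      exact h3) (by
      refine h2.trans (le_of_eq ?_)
      rw [hsum]
      refine Finset.sum_congr rfl fun y _ => ?_
      rw [hsum]
      refine Finset.sum_congr rfl fun y' _ => ?_
      rw [map_sub])
  refine ⟨n, B, j.comp ψ, H.map j, j g, hn, hB, ?_, ?_, ?_⟩
  · exact Finite.of_surjective (fun h : H => (⟨j h, AddSubgroup.mem_map_of_mem j h.2⟩ : H.map j))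
      (fun ⟨y, hy⟩ => by
        obtain ⟨h, hh, rfl⟩ := AddSubgroup.mem_map.1 hy
        exact ⟨⟨h, hh⟩, rfl⟩)
  · have hcard : Nat.card (H.map j) = Nat.card H :=
      Nat.card_congr (H.equivMapOfInjective j hj).symm.toEquiv
    rw [hcard, hsum (fun y => σ y ^ 2)]
    exact hvol
  · refine hmass.trans (le_of_eq ?_)
    rw [Finset.sum_filter, Finset.sum_filter, hsum]
    refine Finset.sum_congr rfl fun y _ => ?_
    have hiff : (∃ w ∈ lat B, ∃ h ∈ H, y = g + ψ w + h) ↔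
        (∃ w ∈ lat B, ∃ h ∈ H.map j, j y = j g + (j.comp ψ) w + h) := by
      constructor
      · rintro ⟨w, hw, h, hh, rfl⟩
        refine ⟨w, hw, j h, AddSubgroup.mem_map_of_mem j hh, ?_⟩
        rw [map_add, map_add]
        rfl
      · rintro ⟨w, hw, h, hh, he⟩
        obtain ⟨h', hh', rfl⟩ := AddSubgroup.mem_map.1 hh
        refine ⟨w, hw, h', hh', hj ?_⟩
        rw [he, map_add, map_add]
        rfl
    by_cases hc : ∃ w ∈ lat B, ∃ h ∈ H, y = g + ψ w + h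
    · rw [if_pos hc, if_pos (hiff.1 hc)]
    · rw [if_neg hc, if_neg (fun h => hc (hiff.2 h))]

theorem hb_set {Γ : Type*} [AddCommGroup Γ] {E : Γ → ℝ}
    (hEnn : ∀ x, 0 ≤ E x) (hE0 : E 0 = 0) (hEn : ∀ x, E (-x) = E x) (hE : PDE E)
    {A : Finset Γ} (hA : A.Nonempty) {K L : ℝ} (hL : 1 ≤ L)
    (hK : ((A + A).card : ℝ) ≤ K * A.card)
    (h1 : ∀ F : Finset Γ, ∑ x ∈ F, Real.exp (-E x) ≤ L * A.card)
    (h2 : (A.card : ℝ) ^ 2 / L ≤ ∑ a ∈ A, ∑ a' ∈ A, Real.exp (-E (a - a'))) :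
    ∃ (n : ℕ) (B : Set (Fin n → ℝ)) (ψ : (Fin n → ℤ) →+ Γ) (H : AddSubgroup Γ) (T : Finset Γ),
      (n : ℝ) ≤ 10 ^ 15 * Real.log (2 * L) ∧ Body B ∧ Finite H ∧
      (lat B).ncard * Nat.card H ≤ A.card ∧
      (T.card : ℝ) ≤ K * Real.exp (10 ^ 18 * Real.log (2 * L)) ∧
      ∀ a ∈ A, ∃ t ∈ T, ∃ w ∈ lat B, ∃ h ∈ H, a = t + ψ w + h := by
  have hAc : (0 : ℝ) < A.card := by exact_mod_cast hA.card_pos
  have hL0 : 0 < L := by linarith
  have hlog : 0.69 ≤ Real.log (2 * L) := by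
    have h3 := Real.log_two_gt_d9
    have h4 := Real.log_le_log (by norm_num : (0 : ℝ) < 2) (by linarith : (2 : ℝ) ≤ 2 * L)
    linarith
  have hK0 : 0 ≤ K := by
    have h3 : (0 : ℝ) ≤ K * A.card := le_trans (Nat.cast_nonneg _) hK
    by_contra hneg
    push Not at hneg
    nlinarith
  have hs : ∑ y ∈ A, (1 / (A.card : ℝ)) ^ 2 = 1 / (A.card : ℝ) := by
    rw [Finset.sum_const, nsmul_eq_mul]
    field_simp
  obtain ⟨n, B, ψ, H, g, hn, hB, hH, hvol, hmass⟩ := hb_law hEnn hE0 hEn hE (S := A)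
    (σ := fun _ => 1 / (A.card : ℝ)) (fun _ _ => by positivity)
    (by rw [Finset.sum_const, nsmul_eq_mul]; field_simp) hL
    (by
      intro F
      rw [hs, mul_one_div, div_le_iff₀ hAc]
      exact h1 F)
    (by
      simp_rw [← Finset.mul_sum]
      rw [div_le_iff₀ hL0] at h2 ⊢
      calc (1 : ℝ) = 1 / A.card * (1 / A.card) * (A.card : ℝ) ^ 2 := by field_simp
        _ ≤ 1 / A.card * (1 / A.card) * ((∑ a ∈ A, ∑ a' ∈ A, Real.exp (-E (a - a'))) * L) :=
            mul_le_mul_of_nonneg_left h2 (by positivity)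
        _ = _ := by ring)
  rw [hs] at hvol
  have hvol' : (lat B).ncard * Nat.card H ≤ A.card := by
    rw [mul_one_div, div_le_one hAc] at hvol
    exact_mod_cast hvol
  set δ := Real.exp (-(10 ^ 15 * Real.log (2 * L))) with hδ
  have hδ0 : 0 < δ := Real.exp_pos _
  set A' := A.filter (fun y => ∃ w ∈ lat B, ∃ h ∈ H, y = g + ψ w + h) with hA'
  have hmass' : δ * A.card ≤ A'.card := by
    rw [Finset.sum_const, nsmul_eq_mul, mul_one_div, le_div_iff₀ hAc] at hmass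
    exact hmass
  have hA'ne : A'.Nonempty := by
    rw [Finset.nonempty_iff_ne_empty]
    intro h0
    rw [h0, Finset.card_empty, Nat.cast_zero] at hmass'
    have := mul_pos hδ0 hAc
    linarith
  obtain ⟨F, hFA, hFc, hcov⟩ := Finset.ruzsa_covering_add (A := A) (B := A') (K := K / δ) hA'ne (by
    have h3 : ((A + A').card : ℝ) ≤ (A + A).card := by
      exact_mod_cast Finset.card_le_card (Finset.add_subset_add_left (Finset.filter_subset _ _))
    calc ((A + A').card : ℝ) ≤ K * A.card := h3.trans hK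
      _ = K / δ * (δ * A.card) := by field_simp
      _ ≤ K / δ * A'.card := mul_le_mul_of_nonneg_left hmass' (by positivity))
  have hsym : Sym B := ⟨hB.1, hB.2.1, hB.2.2.2, hB.2.2.1.mono interior_subset⟩
  obtain ⟨d, B', ψ', H', T, hd, hB', hH', hvolB, hT, hcovT⟩ := shrink (hsym.smul 2) ψ H hH
    (a := A.card) hA.card_pos
  have hnum : (lat ((2 : ℝ) • B)).ncard ≤ 4 ^ n * (lat B).ncard := by
    have h3 := num_double hsym (t := 1) zero_le_one
    unfold num at h3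
    rw [mul_one, one_smul] at h3
    exact h3
  have hratio : max 1 (((lat ((2 : ℝ) • B)).ncard * Nat.card H : ℕ) / (A.card : ℝ)) ≤ 4 ^ n := by
    refine max_le (one_le_pow₀ (by norm_num)) ?_
    rw [div_le_iff₀ hAc]
    have h3 : (lat ((2 : ℝ) • B)).ncard * Nat.card H ≤ 4 ^ n * A.card := by
      calc (lat ((2 : ℝ) • B)).ncard * Nat.card H ≤ 4 ^ n * (lat B).ncard * Nat.card H :=
            Nat.mul_le_mul_right _ hnum
        _ = 4 ^ n * ((lat B).ncard * Nat.card H) := by ring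
        _ ≤ _ := Nat.mul_le_mul_left _ hvol'
    exact_mod_cast h3
  have hTc : (T.card : ℝ) ≤ 6 * 4096 ^ n := by
    refine hT.trans ?_
    calc (6 : ℝ) * 1024 ^ n * max 1 (((lat ((2 : ℝ) • B)).ncard * Nat.card H : ℕ) / (A.card : ℝ))
        ≤ 6 * 1024 ^ n * 4 ^ n := mul_le_mul_of_nonneg_left hratio (by positivity)
      _ = 6 * 4096 ^ n := by rw [mul_assoc, ← mul_pow]; norm_num
  refine ⟨d, B', ψ', H', F + T, ?_, hB', hH', hvolB, ?_, ?_⟩
  · have h3 : (d : ℝ) ≤ max (n : ℝ) 1 := by exact_mod_cast hd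
    refine h3.trans (max_le hn ?_)
    linarith
  · have h3 : ((F + T).card : ℝ) ≤ F.card * T.card := by exact_mod_cast Finset.card_add_le
    have h4 : (6 : ℝ) * 4096 ^ n ≤ Real.exp (1.8 + n * 8.4) := by
      rw [Real.exp_add, Real.exp_nat_mul]
      have h5 : (6 : ℝ) ≤ Real.exp 1.8 := by
        rw [show (1.8 : ℝ) = (18 : ℕ) * (0.1 : ℝ) by norm_num, Real.exp_nat_mul]
        have h6 : (1.1051 : ℝ) ≤ Real.exp 0.1 := by
          have := Real.quadratic_le_exp_of_nonneg (x := 0.1) (by norm_num)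
          have h7 := Real.sum_le_exp_of_nonneg (x := (0.1 : ℝ)) (by norm_num) 4
          simp [Finset.sum_range_succ, Nat.factorial] at h7
          linarith
        calc (6 : ℝ) ≤ 1.1051 ^ 18 := by norm_num
          _ ≤ _ := by gcongr
      have h6 : (4096 : ℝ) ≤ Real.exp 8.4 := by
        have h7 : Real.log 4096 ≤ 8.4 := by
          rw [show (4096 : ℝ) = 2 ^ 12 by norm_num, Real.log_pow]
          have := Real.log_two_lt_d9
          push_cast
          linarith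
        rw [← Real.log_le_iff_le_exp (by norm_num)]
        exact h7
      gcongr
    calc ((F + T).card : ℝ) ≤ F.card * T.card := h3
      _ ≤ K / δ * (6 * 4096 ^ n) := mul_le_mul hFc hTc (Nat.cast_nonneg _) (by positivity)
      _ ≤ K / δ * Real.exp (1.8 + n * 8.4) := mul_le_mul_of_nonneg_left h4 (by positivity)
      _ = K * Real.exp (10 ^ 15 * Real.log (2 * L) + (1.8 + n * 8.4)) := by
        rw [Real.exp_add (10 ^ 15 * Real.log (2 * L)) (1.8 + n * 8.4), hδ, Real.exp_neg,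
          div_inv_eq_mul]
        ring
      _ ≤ K * Real.exp (10 ^ 18 * Real.log (2 * L)) := by
        refine mul_le_mul_of_nonneg_left (Real.exp_le_exp.2 ?_) hK0
        nlinarith
  · intro a ha
    obtain ⟨f, hf, x, hx, rfl⟩ := Finset.mem_add.1 (hcov ha)
    obtain ⟨a₁, ha₁, a₂, ha₂, rfl⟩ := Finset.mem_sub.1 hx
    obtain ⟨-, w₁, hw₁, k₁, hk₁, rfl⟩ := Finset.mem_filter.1 ha₁
    obtain ⟨-, w₂, hw₂, k₂, hk₂, rfl⟩ := Finset.mem_filter.1 ha₂
    have hw : w₁ - w₂ ∈ lat ((2 : ℝ) • B) := by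
      have h3 := hsym.sub (s := 1) (t := 1) zero_le_one zero_le_one (v := w₁) (w := w₂)
        (by rw [one_smul]; exact hw₁) (by rw [one_smul]; exact hw₂)
      rwa [show (1 : ℝ) + 1 = 2 by norm_num] at h3
    obtain ⟨t, ht, w, hw', h', hh', he⟩ := hcovT _ hw (k₁ - k₂) (H.sub_mem hk₁ hk₂)
    refine ⟨f + t, Finset.add_mem_add hf ht, w, hw', h', hh', ?_⟩
    have h5 : f + (g + ψ w₁ + k₁ - (g + ψ w₂ + k₂)) = f + (ψ (w₁ - w₂) + (k₁ - k₂)) := by
      rw [map_sub]; abel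
    rw [h5, he]
    abel

end T9h11.HB
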