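import Pool.Agent.T9h11.HB7

set_option autoImplicit false
set_option linter.unusedSectionVars false
set_option linter.unusedVariables false

/-! Hilbertian metrics: laws, sets and balls. -/

namespace T9h11.HB

open Finset H460 T9h11.RM T9h11.RW Pool.Agent.Y806.DF
open scoped Classical Pointwise

variable {Γ H : Type*} [AddCommGroup Γ] [NormedAddCommGroup H] [InnerProductSpace ℝ H] {b : Γ → H}

theorem nm_sub (hb : ∀ x y z, ‖b (x + z) - b (y + z)‖ = ‖b x - b y‖) (x y : Γ) :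
    ‖b (x - y) - b 0‖ = ‖b x - b y‖ := by
  have h1 := hb (x - y) 0 y
  rw [sub_add_cancel, zero_add] at h1
  exact h1.symm

theorem nm_neg (hb : ∀ x y z, ‖b (x + z) - b (y + z)‖ = ‖b x - b y‖) (x : Γ) :
    ‖b (-x) - b 0‖ = ‖b x - b 0‖ := by
  have h1 := hb (-x) 0 x
  rw [neg_add_cancel, zero_add] at h1
  rw [← h1, norm_sub_rev]

theorem nm_add (hb : ∀ x y z, ‖b (x + z) - b (y + z)‖ = ‖b x - b y‖) (x y : Γ) :
    ‖b (x + y) - b 0‖ ≤ ‖b x - b 0‖ + ‖b y - b 0‖ := by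
  have h1 := hb x 0 y
  rw [zero_add] at h1
  calc ‖b (x + y) - b 0‖ = ‖(b (x + y) - b y) + (b y - b 0)‖ := by congr 1; abel
    _ ≤ ‖b (x + y) - b y‖ + ‖b y - b 0‖ := norm_add_le _ _
    _ = _ := by rw [h1]

theorem pde_smul {E : Γ → ℝ} (hE : PDE E) {c : ℝ} (hc : 0 ≤ c) : PDE (fun x => c * E x) := by
  intro t ht U f
  have h := hE (t * c) (mul_nonneg ht hc) U f
  refine h.trans (le_of_eq ?_)
  simp_rw [mul_assoc]

theorem sum_layers {r : Γ → ℝ} (hr : ∀ x, 0 ≤ r x) {ℓ a : ℝ} (hℓ : Real.log 2 ≤ ℓ) (ha : 0 ≤ a)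
    (hg : ∀ n : ℕ, 1 ≤ n → {x | r x ≤ n}.Finite ∧
      ({x | r x ≤ n}.ncard : ℝ) ≤ Real.exp ((n : ℝ) ^ 2 * ℓ) * a) (F : Finset Γ) :
    ∑ x ∈ F, Real.exp (-(8 * ℓ * r x ^ 2)) ≤ 2 * Real.exp ℓ * a := by
  have hℓ0 : 0 < ℓ := lt_of_lt_of_le (Real.log_pos (by norm_num)) hℓ
  set m : Γ → ℕ := fun x => ⌊r x⌋₊ with hm
  obtain ⟨N, hN⟩ : ∃ N, ∀ x ∈ F, m x ∈ Finset.range N := by
    refine ⟨F.sup m + 1, fun x hx => Finset.mem_range.2 ?_⟩
    exact Nat.lt_succ_of_le (Finset.le_sup (f := m) hx)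
  rw [← Finset.sum_fiberwise_of_maps_to hN]
  have h1 : ∀ n ∈ Finset.range N, ∑ x ∈ F.filter (fun x => m x = n),
      Real.exp (-(8 * ℓ * r x ^ 2)) ≤ Real.exp ℓ * a * (1 / 2) ^ n := by
    intro n _
    obtain ⟨hfin, hcard⟩ := hg (n + 1) (by omega)
    have h2 : ((F.filter fun x => m x = n).card : ℝ) ≤
        Real.exp (((n + 1 : ℕ) : ℝ) ^ 2 * ℓ) * a := by
      refine le_trans ?_ hcard
      have h3 : (F.filter fun x => m x = n).card ≤ {x | r x ≤ ((n + 1 : ℕ) : ℝ)}.ncard := by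
        rw [← Set.ncard_coe_finset]
        refine Set.ncard_le_ncard ?_ hfin
        intro x hx
        have h4 := (Finset.mem_filter.1 (Finset.mem_coe.1 hx)).2
        have h5 := Nat.lt_floor_add_one (r x)
        show r x ≤ ((n + 1 : ℕ) : ℝ)
        push_cast
        have h6 : (⌊r x⌋₊ : ℝ) = n := by exact_mod_cast h4
        rw [h6] at h5
        exact h5.le
      exact_mod_cast h3
    have h3 : ∀ x ∈ F.filter (fun x => m x = n),
        Real.exp (-(8 * ℓ * r x ^ 2)) ≤ Real.exp (-(8 * ℓ * (n : ℝ) ^ 2)) := by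
      intro x hx
      have h4 := (Finset.mem_filter.1 hx).2
      have h5 := Nat.floor_le (hr x)
      have h6 : (⌊r x⌋₊ : ℝ) = n := by exact_mod_cast h4
      rw [h6] at h5
      apply Real.exp_le_exp.2
      have h7 : (n : ℝ) ^ 2 ≤ r x ^ 2 := pow_le_pow_left₀ (Nat.cast_nonneg _) h5 2
      have h8 := mul_le_mul_of_nonneg_left h7 (by positivity : 0 ≤ 8 * ℓ)
      linarith
    have h4 : ∑ x ∈ F.filter (fun x => m x = n), Real.exp (-(8 * ℓ * r x ^ 2)) ≤
        ((F.filter fun x => m x = n).card : ℝ) * Real.exp (-(8 * ℓ * (n : ℝ) ^ 2)) := by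
      rw [← nsmul_eq_mul]
      exact Finset.sum_le_card_nsmul _ _ _ h3
    have h5 : Real.exp (((n + 1 : ℕ) : ℝ) ^ 2 * ℓ) * Real.exp (-(8 * ℓ * (n : ℝ) ^ 2)) ≤
        Real.exp ℓ * (1 / 2) ^ n := by
      have h6 : ((1 : ℝ) / 2) ^ n = Real.exp (-(n * Real.log 2)) := by
        rw [Real.exp_neg, Real.exp_nat_mul, Real.exp_log (by norm_num)]
        rw [one_div, inv_pow]
      rw [h6, ← Real.exp_add, ← Real.exp_add]
      apply Real.exp_le_exp.2
      push_cast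
      have h7 : (n : ℝ) * Real.log 2 ≤ n * ℓ := mul_le_mul_of_nonneg_left hℓ (Nat.cast_nonneg _)
      have h8 : (n : ℝ) ≤ (n : ℝ) ^ 2 := by
        exact_mod_cast Nat.le_self_pow (by norm_num) n
      have h9 := mul_le_mul_of_nonneg_right h8 hℓ0.le
      have h10 : 0 ≤ (n : ℝ) ^ 2 * ℓ := by positivity
      nlinarith
    calc ∑ x ∈ F.filter (fun x => m x = n), Real.exp (-(8 * ℓ * r x ^ 2))
        ≤ ((F.filter fun x => m x = n).card : ℝ) * Real.exp (-(8 * ℓ * (n : ℝ) ^ 2)) := h4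
      _ ≤ (Real.exp (((n + 1 : ℕ) : ℝ) ^ 2 * ℓ) * a) * Real.exp (-(8 * ℓ * (n : ℝ) ^ 2)) :=
          mul_le_mul_of_nonneg_right h2 (Real.exp_pos _).le
      _ = (Real.exp (((n + 1 : ℕ) : ℝ) ^ 2 * ℓ) * Real.exp (-(8 * ℓ * (n : ℝ) ^ 2))) * a := by ring
      _ ≤ (Real.exp ℓ * (1 / 2) ^ n) * a := mul_le_mul_of_nonneg_right h5 ha
      _ = _ := by ring
  refine (Finset.sum_le_sum h1).trans ?_
  rw [← Finset.mul_sum]
  have h2 : ∑ n ∈ Finset.range N, ((1 : ℝ) / 2) ^ n ≤ 2 := by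
    rw [geom_sum_eq (by norm_num)]
    have : (0 : ℝ) ≤ (1 / 2) ^ N := by positivity
    rw [div_le_iff_of_neg (by norm_num)]
    linarith
  calc Real.exp ℓ * a * ∑ n ∈ Finset.range N, ((1 : ℝ) / 2) ^ n ≤ Real.exp ℓ * a * 2 :=
        mul_le_mul_of_nonneg_left h2 (by positivity)
    _ = _ := by ring

/-- sets controlled by balls of Hilbertian metrics -/
theorem hb_ctrl (hb : ∀ x y z, ‖b (x + z) - b (y + z)‖ = ‖b x - b y‖) {R : ℝ} (hR : 0 < R)
    {K : ℝ} (hK : 1 ≤ K) {A : Finset Γ} (hA : A.Nonempty) (x₀ : Γ)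
    (hAR : (A.card : ℝ) ≤ K * (A.filter fun a => ‖b a - b x₀‖ ≤ R).card)
    (hAA : ((A + A).card : ℝ) ≤ K * A.card)
    (hg : ∀ n : ℕ, 1 ≤ n → {x | ‖b x - b 0‖ ≤ n * R}.Finite ∧
      ({x | ‖b x - b 0‖ ≤ n * R}.ncard : ℝ) ≤ K ^ n ^ 2 * A.card) :
    ∃ (n : ℕ) (B : Set (Fin n → ℝ)) (ψ : (Fin n → ℤ) →+ Γ) (H : AddSubgroup Γ) (T : Finset Γ),
      (n : ℝ) ≤ 10 ^ 17 * Real.log (2 * K) ∧ Body B ∧ Finite H ∧
      (lat B).ncard * Nat.card H ≤ A.card ∧
      (T.card : ℝ) ≤ Real.exp (10 ^ 20 * Real.log (2 * K)) ∧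
      ∀ a ∈ A, ∃ t ∈ T, ∃ w ∈ lat B, ∃ h ∈ H, a = t + ψ w + h := by
  set ℓ := Real.log (2 * K) with hℓ
  have hK0 : 0 < K := by linarith
  have hℓ2 : Real.log 2 ≤ ℓ := Real.log_le_log (by norm_num) (by linarith)
  have hℓ0 : 0 < ℓ := lt_of_lt_of_le (Real.log_pos (by norm_num)) hℓ2
  have hexpℓ : Real.exp ℓ = 2 * K := by rw [hℓ, Real.exp_log (by linarith)]
  have hAc : (0 : ℝ) < A.card := by exact_mod_cast hA.card_pos
  set c := 8 * ℓ / R ^ 2 with hc
  have hc0 : 0 ≤ c := by positivity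
  set E : Γ → ℝ := fun x => c * ‖b x - b 0‖ ^ 2 with hE
  have hEr : ∀ x, E x = 8 * ℓ * (‖b x - b 0‖ / R) ^ 2 := by
    intro x
    rw [hE, hc]
    field_simp
  have hset : ∀ n : ℕ, {x : Γ | ‖b x - b 0‖ / R ≤ n} = {x | ‖b x - b 0‖ ≤ n * R} := by
    intro n
    ext x
    simp only [Set.mem_setOf_eq]
    rw [div_le_iff₀ hR]
  obtain ⟨n, B, ψ, H', T, hn, hB, hH, hvol, hT, hcov⟩ := hb_set (E := E) (A := A) (K := K)
    (L := Real.exp (34 * ℓ))
    (fun x => by rw [hE]; positivity) (by simp [hE])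
    (fun x => by rw [hE]; beta_reduce; rw [nm_neg hb])
    (pde_smul (pde_of_hilbert b hb) hc0) hA (Real.one_le_exp (by positivity)) hAA (by
      intro F
      have h1 := sum_layers (r := fun x => ‖b x - b 0‖ / R) (fun x => by positivity) hℓ2
        (a := A.card) (Nat.cast_nonneg _) (by
          intro n hn
          rw [hset n]
          refine ⟨(hg n hn).1, (hg n hn).2.trans ?_⟩
          refine mul_le_mul_of_nonneg_right ?_ (Nat.cast_nonneg _)
          have h2 : Real.exp ((n : ℝ) ^ 2 * ℓ) = (2 * K) ^ n ^ 2 := by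
            rw [← hexpℓ, ← Real.exp_nat_mul]
            push_cast
            ring_nf
          rw [h2]
          exact pow_le_pow_left₀ hK0.le (by linarith) _) F
      simp_rw [hEr]
      refine h1.trans (mul_le_mul_of_nonneg_right ?_ (Nat.cast_nonneg _))
      have h3 : (2 : ℝ) ≤ Real.exp ℓ := by rw [hexpℓ]; linarith
      calc 2 * Real.exp ℓ ≤ Real.exp ℓ * Real.exp ℓ := by gcongr
        _ = Real.exp (2 * ℓ) := by rw [← Real.exp_add]; ring_nf
        _ ≤ _ := Real.exp_le_exp.2 (by linarith)) (by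
      set A' := A.filter fun a => ‖b a - b x₀‖ ≤ R with hA'
      have h1 : ∀ a ∈ A', ∀ a' ∈ A', Real.exp (-(32 * ℓ)) ≤ Real.exp (-E (a - a')) := by
        intro a ha a' ha'
        apply Real.exp_le_exp.2
        have h2 : ‖b a - b a'‖ ≤ 2 * R := by
          calc ‖b a - b a'‖ = ‖(b a - b x₀) - (b a' - b x₀)‖ := by congr 1; abel
            _ ≤ ‖b a - b x₀‖ + ‖b a' - b x₀‖ := norm_sub_le _ _
            _ ≤ 2 * R := by linarith [(Finset.mem_filter.1 ha).2, (Finset.mem_filter.1 ha').2]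
        have h3 : ‖b (a - a') - b 0‖ / R ≤ 2 := by
          rw [nm_sub hb, div_le_iff₀ hR]; exact h2
        rw [hEr]
        have h4 : (‖b (a - a') - b 0‖ / R) ^ 2 ≤ 2 ^ 2 := pow_le_pow_left₀ (by positivity) h3 2
        have h5 := mul_le_mul_of_nonneg_left h4 (by positivity : 0 ≤ 8 * ℓ)
        linarith
      have h2 : (A.card : ℝ) ≤ Real.exp ℓ * A'.card := by
        refine hAR.trans (mul_le_mul_of_nonneg_right ?_ (Nat.cast_nonneg _))
        rw [hexpℓ]; linarith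
      have h3 : (A.card : ℝ) ^ 2 ≤ (Real.exp ℓ * A'.card) ^ 2 :=
        pow_le_pow_left₀ hAc.le h2 2
      calc (A.card : ℝ) ^ 2 / Real.exp (34 * ℓ) ≤
            (Real.exp ℓ * A'.card) ^ 2 / Real.exp (34 * ℓ) :=
            div_le_div_of_nonneg_right h3 (Real.exp_pos _).le
        _ = (A'.card : ℝ) ^ 2 * Real.exp (-(32 * ℓ)) := by
            have h4 : Real.exp (34 * ℓ) = Real.exp ℓ ^ 2 * Real.exp (32 * ℓ) := by
              rw [← Real.exp_nat_mul, ← Real.exp_add]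
              congr 1
              push_cast
              ring
            rw [h4, Real.exp_neg]
            have h5 := Real.exp_pos ℓ
            have h6 := Real.exp_pos (32 * ℓ)
            field_simp
        _ = ∑ a ∈ A', ∑ a' ∈ A', Real.exp (-(32 * ℓ)) := by
            rw [Finset.sum_const, Finset.sum_const, nsmul_eq_mul, nsmul_eq_mul]
            ring
        _ ≤ ∑ a ∈ A', ∑ a' ∈ A', Real.exp (-E (a - a')) :=
            Finset.sum_le_sum fun a ha => Finset.sum_le_sum fun a' ha' => h1 a ha a' ha'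
        _ ≤ ∑ a ∈ A', ∑ a' ∈ A, Real.exp (-E (a - a')) :=
            Finset.sum_le_sum fun a ha => Finset.sum_le_sum_of_subset_of_nonneg
              (Finset.filter_subset _ _) fun _ _ _ => (Real.exp_pos _).le
        _ ≤ _ := Finset.sum_le_sum_of_subset_of_nonneg
              (Finset.filter_subset _ _) fun _ _ _ =>
                Finset.sum_nonneg fun _ _ => (Real.exp_pos _).le)
  have hlogL : Real.log (2 * Real.exp (34 * ℓ)) ≤ 35 * ℓ := by
    rw [Real.log_mul (by norm_num) (by positivity), Real.log_exp]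
    linarith
  refine ⟨n, B, ψ, H', T, ?_, hB, hH, hvol, ?_, hcov⟩
  · refine hn.trans ?_
    linarith
  · refine hT.trans ?_
    calc K * Real.exp (10 ^ 18 * Real.log (2 * Real.exp (34 * ℓ)))
        ≤ Real.exp ℓ * Real.exp (10 ^ 18 * (35 * ℓ)) := by
          have h3 : K ≤ Real.exp ℓ := by rw [hexpℓ]; linarith
          gcongr
      _ = Real.exp (ℓ + 10 ^ 18 * (35 * ℓ)) := by rw [Real.exp_add]
      _ ≤ _ := Real.exp_le_exp.2 (by linarith)

end T9h11.HB
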