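import Pool.Agent.H137R2.Weak.Opt
import Pool.Agent.H460R2.ThC

set_option autoImplicit false
set_option linter.unusedSectionVars false
set_option linter.unusedVariables false

/-! A sublattice of small rank carries a large part of a Gaussian sum. -/

namespace T9h11.RM

open H137.PFR H137.Weak H460
open scoped Classical

section info
variable {Ω α β : Type*} [Fintype Ω] {W : Ω → ℝ}

theorem le_push (hW : Law W) (f : Ω → α) (ω : Ω) : W ω ≤ push W f (f ω) := by
  unfold push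
  have h1 : W ω = if f ω = f ω then W ω else 0 := by rw [if_pos rfl]
  rw [h1]
  exact Finset.single_le_sum (f := fun ω' => if f ω' = f ω then W ω' else 0)
    (fun i _ => by split_ifs; exacts [hW.1 i, le_refl _]) (Finset.mem_univ ω)

/-- Gibbs inequality -/
theorem gibbs (hW : Law W) (f : Ω → α) (Q : α → ℝ) (hQ0 : ∀ c, 0 ≤ Q c)
    (hQ1 : ∑ c ∈ Finset.univ.image f, Q c ≤ 1) (hQp : ∀ ω, W ω ≠ 0 → 0 < Q (f ω)) :
    Hg W f ≤ ∑ ω, W ω * (-Real.log (Q (f ω))) := by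
  have h1 : ∀ ω, W ω * (-Real.log (push W f (f ω))) ≤
      W ω * (-Real.log (Q (f ω))) + (W ω * (Q (f ω) / push W f (f ω)) - W ω) := by
    intro ω
    by_cases h0 : W ω = 0
    · rw [h0]; simp
    · have hp : 0 < W ω := lt_of_le_of_ne (hW.1 ω) (Ne.symm h0)
      have hJ : 0 < push W f (f ω) := lt_of_lt_of_le hp (le_push hW f ω)
      have hq := hQp ω h0
      have h2 := Real.log_le_sub_one_of_pos (div_pos hq hJ)
      rw [Real.log_div hq.ne' hJ.ne'] at h2
      nlinarith [mul_le_mul_of_nonneg_left h2 hp.le]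
  have h2 : ∑ ω, W ω * (Q (f ω) / push W f (f ω)) ≤ 1 := by
    have h3 : ∑ ω, W ω * (Q (f ω) / push W f (f ω)) =
        ∑ c ∈ Finset.univ.image f, ∑ ω ∈ Finset.univ.filter (fun ω => f ω = c),
          W ω * (Q (f ω) / push W f (f ω)) := by
      exact (Finset.sum_fiberwise_of_maps_to
        (fun ω _ => Finset.mem_image_of_mem f (Finset.mem_univ ω)) _).symm
    rw [h3]
    refine le_trans (Finset.sum_le_sum fun c _ => ?_) hQ1
    have h4 : ∑ ω ∈ Finset.univ.filter (fun ω => f ω = c), W ω * (Q (f ω) / push W f (f ω)) =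
        push W f c * (Q c / push W f c) := by
      unfold push
      rw [Finset.sum_mul, ← Finset.sum_filter_add_sum_filter_not Finset.univ (fun ω => f ω = c)]
      rw [Finset.sum_filter, Finset.sum_filter, Finset.sum_filter]
      rw [← Finset.sum_add_distrib]
      refine Finset.sum_congr rfl fun ω _ => ?_
      by_cases h : f ω = c
      · simp [h]
      · simp [h]
    rw [h4]
    by_cases h5 : push W f c = 0
    · rw [h5]; simp; exact hQ0 c
    · rw [mul_div_cancel₀ _ h5]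
  calc Hg W f = ∑ ω, W ω * (-Real.log (push W f (f ω))) := rfl
    _ ≤ ∑ ω, (W ω * (-Real.log (Q (f ω))) + (W ω * (Q (f ω) / push W f (f ω)) - W ω)) :=
      Finset.sum_le_sum fun ω _ => h1 ω
    _ = ∑ ω, W ω * (-Real.log (Q (f ω))) + (∑ ω, W ω * (Q (f ω) / push W f (f ω)) - 1) := by
      rw [Finset.sum_add_distrib, Finset.sum_sub_distrib, hW.2]
    _ ≤ _ := by linarith

/-- bound for the mutual information -/
theorem info_le (hW : Law W) (f : Ω → α) (g : Ω → β) {Z : ℝ} (hZ : 0 < Z) (Q : α → ℝ) (Q' : β → ℝ)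
    (hQ0 : ∀ c, 0 ≤ Q c) (hQ1 : ∑ c ∈ Finset.univ.image f, Q c ≤ 1)
    (hQ0' : ∀ c, 0 ≤ Q' c) (hQ1' : ∑ c ∈ Finset.univ.image g, Q' c ≤ 1)
    (h : ∀ ω, push W (fun ω => (f ω, g ω)) (f ω, g ω) ≤ Z * (Q (f ω) * Q' (g ω))) :
    Hg W f + Hg W g ≤ Hg W (fun ω => (f ω, g ω)) + Real.log Z := by
  have hpos : ∀ ω, W ω ≠ 0 → 0 < Q (f ω) ∧ 0 < Q' (g ω) := by
    intro ω h0
    have hp : 0 < W ω := lt_of_le_of_ne (hW.1 ω) (Ne.symm h0)
    have h1 := lt_of_lt_of_le hp ((le_push hW (fun ω => (f ω, g ω)) ω).trans (h ω))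
    have h2 : 0 < Q (f ω) * Q' (g ω) := pos_of_mul_pos_right h1 hZ.le
    exact ⟨pos_of_mul_pos_left h2 (hQ0' _), pos_of_mul_pos_right h2 (hQ0 _)⟩
  have h1 := gibbs hW f Q hQ0 hQ1 fun ω h0 => (hpos ω h0).1
  have h2 := gibbs hW g Q' hQ0' hQ1' fun ω h0 => (hpos ω h0).2
  have h3 : ∑ ω, W ω * (-Real.log (Q (f ω))) + ∑ ω, W ω * (-Real.log (Q' (g ω))) ≤
      Hg W (fun ω => (f ω, g ω)) + Real.log Z := by
    have h4 : Real.log Z = ∑ ω, W ω * Real.log Z := by rw [← Finset.sum_mul, hW.2, one_mul]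
    rw [h4]
    unfold Hg
    rw [← Finset.sum_add_distrib, ← Finset.sum_add_distrib]
    refine Finset.sum_le_sum fun ω _ => ?_
    by_cases h0 : W ω = 0
    · rw [h0]; simp
    · have hp : 0 < W ω := lt_of_le_of_ne (hW.1 ω) (Ne.symm h0)
      obtain ⟨hq, hq'⟩ := hpos ω h0
      have hJ : 0 < push W (fun ω => (f ω, g ω)) (f ω, g ω) :=
        lt_of_lt_of_le hp (le_push hW (fun ω => (f ω, g ω)) ω)
      have h5 := Real.log_le_log hJ (h ω)
      rw [Real.log_mul hZ.ne' (mul_pos hq hq').ne', Real.log_mul hq.ne' hq'.ne'] at h5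
      nlinarith [mul_le_mul_of_nonneg_left h5 hp.le]
  linarith

theorem exists_popular (hW : Law W) (f : Ω → α) :
    ∃ ω, Real.exp (-Hg W f) ≤ push W f (f ω) := by
  by_contra hcon
  push Not at hcon
  have h1 : ∀ ω, W ω * Hg W f ≤ W ω * (-Real.log (push W f (f ω))) := by
    intro ω
    by_cases h0 : W ω = 0
    · rw [h0]; simp
    · have hp : 0 < W ω := lt_of_le_of_ne (hW.1 ω) (Ne.symm h0)
      have hJ : 0 < push W f (f ω) := lt_of_lt_of_le hp (le_push hW f ω)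
      have h2 := Real.log_lt_log hJ (hcon ω)
      rw [Real.log_exp] at h2
      nlinarith
  have h2 : ∃ ω, W ω ≠ 0 := by
    by_contra h
    push Not at h
    have h3 := hW.2
    rw [Finset.sum_congr rfl fun ω _ => h ω] at h3
    simp at h3
  obtain ⟨ω₀, hω₀⟩ := h2
  have h3 : ∑ ω, W ω * Hg W f < ∑ ω, W ω * (-Real.log (push W f (f ω))) := by
    refine Finset.sum_lt_sum (fun ω _ => h1 ω) ⟨ω₀, Finset.mem_univ _, ?_⟩
    have hp : 0 < W ω₀ := lt_of_le_of_ne (hW.1 ω₀) (Ne.symm hω₀)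
    have hJ : 0 < push W f (f ω₀) := lt_of_lt_of_le hp (le_push hW f ω₀)
    have h2 := Real.log_lt_log hJ (hcon ω₀)
    rw [Real.log_exp] at h2
    nlinarith
  rw [← Finset.sum_mul, hW.2, one_mul] at h3
  exact lt_irrefl _ h3

end info

section gauss
variable {E : Type*} [NormedAddCommGroup E] [InnerProductSpace ℝ E] [FiniteDimensional ℝ E]

/-- truncated Gaussian weights -/
noncomputable def gw (S : Finset E) (b : ℝ) (x : S) : ℝ :=
  Real.exp (-b * ‖(x : E)‖ ^ 2) / ∑ y ∈ S, Real.exp (-b * ‖y‖ ^ 2)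

theorem gw_sum_pos {S : Finset E} (hS : S.Nonempty) (b : ℝ) :
    0 < ∑ y ∈ S, Real.exp (-b * ‖y‖ ^ 2) := Finset.sum_pos (fun _ _ => Real.exp_pos _) hS

theorem law_gw {S : Finset E} (hS : S.Nonempty) (b : ℝ) : Law (gw S b) := by
  have h1 := gw_sum_pos hS b
  refine ⟨fun x => by unfold gw; positivity, ?_⟩
  unfold gw
  rw [← Finset.sum_div, Finset.sum_coe_sort S (fun y => Real.exp (-b * ‖y‖ ^ 2)), div_self h1.ne']

theorem sum_le_th {Γ : AddSubgroup E} (h : Disc Γ) {t : ℝ} (ht : 0 < t) (y : E) {S : Finset E}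
    (hS : ∀ x ∈ S, x - y ∈ Γ) : ∑ x ∈ S, Real.exp (-t * ‖x‖ ^ 2) ≤ th Γ y t := by
  unfold th
  have hs := th_summable h y ht
  have h1 : ∑ x ∈ S, Real.exp (-t * ‖x‖ ^ 2) =
      ∑ x ∈ S.attach.map ⟨fun x : {x // x ∈ S} => (⟨(x : E) - y, hS x x.2⟩ : Γ), fun a b hab => by
        have h0 : (a : E) - y = (b : E) - y := congrArg Subtype.val hab
        exact Subtype.ext (sub_left_inj.1 h0)⟩, Real.exp (-t * ‖(x : E) + y‖ ^ 2) := by
    rw [Finset.sum_map, ← Finset.sum_attach]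
    refine Finset.sum_congr rfl fun x _ => ?_
    simp
  rw [h1]
  exact hs.sum_le_tsum _ fun x _ => (Real.exp_pos _).le

/-- the law of the sum and the difference -/
theorem pair_info {Γ : AddSubgroup E} (h : Disc Γ) {b : ℝ} (hb : 0 < b) {S : Finset E}
    (hS0 : S.Nonempty) (hS : ∀ x ∈ S, x ∈ Γ) {α : Type*} (φ : E → α) :
    Hg (prod (gw S b) (gw S b)) (fun p => φ ((p.1 : E) + p.2)) +
      Hg (prod (gw S b) (gw S b)) (fun p => φ ((p.1 : E) - p.2)) ≤
      Hg (prod (gw S b) (gw S b)) (fun p => (φ ((p.1 : E) + p.2), φ ((p.1 : E) - p.2))) +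
      Real.log ((th Γ 0 (b / 2) / ∑ y ∈ S, Real.exp (-b * ‖y‖ ^ 2)) ^ 2) := by
  set Z0 := ∑ y ∈ S, Real.exp (-b * ‖y‖ ^ 2) with hZ0
  have hZ0p : 0 < Z0 := gw_sum_pos hS0 b
  have hΘ : 0 < th Γ 0 (b / 2) := th_pos h 0 (by positivity)
  set S2 : Finset E := (S ×ˢ S).image (fun p => p.1 + p.2) ∪ (S ×ˢ S).image (fun p => p.1 - p.2)
    with hS2
  have hS2Γ : ∀ x ∈ S2, x ∈ Γ := by
    intro x hx
    rcases Finset.mem_union.1 hx with hx | hx
    · obtain ⟨p, hp, rfl⟩ := Finset.mem_image.1 hx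
      rw [Finset.mem_product] at hp
      exact Γ.add_mem (hS _ hp.1) (hS _ hp.2)
    · obtain ⟨p, hp, rfl⟩ := Finset.mem_image.1 hx
      rw [Finset.mem_product] at hp
      exact Γ.sub_mem (hS _ hp.1) (hS _ hp.2)
  set Q : α → ℝ := fun c => (∑ u ∈ S2, if φ u = c then Real.exp (-(b / 2) * ‖u‖ ^ 2) else 0) /
    th Γ 0 (b / 2) with hQ
  have hQ0 : ∀ c, 0 ≤ Q c := fun c => div_nonneg (Finset.sum_nonneg fun u _ => by
    split_ifs <;> positivity) hΘ.le
  have hQ1 : ∀ T : Finset α, ∑ c ∈ T, Q c ≤ 1 := by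
    intro T
    rw [hQ]
    simp only
    rw [← Finset.sum_div, div_le_one hΘ, Finset.sum_comm]
    have h1 : ∀ u ∈ S2, ∑ c ∈ T, (if φ u = c then Real.exp (-(b / 2) * ‖u‖ ^ 2) else 0) ≤
        Real.exp (-(b / 2) * ‖u‖ ^ 2) := by
      intro u _
      rw [Finset.sum_ite_eq]
      split_ifs
      · exact le_refl _
      · positivity
    refine (Finset.sum_le_sum h1).trans ?_
    exact sum_le_th h (by positivity) 0 fun x hx => by rw [sub_zero]; exact hS2Γ x hx
  refine info_le (law_prod (law_gw hS0 b) (law_gw hS0 b)) _ _ (by positivity) Q Q hQ0 (hQ1 _) hQ0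
    (hQ1 _) ?_
  intro p₀
  set c := φ ((p₀.1 : E) + p₀.2)
  set d := φ ((p₀.1 : E) - p₀.2)
  have e1 : (th Γ 0 (b / 2) / Z0) ^ 2 * (Q c * Q d) =
      ((∑ u ∈ S2, if φ u = c then Real.exp (-(b / 2) * ‖u‖ ^ 2) else 0) *
        (∑ u ∈ S2, if φ u = d then Real.exp (-(b / 2) * ‖u‖ ^ 2) else 0)) / Z0 ^ 2 := by
    rw [hQ]; field_simp
  rw [e1]
  have e2 : push (prod (gw S b) (gw S b))
      (fun p => (φ ((p.1 : E) + p.2), φ ((p.1 : E) - p.2))) (c, d) =
      (∑ p : S × S, if φ ((p.1 : E) + p.2) = c ∧ φ ((p.1 : E) - p.2) = d then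
        Real.exp (-(b / 2) * ‖(p.1 : E) + p.2‖ ^ 2) * Real.exp (-(b / 2) * ‖(p.1 : E) - p.2‖ ^ 2)
        else 0) / Z0 ^ 2 := by
    unfold push prod gw
    rw [Finset.sum_div]
    refine Finset.sum_congr rfl fun p _ => ?_
    simp only [Prod.mk.injEq]
    split_ifs with h1
    · rw [div_mul_div_comm, ← sq, ← Real.exp_add, ← Real.exp_add]
      congr 2
      have h2 := parallelogram_law_with_norm ℝ (p.1 : E) (p.2 : E)
      nlinarith
    · simp
  rw [e2]
  refine div_le_div_of_nonneg_right ?_ (by positivity)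
  rw [Finset.sum_mul_sum, ← Finset.sum_product']
  have h3 : (∑ p : S × S, if φ ((p.1 : E) + p.2) = c ∧ φ ((p.1 : E) - p.2) = d then
        Real.exp (-(b / 2) * ‖(p.1 : E) + p.2‖ ^ 2) * Real.exp (-(b / 2) * ‖(p.1 : E) - p.2‖ ^ 2)
        else 0) = ∑ q ∈ (Finset.univ : Finset (S × S)).image
          (fun p => ((p.1 : E) + p.2, (p.1 : E) - p.2)),
        (if φ q.1 = c then Real.exp (-(b / 2) * ‖q.1‖ ^ 2) else 0) *
        (if φ q.2 = d then Real.exp (-(b / 2) * ‖q.2‖ ^ 2) else 0) := by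
    rw [Finset.sum_image]
    · refine Finset.sum_congr rfl fun p _ => ?_
      by_cases h1 : φ ((p.1 : E) + p.2) = c
      · by_cases h2 : φ ((p.1 : E) - p.2) = d
        · simp [h1, h2]
        · simp [h1, h2]
      · simp [h1]
    · intro p _ q _ hpq
      simp only [Prod.mk.injEq] at hpq
      obtain ⟨h1, h2⟩ := hpq
      have h3 : (2 : ℝ) • (p.1 : E) = (2 : ℝ) • (q.1 : E) := by
        rw [two_smul, two_smul]
        calc (p.1 : E) + p.1 = ((p.1 : E) + p.2) + ((p.1 : E) - p.2) := by abel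
          _ = ((q.1 : E) + q.2) + ((q.1 : E) - q.2) := by rw [h1, h2]
          _ = _ := by abel
      have h4 : (p.1 : E) = q.1 := smul_right_injective E (two_ne_zero' ℝ) h3
      have h5 : (p.2 : E) = q.2 := by rw [h4] at h1; exact add_left_cancel h1
      exact Prod.ext (Subtype.ext h4) (Subtype.ext h5)
  rw [h3]
  refine Finset.sum_le_sum_of_subset_of_nonneg ?_ ?_
  · intro q hq
    obtain ⟨p, _, rfl⟩ := Finset.mem_image.1 hq
    rw [Finset.mem_product]
    refine ⟨Finset.mem_union_left _ (Finset.mem_image.2 ⟨((p.1 : E), (p.2 : E)), ?_, rfl⟩),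
      Finset.mem_union_right _ (Finset.mem_image.2 ⟨((p.1 : E), (p.2 : E)), ?_, rfl⟩)⟩
    · exact Finset.mem_product.2 ⟨p.1.2, p.2.2⟩
    · exact Finset.mem_product.2 ⟨p.1.2, p.2.2⟩
  · intro q _ _
    refine mul_nonneg ?_ ?_ <;> split_ifs <;> positivity

theorem map_dbl_eq (M : AddSubgroup E) : M.map (H137.Weak.dbl E) = H460.dbl M := by
  ext x
  unfold H460.dbl
  constructor
  · rintro ⟨y, hy, rfl⟩
    exact ⟨y, hy, by simp [H137.Weak.dbl_apply, two_nsmul]⟩
  · rintro ⟨y, hy, rfl⟩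
    exact ⟨y, hy, by simp [H137.Weak.dbl_apply, two_nsmul]⟩

/-- entropy modulo `2M` -/
theorem hh_two {Γ : AddSubgroup E} (h : Disc Γ) {b : ℝ} (hb : 0 < b) {S : Finset E}
    (hS0 : S.Nonempty) (hS : ∀ x ∈ S, x ∈ Γ) (M : AddSubgroup E) :
    hh (gw S b) (fun x : S => (x : E)) (H460.dbl M) ≤ hh (gw S b) (fun x : S => (x : E)) M +
      Real.log ((th Γ 0 (b / 2) / ∑ y ∈ S, Real.exp (-b * ‖y‖ ^ 2)) ^ 2) := by
  have hl := law_gw hS0 b
  have hll := law_prod hl hl
  have h1 := pair_info h hb hS0 hS (fun x : E => (x : E ⧸ H460.dbl M))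
  have h2 : Hg (prod (gw S b) (gw S b)) (fun p => (((((p.1 : E) + p.2 : E)) : E ⧸ H460.dbl M),
      ((((p.1 : E) - p.2 : E)) : E ⧸ H460.dbl M))) ≤
      Hg (prod (gw S b) (gw S b)) (fun p => ((((p.1 : E) + p.2 : E)) : E ⧸ H460.dbl M)) +
      Hg (prod (gw S b) (gw S b)) (fun p => ((p.2 : E) : E ⧸ M)) := by
    refine Hg_add_of hll fun p q h3 h4 => ?_
    rw [Prod.mk.injEq]
    refine ⟨h3, ?_⟩
    rw [QuotientAddGroup.eq] at h3 h4 ⊢
    have h5 : -((p.1 : E) - p.2) + ((q.1 : E) - q.2) =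
        (-((p.1 : E) + p.2) + ((q.1 : E) + q.2)) - ((-(p.2 : E) + q.2) + (-(p.2 : E) + q.2)) := by
      abel
    rw [h5]
    refine (H460.dbl M).sub_mem h3 ⟨_, h4, ?_⟩
    change 2 • (-(p.2 : E) + q.2) = _
    rw [two_nsmul]
  have h3 : Hg (prod (gw S b) (gw S b)) (fun p => ((p.2 : E) : E ⧸ M)) =
      hh (gw S b) (fun x : S => (x : E)) M :=
    Hg_snd hl hl (fun x : S => ((x : E) : E ⧸ M))
  have h4 : hh (gw S b) (fun x : S => (x : E)) (H460.dbl M) ≤
      Hg (prod (gw S b) (gw S b)) (fun p => ((((p.1 : E) - p.2 : E)) : E ⧸ H460.dbl M)) :=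
    Hg_le_sub hl hl (fun x : S => ((x : E) : E ⧸ H460.dbl M)) (fun x : S => ((x : E) : E ⧸ H460.dbl M))
  linarith

theorem kap_le {Γ : AddSubgroup E} (h : Disc Γ) {b : ℝ} (hb : 0 < b) {S : Finset E}
    (hS0 : S.Nonempty) (hS : ∀ x ∈ S, x ∈ Γ) :
    kap (gw S b) (fun x : S => (x : E)) ≤
      Real.log ((th Γ 0 (b / 2) / ∑ y ∈ S, Real.exp (-b * ‖y‖ ^ 2)) ^ 2) := by
  have hl := law_gw hS0 b
  have hll := law_prod hl hl
  have h1 := pair_info h hb hS0 hS (fun x : E => x)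
  have h2 : Hg (prod (gw S b) (gw S b)) (fun p => ((p.1 : E) + p.2, (p.1 : E) - p.2)) ≤
      Hg (gw S b) (fun x : S => (x : E)) + Hg (gw S b) (fun x : S => (x : E)) := by
    rw [← Hg_prod hl hl (fun x : S => (x : E)) (fun x : S => (x : E))]
    refine Hg_le_of hll fun p q h3 => ?_
    rw [Prod.mk.injEq] at h3
    rw [h3.1, h3.2]
  have h3 : Hg (gw S b) (fun x : S => (x : E)) ≤
      Hg (prod (gw S b) (gw S b)) (fun p => (p.1 : E) + p.2) := by
    have h4 := Hg_le_sub hl hl (fun x : S => (x : E)) (fun x : S => -(x : E))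
    refine h4.trans (le_of_eq ?_)
    congr 1
    funext p
    simp
  unfold kap
  linarith

/-- **a sublattice of small rank carries a large part of the Gaussian sum** -/
theorem small_rank {Γ : AddSubgroup E} (h : Disc Γ) {b : ℝ} (hb : 0 < b) {δ : ℝ} (hδ : 0 < δ) :
    ∃ M ≤ Γ, (rk M : ℝ) * Real.log 2 ≤
        3 * (Real.log (th Γ 0 (b / 2)) - Real.log (th Γ 0 b)) + δ ∧
      Real.log (th Γ 0 b) ≤ Real.log (th M 0 b) +
        184 * (Real.log (th Γ 0 (b / 2)) - Real.log (th Γ 0 b)) + δ := by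
  set ε : ℝ := δ / 200 with hε
  have hε0 : 0 < ε := by positivity
  have hΘ : 0 < th Γ 0 b := th_pos h 0 hb
  have hΘ' : 0 < th Γ 0 (b / 2) := th_pos h 0 (by positivity)
  -- choice of the finite set
  obtain ⟨S, hS0, hS, hSsum⟩ : ∃ S : Finset E, S.Nonempty ∧ (∀ x ∈ S, x ∈ Γ) ∧
      Real.exp (-ε) * th Γ 0 b ≤ ∑ y ∈ S, Real.exp (-b * ‖y‖ ^ 2) := by
    have hs := (th_summable h 0 hb).hasSum
    have h1 : Real.exp (-ε) * th Γ 0 b < th Γ 0 b := by
      have : Real.exp (-ε) < 1 := by rw [Real.exp_lt_one_iff]; linarith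
      nlinarith
    have h2 := hs.eventually (lt_mem_nhds h1)
    obtain ⟨s, hs⟩ := h2.exists
    refine ⟨s.map ⟨Subtype.val, Subtype.val_injective⟩, ?_, ?_, ?_⟩
    · rw [Finset.map_nonempty]
      by_contra hne
      rw [Finset.not_nonempty_iff_eq_empty] at hne
      rw [hne, Finset.sum_empty] at hs
      have : 0 < Real.exp (-ε) * th Γ 0 b := by positivity
      linarith
    · intro x hx
      obtain ⟨y, _, rfl⟩ := Finset.mem_map.1 hx
      exact y.2
    · rw [Finset.sum_map]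
      refine hs.le.trans (le_of_eq ?_)
      refine Finset.sum_congr rfl fun x _ => ?_
      simp
  set Z0 := ∑ y ∈ S, Real.exp (-b * ‖y‖ ^ 2) with hZ0
  have hZ0p : 0 < Z0 := gw_sum_pos hS0 b
  have hl := law_gw hS0 b
  set X : S → E := fun x => (x : E) with hX
  set D := Real.log (th Γ 0 (b / 2)) - Real.log (th Γ 0 b) with hD
  have hlogZ : Real.log ((th Γ 0 (b / 2) / Z0) ^ 2) ≤ 2 * (D + ε) := by
    rw [Real.log_pow, Real.log_div hΘ'.ne' hZ0p.ne']
    have h1 := Real.log_le_log (by positivity) hSsum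
    rw [Real.log_mul (Real.exp_pos _).ne' hΘ.ne', Real.log_exp] at h1
    push_cast
    linarith
  have hlogZ0 : Real.log (th Γ 0 b) - ε ≤ Real.log Z0 := by
    have h1 := Real.log_le_log (by positivity) hSsum
    rw [Real.log_mul (Real.exp_pos _).ne' hΘ.ne', Real.log_exp] at h1
    linarith
  obtain ⟨M, hMfg, hMgood, hMmin⟩ := exists_min_good hl X
  have hMred : red X M = M := hMmin _ (red_le X M) (by
    rw [hh_red]
    exact hMgood.trans (mul_le_mul_of_nonneg_left (kk_anti hl X (red_le X M)) (by norm_num)))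
  have hMΓ : M ≤ Γ := by
    rw [← hMred]
    unfold red
    rw [AddSubgroup.closure_le]
    intro x hx
    have h1 := (Finset.mem_filter.1 (Finset.mem_coe.1 hx)).1
    obtain ⟨p, _, rfl⟩ := Finset.mem_image.1 h1
    exact Γ.add_mem (Γ.neg_mem (hS _ p.1.2)) (hS _ p.2.2)
  have hMd : Disc M := h.mono hMΓ
  have hidx := relIndex_dbl hMd
  have h2M : ∀ x ∈ M, x + x ∈ H460.dbl M := fun x hx => ⟨x, hx, by simp [two_nsmul]⟩
  obtain ⟨P, hP1, hP2, hP3, hP4⟩ := iter_up hl X h2M _ (H460.dbl M) (le_refl _) (dbl_le M)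
    (by rw [hidx]; positivity) (le_refl _)
  have hPM : P = M := hMmin P hP2 (by linarith)
  rw [hPM, hidx] at hP4
  push_cast at hP4
  rw [Real.log_pow] at hP4
  have h3 := hh_two h hb hS0 hS M
  have h4 := kap_le h hb hS0 hS
  have h5 := kk_le hl X M
  refine ⟨M, hMΓ, ?_, ?_⟩
  · have : hh (gw S b) X (H460.dbl M) - hh (gw S b) X M ≤ 2 * (D + ε) := by linarith
    have h6 : (rk M : ℝ) * Real.log 2 ≤ 3 / 2 * (2 * (D + ε)) :=
      hP4.trans (mul_le_mul_of_nonneg_left this (by norm_num))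
    have h7 : 3 * ε ≤ δ := by rw [hε]; linarith
    linarith
  · have h6 : hh (gw S b) X M ≤ 184 * (D + ε) := by
      have : kk (gw S b) X M ≤ 2 * (D + ε) := h5.trans (h4.trans hlogZ)
      linarith
    obtain ⟨x₀, hx₀⟩ := exists_popular hl (fun x : S => ((X x : E) : E ⧸ M))
    have h7 : push (gw S b) (fun x : S => ((X x : E) : E ⧸ M)) ((X x₀ : E) : E ⧸ M) ≤
        th M 0 b / Z0 := by
      have h8 : push (gw S b) (fun x : S => ((X x : E) : E ⧸ M)) ((X x₀ : E) : E ⧸ M) =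
          (∑ x ∈ S.filter (fun x => x - (x₀ : E) ∈ M), Real.exp (-b * ‖x‖ ^ 2)) / Z0 := by
        unfold push gw
        rw [Finset.sum_filter, Finset.sum_div, ← Finset.sum_coe_sort S
          (fun x => (if x - (x₀ : E) ∈ M then Real.exp (-b * ‖x‖ ^ 2) else 0) / Z0)]
        refine Finset.sum_congr rfl fun x _ => ?_
        have h9 : (((X x : E) : E ⧸ M) = ((X x₀ : E) : E ⧸ M)) ↔ (x : E) - x₀ ∈ M := by
          rw [eq_comm, QuotientAddGroup.eq, neg_add_eq_sub]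
        by_cases h10 : (x : E) - x₀ ∈ M
        · rw [if_pos (h9.2 h10), if_pos h10]
        · rw [if_neg (fun h11 => h10 (h9.1 h11)), if_neg h10, zero_div]
      rw [h8]
      refine div_le_div_of_nonneg_right ?_ hZ0p.le
      exact (sum_le_th hMd hb (x₀ : E) fun x hx => (Finset.mem_filter.1 hx).2).trans
        (th_shift_le hMd _ hb)
    have h8 : Real.exp (-Hg (gw S b) (fun x : S => ((X x : E) : E ⧸ M))) ≤ th M 0 b / Z0 :=
      hx₀.trans h7
    have h9 := Real.log_le_log (Real.exp_pos _) h8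
    rw [Real.log_exp, Real.log_div (th_pos hMd 0 hb).ne' hZ0p.ne'] at h9
    have h10 : Hg (gw S b) (fun x : S => ((X x : E) : E ⧸ M)) = hh (gw S b) X M := rfl
    rw [h10] at h9
    have h11 : 185 * ε ≤ δ := by rw [hε]; linarith
    linarith

end gauss

end T9h11.RM
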