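import Pool.Agent.H460R2.WQ
import Mathlib.Analysis.SpecialFunctions.Gaussian.PoissonSummation

set_option autoImplicit false
set_option linter.unusedSectionVars false
set_option linter.unusedVariables false

/-! Poisson summation for Gaussian sums over lattices, by induction on the rank. -/

namespace T9h11.RM

open H460

/-- one-dimensional Poisson summation -/
theorem pois1 {A : ℝ} (hA : 0 < A) (α θ φ : ℝ) :
    ∑' z : ℤ, Complex.exp (((-A * ((z : ℝ) + α) ^ 2 : ℝ) : ℂ) +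
        2 * Complex.I * (((z : ℝ) * θ + φ : ℝ) : ℂ)) =
      ((Real.sqrt (Real.pi / A) : ℝ) : ℂ) * ∑' m : ℤ,
        Complex.exp (((-(Real.pi * m - θ) ^ 2 / A : ℝ) : ℂ) +
          2 * Complex.I * ((α * (Real.pi * m - θ) + φ : ℝ) : ℂ)) := by
  have hpi := Real.pi_pos
  have hpiC : (Real.pi : ℂ) ≠ 0 := by exact_mod_cast hpi.ne'
  have hAC : (A : ℂ) ≠ 0 := by exact_mod_cast hA.ne'
  have ha : 0 < (((A / Real.pi : ℝ) : ℂ)).re := by
    rw [Complex.ofReal_re]; positivity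
  have hP := Complex.tsum_exp_neg_quadratic ha ((-(A : ℂ) * α + Complex.I * θ) / Real.pi)
  have h1 : ∀ z : ℤ, Complex.exp (((-A * ((z : ℝ) + α) ^ 2 : ℝ) : ℂ) +
        2 * Complex.I * (((z : ℝ) * θ + φ : ℝ) : ℂ)) =
      Complex.exp (-(A : ℂ) * α ^ 2 + 2 * Complex.I * φ) *
      Complex.exp (-Real.pi * ((A / Real.pi : ℝ) : ℂ) * z ^ 2 +
        2 * Real.pi * ((-(A : ℂ) * α + Complex.I * θ) / Real.pi) * z) := by
    intro z
    rw [← Complex.exp_add]
    congr 1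
    push_cast
    field_simp
    ring
  have h2 : ∀ m : ℤ, Complex.exp (-Real.pi / ((A / Real.pi : ℝ) : ℂ) *
      (m + Complex.I * ((-(A : ℂ) * α + Complex.I * θ) / Real.pi)) ^ 2) =
      Complex.exp ((A : ℂ) * α ^ 2 - 2 * Complex.I * φ) *
      Complex.exp (((-(Real.pi * m - θ) ^ 2 / A : ℝ) : ℂ) +
          2 * Complex.I * ((α * (Real.pi * m - θ) + φ : ℝ) : ℂ)) := by
    intro m
    rw [← Complex.exp_add]
    congr 1
    push_cast
    have hI : Complex.I * ((-(A : ℂ) * α + Complex.I * θ) / Real.pi) =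
        (-(Complex.I * A * α) - θ) / Real.pi := by
      rw [mul_div_assoc']
      congr 1
      linear_combination (θ : ℂ) * Complex.I_mul_I
    rw [hI]
    have e : (-(Real.pi : ℂ) / ((A : ℂ) / Real.pi)) * ((m : ℂ) + (-(Complex.I * A * α) - θ) / Real.pi) ^ 2 =
        -(1 / (A : ℂ)) * (Real.pi * m + (-(Complex.I * A * α) - θ)) ^ 2 := by
      field_simp
    rw [e]
    field_simp
    linear_combination (-(A : ℂ) ^ 2 * α ^ 2) * Complex.I_sq
  have h3 : (1 : ℂ) / (((A / Real.pi : ℝ) : ℂ)) ^ (1 / 2 : ℂ) =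
      ((Real.sqrt (Real.pi / A) : ℝ) : ℂ) := by
    have h4 : (((A / Real.pi : ℝ) : ℂ)) ^ (1 / 2 : ℂ) = ((Real.sqrt (A / Real.pi) : ℝ) : ℂ) := by
      rw [Real.sqrt_eq_rpow, Complex.ofReal_cpow (by positivity)]
      push_cast
      rfl
    rw [h4, ← Complex.ofReal_one, ← Complex.ofReal_div]
    congr 1
    rw [← Real.sqrt_one, ← Real.sqrt_div (by norm_num)]
    congr 1
    rw [one_div_div]
  simp_rw [h1]
  rw [tsum_mul_left, hP, h3]
  simp_rw [h2]
  rw [tsum_mul_left]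
  have h5 : Complex.exp (-(A : ℂ) * α ^ 2 + 2 * Complex.I * φ) *
      Complex.exp ((A : ℂ) * α ^ 2 - 2 * Complex.I * φ) = 1 := by
    rw [← Complex.exp_add]
    have : -(A : ℂ) * α ^ 2 + 2 * Complex.I * φ + ((A : ℂ) * α ^ 2 - 2 * Complex.I * φ) = 0 := by
      ring
    rw [this, Complex.exp_zero]
  linear_combination (((Real.sqrt (Real.pi / A) : ℝ) : ℂ) * ∑' m : ℤ,
        Complex.exp (((-(Real.pi * m - θ) ^ 2 / A : ℝ) : ℂ) +
          2 * Complex.I * ((α * (Real.pi * m - θ) + φ : ℝ) : ℂ))) * h5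


section du
variable {E : Type*} [NormedAddCommGroup E] [InnerProductSpace ℝ E]

/-- `π` times the dual lattice -/
def du (Γ : AddSubgroup E) : AddSubgroup E where
  carrier := {y | y ∈ Submodule.span ℝ (Γ : Set E) ∧ ∀ x ∈ Γ, ∃ z : ℤ, inner ℝ x y = Real.pi * z}
  zero_mem' := ⟨Submodule.zero_mem _, fun x _ => ⟨0, by simp⟩⟩
  add_mem' := by
    rintro a b ⟨ha, ha'⟩ ⟨hb, hb'⟩
    refine ⟨Submodule.add_mem _ ha hb, fun x hx => ?_⟩
    obtain ⟨z, hz⟩ := ha' x hx
    obtain ⟨z', hz'⟩ := hb' x hx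
    exact ⟨z + z', by rw [inner_add_right, hz, hz']; push_cast; ring⟩
  neg_mem' := by
    rintro a ⟨ha, ha'⟩
    refine ⟨Submodule.neg_mem _ ha, fun x hx => ?_⟩
    obtain ⟨z, hz⟩ := ha' x hx
    exact ⟨-z, by rw [inner_neg_right, hz]; push_cast; ring⟩

theorem mem_du {Γ : AddSubgroup E} {y : E} : y ∈ du Γ ↔
    y ∈ Submodule.span ℝ (Γ : Set E) ∧ ∀ x ∈ Γ, ∃ z : ℤ, inner ℝ x y = Real.pi * z := Iff.rfl

variable [FiniteDimensional ℝ E]

/-- the orthogonal part of `v` -/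
noncomputable def ot (Γ : AddSubgroup E) (v : E) : E :=
  v - (Submodule.span ℝ (Γ : Set E)).starProjection v

theorem ot_inner {Γ : AddSubgroup E} (v : E) {y : E} (hy : y ∈ Submodule.span ℝ (Γ : Set E)) :
    inner ℝ y (ot Γ v) = 0 := by
  have h1 : ot Γ v ∈ (Submodule.span ℝ (Γ : Set E))ᗮ :=
    Submodule.sub_starProjection_mem_orthogonal v
  exact Submodule.inner_right_of_mem_orthogonal hy h1

theorem ot_inner' {Γ : AddSubgroup E} (v : E) {y : E} (hy : y ∈ Submodule.span ℝ (Γ : Set E)) :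
    inner ℝ (ot Γ v) y = 0 := by
  rw [real_inner_comm]; exact ot_inner v hy

theorem ot_dec (Γ : AddSubgroup E) (v : E) : ∃ v1 ∈ Submodule.span ℝ (Γ : Set E), v = v1 + ot Γ v :=
  ⟨(Submodule.span ℝ (Γ : Set E)).starProjection v, Submodule.starProjection_apply_mem _ _,
    by unfold ot; abel⟩

theorem ot_ne {Γ : AddSubgroup E} {v : E} (hv : v ∉ Submodule.span ℝ (Γ : Set E)) : ot Γ v ≠ 0 := by
  intro h0
  obtain ⟨v1, h1, h2⟩ := ot_dec Γ v
  rw [h0, add_zero] at h2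
  exact hv (h2 ▸ h1)

theorem ot_self (Γ : AddSubgroup E) (v : E) : inner ℝ v (ot Γ v) = ‖ot Γ v‖ ^ 2 := by
  obtain ⟨v1, h1, h2⟩ := ot_dec Γ v
  conv_lhs => rw [h2]
  have h3 : inner ℝ (v1 + ot Γ v) (ot Γ v) = ‖ot Γ v‖ ^ 2 := by
    rw [inner_add_left, ot_inner v h1, real_inner_self_eq_norm_sq, zero_add]
  have h4 : ot Γ (v1 + ot Γ v) = ot Γ v := by rw [← h2]
  rw [h4]; exact h3

theorem span_sup (Γ : AddSubgroup E) (v : E) :
    Submodule.span ℝ ((Γ ⊔ AddSubgroup.zmultiples v : AddSubgroup E) : Set E) =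
      Submodule.span ℝ (Γ : Set E) ⊔ Submodule.span ℝ {v} := by
  apply le_antisymm
  · rw [Submodule.span_le]
    intro x hx
    obtain ⟨a, ha, b, hb, rfl⟩ := AddSubgroup.mem_sup.1 hx
    obtain ⟨z, rfl⟩ := AddSubgroup.mem_zmultiples_iff.1 hb
    refine Submodule.add_mem_sup (Submodule.subset_span ha) ?_
    rw [← Int.cast_smul_eq_zsmul ℝ]
    exact Submodule.smul_mem _ _ (Submodule.mem_span_singleton_self v)
  · apply sup_le
    · exact Submodule.span_mono (fun x hx => AddSubgroup.mem_sup_left hx)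
    · rw [Submodule.span_singleton_le_iff_mem]
      exact Submodule.subset_span (AddSubgroup.mem_sup_right (AddSubgroup.mem_zmultiples v))

theorem mem_span_sup {Γ : AddSubgroup E} {v y : E}
    (hy : y ∈ Submodule.span ℝ ((Γ ⊔ AddSubgroup.zmultiples v : AddSubgroup E) : Set E)) :
    ∃ y1 ∈ Submodule.span ℝ (Γ : Set E), ∃ α : ℝ, y = y1 + α • ot Γ v := by
  rw [span_sup] at hy
  obtain ⟨a, ha, b, hb, rfl⟩ := Submodule.mem_sup.1 hy
  obtain ⟨α, rfl⟩ := Submodule.mem_span_singleton.1 hb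
  obtain ⟨v1, h1, h2⟩ := ot_dec Γ v
  refine ⟨a + α • v1, Submodule.add_mem _ ha (Submodule.smul_mem _ _ h1), α, ?_⟩
  rw [add_assoc, ← smul_add, ← h2]

theorem ot_mem {Γ : AddSubgroup E} (v : E) :
    ot Γ v ∈ Submodule.span ℝ ((Γ ⊔ AddSubgroup.zmultiples v : AddSubgroup E) : Set E) := by
  rw [span_sup]
  obtain ⟨v1, h1, h2⟩ := ot_dec Γ v
  have h3 : ot Γ v = -v1 + v := by
    have : v - v1 = ot Γ v := by
      rw [sub_eq_iff_eq_add]; rw [add_comm]; exact h2
    rw [← this]; abel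
  rw [h3]
  exact Submodule.add_mem_sup (Submodule.neg_mem _ h1) (Submodule.mem_span_singleton_self v)

/-- norm of `y1 + a u` -/
theorem ot_norm {Γ : AddSubgroup E} (v : E) {y : E} (hy : y ∈ Submodule.span ℝ (Γ : Set E)) (a : ℝ) :
    ‖y + a • ot Γ v‖ ^ 2 = ‖y‖ ^ 2 + a ^ 2 * ‖ot Γ v‖ ^ 2 := by
  rw [norm_add_sq_real, inner_smul_right, ot_inner v hy, norm_smul, Real.norm_eq_abs, mul_pow,
    sq_abs]
  ring

theorem sup_equiv {Γ : AddSubgroup E} {x : E} (hx : x ∉ Submodule.span ℝ (Γ : Set E)) :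
    ∃ e : ℤ × Γ ≃ (Γ ⊔ AddSubgroup.zmultiples x : AddSubgroup E),
      ∀ p, ((e p : (Γ ⊔ AddSubgroup.zmultiples x : AddSubgroup E)) : E) = (p.2 : E) + p.1 • x := by
  have hmem : ∀ (z : ℤ) (g : Γ), (g : E) + z • x ∈ Γ ⊔ AddSubgroup.zmultiples x := fun z g =>
    AddSubgroup.add_mem_sup g.2 ⟨z, rfl⟩
  set e : ℤ × Γ → (Γ ⊔ AddSubgroup.zmultiples x : AddSubgroup E) :=
    fun p => ⟨(p.2 : E) + p.1 • x, hmem p.1 p.2⟩ with he
  have hinj : Function.Injective e := by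
    rintro ⟨z, g⟩ ⟨z', g'⟩ hzg
    have h1 : (g : E) + z • x = (g' : E) + z' • x :=
      congrArg (fun y : (Γ ⊔ AddSubgroup.zmultiples x : AddSubgroup E) => (y : E)) hzg
    have hzz : z = z' := by
      by_contra hne
      apply hx
      have hne' : ((z : ℝ) - z') ≠ 0 := by
        rw [sub_ne_zero]; exact_mod_cast hne
      have h2 : ((z : ℝ) - z') • x = (g' : E) - g := by
        rw [sub_smul, Int.cast_smul_eq_zsmul, Int.cast_smul_eq_zsmul]
        rw [sub_eq_sub_iff_add_eq_add, add_comm, h1, add_comm]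
      have h3 : x = ((z : ℝ) - z')⁻¹ • ((g' : E) - g) := by
        rw [← h2, smul_smul, inv_mul_cancel₀ hne', one_smul]
      rw [h3]
      exact Submodule.smul_mem _ _ (Submodule.sub_mem _ (Submodule.subset_span g'.2)
        (Submodule.subset_span g.2))
    subst hzz
    have h4 : (g : E) = (g' : E) := add_right_cancel h1
    rw [Subtype.ext h4]
  have hsur : Function.Surjective e := by
    rintro ⟨y, hy⟩
    obtain ⟨a, ha, b, hb, hab⟩ := AddSubgroup.mem_sup.1 hy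
    obtain ⟨z, hz⟩ := AddSubgroup.mem_zmultiples_iff.1 hb
    refine ⟨(z, ⟨a, ha⟩), ?_⟩
    apply Subtype.ext
    show a + z • x = y
    rw [hz, hab]
  exact ⟨Equiv.ofBijective e ⟨hinj, hsur⟩, fun p => rfl⟩

/-- coefficient of the lift of a dual vector -/
noncomputable def cf (Γ : AddSubgroup E) (v : E) (m : ℤ) (η : E) : ℝ :=
  (Real.pi * m - inner ℝ η v) / ‖ot Γ v‖ ^ 2

theorem du_equiv {Γ : AddSubgroup E} {v : E} (hv : v ∉ Submodule.span ℝ (Γ : Set E)) :
    ∃ e : ℤ × du Γ ≃ du (Γ ⊔ AddSubgroup.zmultiples v),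
      ∀ p, ((e p : du (Γ ⊔ AddSubgroup.zmultiples v)) : E) =
        (p.2 : E) + cf Γ v p.1 p.2 • ot Γ v := by
  set u := ot Γ v with hu
  have hu0 : u ≠ 0 := ot_ne hv
  have hun : ‖u‖ ^ 2 ≠ 0 := by
    have := norm_pos_iff.2 hu0
    positivity
  have hspan1 : Submodule.span ℝ (Γ : Set E) ≤
      Submodule.span ℝ ((Γ ⊔ AddSubgroup.zmultiples v : AddSubgroup E) : Set E) := by
    rw [span_sup]; exact le_sup_left
  have hin : ∀ (m : ℤ) (η : E), η ∈ du Γ → inner ℝ v (η + cf Γ v m η • u) = Real.pi * m := by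
    intro m η hη
    rw [inner_add_right, inner_smul_right, hu, ot_self, ← hu, cf, ← hu, div_mul_cancel₀ _ hun,
      real_inner_comm]
    ring
  have hmem : ∀ (m : ℤ) (η : du Γ), (η : E) + cf Γ v m η • u ∈ du (Γ ⊔ AddSubgroup.zmultiples v) := by
    intro m η
    refine ⟨Submodule.add_mem _ (hspan1 η.2.1) (Submodule.smul_mem _ _ (ot_mem v)), ?_⟩
    intro x hx
    obtain ⟨a, ha, b, hb, rfl⟩ := AddSubgroup.mem_sup.1 hx
    obtain ⟨z, rfl⟩ := AddSubgroup.mem_zmultiples_iff.1 hb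
    obtain ⟨z', hz'⟩ := η.2.2 a ha
    refine ⟨z' + z * m, ?_⟩
    rw [inner_add_left, ← Int.cast_smul_eq_zsmul ℝ, inner_smul_left, hin m η η.2, inner_add_right,
      inner_smul_right, hz', hu, ot_inner v (Submodule.subset_span ha)]
    simp
    ring
  set e : ℤ × du Γ → du (Γ ⊔ AddSubgroup.zmultiples v) :=
    fun p => ⟨(p.2 : E) + cf Γ v p.1 p.2 • u, hmem p.1 p.2⟩ with he
  have hinj : Function.Injective e := by
    rintro ⟨m, η⟩ ⟨m', η'⟩ hh
    have h1 : (η : E) + cf Γ v m η • u = (η' : E) + cf Γ v m' η' • u :=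
      congrArg (fun y : du (Γ ⊔ AddSubgroup.zmultiples v) => (y : E)) hh
    have h2 : (m : ℝ) = m' := by
      have h3 := hin m η η.2
      rw [h1, hin m' η' η'.2] at h3
      exact (mul_left_cancel₀ Real.pi_pos.ne' h3).symm
    have h2' : m = m' := by exact_mod_cast h2
    subst h2'
    have h4 : (η : E) - η' ∈ Submodule.span ℝ (Γ : Set E) := Submodule.sub_mem _ η.2.1 η'.2.1
    have h5 : (η : E) - η' = (cf Γ v m η' - cf Γ v m η) • u := by
      rw [sub_smul, sub_eq_sub_iff_add_eq_add, h1, add_comm]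
    have h6 : (η : E) - η' = 0 := by
      rw [← inner_self_eq_zero (𝕜 := ℝ)]
      conv_lhs => rw [h5]
      rw [← h5]
      conv_lhs => rw [h5]
      rw [inner_smul_right, inner_smul_left, hu]
      have h7 : inner ℝ ((η : E) - η') (ot Γ v) = 0 := ot_inner v h4
      rw [h5, inner_smul_left, hu] at h7
      simp only [conj_trivial] at h7 ⊢
      rw [h7, mul_zero]
    have h8 : (η : E) = η' := sub_eq_zero.1 h6
    rw [Subtype.ext h8]
  have hsur : Function.Surjective e := by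
    rintro ⟨y, hy⟩
    obtain ⟨y1, hy1, α, hα⟩ := mem_span_sup hy.1
    have hη : y1 ∈ du Γ := by
      refine ⟨hy1, fun x hx => ?_⟩
      obtain ⟨z, hz⟩ := hy.2 x (AddSubgroup.mem_sup_left hx)
      refine ⟨z, ?_⟩
      rw [← hz, hα, inner_add_right, inner_smul_right, ot_inner v (Submodule.subset_span hx)]
      ring
    obtain ⟨m, hm⟩ := hy.2 v (AddSubgroup.mem_sup_right (AddSubgroup.mem_zmultiples v))
    refine ⟨(m, ⟨y1, hη⟩), ?_⟩
    apply Subtype.ext
    show y1 + cf Γ v m y1 • u = y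
    rw [hα, ← hu]
    congr 2
    rw [cf, ← hm, hα, inner_add_right, inner_smul_right, ot_self, ← hu, real_inner_comm]
    field_simp
    ring
  exact ⟨Equiv.ofBijective e ⟨hinj, hsur⟩, fun p => rfl⟩

end du

end T9h11.RM
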