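import Pool.Agent.T9h11.RMP
import Pool.Agent.T9h11.RMA

set_option autoImplicit false
set_option linter.unusedSectionVars false
set_option linter.unusedVariables false

/-! Reverse Minkowski theorem with exponential loss. -/

namespace T9h11.RM

open H460

variable {E : Type*} [NormedAddCommGroup E] [InnerProductSpace ℝ E] [FiniteDimensional ℝ E]

/-- `quo Γ U` for `U` spanned by a part of `Γ` cut out by a subspace -/
theorem cut_sat {Γ : AddSubgroup E} (V : Submodule ℝ E) :
    Submodule.span ℝ (cut Γ V : Set E) ≤ V ∧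
    cut Γ (Submodule.span ℝ (cut Γ V : Set E)) = cut Γ V ∧
    Sat Γ (Submodule.span ℝ (cut Γ V : Set E)) := by
  have h1 : Submodule.span ℝ (cut Γ V : Set E) ≤ V := by
    rw [Submodule.span_le]
    intro x hx
    exact hx.2
  have h2 : cut Γ (Submodule.span ℝ (cut Γ V : Set E)) = cut Γ V := by
    apply le_antisymm
    · intro x hx
      exact ⟨hx.1, h1 hx.2⟩
    · intro x hx
      exact ⟨hx.1, Submodule.subset_span hx⟩
  refine ⟨h1, h2, ?_⟩
  unfold Sat
  rw [h2]

theorem rk_cut_step {Γ : AddSubgroup E} (h : Disc Γ) (l : E →ₗ[ℝ] ℝ)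
    (hint : ∀ x ∈ Γ, ∃ z : ℤ, l x = z) : rk Γ ≤ rk (cut Γ (LinearMap.ker l)) + 1 := by
  obtain ⟨hUker, hcutU, hSat⟩ := cut_sat (Γ := Γ) (LinearMap.ker l)
  set Γ0 := cut Γ (LinearMap.ker l) with hΓ0
  set U : Submodule ℝ E := Submodule.span ℝ (Γ0 : Set E) with hUdef
  have hrk := rk_quo h hSat
  rw [hcutU] at hrk
  have hproj : ∀ x : E, l (QuoA_p U x) = l x := by
    intro x
    have h2 : l (x - QuoA_p U x) = 0 := hUker (QuoA_sub_mem U x)
    rw [map_sub, sub_eq_zero] at h2
    exact h2.symm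
  have hintQ : ∀ y ∈ quo Γ U, ∃ z : ℤ, l y = z := by
    intro y hy
    obtain ⟨x, hx, rfl⟩ := QuoA_mem.1 hy
    obtain ⟨z, hz⟩ := hint x hx
    exact ⟨z, by rw [hproj, hz]⟩
  have hinjQ : ∀ y ∈ quo Γ U, l y = 0 → y = 0 := by
    intro y hy hy0
    obtain ⟨x, hx, rfl⟩ := QuoA_mem.1 hy
    rw [hproj] at hy0
    exact QuoA_p_eq_zero.2 (Submodule.subset_span (show x ∈ Γ0 from ⟨hx, hy0⟩))
  obtain ⟨y, hyQ, hyc⟩ := WQ_cyclic l hintQ hinjQ
  by_cases hy0 : y = 0
  · have hbot : quo Γ U = ⊥ := by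
      rw [hyc, hy0]; simp
    rw [hbot, rk_bot, add_zero] at hrk
    omega
  · have hrk1 := (WB_line_disc hy0).2
    rw [← hyc] at hrk1
    omega

/-- the rank is at most the number of separating integral functionals -/
theorem rk_le_of_int {Γ : AddSubgroup E} (h : Disc Γ) {ι : Type*} [Fintype ι]
    (l : ι → (E →ₗ[ℝ] ℝ)) (hint : ∀ i, ∀ x ∈ Γ, ∃ z : ℤ, l i x = z)
    (hsep : ∀ x ∈ Γ, (∀ i, l i x = 0) → x = 0) : rk Γ ≤ Fintype.card ι := by
  classical
  have main : ∀ s : Finset ι, ∀ Γ : AddSubgroup E, Disc Γ →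
      (∀ i, ∀ x ∈ Γ, ∃ z : ℤ, l i x = z) → (∀ x ∈ Γ, (∀ i ∈ s, l i x = 0) → x = 0) →
      rk Γ ≤ s.card := by
    intro s
    induction s using Finset.induction_on with
    | empty =>
      intro Γ hΓ _ hs
      have hbot : Γ = ⊥ := by
        rw [eq_bot_iff]
        intro x hx
        exact hs x hx (by simp)
      rw [hbot, rk_bot]
      exact Nat.zero_le _
    | insert i s hi ih =>
      intro Γ hΓ hintΓ hs
      have h1 := rk_cut_step hΓ (l i) (hintΓ i)
      have h3 := ih (cut Γ (LinearMap.ker (l i))) (hΓ.mono inf_le_left)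
        (fun j x hx => hintΓ j x hx.1) (by
          intro x hx hz
          apply hs x hx.1
          intro j hj
          rcases Finset.mem_insert.mp hj with rfl | hj
          · exact hx.2
          · exact hz j hj)
      rw [Finset.card_insert_of_notMem hi]
      omega
  exact main Finset.univ Γ h hint (fun x hx hz => hsep x hx (fun i => hz i (Finset.mem_univ i)))

/-- sublattices of the dual lattice -/
theorem w_sub_du {Γ : AddSubgroup E} (h : Disc Γ) {B : ℝ} (hB : ∀ M : AddSubgroup E, M ≤ Γ → w M ≤ B)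
    {N : AddSubgroup E} (hN : N ≤ du Γ) : w N ≤ B / w Γ := by
  have hpi := Real.pi_pos
  obtain ⟨c, hc⟩ := exists_poi h
  have hdN : Disc N := hc.ddisc.mono hN
  obtain ⟨hUV, hcutU, hSat⟩ := cut_sat (Γ := Γ) (Submodule.span ℝ (N : Set E))ᗮ
  set V : Submodule ℝ E := Submodule.span ℝ (N : Set E) with hV
  set K := cut Γ Vᗮ with hK
  set U : Submodule ℝ E := Submodule.span ℝ (K : Set E) with hU
  have hdQ := disc_quo h hSat
  have hw := w_quo h hSat
  obtain ⟨c', hc'⟩ := exists_poi hdQ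
  have hNU : ∀ y ∈ V, y ∈ Uᗮ := by
    intro y hy
    rw [Submodule.mem_orthogonal]
    intro u hu
    have h1 := hUV hu
    rw [Submodule.mem_orthogonal] at h1
    rw [real_inner_comm]
    exact h1 y hy
  have hpy : ∀ y ∈ V, ∀ x, inner ℝ (QuoA_p U x) y = inner ℝ x y := by
    intro y hy x
    have h1 : inner ℝ (x - QuoA_p U x) y = 0 :=
      (Submodule.mem_orthogonal _ _).1 (hNU y hy) _ (QuoA_sub_mem U x)
    rw [inner_sub_left, sub_eq_zero] at h1
    exact h1.symm
  have hq : Submodule.span ℝ (quo Γ U : Set E) =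
      (Submodule.span ℝ (Γ : Set E)).map (QuoA_p U) := by
    rw [Submodule.map_span]
    rfl
  have hNQ : N ≤ du (quo Γ U) := by
    intro y hy
    have hyV : y ∈ V := Submodule.subset_span hy
    have hyd := hN hy
    refine ⟨?_, ?_⟩
    · have h1 : QuoA_p U y = y := by
        have h2 : y - QuoA_p U y = 0 := by
          have h3 := QuoA_sub_mem U y
          have h4 : y - QuoA_p U y ∈ Uᗮ := Submodule.sub_mem _ (hNU y hyV) (QuoA_p_mem U y)
          rw [← inner_self_eq_zero (𝕜 := ℝ)]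
          exact (Submodule.mem_orthogonal _ _).1 h4 _ h3
        exact (sub_eq_zero.1 h2).symm
      rw [hq, ← h1]
      exact Submodule.mem_map_of_mem hyd.1
    · intro x hx
      obtain ⟨x', hx', rfl⟩ := QuoA_mem.1 hx
      rw [hpy y hyV]
      exact hyd.2 x' hx'
  have hrkQ : rk (quo Γ U) ≤ rk N := by
    obtain ⟨b, hb, hcl⟩ := hdN.exists_basis
    have hbN : ∀ i, b i ∈ N := fun i => hcl ▸ AddSubgroup.subset_closure ⟨i, rfl⟩
    have h1 := rk_le_of_int hdQ (ι := Fin (rk N))
      (fun i => ((Real.pi)⁻¹ • (innerₛₗ ℝ (b i)) : E →ₗ[ℝ] ℝ)) ?_ ?_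
    · simpa using h1
    · intro i x hx
      obtain ⟨z, hz⟩ := (hNQ (hbN i)).2 x hx
      refine ⟨z, ?_⟩
      simp only [LinearMap.smul_apply, innerₛₗ_apply_apply, smul_eq_mul]
      rw [real_inner_comm, hz, ← mul_assoc, inv_mul_cancel₀ hpi.ne', one_mul]
    · intro x hx hx0
      obtain ⟨x', hx', rfl⟩ := QuoA_mem.1 hx
      rw [QuoA_p_eq_zero]
      apply Submodule.subset_span
      refine ⟨hx', ?_⟩
      show x' ∈ Vᗮ
      rw [hV, ← hcl, LatA_span_closure]
      rw [Submodule.mem_orthogonal]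
      intro u hu
      refine Submodule.span_induction (p := fun u _ => inner ℝ u x' = 0) ?_ ?_ ?_ ?_ hu
      · rintro _ ⟨i, rfl⟩
        have h2 := hx0 i
        simp only [LinearMap.smul_apply, innerₛₗ_apply_apply, smul_eq_mul] at h2
        rcases mul_eq_zero.1 h2 with h3 | h3
        · exact absurd h3 (inv_ne_zero hpi.ne')
        · rw [real_inner_comm, hpy _ (Submodule.subset_span (hbN i))] at h3
          rw [real_inner_comm]; exact h3
      · simp
      · intro a b _ _ ha hb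
        rw [inner_add_left, ha, hb, add_zero]
      · intro a b _ hb
        rw [inner_smul_left, hb, mul_zero]
  have hrk : rk N = rk (du (quo Γ U)) := by
    apply le_antisymm (rk_mono hNQ)
    rw [hc'.rk_du]; exact hrkQ
  have h1 := w_mono hc'.ddisc hNQ hrk
  rw [hc'.w_du] at h1
  have hwΓ := w_pos h
  have hwQ := w_pos hdQ
  have h2 : 1 / w (quo Γ U) = w (cut Γ U) / w Γ := by
    rw [hw]
    have hwK : 0 < w (cut Γ U) := w_pos (h.mono inf_le_left)
    field_simp
  rw [h2] at h1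
  refine h1.trans (div_le_div_of_nonneg_right ?_ hwΓ.le)
  exact hB _ inf_le_left

/-- **Reverse Minkowski theorem with exponential loss** -/
theorem rm_exp (n : ℕ) : ∀ Γ : AddSubgroup E, Disc Γ → rk Γ = n → ∀ B : ℝ,
    (∀ M : AddSubgroup E, M ≤ Γ → w M ≤ B) → Real.log (th Γ 0 1) ≤ 260 * n + Real.log B := by
  induction n using Nat.strong_induction_on with
  | _ n ih =>
  intro Γ h hrk B hB
  have hB1 : 1 ≤ B := by
    have := hB ⊥ bot_le
    rwa [w_bot] at this
  rcases Nat.eq_zero_or_pos n with hn | hn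
  · subst hn
    rw [rk_eq_zero.1 hrk, th_bot, Real.log_one]
    have := Real.log_nonneg hB1
    simpa using this
  have hn1 : (1 : ℝ) ≤ n := by exact_mod_cast hn
  have hl2 : 0 < Real.log 2 := Real.log_pos one_lt_two
  have hl2' := Real.log_two_lt_d9
  obtain ⟨c, hc⟩ := exists_poi h
  have hw := w_pos h
  have hcw := hc.eq_w
  subst hcw
  have e1 := hc.real one_pos
  have e2 := hc.real two_pos
  rw [Real.sqrt_one, one_pow, mul_one, one_div_one] at e1
  rw [hrk] at e2
  have p1 := th_pos h 0 one_pos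
  have p2 := th_pos h 0 two_pos
  have q1 := th_pos hc.ddisc 0 one_pos
  have q2 := th_pos hc.ddisc 0 (t := 1 / 2) (by norm_num)
  have l1 : Real.log (th Γ 0 1) = Real.log (w Γ) + Real.log (th (du Γ) 0 1) := by
    rw [e1, Real.log_mul hw.ne' q1.ne']
  have l2 : Real.log (th Γ 0 2) + n * (Real.log 2 / 2) =
      Real.log (w Γ) + Real.log (th (du Γ) 0 (1 / 2)) := by
    rw [← Real.log_mul hw.ne' q2.ne', ← e2, Real.log_mul p2.ne' (by positivity), Real.log_pow,
      Real.log_sqrt (by norm_num)]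
  rcases le_total (Real.log (th Γ 0 1) - Real.log (th Γ 0 2)) (n * (Real.log 2 / 4)) with hc1 | hc1
  · obtain ⟨M, hM, hM1, hM2⟩ := small_rank h two_pos (δ := Real.log 2 / 8) (by positivity)
    have e3 : (2 : ℝ) / 2 = 1 := by norm_num
    rw [e3] at hM1 hM2
    have hrM : (rk M : ℝ) ≤ 3 / 4 * n + 1 / 8 := by
      have : (rk M : ℝ) * Real.log 2 ≤ (3 / 4 * n + 1 / 8) * Real.log 2 := by nlinarith
      exact le_of_mul_le_mul_right this hl2
    have hlt : rk M < n := by
      have : (rk M : ℝ) < n := by linarith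
      exact_mod_cast this
    have hI := ih _ hlt M (h.mono hM) rfl B (fun M' hM' => hB M' (hM'.trans hM))
    have hmono : Real.log (th M 0 2) ≤ Real.log (th M 0 1) :=
      Real.log_le_log (th_pos (h.mono hM) 0 two_pos)
        (th_anti (h.mono hM) 0 one_pos (by norm_num))
    nlinarith
  · have hc2 : Real.log (th (du Γ) 0 (1 / 2)) - Real.log (th (du Γ) 0 1) ≤
        n * (Real.log 2 / 4) := by linarith
    obtain ⟨M, hM, hM1, hM2⟩ := small_rank hc.ddisc one_pos (δ := Real.log 2 / 8) (by positivity)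
    have hrM : (rk M : ℝ) ≤ 3 / 4 * n + 1 / 8 := by
      have : (rk M : ℝ) * Real.log 2 ≤ (3 / 4 * n + 1 / 8) * Real.log 2 := by nlinarith
      exact le_of_mul_le_mul_right this hl2
    have hlt : rk M < n := by
      have : (rk M : ℝ) < n := by linarith
      exact_mod_cast this
    have hI := ih _ hlt M (hc.ddisc.mono hM) rfl (B / w Γ)
      (fun M' hM' => w_sub_du h hB (hM'.trans hM))
    rw [Real.log_div (by positivity) hw.ne'] at hI
    nlinarith

theorem rm {Γ : AddSubgroup E} (h : Disc Γ) {B : ℝ}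
    (hB : ∀ M : AddSubgroup E, M ≤ Γ → w M ≤ B) : th Γ 0 1 ≤ Real.exp (260 * rk Γ) * B := by
  have hB1 : 1 ≤ B := by
    have := hB ⊥ bot_le
    rwa [w_bot] at this
  have h1 := rm_exp (rk Γ) Γ h rfl B hB
  rw [← Real.exp_log (th_pos h 0 one_pos), ← Real.exp_log (show 0 < B by linarith), ← Real.exp_add]
  exact Real.exp_le_exp.2 h1

end T9h11.RM
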