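import Pool.Agent.T9h11.RMB

set_option autoImplicit false
set_option linter.unusedSectionVars false
set_option linter.unusedVariables false

/-! Poisson summation formula for lattices. -/

namespace T9h11.RM

open H460

variable {E : Type*} [NormedAddCommGroup E] [InnerProductSpace ℝ E] [FiniteDimensional ℝ E]

/-- Poisson summation for `Γ` with constant `c` -/
structure Poi (Γ : AddSubgroup E) (c : ℝ) : Prop where
  disc : Disc Γ
  ddisc : Disc (du Γ)
  span : Submodule.span ℝ (du Γ : Set E) = Submodule.span ℝ (Γ : Set E)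
  pos : 0 < c
  form : ∀ s : ℝ, 0 < s → ∀ y ∈ Submodule.span ℝ (Γ : Set E),
    ((th Γ y s : ℝ) : ℂ) * ((Real.sqrt s ^ rk Γ : ℝ) : ℂ) =
      (c : ℂ) * ∑' η : du Γ, Complex.exp (((-‖(η : E)‖ ^ 2 / s : ℝ) : ℂ) +
        2 * Complex.I * ((inner ℝ (η : E) y : ℝ) : ℂ))

theorem poi_bot : Poi (⊥ : AddSubgroup E) 1 := by
  have hsp : Submodule.span ℝ ((⊥ : AddSubgroup E) : Set E) = ⊥ := by simp
  have hdu : du (⊥ : AddSubgroup E) = ⊥ := by
    rw [eq_bot_iff]
    intro y hy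
    have := hy.1
    rw [hsp] at this
    simpa using this
  refine ⟨disc_bot, by rw [hdu]; exact disc_bot, by rw [hdu], one_pos, ?_⟩
  intro s hs y hy
  rw [hsp] at hy
  have hy0 : y = 0 := by simpa using hy
  subst hy0
  rw [th_bot, rk_bot, hdu]
  have : ∀ η : (⊥ : AddSubgroup E), Complex.exp (((-‖(η : E)‖ ^ 2 / s : ℝ) : ℂ) +
        2 * Complex.I * ((inner ℝ (η : E) 0 : ℝ) : ℂ)) = 1 := by
    intro η
    have h0 : (η : E) = 0 := AddSubgroup.mem_bot.1 η.2
    rw [h0]; simp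
  simp_rw [this]
  simp

theorem cf_norm {Γ : AddSubgroup E} {v : E} (hv : v ∉ Submodule.span ℝ (Γ : Set E))
    (m : ℤ) {η : E} (hη : η ∈ du Γ) :
    ‖η + cf Γ v m η • ot Γ v‖ ^ 2 = ‖η‖ ^ 2 + (Real.pi * m - inner ℝ η v) ^ 2 / ‖ot Γ v‖ ^ 2 := by
  have hun : ‖ot Γ v‖ ≠ 0 := norm_ne_zero_iff.2 (ot_ne hv)
  rw [ot_norm v hη.1, cf]
  field_simp

theorem ddisc_sup {Γ : AddSubgroup E} (h : Disc (du Γ)) {v : E}
    (hv : v ∉ Submodule.span ℝ (Γ : Set E)) : Disc (du (Γ ⊔ AddSubgroup.zmultiples v)) := by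
  obtain ⟨e, he⟩ := du_equiv hv
  have hu : 0 < ‖ot Γ v‖ := norm_pos_iff.2 (ot_ne hv)
  intro R
  set F : Set E := {x : E | x ∈ du Γ ∧ ‖x‖ ≤ R} with hF
  have hFf : F.Finite := h R
  obtain ⟨N, hN⟩ := exists_nat_gt ((R * ‖ot Γ v‖ + R * ‖v‖) / Real.pi)
  have hfin : (Set.image2 (fun (m : ℤ) (η : E) => η + cf Γ v m η • ot Γ v)
      (Set.Icc (-(N : ℤ)) N) F).Finite := Set.Finite.image2 _ (Set.finite_Icc _ _) hFf
  refine hfin.subset ?_
  rintro y ⟨hy, hyR⟩
  obtain ⟨⟨m, η⟩, hme⟩ := e.surjective ⟨y, hy⟩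
  have h1 : y = (η : E) + cf Γ v m η • ot Γ v := by
    rw [← he (m, η), hme]
  have hR : 0 ≤ R := (norm_nonneg y).trans hyR
  have h2 : ‖y‖ ^ 2 = ‖(η : E)‖ ^ 2 + (Real.pi * m - inner ℝ (η : E) v) ^ 2 / ‖ot Γ v‖ ^ 2 := by
    rw [h1]; exact cf_norm hv m η.2
  have h3 : ‖y‖ ^ 2 ≤ R ^ 2 := by gcongr
  have h4 : ‖(η : E)‖ ≤ R := by
    apply le_of_sq_le_sq _ hR
    have : 0 ≤ (Real.pi * m - inner ℝ (η : E) v) ^ 2 / ‖ot Γ v‖ ^ 2 := by positivity
    linarith
  have h5 : |Real.pi * m - inner ℝ (η : E) v| ≤ R * ‖ot Γ v‖ := by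
    apply abs_le_of_sq_le_sq _ (by positivity)
    have h6 : (Real.pi * m - inner ℝ (η : E) v) ^ 2 / ‖ot Γ v‖ ^ 2 ≤ R ^ 2 := by
      have : 0 ≤ ‖(η : E)‖ ^ 2 := by positivity
      linarith
    rw [div_le_iff₀ (by positivity)] at h6
    rw [mul_pow]; exact h6
  have h7 : |inner ℝ (η : E) v| ≤ R * ‖v‖ :=
    (abs_real_inner_le_norm _ _).trans (mul_le_mul_of_nonneg_right h4 (norm_nonneg _))
  have h8 : |(m : ℝ)| < N := by
    refine lt_of_le_of_lt ?_ hN
    rw [le_div_iff₀ Real.pi_pos]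
    have h9 : |(m : ℝ)| * Real.pi = |(Real.pi * m - inner ℝ (η : E) v) + inner ℝ (η : E) v| := by
      rw [sub_add_cancel, abs_mul, abs_of_pos Real.pi_pos, mul_comm]
    rw [h9]
    exact (abs_add_le _ _).trans (add_le_add h5 h7)
  refine ⟨m, ?_, η, ⟨η.2, h4⟩, h1.symm⟩
  rw [abs_lt] at h8
  constructor
  · have : (-(N : ℤ) : ℝ) < m := by push_cast; exact h8.1
    exact_mod_cast this.le
  · exact_mod_cast h8.2.le

theorem du_span_sup {Γ : AddSubgroup E}
    (h : Submodule.span ℝ (du Γ : Set E) = Submodule.span ℝ (Γ : Set E)) {v : E}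
    (hv : v ∉ Submodule.span ℝ (Γ : Set E)) :
    Submodule.span ℝ (du (Γ ⊔ AddSubgroup.zmultiples v) : Set E) =
      Submodule.span ℝ ((Γ ⊔ AddSubgroup.zmultiples v : AddSubgroup E) : Set E) := by
  obtain ⟨e, he⟩ := du_equiv hv
  have hu : 0 < ‖ot Γ v‖ := norm_pos_iff.2 (ot_ne hv)
  apply le_antisymm
  · rw [Submodule.span_le]
    intro y hy
    exact hy.1
  · have hu1 : ot Γ v ∈ Submodule.span ℝ (du (Γ ⊔ AddSubgroup.zmultiples v) : Set E) := by
      have h1 := he (1, 0)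
      have h2 : cf Γ v 1 ((0 : du Γ) : E) = Real.pi / ‖ot Γ v‖ ^ 2 := by
        simp [cf]
      simp only [ZeroMemClass.coe_zero, zero_add] at h1 h2
      rw [h2] at h1
      have h3 : ot Γ v = (‖ot Γ v‖ ^ 2 / Real.pi) • ((e (1, 0) : du _) : E) := by
        rw [h1, smul_smul]
        have : ‖ot Γ v‖ ^ 2 / Real.pi * (Real.pi / ‖ot Γ v‖ ^ 2) = 1 := by
          have := Real.pi_pos
          field_simp
        rw [this, one_smul]
      rw [h3]
      exact Submodule.smul_mem _ _ (Submodule.subset_span (e (1, 0)).2)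
    have h4 : Submodule.span ℝ (Γ : Set E) ≤
        Submodule.span ℝ (du (Γ ⊔ AddSubgroup.zmultiples v) : Set E) := by
      rw [← h, Submodule.span_le]
      intro η hη
      have h1 := he (0, ⟨η, hη⟩)
      have h2 : η = ((e (0, ⟨η, hη⟩) : du _) : E) - cf Γ v 0 η • ot Γ v := by
        rw [h1]; simp
      rw [SetLike.mem_coe, h2]
      exact Submodule.sub_mem _ (Submodule.subset_span (e _).2) (Submodule.smul_mem _ _ hu1)
    rw [span_sup]
    refine sup_le h4 ?_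
    rw [Submodule.span_singleton_le_iff_mem]
    obtain ⟨v1, h5, h6⟩ := ot_dec Γ v
    have h8 : v1 + ot Γ v ∈ Submodule.span ℝ (du (Γ ⊔ AddSubgroup.zmultiples v) : Set E) :=
      Submodule.add_mem _ (h4 h5) hu1
    exact Set.mem_of_eq_of_mem h6 h8

theorem cexp_norm (a b : ℝ) : ‖Complex.exp ((a : ℂ) + 2 * Complex.I * (b : ℂ))‖ = Real.exp a := by
  rw [Complex.norm_exp]
  congr 1
  simp

theorem du_summable {Γ : AddSubgroup E} (h : Disc (du Γ)) {s : ℝ} (hs : 0 < s) (f : du Γ → ℝ) :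
    Summable fun η : du Γ => Complex.exp (((-‖(η : E)‖ ^ 2 / s : ℝ) : ℂ) +
        2 * Complex.I * ((f η : ℝ) : ℂ)) := by
  have h1 := th_summable h 0 (one_div_pos.2 hs)
  refine Summable.of_norm ?_
  refine h1.congr fun η => ?_
  rw [cexp_norm, add_zero]
  congr 1
  ring

theorem poi_step {Γ : AddSubgroup E} {c : ℝ} (h : Poi Γ c) {v : E}
    (hv : v ∉ Submodule.span ℝ (Γ : Set E)) :
    Poi (Γ ⊔ AddSubgroup.zmultiples v) (c * (Real.sqrt Real.pi / ‖ot Γ v‖)) := by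
  have hu : 0 < ‖ot Γ v‖ := norm_pos_iff.2 (ot_ne hv)
  have hpi := Real.pi_pos
  obtain ⟨hdisc, hrk⟩ := disc_sup h.disc hv
  have hdd := ddisc_sup h.ddisc hv
  refine ⟨hdisc, hdd, du_span_sup h.span hv, ?_, ?_⟩
  · have := h.pos
    positivity
  intro s hs y hy
  obtain ⟨y1, hy1, α, hα⟩ := mem_span_sup hy
  obtain ⟨v1, hv1, hvv⟩ := ot_dec Γ v
  obtain ⟨e, he⟩ := sup_equiv hv
  obtain ⟨e', he'⟩ := du_equiv hv
  set u := ot Γ v with hudef
  set A : ℝ := s * ‖u‖ ^ 2 with hA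
  have hA0 : 0 < A := by positivity
  -- the left side
  have hzy : ∀ z : ℤ, z • v1 + y1 ∈ Submodule.span ℝ (Γ : Set E) := fun z =>
    Submodule.add_mem _ (zsmul_mem hv1 z) hy1
  have hne : ∀ p : ℤ × Γ, Real.exp (-s * ‖((e p : (Γ ⊔ AddSubgroup.zmultiples v : AddSubgroup E)) : E)
      + y‖ ^ 2) =
      Real.exp (-s * ‖(p.2 : E) + (p.1 • v1 + y1)‖ ^ 2) * Real.exp (-A * ((p.1 : ℝ) + α) ^ 2) := by
    intro p
    rw [he p, ← Real.exp_add]
    congr 1
    have h2 : (p.2 : E) + p.1 • v + y = ((p.2 : E) + (p.1 • v1 + y1)) + ((p.1 : ℝ) + α) • u := by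
      rw [hα]
      conv_lhs => rw [hvv]
      rw [add_smul, Int.cast_smul_eq_zsmul, smul_add]
      abel
    rw [h2, hudef, ot_norm v, ← hudef, hA]
    · ring
    · exact Submodule.add_mem _ (Submodule.subset_span p.2.2) (hzy p.1)
  have hsum1 : Summable fun p : ℤ × Γ =>
      Real.exp (-s * ‖(p.2 : E) + (p.1 • v1 + y1)‖ ^ 2) * Real.exp (-A * ((p.1 : ℝ) + α) ^ 2) := by
    have h1 := (e.summable_iff.2 (th_summable hdisc y hs))
    refine h1.congr fun p => ?_
    simp only [Function.comp_apply]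
    exact hne p
  have hth : th (Γ ⊔ AddSubgroup.zmultiples v) y s =
      ∑' z : ℤ, th Γ (z • v1 + y1) s * Real.exp (-A * ((z : ℝ) + α) ^ 2) := by
    unfold th
    rw [← e.tsum_eq]
    simp_rw [hne]
    rw [hsum1.tsum_prod]
    refine tsum_congr fun z => ?_
    rw [← tsum_mul_right]
  -- the double sum
  set F : ℤ → du Γ → ℂ := fun z η => Complex.exp (((-‖(η : E)‖ ^ 2 / s : ℝ) : ℂ) +
      2 * Complex.I * ((inner ℝ (η : E) (z • v1 + y1) : ℝ) : ℂ)) *
      Complex.exp (((-A * ((z : ℝ) + α) ^ 2 : ℝ) : ℂ)) with hF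
  have hsA : Summable fun z : ℤ => Real.exp (-A * ((z : ℝ) + α) ^ 2) := by
    have h1 := th_summable (WB_line_disc (E := ℝ) (x := 1) one_ne_zero).1 α hA0
    set g : ℤ → AddSubgroup.zmultiples (1 : ℝ) := fun z => ⟨z • (1 : ℝ), ⟨z, rfl⟩⟩ with hg
    have hinj : Function.Injective g := by
      intro a b hab
      have h1 : a • (1 : ℝ) = b • (1 : ℝ) :=
        congrArg (fun y : AddSubgroup.zmultiples (1 : ℝ) => (y : ℝ)) hab
      simpa using h1
    refine (h1.comp_injective hinj).congr fun z => ?_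
    simp only [Function.comp_apply, hg, Real.norm_eq_abs, sq_abs, zsmul_eq_mul, mul_one]
  have hFs : Summable (Function.uncurry F) := by
    refine Summable.of_norm ?_
    have h1 := Summable.mul_of_nonneg hsA (th_summable h.ddisc 0 (one_div_pos.2 hs))
      (fun z => (Real.exp_pos _).le) (fun z => (Real.exp_pos _).le)
    refine h1.congr ?_
    rintro ⟨z, η⟩
    simp only [Function.uncurry, hF]
    rw [norm_mul, cexp_norm, Complex.norm_exp, Complex.ofReal_re, add_zero, mul_comm]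
    congr 2
    ring
  have e1 : ((th (Γ ⊔ AddSubgroup.zmultiples v) y s : ℝ) : ℂ) * ((Real.sqrt s ^ rk Γ : ℝ) : ℂ) =
      (c : ℂ) * ∑' z, ∑' η, F z η := by
    rw [hth, Complex.ofReal_tsum, ← tsum_mul_right, ← tsum_mul_left]
    refine tsum_congr fun z => ?_
    rw [hF]
    simp only
    rw [tsum_mul_right, ← mul_assoc, ← h.form s hs _ (hzy z)]
    push_cast
    ring
  have e2 : ∑' z, ∑' η, F z η = ∑' η, ∑' z, F z η := hFs.tsum_comm.symm
  set G : ℤ × du Γ → ℂ := fun p =>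
    Complex.exp (((-‖((e' p : du (Γ ⊔ AddSubgroup.zmultiples v)) : E)‖ ^ 2 / s : ℝ) : ℂ) +
      2 * Complex.I * ((inner ℝ ((e' p : du (Γ ⊔ AddSubgroup.zmultiples v)) : E) y : ℝ) : ℂ)) with hG
  have e3 : ∀ η : du Γ, ∑' z, F z η = ((Real.sqrt (Real.pi / A) : ℝ) : ℂ) * ∑' m : ℤ, G (m, η) := by
    intro η
    have hηv : inner ℝ (η : E) v = inner ℝ (η : E) v1 := by
      conv_lhs => rw [hvv]
      rw [inner_add_right, hudef, ot_inner v η.2.1, add_zero]
    have h1 : ∀ z : ℤ, F z η = Complex.exp (((-‖(η : E)‖ ^ 2 / s : ℝ) : ℂ)) *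
        Complex.exp (((-A * ((z : ℝ) + α) ^ 2 : ℝ) : ℂ) +
        2 * Complex.I * (((z : ℝ) * (inner ℝ (η : E) v) + inner ℝ (η : E) y1 : ℝ) : ℂ)) := by
      intro z
      simp only [hF]
      rw [← Complex.exp_add, ← Complex.exp_add, inner_add_right, ← Int.cast_smul_eq_zsmul ℝ,
        inner_smul_right, hηv]
      congr 1
      ring
    simp_rw [h1]
    rw [tsum_mul_left, pois1 hA0, ← mul_assoc, mul_comm (Complex.exp _), mul_assoc, ← tsum_mul_left]
    congr 1
    refine tsum_congr fun m => ?_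
    simp only [hG]
    rw [he', ← Complex.exp_add, hα]
    congr 1
    rw [hudef, cf_norm hv m η.2, ← hudef]
    have h2 : inner ℝ ((η : E) + cf Γ v m η • u) (y1 + α • u) =
        α * (Real.pi * m - inner ℝ (η : E) v) + inner ℝ (η : E) y1 := by
      rw [inner_add_left, inner_add_right, inner_add_right, inner_smul_right, inner_smul_left,
        inner_smul_left, inner_smul_right, hudef, ot_inner v η.2.1, ot_inner' v hy1,
        real_inner_self_eq_norm_sq, cf]
      simp only [conj_trivial]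
      have hune : ‖ot Γ v‖ ≠ 0 := by rw [← hudef]; exact hu.ne'
      field_simp
      ring
    rw [h2]
    have h3 : -(‖(η : E)‖ ^ 2 + (Real.pi * m - inner ℝ (η : E) v) ^ 2 / ‖u‖ ^ 2) / s =
        -‖(η : E)‖ ^ 2 / s + -(Real.pi * m - inner ℝ (η : E) v) ^ 2 / A := by
      rw [hA]; field_simp
      ring
    rw [h3]
    push_cast
    ring
  have hGs : Summable G := by
    have h1 := du_summable hdd hs (fun η => inner ℝ (η : E) y)
    exact e'.summable_iff.2 h1
  have e4 : ∑' η : du Γ, ∑' m : ℤ, G (m, η) = ∑' η : du (Γ ⊔ AddSubgroup.zmultiples v),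
      Complex.exp (((-‖(η : E)‖ ^ 2 / s : ℝ) : ℂ) +
        2 * Complex.I * ((inner ℝ (η : E) y : ℝ) : ℂ)) := by
    rw [← e'.tsum_eq]
    have h1 : Summable (Function.uncurry fun (m : ℤ) (η : du Γ) => G (m, η)) := hGs
    rw [h1.tsum_comm, ← hGs.tsum_prod]
  rw [hrk, pow_succ, Complex.ofReal_mul, ← mul_assoc, e1, e2]
  simp_rw [e3]
  rw [tsum_mul_left, e4]
  have h5 : Real.sqrt (Real.pi / A) * Real.sqrt s = Real.sqrt Real.pi / ‖u‖ := by
    rw [hA, Real.sqrt_div hpi.le, Real.sqrt_mul hs.le, Real.sqrt_sq hu.le]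
    have : 0 < Real.sqrt s := Real.sqrt_pos.2 hs
    field_simp
  rw [← h5]
  push_cast
  ring

/-- every lattice has a Poisson summation formula -/
theorem exists_poi {Γ : AddSubgroup E} (h : Disc Γ) : ∃ c, Poi Γ c := by
  obtain ⟨b, hb, hcl⟩ := h.exists_basis
  have main : ∀ k : ℕ, ∀ b : Fin k → E, LinearIndependent ℝ b →
      ∃ c, Poi (AddSubgroup.closure (Set.range b)) c := by
    intro k
    induction k with
    | zero =>
      intro b _
      have : Set.range b = ∅ := Set.range_eq_empty b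
      rw [this, AddSubgroup.closure_empty]
      exact ⟨1, poi_bot⟩
    | succ k ih =>
      intro b hb
      obtain ⟨c, hc⟩ := ih (Fin.tail b) (by
        exact hb.comp _ (Fin.succ_injective k))
      have hb' : LinearIndependent ℝ (Fin.cons (b 0) (Fin.tail b) : Fin (k + 1) → E) := by
        rwa [Fin.cons_self_tail]
      have hv := (linearIndependent_finCons.mp hb').2
      rw [← LatA_span_closure] at hv
      have hs := poi_step hc hv
      have heq : AddSubgroup.closure (Set.range b) =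
          AddSubgroup.closure (Set.range (Fin.tail b)) ⊔ AddSubgroup.zmultiples (b 0) := by
        conv_lhs => rw [← Fin.cons_self_tail b]
        rw [Fin.range_cons, Set.insert_eq, AddSubgroup.closure_union,
          ← AddSubgroup.zmultiples_eq_closure, sup_comm]
      rw [heq]
      exact ⟨_, hs⟩
  rw [← hcl]
  exact main _ b hb

theorem th_tendsto_one {Γ : AddSubgroup E} (h : Disc Γ) :
    Filter.Tendsto (fun j : ℕ => th Γ 0 ((4 : ℝ) ^ j)) Filter.atTop (nhds 1) := by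
  classical
  have h1 : ∑' x : Γ, (if x = 0 then (1 : ℝ) else 0) = 1 := tsum_ite_eq 0 (fun _ => (1 : ℝ))
  rw [← h1]
  unfold th
  refine tendsto_tsum_of_dominated_convergence (th_summable h 0 one_pos) ?_ ?_
  · intro x
    by_cases hx : x = 0
    · subst hx
      simp
    · rw [if_neg hx]
      have hx' : 0 < ‖(x : E)‖ := norm_pos_iff.2 (fun h0 => hx (Subtype.ext h0))
      apply Real.tendsto_exp_atBot.comp
      have h2 : (fun j : ℕ => -(4 : ℝ) ^ j * ‖(x : E) + 0‖ ^ 2) =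
          fun j : ℕ => -((4 : ℝ) ^ j * ‖(x : E)‖ ^ 2) := by
        funext j; rw [add_zero, neg_mul]
      rw [h2]
      apply Filter.tendsto_neg_atTop_atBot.comp
      exact (tendsto_pow_atTop_atTop_of_one_lt (by norm_num)).atTop_mul_const (by positivity)
  · refine Filter.Eventually.of_forall fun j x => ?_
    rw [Real.norm_eq_abs, abs_of_pos (Real.exp_pos _)]
    apply Real.exp_le_exp.2
    have h2 : (1 : ℝ) ≤ 4 ^ j := one_le_pow₀ (by norm_num)
    have h3 : 0 ≤ ‖(x : E) + 0‖ ^ 2 := by positivity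
    nlinarith

theorem Poi.rk_du {Γ : AddSubgroup E} {c : ℝ} (h : Poi Γ c) : rk (du Γ) = rk Γ := by
  unfold rk; rw [h.span]

theorem Poi.real {Γ : AddSubgroup E} {c : ℝ} (h : Poi Γ c) {s : ℝ} (hs : 0 < s) :
    th Γ 0 s * Real.sqrt s ^ rk Γ = c * th (du Γ) 0 (1 / s) := by
  have h1 := h.form s hs 0 (Submodule.zero_mem _)
  have h2 : ∑' η : du Γ, Complex.exp (((-‖(η : E)‖ ^ 2 / s : ℝ) : ℂ) +
        2 * Complex.I * ((inner ℝ (η : E) 0 : ℝ) : ℂ)) = ((th (du Γ) 0 (1 / s) : ℝ) : ℂ) := by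
    unfold th
    rw [Complex.ofReal_tsum]
    refine tsum_congr fun η => ?_
    rw [inner_zero_right, Complex.ofReal_zero, mul_zero, add_zero, ← Complex.ofReal_exp, add_zero]
    congr 2
    ring
  rw [h2] at h1
  exact_mod_cast h1

theorem Poi.eq_w {Γ : AddSubgroup E} {c : ℝ} (h : Poi Γ c) : c = w Γ := by
  have h1 := w_tendsto h.disc
  have h2 := (th_tendsto_one h.ddisc).const_mul c
  rw [mul_one] at h2
  refine tendsto_nhds_unique h2 (h1.congr fun j => ?_)
  have h3 := h.real (s := (1 / 4 : ℝ) ^ j) (by positivity)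
  have h4 : Real.sqrt ((1 / 4 : ℝ) ^ j) = (1 / 2 : ℝ) ^ j := by
    rw [show (1 / 4 : ℝ) ^ j = ((1 / 2 : ℝ) ^ j) ^ 2 by rw [← pow_mul, mul_comm, pow_mul]; norm_num]
    exact Real.sqrt_sq (by positivity)
  have h5 : 1 / (1 / 4 : ℝ) ^ j = 4 ^ j := by rw [one_div_pow, one_div_one_div]
  rw [h4, h5] at h3
  have h6 : (1 / 2 : ℝ) ^ (j * rk Γ) = 1 / 2 ^ (j * rk Γ) := one_div_pow _ _
  rw [← h3, ← pow_mul, h6, div_eq_mul_one_div]

theorem Poi.w_du {Γ : AddSubgroup E} {c : ℝ} (h : Poi Γ c) : w (du Γ) = 1 / w Γ := by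
  have h1 := w_tendsto h.ddisc
  have h2 := (th_tendsto_one h.disc).mul_const (1 / c)
  rw [one_mul] at h2
  rw [← h.eq_w]
  refine tendsto_nhds_unique h1 (h2.congr fun j => ?_)
  have h3 := h.real (s := (4 : ℝ) ^ j) (by positivity)
  have h4 : Real.sqrt ((4 : ℝ) ^ j) = (2 : ℝ) ^ j := by
    rw [show (4 : ℝ) ^ j = ((2 : ℝ) ^ j) ^ 2 by rw [← pow_mul, mul_comm, pow_mul]; norm_num]
    exact Real.sqrt_sq (by positivity)
  have h5 : 1 / (4 : ℝ) ^ j = (1 / 4) ^ j := by rw [one_div_pow]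
  rw [h4, h5] at h3
  rw [h.rk_du, pow_mul]
  have hc := h.pos
  have h6 : (0 : ℝ) < (2 ^ j) ^ rk Γ := by positivity
  rw [eq_div_iff h6.ne', mul_one_div, div_mul_eq_mul_div, h3]
  field_simp

end T9h11.RM
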