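import Mathlib

set_option autoImplicit false
set_option linter.unusedSectionVars false
set_option linter.unusedVariables false

/-! A Ginibre inequality for random walks on finite abelian groups. -/

namespace T9h11.RW

open Finset
open scoped Classical

section GCone

variable {Γ : Type*} [AddCommGroup Γ] [Fintype Γ]

/-- basic quadratic functions -/
noncomputable def Phi (g : Γ → ℝ) (s : Γ) (x y : Γ) : ℝ :=
  ∑ b, if b + b + y = x + s then g (b + y) * g b else 0

/-- the cone generated by the basic quadratic functions -/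
inductive GC : (Γ → Γ → ℝ) → Prop
  | base (g : Γ → ℝ) (s : Γ) (hg : ∀ a, 0 ≤ g a) : GC (Phi g s)
  | zero : GC (fun _ _ => 0)
  | add (F G : Γ → Γ → ℝ) : GC F → GC G → GC (fun x y => F x y + G x y)
  | smul (c : ℝ) (F : Γ → Γ → ℝ) : 0 ≤ c → GC F → GC (fun x y => c * F x y)

theorem GC.nonneg {F : Γ → Γ → ℝ} (h : GC F) (x y : Γ) : 0 ≤ F x y := by
  induction h with
  | base g s hg =>
    refine Finset.sum_nonneg fun b _ => ?_
    split_ifs
    · exact mul_nonneg (hg _) (hg _)
    · exact le_rfl
  | zero => exact le_rfl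
  | add F G _ _ h1 h2 => exact add_nonneg h1 h2
  | smul c F hc _ h1 => exact mul_nonneg hc h1

theorem Phi_ineq (g : Γ → ℝ) (s x y : Γ) :
    2 * Phi g s x y ≤ Phi g s (x + y) 0 + Phi g s (x - y) 0 := by
  have e1 : Phi g s (x - y) 0 = ∑ b, if b + b + y = x + s then g b ^ 2 else 0 := by
    unfold Phi
    refine Finset.sum_congr rfl fun b _ => ?_
    have h1 : (b + b + 0 = x - y + s) ↔ (b + b + y = x + s) := by
      constructor
      · intro h
        have : b + b + y = (b + b + 0) + y := by abel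
        rw [this, h]; abel
      · intro h
        have : b + b + 0 = (b + b + y) - y := by abel
        rw [this, h]; abel
    by_cases hb : b + b + y = x + s
    · rw [if_pos hb, if_pos (h1.2 hb), add_zero, sq]
    · rw [if_neg hb, if_neg (fun h => hb (h1.1 h))]
  have e2 : Phi g s (x + y) 0 = ∑ b, if b + b + y = x + s then g (b + y) ^ 2 else 0 := by
    unfold Phi
    rw [← Equiv.sum_comp (Equiv.addRight y)]
    refine Finset.sum_congr rfl fun b _ => ?_
    simp only [Equiv.coe_addRight]
    have h1 : (b + y + (b + y) + 0 = x + y + s) ↔ (b + b + y = x + s) := by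
      constructor
      · intro h
        have : b + b + y = (b + y + (b + y) + 0) - y := by abel
        rw [this, h]; abel
      · intro h
        have : b + y + (b + y) + 0 = (b + b + y) + y := by abel
        rw [this, h]; abel
    by_cases hb : b + b + y = x + s
    · rw [if_pos hb, if_pos (h1.2 hb), add_zero, sq]
    · rw [if_neg hb, if_neg (fun h => hb (h1.1 h))]
  rw [e1, e2, Phi, Finset.mul_sum, ← Finset.sum_add_distrib]
  refine Finset.sum_le_sum fun b _ => ?_
  split_ifs
  · nlinarith [sq_nonneg (g (b + y) - g b)]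
  · simp

theorem GC.ineq {F : Γ → Γ → ℝ} (h : GC F) (x y : Γ) :
    2 * F x y ≤ F (x + y) 0 + F (x - y) 0 := by
  induction h with
  | base g s hg => exact Phi_ineq g s x y
  | zero => simp
  | add F G _ _ h1 h2 => linarith
  | smul c F hc _ h1 =>
    have := mul_le_mul_of_nonneg_left h1 hc
    linarith

theorem Phi_step (g : Γ → ℝ) (s z x y : Γ) :
    Phi g s (x + z) y + Phi g s (x - z) y + Phi g s x (y + z) + Phi g s x (y - z) =
      Phi (fun a => g a + g (a - z)) (s + z) x y := by
  have e1 : Phi g s (x + z) y = ∑ b, if b + b + y = x + (s + z) then g (b + y) * g b else 0 := by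
    unfold Phi
    refine Finset.sum_congr rfl fun b _ => ?_
    have : x + z + s = x + (s + z) := by abel
    rw [this]
  have e2 : Phi g s (x - z) y =
      ∑ b, if b + b + y = x + (s + z) then g (b + y - z) * g (b - z) else 0 := by
    unfold Phi
    rw [← Equiv.sum_comp (Equiv.subRight z)]
    refine Finset.sum_congr rfl fun b _ => ?_
    simp only [Equiv.subRight_apply]
    have h1 : (b - z + (b - z) + y = x - z + s) ↔ (b + b + y = x + (s + z)) := by
      constructor
      · intro h
        have : b + b + y = (b - z + (b - z) + y) + z + z := by abel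
        rw [this, h]; abel
      · intro h
        have : b - z + (b - z) + y = (b + b + y) - z - z := by abel
        rw [this, h]; abel
    have h2 : b - z + y = b + y - z := by abel
    by_cases hb : b + b + y = x + (s + z)
    · rw [if_pos hb, if_pos (h1.2 hb), h2]
    · rw [if_neg hb, if_neg (fun h => hb (h1.1 h))]
  have e3 : Phi g s x (y - z) =
      ∑ b, if b + b + y = x + (s + z) then g (b + y - z) * g b else 0 := by
    unfold Phi
    refine Finset.sum_congr rfl fun b _ => ?_
    have h1 : (b + b + (y - z) = x + s) ↔ (b + b + y = x + (s + z)) := by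
      constructor
      · intro h
        have : b + b + y = (b + b + (y - z)) + z := by abel
        rw [this, h]; abel
      · intro h
        have : b + b + (y - z) = (b + b + y) - z := by abel
        rw [this, h]; abel
    have h2 : b + (y - z) = b + y - z := by abel
    by_cases hb : b + b + y = x + (s + z)
    · rw [if_pos hb, if_pos (h1.2 hb), h2]
    · rw [if_neg hb, if_neg (fun h => hb (h1.1 h))]
  have e4 : Phi g s x (y + z) =
      ∑ b, if b + b + y = x + (s + z) then g (b + y) * g (b - z) else 0 := by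
    unfold Phi
    rw [← Equiv.sum_comp (Equiv.subRight z)]
    refine Finset.sum_congr rfl fun b _ => ?_
    simp only [Equiv.subRight_apply]
    have h1 : (b - z + (b - z) + (y + z) = x + s) ↔ (b + b + y = x + (s + z)) := by
      constructor
      · intro h
        have : b + b + y = (b - z + (b - z) + (y + z)) + z := by abel
        rw [this, h]; abel
      · intro h
        have : b - z + (b - z) + (y + z) = (b + b + y) - z := by abel
        rw [this, h]; abel
    have h2 : b - z + (y + z) = b + y := by abel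
    by_cases hb : b + b + y = x + (s + z)
    · rw [if_pos hb, if_pos (h1.2 hb), h2]
    · rw [if_neg hb, if_neg (fun h => hb (h1.1 h))]
  rw [e1, e2, e3, e4, Phi, ← Finset.sum_add_distrib, ← Finset.sum_add_distrib,
    ← Finset.sum_add_distrib]
  refine Finset.sum_congr rfl fun b _ => ?_
  split_ifs
  · ring
  · simp

theorem GC.step {F : Γ → Γ → ℝ} (h : GC F) (z : Γ) :
    GC (fun x y => F (x + z) y + F (x - z) y + F x (y + z) + F x (y - z)) := by
  induction h with
  | base g s hg =>
    have : (fun x y => Phi g s (x + z) y + Phi g s (x - z) y + Phi g s x (y + z) +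
        Phi g s x (y - z)) = Phi (fun a => g a + g (a - z)) (s + z) := by
      funext x y; exact Phi_step g s z x y
    rw [this]
    exact GC.base _ _ (fun a => add_nonneg (hg _) (hg _))
  | zero =>
    have : (fun (x y : Γ) => (0 : ℝ) + 0 + 0 + 0) = fun _ _ => 0 := by
      funext x y; simp
    rw [this]
    exact GC.zero
  | add F G _ _ h1 h2 =>
    have := GC.add _ _ h1 h2
    convert this using 3
    ring
  | smul c F hc _ h1 =>
    have := GC.smul c _ hc h1
    convert this using 3
    ring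

theorem GC.sum {ι : Type*} (s : Finset ι) (F : ι → Γ → Γ → ℝ) (h : ∀ i ∈ s, GC (F i)) :
    GC (fun x y => ∑ i ∈ s, F i x y) := by
  induction s using Finset.induction_on with
  | empty => simpa using GC.zero
  | insert i s hi ih =>
    have h1 := GC.add _ _ (h i (Finset.mem_insert_self _ _))
      (ih fun j hj => h j (Finset.mem_insert_of_mem hj))
    convert h1 using 3
    rw [Finset.sum_insert hi]

end GCone

section Ginibre

variable {Γ : Type*} [AddCommGroup Γ] [Fintype Γ] {ι : Type*} [Fintype ι]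

/-- cosine polynomial -/
noncomputable def en (p : ι → Γ) (ν : ι → ℝ) (χ : AddChar Γ ℂ) : ℝ := ∑ z, ν z * (χ (p z)).re

/-- inverse transform of a weight on pairs of characters -/
noncomputable def GG (W : AddChar Γ ℂ → AddChar Γ ℂ → ℝ) (x y : Γ) : ℝ :=
  ∑ χ, ∑ ψ, W χ ψ * (χ x * ψ y).re

theorem re_neg (χ : AddChar Γ ℂ) (z : Γ) : χ (-z) = (starRingEnd ℂ) (χ z) :=
  AddChar.map_neg_eq_conj χ z

theorem GG_step (W : AddChar Γ ℂ → AddChar Γ ℂ → ℝ) (z x y : Γ) :
    GG W (x + z) y + GG W (x - z) y + GG W x (y + z) + GG W x (y - z) =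
      2 * GG (fun χ ψ => ((χ z).re + (ψ z).re) * W χ ψ) x y := by
  unfold GG
  rw [Finset.mul_sum, ← Finset.sum_add_distrib, ← Finset.sum_add_distrib, ← Finset.sum_add_distrib]
  refine Finset.sum_congr rfl fun χ _ => ?_
  rw [Finset.mul_sum, ← Finset.sum_add_distrib, ← Finset.sum_add_distrib, ← Finset.sum_add_distrib]
  refine Finset.sum_congr rfl fun ψ _ => ?_
  rw [sub_eq_add_neg, sub_eq_add_neg, AddChar.map_add_eq_mul, AddChar.map_add_eq_mul,
    AddChar.map_add_eq_mul, AddChar.map_add_eq_mul, re_neg, re_neg]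
  simp only [Complex.mul_re, Complex.mul_im, Complex.conj_re, Complex.conj_im]
  ring

theorem sum_re (x : Γ) : ∑ χ : AddChar Γ ℂ, (χ x).re = if x = 0 then (Fintype.card Γ : ℝ) else 0 := by
  have h := AddChar.sum_apply_eq_ite x
  have h2 := congrArg Complex.re h
  rw [Complex.re_sum] at h2
  rw [h2]
  split_ifs <;> simp

theorem sum_cx (x : Γ) : ∑ χ : AddChar Γ ℂ, χ x = if x = 0 then (Fintype.card Γ : ℂ) else 0 :=
  AddChar.sum_apply_eq_ite x

theorem gc_one : GC (GG (fun (_ _ : AddChar Γ ℂ) => (1 : ℝ))) := by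
  have h : GG (fun (_ _ : AddChar Γ ℂ) => (1 : ℝ)) =
      Phi (fun a : Γ => if a = 0 then (Fintype.card Γ : ℝ) else 0) 0 := by
    funext x y
    have h1 : GG (fun (_ _ : AddChar Γ ℂ) => (1 : ℝ)) x y =
        ((∑ χ : AddChar Γ ℂ, χ x) * (∑ ψ : AddChar Γ ℂ, ψ y)).re := by
      rw [Finset.sum_mul_sum, Complex.re_sum]
      unfold GG
      refine Finset.sum_congr rfl fun χ _ => ?_
      rw [Complex.re_sum]
      refine Finset.sum_congr rfl fun ψ _ => ?_
      rw [one_mul]
    rw [h1, sum_cx, sum_cx]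
    unfold Phi
    rw [Finset.sum_eq_single (0 : Γ)]
    · by_cases hy : y = 0
      · by_cases hx : x = 0
        · simp [hx, hy]
        · have : ¬ (0 = x) := fun h => hx h.symm
          simp [hx, hy, this]
      · simp [hy]
    · intro b _ hb
      simp only [if_neg hb, mul_zero, ite_self]
    · intro h
      exact absurd (Finset.mem_univ _) h
  rw [h]
  refine GC.base _ _ (fun a => ?_)
  split_ifs
  · positivity
  · exact le_rfl

theorem gc_mul (p : ι → Γ) {W : AddChar Γ ℂ → AddChar Γ ℂ → ℝ} (h : GC (GG W)) {ν : ι → ℝ}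
    (hν : ∀ z, 0 ≤ ν z) : GC (GG fun χ ψ => (en p ν χ + en p ν ψ) * W χ ψ) := by
  have h1 := GC.sum Finset.univ (fun z x y => (ν z / 2) * (GG W (x + p z) y + GG W (x - p z) y +
    GG W x (y + p z) + GG W x (y - p z)))
    (fun z _ => GC.smul (ν z / 2) _ (by linarith [hν z]) (h.step (p z)))
  have h2 : (GG fun χ ψ => (en p ν χ + en p ν ψ) * W χ ψ) = fun x y => ∑ z, (ν z / 2) *
      (GG W (x + p z) y + GG W (x - p z) y + GG W x (y + p z) + GG W x (y - p z)) := by
    funext x y
    have h3 : ∀ z, (ν z / 2) * (GG W (x + p z) y + GG W (x - p z) y + GG W x (y + p z) +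
        GG W x (y - p z)) = ν z * GG (fun χ ψ => ((χ (p z)).re + (ψ (p z)).re) * W χ ψ) x y := by
      intro z
      rw [GG_step]; ring
    simp_rw [h3]
    unfold GG en
    simp_rw [Finset.mul_sum]
    rw [Finset.sum_comm]
    conv_rhs =>
      rw [Finset.sum_comm]
      arg 2
      ext χ
      rw [Finset.sum_comm]
    rw [Finset.sum_comm]
    refine Finset.sum_congr rfl fun χ _ => Finset.sum_congr rfl fun ψ _ => ?_
    rw [← Finset.sum_add_distrib, Finset.sum_mul, Finset.sum_mul]
    refine Finset.sum_congr rfl fun z _ => ?_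
    ring
  rw [h2]
  exact h1

theorem gc_pow (p : ι → Γ) {ν : ι → ℝ} (hν : ∀ z, 0 ≤ ν z) (m : ℕ) :
    GC (GG fun χ ψ => (en p ν χ + en p ν ψ) ^ m) := by
  induction m with
  | zero => simpa using gc_one
  | succ m ih =>
    have h := gc_mul p ih hν
    have h2 : (GG fun χ ψ => (en p ν χ + en p ν ψ) ^ (m + 1)) =
        GG fun χ ψ => (en p ν χ + en p ν ψ) * (en p ν χ + en p ν ψ) ^ m := by
      congr 1
      funext χ ψ
      ring
    rw [h2]
    exact h

/-- the exponential weight -/
noncomputable def GE (p : ι → Γ) (ν : ι → ℝ) (x y : Γ) : ℝ :=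
  GG (fun χ ψ => Real.exp (en p ν χ + en p ν ψ)) x y

theorem GE_hasSum (p : ι → Γ) (ν : ι → ℝ) (x y : Γ) :
    HasSum (fun m : ℕ => (1 / (m.factorial : ℝ)) * GG (fun χ ψ => (en p ν χ + en p ν ψ) ^ m) x y)
      (GE p ν x y) := by
  unfold GE GG
  simp_rw [Finset.mul_sum]
  refine hasSum_sum fun χ _ => hasSum_sum fun ψ _ => ?_
  have h1 : HasSum (fun m : ℕ => (en p ν χ + en p ν ψ) ^ m / (m.factorial : ℝ))
      (Real.exp (en p ν χ + en p ν ψ)) := by
    rw [Real.exp_eq_exp_ℝ]
    exact NormedSpace.expSeries_div_hasSum_exp _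
  have h2 := h1.mul_right ((χ x * ψ y).re)
  refine h2.congr_fun ?_
  intro m
  ring

theorem GE_nonneg (p : ι → Γ) {ν : ι → ℝ} (hν : ∀ z, 0 ≤ ν z) (x y : Γ) : 0 ≤ GE p ν x y :=
  (GE_hasSum p ν x y).nonneg fun m => mul_nonneg (by positivity) ((gc_pow p hν m).nonneg x y)

theorem GE_ineq (p : ι → Γ) {ν : ι → ℝ} (hν : ∀ z, 0 ≤ ν z) (x y : Γ) :
    2 * GE p ν x y ≤ GE p ν (x + y) 0 + GE p ν (x - y) 0 := by
  refine hasSum_le (fun m => ?_) ((GE_hasSum p ν x y).mul_left 2)
    ((GE_hasSum p ν (x + y) 0).add (GE_hasSum p ν (x - y) 0))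
  have h := (gc_pow p hν m).ineq x y
  have h0 : (0 : ℝ) ≤ 1 / (m.factorial : ℝ) := by positivity
  have h1 := mul_le_mul_of_nonneg_left h h0
  linarith

/-- cosine-positive functions on the dual group -/
def CP (w : AddChar Γ ℂ → ℝ) : Prop :=
  ∃ a : Γ → ℝ, (∀ x, 0 ≤ a x) ∧ ∀ χ, w χ = ∑ x, a x * (χ x).re

theorem re_mul_re (χ : AddChar Γ ℂ) (x y : Γ) :
    (χ x).re * (χ y).re = ((χ (x + y)).re + (χ (x - y)).re) / 2 := by
  rw [sub_eq_add_neg, AddChar.map_add_eq_mul, AddChar.map_add_eq_mul, re_neg]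
  simp only [Complex.mul_re, Complex.conj_re, Complex.conj_im]
  ring

/-- the partition function with an insertion -/
noncomputable def gav (p : ι → Γ) (ν : ι → ℝ) (w : AddChar Γ ℂ → ℝ) : ℝ := ∑ χ, w χ * Real.exp (en p ν χ)

theorem GE_zero (p : ι → Γ) (ν : ι → ℝ) (x : Γ) : GE p ν x 0 = gav p ν (fun χ => (χ x).re) * gav p ν (fun _ => 1) := by
  unfold GE GG gav
  rw [Finset.sum_mul_sum]
  refine Finset.sum_congr rfl fun χ _ => Finset.sum_congr rfl fun ψ _ => ?_
  beta_reduce
  rw [AddChar.map_zero_eq_one, mul_one, Real.exp_add]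
  ring

theorem GE_pm (p : ι → Γ) (ν : ι → ℝ) (x y : Γ) : GE p ν x y + GE p ν x (-y) =
    2 * (gav p ν (fun χ => (χ x).re) * gav p ν (fun χ => (χ y).re)) := by
  unfold GE GG gav
  rw [Finset.sum_mul_sum, ← Finset.sum_add_distrib, Finset.mul_sum]
  refine Finset.sum_congr rfl fun χ _ => ?_
  rw [← Finset.sum_add_distrib, Finset.mul_sum]
  refine Finset.sum_congr rfl fun ψ _ => ?_
  beta_reduce
  rw [re_neg, Real.exp_add]
  simp only [Complex.mul_re, Complex.conj_re, Complex.conj_im]
  ring

theorem gav_one_pos (p : ι → Γ) (ν : ι → ℝ) : 0 < gav p ν (fun _ => 1) := by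
  unfold gav
  refine Finset.sum_pos (fun χ _ => by positivity) ⟨1, Finset.mem_univ _⟩

/-- Griffiths' first inequality -/
theorem griffiths_one (p : ι → Γ) {ν : ι → ℝ} (hν : ∀ z, 0 ≤ ν z) (x : Γ) : 0 ≤ gav p ν (fun χ => (χ x).re) := by
  have h := GE_nonneg p hν x 0
  rw [GE_zero] at h
  exact nonneg_of_mul_nonneg_left h (gav_one_pos p ν)

/-- Ginibre's inequality for two characters -/
theorem ginibre_char (p : ι → Γ) {ν : ι → ℝ} (hν : ∀ z, 0 ≤ ν z) (x y : Γ) :
    gav p ν (fun χ => (χ x).re) * gav p ν (fun χ => (χ y).re) ≤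
      gav p ν (fun χ => (χ x).re * (χ y).re) * gav p ν (fun _ => 1) := by
  have h1 := GE_ineq p hν x y
  have h2 := GE_ineq p hν x (-y)
  rw [← sub_eq_add_neg, sub_neg_eq_add] at h2
  have h3 := GE_pm p ν x y
  have h4 : gav p ν (fun χ => (χ x).re * (χ y).re) * gav p ν (fun _ => 1) =
      (GE p ν (x + y) 0 + GE p ν (x - y) 0) / 2 := by
    rw [GE_zero, GE_zero, ← add_mul]
    have : gav p ν (fun χ => (χ x).re * (χ y).re) =
        (gav p ν (fun χ => (χ (x + y)).re) + gav p ν (fun χ => (χ (x - y)).re)) / 2 := by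
      unfold gav
      rw [← Finset.sum_add_distrib, Finset.sum_div]
      refine Finset.sum_congr rfl fun χ _ => ?_
      beta_reduce
      rw [re_mul_re]; ring
    rw [this]; ring
  linarith

theorem gav_sum {κ : Type*} (s : Finset κ) (p : ι → Γ) (ν : ι → ℝ) (a : κ → ℝ) (f : κ → AddChar Γ ℂ → ℝ) :
    gav p ν (fun χ => ∑ i ∈ s, a i * f i χ) = ∑ i ∈ s, a i * gav p ν (f i) := by
  unfold gav
  simp_rw [Finset.sum_mul, Finset.mul_sum]
  rw [Finset.sum_comm]
  refine Finset.sum_congr rfl fun i _ => Finset.sum_congr rfl fun χ _ => ?_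
  ring

/-- **Ginibre's inequality** -/
theorem ginibre (p : ι → Γ) {ν : ι → ℝ} (hν : ∀ z, 0 ≤ ν z) {u v : AddChar Γ ℂ → ℝ} (hu : CP u) (hv : CP v) :
    gav p ν u * gav p ν v ≤ gav p ν (fun χ => u χ * v χ) * gav p ν (fun _ => 1) := by
  obtain ⟨a, ha, hau⟩ := hu
  obtain ⟨b, hb, hbv⟩ := hv
  have e1 : gav p ν u = ∑ x, a x * gav p ν (fun χ => (χ x).re) := by
    rw [← gav_sum]; congr 1; funext χ; exact hau χ
  have e2 : gav p ν v = ∑ x, b x * gav p ν (fun χ => (χ x).re) := by
    rw [← gav_sum]; congr 1; funext χ; exact hbv χ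
  have e3 : gav p ν (fun χ => u χ * v χ) =
      ∑ x, a x * ∑ y, b y * gav p ν (fun χ => (χ x).re * (χ y).re) := by
    have : (fun χ => u χ * v χ) = fun χ : AddChar Γ ℂ => ∑ x, a x * ∑ y, b y *
        ((χ x).re * (χ y).re) := by
      funext χ
      rw [hau, hbv, Finset.sum_mul_sum]
      refine Finset.sum_congr rfl fun x _ => ?_
      rw [Finset.mul_sum]
      refine Finset.sum_congr rfl fun y _ => ?_
      ring
    rw [this, gav_sum Finset.univ p ν a (fun x χ => ∑ y, b y * ((χ x).re * (χ y).re))]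
    refine Finset.sum_congr rfl fun x _ => ?_
    rw [gav_sum Finset.univ p ν b (fun y χ => ((χ x).re * (χ y).re))]
  rw [e1, e2, e3, Finset.sum_mul_sum, Finset.sum_mul]
  refine Finset.sum_le_sum fun x _ => ?_
  rw [Finset.mul_sum, Finset.sum_mul]
  refine Finset.sum_le_sum fun y _ => ?_
  have h := mul_le_mul_of_nonneg_left (ginibre_char p hν x y) (mul_nonneg (ha x) (hb y))
  calc a x * gav p ν (fun χ => (χ x).re) * (b y * gav p ν (fun χ => (χ y).re)) =
      a x * b y * (gav p ν (fun χ => (χ x).re) * gav p ν (fun χ => (χ y).re)) := by ring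
    _ ≤ a x * b y * (gav p ν (fun χ => (χ x).re * (χ y).re) * gav p ν (fun _ => 1)) := h
    _ = a x * (b y * gav p ν (fun χ => (χ x).re * (χ y).re)) * gav p ν (fun _ => 1) := by ring

theorem CP.mul {u v : AddChar Γ ℂ → ℝ} (hu : CP u) (hv : CP v) : CP (fun χ => u χ * v χ) := by
  obtain ⟨a, ha, hau⟩ := hu
  obtain ⟨b, hb, hbv⟩ := hv
  refine ⟨fun w => ∑ x, ∑ y, a x * b y * (((if x + y = w then 1 else 0) +
    (if x - y = w then 1 else 0)) / 2), fun w => ?_, fun χ => ?_⟩
  · refine Finset.sum_nonneg fun x _ => Finset.sum_nonneg fun y _ =>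
      mul_nonneg (mul_nonneg (ha x) (hb y)) ?_
    split_ifs <;> norm_num
  · beta_reduce
    rw [hau, hbv, Finset.sum_mul_sum]
    simp_rw [Finset.sum_mul]
    rw [Finset.sum_comm]
    conv_rhs => rw [Finset.sum_comm]
    rw [Finset.sum_comm]
    refine Finset.sum_congr rfl fun x _ => ?_
    rw [Finset.sum_comm]
    refine Finset.sum_congr rfl fun y _ => ?_
    have h1 : ∑ w, a x * b y * (((if x + y = w then 1 else 0) +
        (if x - y = w then 1 else 0)) / 2) * (χ w).re = a x * b y *
        (((χ (x + y)).re + (χ (x - y)).re) / 2) := by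
      have h2 : ∀ w : Γ, a x * b y * (((if x + y = w then 1 else 0) +
        (if x - y = w then 1 else 0)) / 2) * (χ w).re =
        (if x + y = w then a x * b y / 2 * (χ w).re else 0) +
          (if x - y = w then a x * b y / 2 * (χ w).re else 0) := by
        intro w
        split_ifs <;> ring
      simp_rw [h2]
      rw [Finset.sum_add_distrib, Finset.sum_ite_eq, Finset.sum_ite_eq]
      simp only [Finset.mem_univ, if_true]
      ring
    rw [h1, ← re_mul_re]
    ring

end Ginibre

end T9h11.RW
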