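import Pool.Agent.T9h11.RW9

set_option autoImplicit false
set_option linter.unusedSectionVars false
set_option linter.unusedVariables false

/-! Symmetric continuous-time random walks on abelian groups. -/

namespace T9h11.RW

open Finset H460 T9h11.RM Pool.Agent.Y806.DF
open scoped Classical

/-- The `k`-th convolution power of the measure `∑ i, (r i / 2) (δ_{z i} + δ_{- z i})`. -/
noncomputable def jump {Γ : Type*} [AddCommGroup Γ] {m : ℕ} (z : Fin m → Γ) (r : Fin m → ℝ) :
    ℕ → Γ → ℝ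
  | 0, y => if y = 0 then 1 else 0
  | k + 1, y => ∑ i, r i / 2 * (jump z r k (y - z i) + jump z r k (y + z i))

/-- The law at time one of the continuous-time random walk started at `0` which jumps by `z i` and
by `- z i` at rate `r i / 2` each. -/
noncomputable def walk {Γ : Type*} [AddCommGroup Γ] {m : ℕ} (z : Fin m → Γ) (r : Fin m → ℝ)
    (y : Γ) : ℝ :=
  ∑' k : ℕ, Real.exp (-∑ i, r i) / (k.factorial : ℝ) * jump z r k y

section gen
variable {Γ : Type*} [AddCommGroup Γ] {m : ℕ} (z : Fin m → Γ) {r : Fin m → ℝ}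

theorem jump_nonneg (hr : ∀ i, 0 ≤ r i) (k : ℕ) (y : Γ) : 0 ≤ jump z r k y := by
  induction k generalizing y with
  | zero =>
    unfold jump
    split_ifs <;> norm_num
  | succ k ih =>
    unfold jump
    exact Finset.sum_nonneg fun i _ => mul_nonneg (by linarith [hr i]) (add_nonneg (ih _) (ih _))

theorem jump_le (hr : ∀ i, 0 ≤ r i) (k : ℕ) (y : Γ) : jump z r k y ≤ (∑ i, r i) ^ k := by
  induction k generalizing y with
  | zero =>
    unfold jump
    split_ifs <;> norm_num
  | succ k ih =>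
    unfold jump
    rw [pow_succ', Finset.sum_mul]
    refine Finset.sum_le_sum fun i _ => ?_
    have h1 := ih (y - z i)
    have h2 := ih (y + z i)
    have h3 : 0 ≤ r i / 2 := by linarith [hr i]
    calc r i / 2 * (jump z r k (y - z i) + jump z r k (y + z i)) ≤
        r i / 2 * ((∑ i, r i) ^ k + (∑ i, r i) ^ k) :=
          mul_le_mul_of_nonneg_left (add_le_add h1 h2) h3
      _ = _ := by ring

theorem walk_term_nonneg (hr : ∀ i, 0 ≤ r i) (y : Γ) (k : ℕ) :
    0 ≤ Real.exp (-∑ i, r i) / (k.factorial : ℝ) * jump z r k y :=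
  mul_nonneg (by positivity) (jump_nonneg z hr k y)

theorem majorant_summable (m : ℝ) : Summable fun k : ℕ => Real.exp (-m) / (k.factorial : ℝ) * m ^ k := by
  have h := (Real.summable_pow_div_factorial m).mul_left (Real.exp (-m))
  refine h.congr fun k => ?_
  ring

theorem walk_summable (hr : ∀ i, 0 ≤ r i) (y : Γ) :
    Summable fun k : ℕ => Real.exp (-∑ i, r i) / (k.factorial : ℝ) * jump z r k y := by
  refine Summable.of_nonneg_of_le (walk_term_nonneg z hr y) (fun k => ?_)
    (majorant_summable (∑ i, r i))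
  exact mul_le_mul_of_nonneg_left (jump_le z hr k y) (by positivity)

theorem walk_nonneg (hr : ∀ i, 0 ≤ r i) (y : Γ) : 0 ≤ walk z r y :=
  tsum_nonneg (walk_term_nonneg z hr y)

theorem walk_zero_pos (hr : ∀ i, 0 ≤ r i) : 0 < walk z r 0 := by
  have h := (walk_summable z hr 0).le_tsum 0 (fun k _ => walk_term_nonneg z hr 0 k)
  have h1 : Real.exp (-∑ i, r i) / ((Nat.factorial 0 : ℕ) : ℝ) * jump z r 0 0 =
      Real.exp (-∑ i, r i) := by
    simp [jump]
  rw [h1] at h
  exact lt_of_lt_of_le (Real.exp_pos _) h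

variable {Γ' : Type*} [AddCommGroup Γ'] (q : Γ →+ Γ')

theorem jump_push_ge (hr : ∀ i, 0 ≤ r i) (k : ℕ) (y : Γ) :
    jump z r k y ≤ jump (fun i => q (z i)) r k (q y) := by
  induction k generalizing y with
  | zero =>
    unfold jump
    by_cases hy : y = 0
    · rw [if_pos hy, hy, map_zero, if_pos rfl]
    · rw [if_neg hy]
      split_ifs <;> norm_num
  | succ k ih =>
    unfold jump
    refine Finset.sum_le_sum fun i _ => mul_le_mul_of_nonneg_left ?_ (by linarith [hr i])
    have h1 := ih (y - z i)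
    have h2 := ih (y + z i)
    rw [map_sub] at h1
    rw [map_add] at h2
    exact add_le_add h1 h2

theorem walk_push_ge (hr : ∀ i, 0 ≤ r i) (y : Γ) :
    walk z r y ≤ walk (fun i => q (z i)) r (q y) := by
  refine (walk_summable z hr y).tsum_le_tsum (fun k => ?_) (walk_summable _ hr _)
  exact mul_le_mul_of_nonneg_left (jump_push_ge z q hr k y) (by positivity)

/-- the points which can be reached in at most `k` steps -/
noncomputable def reach : ℕ → Finset Γ
  | 0 => {0}
  | k + 1 => reach k ∪ (Finset.univ.biUnion fun i : Fin m =>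
      (reach k).image (fun y => y + z i) ∪ (reach k).image (fun y => y - z i))

theorem reach_zero_mem (k : ℕ) : (0 : Γ) ∈ reach z k := by
  induction k with
  | zero => simp [reach]
  | succ k ih => exact Finset.mem_union_left _ ih

theorem reach_mono {k l : ℕ} (h : k ≤ l) : reach z k ⊆ reach z l := by
  induction h with
  | refl => exact subset_rfl
  | step h ih => exact ih.trans Finset.subset_union_left

theorem reach_add {k : ℕ} {y : Γ} (hy : y ∈ reach z k) (i : Fin m) : y + z i ∈ reach z (k + 1) :=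
  Finset.mem_union_right _ (Finset.mem_biUnion.2 ⟨i, Finset.mem_univ _,
    Finset.mem_union_left _ (Finset.mem_image_of_mem _ hy)⟩)

theorem reach_sub {k : ℕ} {y : Γ} (hy : y ∈ reach z k) (i : Fin m) : y - z i ∈ reach z (k + 1) :=
  Finset.mem_union_right _ (Finset.mem_biUnion.2 ⟨i, Finset.mem_univ _,
    Finset.mem_union_right _ (Finset.mem_image_of_mem _ hy)⟩)

theorem jump_push_eq {k₀ : ℕ} (hq : ∀ y ∈ reach z k₀, q y = 0 → y = 0) (k : ℕ) :
    ∀ l, l + k ≤ k₀ → ∀ y ∈ reach z l, jump (fun i => q (z i)) r k (q y) = jump z r k y := by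
  induction k with
  | zero =>
    intro l hl y hy
    unfold jump
    by_cases h0 : y = 0
    · rw [h0, map_zero, if_pos rfl, if_pos rfl]
    · rw [if_neg h0, if_neg]
      intro h1
      exact h0 (hq y (reach_mono z (by omega) hy) h1)
  | succ k ih =>
    intro l hl y hy
    unfold jump
    refine Finset.sum_congr rfl fun i _ => ?_
    have h1 := ih (l + 1) (by omega) (y - z i) (reach_sub z hy i)
    have h2 := ih (l + 1) (by omega) (y + z i) (reach_add z hy i)
    rw [map_sub] at h1
    rw [map_add] at h2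
    rw [h1, h2]

/-- the return probability of a quotient with few collisions -/
theorem walk_push_zero (hr : ∀ i, 0 ≤ r i) {ε : ℝ} (hε : 0 < ε) : ∃ k₀ : ℕ,
    ∀ {Γ' : Type*} [AddCommGroup Γ'] (q : Γ →+ Γ'), (∀ y ∈ reach z k₀, q y = 0 → y = 0) →
      walk (fun i => q (z i)) r 0 ≤ walk z r 0 + ε := by
  set M := ∑ i, r i with hM
  have hs := majorant_summable M
  have ht := tendsto_sum_nat_add (fun k : ℕ => Real.exp (-M) / (k.factorial : ℝ) * M ^ k)
  obtain ⟨k₀, hk₀⟩ := ((Metric.tendsto_atTop.1 ht) ε hε)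
  refine ⟨k₀, ?_⟩
  intro Γ' _ q hq
  have h1 := (walk_summable (fun i => q (z i)) hr 0).sum_add_tsum_nat_add k₀
  have h2 : walk (fun i => q (z i)) r 0 = _ := h1.symm
  rw [h2]
  have h3 : ∑ k ∈ Finset.range k₀, Real.exp (-∑ i, r i) / (k.factorial : ℝ) *
      jump (fun i => q (z i)) r k 0 ≤ walk z r 0 := by
    have h4 : ∑ k ∈ Finset.range k₀, Real.exp (-∑ i, r i) / (k.factorial : ℝ) *
      jump (fun i => q (z i)) r k 0 = ∑ k ∈ Finset.range k₀, Real.exp (-∑ i, r i) /
        (k.factorial : ℝ) * jump z r k 0 := by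
      refine Finset.sum_congr rfl fun k hk => ?_
      rw [Finset.mem_range] at hk
      have h5 := jump_push_eq z q (r := r) hq k 0 (by omega) 0 (reach_zero_mem z 0)
      rw [map_zero] at h5
      rw [h5]
    rw [h4]
    exact (walk_summable z hr 0).sum_le_tsum _ (fun k _ => walk_term_nonneg z hr 0 k)
  have h4 : ∑' k : ℕ, Real.exp (-∑ i, r i) / ((k + k₀).factorial : ℝ) *
      jump (fun i => q (z i)) r (k + k₀) 0 ≤ ε := by
    have h5 : ∑' k : ℕ, Real.exp (-∑ i, r i) / ((k + k₀).factorial : ℝ) *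
      jump (fun i => q (z i)) r (k + k₀) 0 ≤
        ∑' k : ℕ, Real.exp (-M) / ((k + k₀).factorial : ℝ) * M ^ (k + k₀) := by
      refine Summable.tsum_le_tsum (fun k => ?_) ?_ ?_
      · exact mul_le_mul_of_nonneg_left (jump_le _ hr _ _) (by positivity)
      · exact (summable_nat_add_iff k₀).2 (walk_summable (fun i => q (z i)) hr 0)
      · exact (summable_nat_add_iff k₀).2 hs
    refine h5.trans ?_
    have h6 := hk₀ k₀ le_rfl
    rw [Real.dist_eq, sub_zero] at h6
    exact (le_abs_self _).trans h6.le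
  linarith

end gen

section fin
variable {Γ : Type*} [AddCommGroup Γ] [Fintype Γ] {m : ℕ} (z : Fin m → Γ) (r : Fin m → ℝ)

theorem jump_fourier (k : ℕ) (y : Γ) :
    Fintype.card Γ * jump z r k y =
      ∑ χ : AddChar Γ ℂ, (∑ i, r i * (χ (z i)).re) ^ k * (χ y).re := by
  induction k generalizing y with
  | zero =>
    unfold jump
    simp only [pow_zero, one_mul]
    rw [sum_re]
    split_ifs <;> simp
  | succ k ih =>
    unfold jump
    rw [Finset.mul_sum]
    have h1 : ∀ i, (Fintype.card Γ : ℝ) * (r i / 2 * (jump z r k (y - z i) +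
        jump z r k (y + z i))) = ∑ χ : AddChar Γ ℂ, (∑ i, r i * (χ (z i)).re) ^ k *
          (r i * (χ (z i)).re * (χ y).re) := by
      intro i
      have h2 : (Fintype.card Γ : ℝ) * (r i / 2 * (jump z r k (y - z i) +
        jump z r k (y + z i))) = r i / 2 * (Fintype.card Γ * jump z r k (y - z i) +
          Fintype.card Γ * jump z r k (y + z i)) := by ring
      rw [h2, ih, ih, ← Finset.sum_add_distrib, Finset.mul_sum]
      refine Finset.sum_congr rfl fun χ _ => ?_
      have h3 := re_mul_re χ y (z i)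
      linear_combination (-(r i) * (∑ i, r i * (χ (z i)).re) ^ k) * h3
    simp_rw [h1]
    rw [Finset.sum_comm]
    refine Finset.sum_congr rfl fun χ _ => ?_
    rw [← Finset.mul_sum, ← Finset.sum_mul, pow_succ]
    ring

theorem walk_fourier (y : Γ) :
    Fintype.card Γ * walk z r y = ∑ χ : AddChar Γ ℂ, Real.exp (-Er z r χ) * (χ y).re := by
  unfold walk
  rw [← tsum_mul_left]
  have h1 : ∀ k : ℕ, (Fintype.card Γ : ℝ) * (Real.exp (-∑ i, r i) / (k.factorial : ℝ) *
      jump z r k y) = ∑ χ : AddChar Γ ℂ, Real.exp (-∑ i, r i) *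
        ((∑ i, r i * (χ (z i)).re) ^ k / (k.factorial : ℝ)) * (χ y).re := by
    intro k
    have h2 : (Fintype.card Γ : ℝ) * (Real.exp (-∑ i, r i) / (k.factorial : ℝ) *
      jump z r k y) = Real.exp (-∑ i, r i) / (k.factorial : ℝ) *
        (Fintype.card Γ * jump z r k y) := by ring
    rw [h2, jump_fourier, Finset.mul_sum]
    refine Finset.sum_congr rfl fun χ _ => ?_
    ring
  simp_rw [h1]
  have h2 : ∀ χ : AddChar Γ ℂ, HasSum (fun k : ℕ => Real.exp (-∑ i, r i) *
        ((∑ i, r i * (χ (z i)).re) ^ k / (k.factorial : ℝ)) * (χ y).re)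
        (Real.exp (-Er z r χ) * (χ y).re) := by
    intro χ
    have h3 : HasSum (fun k : ℕ => (∑ i, r i * (χ (z i)).re) ^ k / (k.factorial : ℝ))
        (Real.exp (∑ i, r i * (χ (z i)).re)) := by
      rw [Real.exp_eq_exp_ℝ]
      exact NormedSpace.expSeries_div_hasSum_exp _
    have h4 := (h3.mul_left (Real.exp (-∑ i, r i))).mul_right ((χ y).re)
    have h5 : Real.exp (-Er z r χ) = Real.exp (-∑ i, r i) * Real.exp (∑ i, r i * (χ (z i)).re) := by
      rw [← Real.exp_add]
      congr 1
      unfold Er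
      rw [← Finset.sum_neg_distrib, ← Finset.sum_neg_distrib, ← Finset.sum_add_distrib]
      refine Finset.sum_congr rfl fun i _ => ?_
      ring
    rw [h5]
    exact h4
  exact (hasSum_sum fun χ _ => h2 χ).tsum_eq

/-- the theorem for finite groups -/
theorem finite_form {r : Fin m → ℝ} (hr : ∀ i, 0 ≤ r i) {σ : Γ → ℝ}
    (hσ0 : ∀ y, 0 ≤ σ y) (hσ1 : ∑ y, σ y = 1) {K : ℝ} (hK : 1 ≤ K)
    (h1 : walk z r 0 ≤ K * ∑ y, σ y ^ 2)
    (h2 : ∑ y, σ y ^ 2 ≤ K * ∑ y, ∑ y', σ y * σ y' * walk z r (y' - y)) :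
    ∃ (d : ℕ) (B : Set (Fin d → ℝ)) (ψ : (Fin d → ℤ) →+ Γ) (H : AddSubgroup Γ) (g : Γ),
      (d : ℝ) ≤ 10 ^ 15 * Real.log (2 * K) ∧ Body B ∧ Finite H ∧
      ((lat B).ncard * Nat.card H : ℕ) * (∑ y, σ y ^ 2) ≤ 1 ∧
      Real.exp (-(10 ^ 15 * Real.log (2 * K))) ≤
        ∑ y ∈ Finset.univ.filter (fun y => ∃ w ∈ lat B, ∃ h ∈ H, y = g + ψ w + h), σ y := by
  have hn : (0 : ℝ) < Fintype.card Γ := by exact_mod_cast Fintype.card_pos
  refine fourier_form z hr hσ0 hσ1 hK ?_ ?_
  · have h3 := walk_fourier z r (0 : Γ)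
    have h4 : ∑ χ : AddChar Γ ℂ, Real.exp (-Er z r χ) * (χ (0 : Γ)).re =
        ∑ χ : AddChar Γ ℂ, Real.exp (-Er z r χ) :=
      Finset.sum_congr rfl fun χ _ => by rw [AddChar.map_zero_eq_one, Complex.one_re, mul_one]
    rw [h4] at h3
    rw [← h3]
    calc (Fintype.card Γ : ℝ) * walk z r 0 ≤ Fintype.card Γ * (K * ∑ y, σ y ^ 2) :=
          mul_le_mul_of_nonneg_left h1 hn.le
      _ = _ := by ring
  · have h3 : ∑ χ : AddChar Γ ℂ, sq' σ χ * Real.exp (-Er z r χ) =
        Fintype.card Γ * ∑ y, ∑ y', σ y * σ y' * walk z r (y' - y) := by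
      have h4 : (Fintype.card Γ : ℝ) * ∑ y, ∑ y', σ y * σ y' * walk z r (y' - y) =
          ∑ y, ∑ y', σ y * σ y' * (Fintype.card Γ * walk z r (y' - y)) := by
        simp_rw [Finset.mul_sum]
        refine Finset.sum_congr rfl fun y _ => Finset.sum_congr rfl fun y' _ => ?_
        ring
      rw [h4]
      simp_rw [walk_fourier]
      unfold sq'
      simp_rw [Finset.sum_mul, Finset.mul_sum]
      rw [Finset.sum_comm]
      refine Finset.sum_congr rfl fun y _ => ?_
      rw [Finset.sum_comm]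
      refine Finset.sum_congr rfl fun y' _ => Finset.sum_congr rfl fun χ _ => ?_
      ring
    rw [h3]
    calc (Fintype.card Γ : ℝ) * ∑ y, σ y ^ 2 ≤
        Fintype.card Γ * (K * ∑ y, ∑ y', σ y * σ y' * walk z r (y' - y)) :=
          mul_le_mul_of_nonneg_left h2 hn.le
      _ = _ := by ring

end fin

end T9h11.RW
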