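import Pool.Agent.T9h11.RW12

set_option autoImplicit false
set_option linter.unusedSectionVars false
set_option linter.unusedVariables false

/-! The theorem for all abelian groups. -/

namespace T9h11.RW

open Finset H460 T9h11.RM Pool.Agent.Y806.DF
open scoped Classical Pointwise DirectSum

theorem exists_embed {Γ : Type*} [AddCommGroup Γ] (F : Finset Γ) :
    ∃ (d : ℕ) (O : Type) (_ : AddCommGroup O) (_ : Finite O) (j : (Fin d → ℤ) × O →+ Γ),
      Function.Injective j ∧ ∀ a ∈ F, ∃ b, j b = a := by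
  set M := AddSubgroup.closure (F : Set Γ) with hM
  have hfg : AddGroup.FG M := AddGroup.closure_finset_fg F
  obtain ⟨n, ι, hι, p, hp, e, ⟨f⟩⟩ := AddCommGroup.equiv_free_prod_directSum_zmod M
  have hne : ∀ i, NeZero (p i ^ e i) := fun i => ⟨pow_ne_zero _ (hp i).ne_zero⟩
  let E₁ : (Fin n →₀ ℤ) ≃+ (Fin n → ℤ) := (Finsupp.linearEquivFunOnFinite ℤ ℤ (Fin n)).toAddEquiv
  let E₂ : (⨁ i : ι, ZMod (p i ^ e i)) ≃+ (∀ i : ι, ZMod (p i ^ e i)) := DirectSum.addEquivProd _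
  let E : (Fin n → ℤ) × (∀ i : ι, ZMod (p i ^ e i)) ≃+ M :=
    (AddEquiv.prodCongr E₁.symm E₂.symm).trans f.symm
  refine ⟨n, ∀ i : ι, ZMod (p i ^ e i), inferInstance, inferInstance,
    M.subtype.comp E.toAddMonoidHom, ?_, ?_⟩
  · intro a b hab
    exact E.injective (Subtype.ext hab)
  · intro a ha
    have hmem : a ∈ M := AddSubgroup.subset_closure (Finset.mem_coe.2 ha)
    refine ⟨E.symm ⟨a, hmem⟩, ?_⟩
    show ((E (E.symm ⟨a, hmem⟩) : M) : Γ) = a
    rw [AddEquiv.apply_symm_apply]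

theorem jump_inj {Γ Γ' : Type*} [AddCommGroup Γ] [AddCommGroup Γ'] (j : Γ →+ Γ')
    (hj : Function.Injective j) {m : ℕ} (z : Fin m → Γ) (r : Fin m → ℝ) (k : ℕ) (y : Γ) :
    jump (fun i => j (z i)) r k (j y) = jump z r k y := by
  induction k generalizing y with
  | zero =>
    unfold jump
    by_cases h0 : y = 0
    · rw [h0, map_zero, if_pos rfl, if_pos rfl]
    · rw [if_neg h0, if_neg]
      intro h1
      exact h0 (hj (by rw [h1, map_zero]))
  | succ k ih =>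
    unfold jump
    refine Finset.sum_congr rfl fun i _ => ?_
    have h1 := ih (y - z i)
    have h2 := ih (y + z i)
    rw [map_sub] at h1
    rw [map_add] at h2
    rw [h1, h2]

theorem walk_inj {Γ Γ' : Type*} [AddCommGroup Γ] [AddCommGroup Γ'] (j : Γ →+ Γ')
    (hj : Function.Injective j) {m : ℕ} (z : Fin m → Γ) (r : Fin m → ℝ) (y : Γ) :
    walk (fun i => j (z i)) r (j y) = walk z r y := by
  unfold walk
  simp_rw [jump_inj j hj]

theorem law_form {Γ : Type*} [AddCommGroup Γ] {m : ℕ}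
    (z : Fin m → Γ) {r : Fin m → ℝ} (hr : ∀ i, 0 ≤ r i)
    {S : Finset Γ} {σ : Γ → ℝ}
    (hσ0 : ∀ y ∈ S, 0 ≤ σ y) (hσ1 : ∑ y ∈ S, σ y = 1) {K : ℝ} (hK : 1 ≤ K)
    (h1 : walk z r 0 ≤ K * ∑ y ∈ S, σ y ^ 2)
    (h2 : ∑ y ∈ S, σ y ^ 2 ≤ K * ∑ y ∈ S, ∑ y' ∈ S, σ y * σ y' * walk z r (y' - y)) :
    ∃ (n : ℕ) (B : Set (Fin n → ℝ)) (ψ : (Fin n → ℤ) →+ Γ)
      (H : AddSubgroup Γ) (g : Γ),
      (n : ℝ) ≤ 10 ^ 21 * Real.log (2 * K) ∧ Body B ∧ Finite H ∧
      ((lat B).ncard * Nat.card H : ℕ) * (∑ y ∈ S, σ y ^ 2) ≤ 1 ∧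
      Real.exp (-(10 ^ 21 * Real.log (2 * K))) ≤
        ∑ y ∈ S.filter (fun y => ∃ w ∈ lat B, ∃ h ∈ H, y = g + ψ w + h), σ y := by
  obtain ⟨d, O, hO, hOf, j, hj, hF⟩ := exists_embed (S ∪ Finset.univ.image z)
  have hz : ∀ i, ∃ b, j b = z i := fun i => hF _ (Finset.mem_union_right _
    (Finset.mem_image_of_mem _ (Finset.mem_univ i)))
  choose z' hz' using hz
  set S' : Finset ((Fin d → ℤ) × O) := S.preimage j hj.injOn with hS'
  have hmap : S = S'.map ⟨j, hj⟩ := by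
    ext a
    rw [Finset.mem_map]
    constructor
    · intro ha
      obtain ⟨b, hb⟩ := hF a (Finset.mem_union_left _ ha)
      refine ⟨b, ?_, hb⟩
      rw [hS', Finset.mem_preimage, hb]
      exact ha
    · rintro ⟨b, hb, rfl⟩
      rw [hS', Finset.mem_preimage] at hb
      exact hb
  have hsum : ∀ f : Γ → ℝ, ∑ y ∈ S, f y = ∑ y ∈ S', f (j y) := by
    intro f
    rw [hmap, Finset.sum_map]
    rfl
  have hwalk : ∀ y, walk z r (j y) = walk z' r y := by
    intro y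
    rw [← walk_inj j hj z' r y]
    congr 1
    funext i
    exact (hz' i).symm
  obtain ⟨n, B, ψ, H, g, hn, hB, hH, hvol, hmass⟩ := red_form z' hr (S := S')
    (σ := fun y => σ (j y)) (fun y hy => hσ0 _ (by
      rw [hS', Finset.mem_preimage] at hy; exact hy)) (by rw [← hsum σ, hσ1]) hK (by
      rw [← hwalk 0, map_zero, ← hsum (fun y => σ y ^ 2)]
      exact h1) (by
      rw [← hsum (fun y => σ y ^ 2)]
      refine h2.trans (le_of_eq ?_)
      rw [hsum]
      congr 1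
      refine Finset.sum_congr rfl fun y _ => ?_
      rw [hsum]
      refine Finset.sum_congr rfl fun y' _ => ?_
      rw [← map_sub, hwalk])
  refine ⟨n, B, j.comp ψ, H.map j, j g, hn, hB, ?_, ?_, ?_⟩
  · exact Finite.of_surjective (fun h : H => (⟨j h, AddSubgroup.mem_map_of_mem j h.2⟩ : H.map j))
      (fun ⟨y, hy⟩ => by
        obtain ⟨h, hh, rfl⟩ := AddSubgroup.mem_map.1 hy
        exact ⟨⟨h, hh⟩, rfl⟩)
  · have hcard : Nat.card (H.map j) = Nat.card H :=
      Nat.card_congr (H.equivMapOfInjective j hj).symm.toEquiv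
    rw [hcard, hsum (fun y => σ y ^ 2)]
    exact hvol
  · refine hmass.trans (le_of_eq ?_)
    rw [Finset.sum_filter, Finset.sum_filter, hsum]
    refine Finset.sum_congr rfl fun y _ => ?_
    have hiff : (∃ w ∈ lat B, ∃ h ∈ H, y = g + ψ w + h) ↔
        (∃ w ∈ lat B, ∃ h ∈ H.map j, j y = j g + (j.comp ψ) w + h) := by
      constructor
      · rintro ⟨w, hw, h, hh, rfl⟩
        refine ⟨w, hw, j h, AddSubgroup.mem_map_of_mem j hh, ?_⟩
        rw [map_add, map_add]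
        rfl
      · rintro ⟨w, hw, h, hh, he⟩
        obtain ⟨h', hh', rfl⟩ := AddSubgroup.mem_map.1 hh
        refine ⟨w, hw, h', hh', hj ?_⟩
        rw [he, map_add, map_add]
        rfl
    by_cases hc : ∃ w ∈ lat B, ∃ h ∈ H, y = g + ψ w + h
    · rw [if_pos hc, if_pos (hiff.1 hc)]
    · rw [if_neg hc, if_neg (fun h => hc (hiff.2 h))]

end T9h11.RW
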