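import Pool.Agent.T9h11.RW13

set_option autoImplicit false
set_option linter.unusedSectionVars false
set_option linter.unusedVariables false

/-! The semigroup property of the walk. -/

namespace T9h11.RW

open Finset H460 T9h11.RM Pool.Agent.Y806.DF
open scoped Classical

variable {Γ : Type*} [AddCommGroup Γ] {m : ℕ} (z : Fin m → Γ) {r : Fin m → ℝ}

theorem jump_smul (r : Fin m → ℝ) (c : ℝ) (k : ℕ) (y : Γ) :
    jump z (fun i => c * r i) k y = c ^ k * jump z r k y := by
  induction k generalizing y with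
  | zero => unfold jump; rw [pow_zero, one_mul]
  | succ k ih =>
    unfold jump
    rw [Finset.mul_sum]
    refine Finset.sum_congr rfl fun i _ => ?_
    rw [ih, ih, pow_succ]
    ring

theorem jump_neg (r : Fin m → ℝ) (k : ℕ) (y : Γ) : jump z r k (-y) = jump z r k y := by
  induction k generalizing y with
  | zero =>
    unfold jump
    by_cases h : y = 0
    · rw [h, neg_zero]
    · rw [if_neg h, if_neg (neg_ne_zero.2 h)]
  | succ k ih =>
    unfold jump
    refine Finset.sum_congr rfl fun i _ => ?_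
    have h1 : jump z r k (-y - z i) = jump z r k (y + z i) := by
      rw [← ih (y + z i)]; congr 1; abel
    have h2 : jump z r k (-y + z i) = jump z r k (y - z i) := by
      rw [← ih (y - z i)]; congr 1; abel
    rw [h1, h2, add_comm]

theorem walk_neg (r : Fin m → ℝ) (y : Γ) : walk z r (-y) = walk z r y := by
  unfold walk
  simp_rw [jump_neg]

theorem jump_conv (r : Fin m → ℝ) (k l : ℕ) (x : Γ) :
    HasSum (fun y => jump z r k y * jump z r l (x - y)) (jump z r (k + l) x) := by
  induction k generalizing x with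
  | zero =>
    rw [zero_add]
    have h := hasSum_single (f := fun y => jump z r 0 y * jump z r l (x - y)) (0 : Γ) (by
      intro y hy
      unfold jump
      rw [if_neg hy, zero_mul])
    have h2 : jump z r 0 (0 : Γ) * jump z r l (x - 0) = jump z r l x := by
      rw [sub_zero]
      have : jump z r 0 (0 : Γ) = 1 := by unfold jump; rw [if_pos rfl]
      rw [this, one_mul]
    rwa [h2] at h
  | succ k ih =>
    have e : k + 1 + l = (k + l) + 1 := by ring
    rw [e]
    have h1 : ∀ i, HasSum (fun y => jump z r k (y - z i) * jump z r l (x - y))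
        (jump z r (k + l) (x - z i)) := by
      intro i
      have h := (Equiv.subRight (z i)).hasSum_iff.2 (ih (x - z i))
      convert h using 1
      funext y
      show _ = jump z r k (y - z i) * jump z r l (x - z i - (y - z i))
      congr 2
      abel
    have h2 : ∀ i, HasSum (fun y => jump z r k (y + z i) * jump z r l (x - y))
        (jump z r (k + l) (x + z i)) := by
      intro i
      have h := (Equiv.addRight (z i)).hasSum_iff.2 (ih (x + z i))
      convert h using 1
      funext y
      show _ = jump z r k (y + z i) * jump z r l (x + z i - (y + z i))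
      congr 2
      abel
    have h3 := hasSum_sum (s := Finset.univ) fun i _ => ((h1 i).add (h2 i)).mul_left (r i / 2)
    have h4 : (fun y => jump z r (k + 1) y * jump z r l (x - y)) = fun y => ∑ i, r i / 2 *
        (jump z r k (y - z i) * jump z r l (x - y) + jump z r k (y + z i) * jump z r l (x - y)) := by
      funext y
      show (∑ i, r i / 2 * (jump z r k (y - z i) + jump z r k (y + z i))) * _ = _
      rw [Finset.sum_mul]
      exact Finset.sum_congr rfl fun i _ => by ring
    rw [h4]
    exact h3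

theorem binom_antidiagonal (a b : ℝ) (n : ℕ) :
    ∑ p ∈ HasAntidiagonal.antidiagonal n, a ^ p.1 / (p.1.factorial : ℝ) * (b ^ p.2 / (p.2.factorial : ℝ)) =
      (a + b) ^ n / (n.factorial : ℝ) := by
  rw [(Commute.all a b).add_pow', Finset.sum_div]
  refine Finset.sum_congr rfl fun p hp => ?_
  rw [HasAntidiagonal.mem_antidiagonal] at hp
  have h1 : (((n.choose p.1 : ℕ) : ℝ)) * p.1.factorial * p.2.factorial = n.factorial := by
    rw [← hp, Nat.choose_symm_add]
    exact_mod_cast Nat.add_choose_mul_factorial_mul_factorial p.1 p.2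
  have h2 : (p.1.factorial : ℝ) ≠ 0 := by positivity
  have h3 : (p.2.factorial : ℝ) ≠ 0 := by positivity
  have h4 : (n.factorial : ℝ) ≠ 0 := by positivity
  rw [nsmul_eq_mul, ← h1]
  have h5 : ((n.choose p.1 : ℕ) : ℝ) ≠ 0 := by
    intro h0
    rw [h0, zero_mul, zero_mul] at h1
    exact h4 h1.symm
  field_simp

theorem walk_conv (hr : ∀ i, 0 ≤ r i) {a b : ℝ} (ha : 0 ≤ a) (hb : 0 ≤ b) (x : Γ) :
    HasSum (fun y => walk z (fun i => a * r i) y * walk z (fun i => b * r i) (x - y))
      (walk z (fun i => (a + b) * r i) x) := by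
  have hwalk : ∀ c : ℝ, 0 ≤ c → ∀ y, HasSum (fun k : ℕ => Real.exp (-(c * ∑ i, r i)) *
      (c ^ k / (k.factorial : ℝ)) * jump z r k y) (walk z (fun i => c * r i) y) := by
    intro c hc y
    have h := (walk_summable z (r := fun i => c * r i) (fun i => mul_nonneg hc (hr i)) y).hasSum
    unfold walk
    convert h using 2
    rw [jump_smul, Finset.mul_sum]
    ring
  set R := ∑ i, r i with hR
  have hR0 : 0 ≤ R := Finset.sum_nonneg fun i _ => hr i
  set w : ℝ → ℕ → ℝ := fun c k => Real.exp (-(c * R)) * (c ^ k / (k.factorial : ℝ)) with hw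
  have hw0 : ∀ c, 0 ≤ c → ∀ k, 0 ≤ w c k := fun c hc k => by rw [hw]; positivity
  set J := jump z r with hJ
  have hJ0 : ∀ k y, 0 ≤ J k y := jump_nonneg z hr
  set F : (ℕ × ℕ) × Γ → ℝ := fun p => (w a p.1.1 * J p.1.1 p.2) * (w b p.1.2 * J p.1.2 (x - p.2))
    with hF
  have hF0 : 0 ≤ F := fun p => mul_nonneg (mul_nonneg (hw0 a ha _) (hJ0 _ _))
    (mul_nonneg (hw0 b hb _) (hJ0 _ _))
  have hF1 : ∀ kl : ℕ × ℕ, HasSum (fun y => F (kl, y)) (w a kl.1 * w b kl.2 * J (kl.1 + kl.2) x) := by
    intro kl
    have h := (jump_conv z r kl.1 kl.2 x).mul_left (w a kl.1 * w b kl.2)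
    have h2 : (fun y => F (kl, y)) = fun y => w a kl.1 * w b kl.2 *
        (jump z r kl.1 y * jump z r kl.2 (x - y)) := by
      funext y
      rw [hF]
      ring
    rw [h2]
    exact h
  have hsc : ∀ c, 0 ≤ c → Summable fun k => w c k * R ^ k := by
    intro c hc
    have h := majorant_summable (c * R)
    refine h.congr fun k => ?_
    rw [hw, mul_pow]
    ring
  have hG : Summable fun kl : ℕ × ℕ => w a kl.1 * w b kl.2 * J (kl.1 + kl.2) x := by
    refine Summable.of_nonneg_of_le (fun kl => mul_nonneg (mul_nonneg (hw0 a ha _) (hw0 b hb _))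
      (hJ0 _ _)) (fun kl => ?_) ((hsc a ha).mul_of_nonneg (hsc b hb)
        (fun k => mul_nonneg (hw0 a ha _) (by positivity))
        (fun k => mul_nonneg (hw0 b hb _) (by positivity)))
    have h := jump_le z hr (kl.1 + kl.2) x
    calc w a kl.1 * w b kl.2 * J (kl.1 + kl.2) x ≤ w a kl.1 * w b kl.2 * R ^ (kl.1 + kl.2) :=
          mul_le_mul_of_nonneg_left h (mul_nonneg (hw0 a ha _) (hw0 b hb _))
      _ = _ := by rw [pow_add]; ring
  have hFs : Summable F := by
    rw [summable_prod_of_nonneg hF0]
    refine ⟨fun kl => (hF1 kl).summable, ?_⟩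
    refine hG.congr fun kl => ?_
    exact (hF1 kl).tsum_eq.symm
  have hT1 : HasSum (fun kl : ℕ × ℕ => w a kl.1 * w b kl.2 * J (kl.1 + kl.2) x) (∑' p, F p) :=
    hFs.hasSum.prod_fiberwise hF1
  have hT2 : HasSum (fun y => walk z (fun i => a * r i) y * walk z (fun i => b * r i) (x - y))
      (∑' p, F p) := by
    have h1 : HasSum (F ∘ (Equiv.prodComm Γ (ℕ × ℕ))) (∑' p, F p) :=
      (Equiv.prodComm Γ (ℕ × ℕ)).hasSum_iff.2 hFs.hasSum
    refine h1.prod_fiberwise fun y => ?_
    have h2 := hwalk a ha y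
    have h3 := hwalk b hb (x - y)
    have h4 : Summable fun kl : ℕ × ℕ => (w a kl.1 * J kl.1 y) * (w b kl.2 * J kl.2 (x - y)) :=
      h2.summable.mul_of_nonneg h3.summable (fun k => mul_nonneg (hw0 a ha _) (hJ0 _ _))
        (fun k => mul_nonneg (hw0 b hb _) (hJ0 _ _))
    exact h2.mul h3 h4
  have hT3 : HasSum (fun n : ℕ => w (a + b) n * J n x) (∑' p, F p) := by
    have h1 := (Finset.HasAntidiagonal.sigmaAntidiagonalEquivProd (A := ℕ)).hasSum_iff.2 hT1
    have h2 := h1.sigma (fun n => hasSum_fintype _)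
    have h3 : (fun n : ℕ => w (a + b) n * J n x) = fun n : ℕ =>
        ∑ c : HasAntidiagonal.antidiagonal n, ((fun kl : ℕ × ℕ => w a kl.1 * w b kl.2 *
          J (kl.1 + kl.2) x) ∘ (Finset.HasAntidiagonal.sigmaAntidiagonalEquivProd (A := ℕ))) ⟨n, c⟩ := by
      funext n
      have h4 : ∑ c : HasAntidiagonal.antidiagonal n, ((fun kl : ℕ × ℕ => w a kl.1 * w b kl.2 *
          J (kl.1 + kl.2) x) ∘ (Finset.HasAntidiagonal.sigmaAntidiagonalEquivProd (A := ℕ))) ⟨n, c⟩
          = ∑ kl ∈ HasAntidiagonal.antidiagonal n, w a kl.1 * w b kl.2 * J (kl.1 + kl.2) x := by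
        rw [← Finset.sum_coe_sort (HasAntidiagonal.antidiagonal n)
          (fun kl => w a kl.1 * w b kl.2 * J (kl.1 + kl.2) x)]
        rfl
      rw [h4]
      have h5 : ∀ kl ∈ HasAntidiagonal.antidiagonal n, w a kl.1 * w b kl.2 * J (kl.1 + kl.2) x =
          Real.exp (-((a + b) * R)) * J n x * (a ^ kl.1 / (kl.1.factorial : ℝ) *
            (b ^ kl.2 / (kl.2.factorial : ℝ))) := by
        intro kl hkl
        rw [HasAntidiagonal.mem_antidiagonal] at hkl
        rw [hkl, hw]
        have h6 : Real.exp (-((a + b) * R)) = Real.exp (-(a * R)) * Real.exp (-(b * R)) := by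
          rw [← Real.exp_add]; congr 1; ring
        rw [h6]
        ring
      rw [Finset.sum_congr rfl h5, ← Finset.mul_sum, binom_antidiagonal, hw]
      ring
    rw [h3]
    exact h2
  have h := hT3.unique (hwalk (a + b) (add_nonneg ha hb) x)
  rw [← h]
  exact hT2

end T9h11.RW
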