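import Pool.Agent.T9h11.RW1

set_option autoImplicit false
set_option linter.unusedSectionVars false
set_option linter.unusedVariables false

/-! Cosine-positive functions and bumps. -/

namespace T9h11.RW

open Finset
open scoped Classical

variable {Γ : Type*} [AddCommGroup Γ] [Fintype Γ] {ι : Type*} [Fintype ι]

theorem norm_char (χ : AddChar Γ ℂ) (x : Γ) : ‖χ x‖ = 1 := AddChar.norm_apply χ x

theorem re_le_one (χ : AddChar Γ ℂ) (x : Γ) : (χ x).re ≤ 1 :=
  (Complex.re_le_norm _).trans (norm_char χ x).le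

theorem inv_char (χ : AddChar Γ ℂ) (x : Γ) : χ⁻¹ x = (starRingEnd ℂ) (χ x) := by
  rw [AddChar.inv_apply, re_neg]

theorem inv_re (χ : AddChar Γ ℂ) (x : Γ) : (χ⁻¹ x).re = (χ x).re := by
  rw [inv_char, Complex.conj_re]

theorem normSq_char (χ : AddChar Γ ℂ) (x : Γ) : (χ x).re ^ 2 + (χ x).im ^ 2 = 1 := by
  have h := norm_char χ x
  have h2 : ‖χ x‖ ^ 2 = 1 := by rw [h]; norm_num
  rw [Complex.sq_norm, Complex.normSq_apply] at h2
  nlinarith

theorem norm_sub_one_sq (χ : AddChar Γ ℂ) (x : Γ) : ‖χ x - 1‖ ^ 2 = 2 * (1 - (χ x).re) := by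
  have h := normSq_char χ x
  rw [Complex.sq_norm, Complex.normSq_apply]
  simp only [Complex.sub_re, Complex.sub_im, Complex.one_re, Complex.one_im]
  nlinarith

theorem sum_char_re (χ : AddChar Γ ℂ) :
    ∑ x, (χ x).re = if χ = 1 then (Fintype.card Γ : ℝ) else 0 := by
  have h := AddChar.sum_eq_ite χ
  have h2 := congrArg Complex.re h
  rw [Complex.re_sum] at h2
  rw [h2, ← AddChar.one_eq_zero]
  split_ifs <;> simp

theorem CP.one : CP (fun _ : AddChar Γ ℂ => (1 : ℝ)) := by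
  refine ⟨fun x => if x = 0 then 1 else 0, fun x => by beta_reduce; split_ifs <;> norm_num, fun χ => ?_⟩
  rw [Finset.sum_eq_single (0 : Γ)]
  · simp
  · intro b _ hb
    simp [hb]
  · intro h
    exact absurd (Finset.mem_univ _) h

theorem CP.prod {κ : Type*} (s : Finset κ) (f : κ → AddChar Γ ℂ → ℝ) (h : ∀ i ∈ s, CP (f i)) :
    CP (fun χ => ∏ i ∈ s, f i χ) := by
  induction s using Finset.induction_on with
  | empty => simpa using CP.one
  | insert i s hi ih =>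
    have h1 := CP.mul (h i (Finset.mem_insert_self _ _))
      (ih fun j hj => h j (Finset.mem_insert_of_mem hj))
    convert h1 using 2
    rw [Finset.prod_insert hi]

theorem CP.of_transform {w : AddChar Γ ℂ → ℝ} (he : ∀ χ, w χ⁻¹ = w χ)
    (h : ∀ y, 0 ≤ ∑ χ, w χ * (χ y).re) : CP w := by
  have hn : (0 : ℝ) < Fintype.card Γ := by exact_mod_cast Fintype.card_pos
  refine ⟨fun y => (∑ χ, w χ * (χ y).re) / Fintype.card Γ, fun y => div_nonneg (h y) hn.le,
    fun ψ => ?_⟩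
  have h1 : ∀ χ : AddChar Γ ℂ, ∑ y, (χ y).re * (ψ y).re =
      ((if χ * ψ = 1 then (Fintype.card Γ : ℝ) else 0) +
        (if χ * ψ⁻¹ = 1 then (Fintype.card Γ : ℝ) else 0)) / 2 := by
    intro χ
    rw [← sum_char_re, ← sum_char_re, ← Finset.sum_add_distrib, Finset.sum_div]
    refine Finset.sum_congr rfl fun y _ => ?_
    rw [AddChar.mul_apply, AddChar.mul_apply, inv_char]
    simp only [Complex.mul_re, Complex.conj_re, Complex.conj_im]
    ring
  have h2 : ∑ y, (∑ χ, w χ * (χ y).re) / Fintype.card Γ * (ψ y).re =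
      (∑ χ, w χ * ∑ y, (χ y).re * (ψ y).re) / Fintype.card Γ := by
    simp_rw [Finset.mul_sum, Finset.sum_div, Finset.sum_mul]
    rw [Finset.sum_comm]
    refine Finset.sum_congr rfl fun χ _ => Finset.sum_congr rfl fun y _ => ?_
    ring
  rw [h2]
  simp_rw [h1]
  have h3 : ∀ χ : AddChar Γ ℂ, w χ * (((if χ * ψ = 1 then (Fintype.card Γ : ℝ) else 0) +
      (if χ * ψ⁻¹ = 1 then (Fintype.card Γ : ℝ) else 0)) / 2) =
      (if χ = ψ⁻¹ then w χ * (Fintype.card Γ / 2) else 0) +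
        (if χ = ψ then w χ * (Fintype.card Γ / 2) else 0) := by
    intro χ
    have e1 : (χ * ψ = 1) ↔ (χ = ψ⁻¹) := mul_eq_one_iff_eq_inv
    have e2 : (χ * ψ⁻¹ = 1) ↔ (χ = ψ) := mul_inv_eq_one
    simp only [e1, e2]
    split_ifs <;> ring
  simp_rw [h3]
  rw [Finset.sum_add_distrib, Finset.sum_ite_eq', Finset.sum_ite_eq']
  simp only [Finset.mem_univ, if_true]
  rw [he]
  field_simp
  ring

theorem gav_mono (p : ι → Γ) (ν : ι → ℝ) {u v : AddChar Γ ℂ → ℝ} (h : ∀ χ, u χ ≤ v χ) :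
    gav p ν u ≤ gav p ν v :=
  Finset.sum_le_sum fun χ _ => mul_le_mul_of_nonneg_right (h χ) (Real.exp_pos _).le

theorem gav_nonneg' (p : ι → Γ) (ν : ι → ℝ) {u : AddChar Γ ℂ → ℝ} (h : ∀ χ, 0 ≤ u χ) :
    0 ≤ gav p ν u :=
  Finset.sum_nonneg fun χ _ => mul_nonneg (h χ) (Real.exp_pos _).le

theorem CP.gav_nonneg {u : AddChar Γ ℂ → ℝ} (hu : CP u) (p : ι → Γ) {ν : ι → ℝ}
    (hν : ∀ z, 0 ≤ ν z) : 0 ≤ gav p ν u := by
  obtain ⟨a, ha, hau⟩ := hu
  have e1 : gav p ν u = ∑ x, a x * gav p ν (fun χ => (χ x).re) := by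
    rw [← gav_sum]; congr 1; funext χ; exact hau χ
  rw [e1]
  exact Finset.sum_nonneg fun x _ => mul_nonneg (ha x) (griffiths_one p hν x)

theorem CP.avg_le {u : AddChar Γ ℂ → ℝ} (hu : CP u) (p : ι → Γ) {ν : ι → ℝ}
    (hν : ∀ z, 0 ≤ ν z) : (∑ χ, u χ) * gav p ν (fun _ => 1) ≤ Fintype.card Γ * gav p ν u := by
  obtain ⟨a, ha, hau⟩ := hu
  have hn : (0 : ℝ) < Fintype.card Γ := by exact_mod_cast Fintype.card_pos
  have e1 : gav p ν u = ∑ x, a x * gav p ν (fun χ => (χ x).re) := by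
    rw [← gav_sum]; congr 1; funext χ; exact hau χ
  have e2 : ∑ χ, u χ = Fintype.card Γ * a 0 := by
    simp_rw [hau]
    rw [Finset.sum_comm]
    simp_rw [← Finset.mul_sum, sum_re]
    rw [Finset.sum_eq_single (0 : Γ)]
    · simp; ring
    · intro b _ hb
      simp [hb]
    · intro h
      exact absurd (Finset.mem_univ _) h
  have e3 : a 0 * gav p ν (fun _ => 1) ≤ gav p ν u := by
    rw [e1]
    have h1 : a 0 * gav p ν (fun _ => 1) = a 0 * gav p ν (fun χ => (χ 0).re) := by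
      congr 2
      funext χ
      simp
    rw [h1]
    exact Finset.single_le_sum (f := fun x => a x * gav p ν (fun χ => (χ x).re))
      (fun x _ => mul_nonneg (ha x) (griffiths_one p hν x)) (Finset.mem_univ _)
  rw [e2, mul_assoc]
  exact mul_le_mul_of_nonneg_left e3 hn.le

/-- products -/
theorem gav_prod {κ : Type*} (p : ι → Γ) {ν : ι → ℝ} (hν : ∀ z, 0 ≤ ν z) (s : Finset κ)
    (f : κ → AddChar Γ ℂ → ℝ) (h : ∀ i ∈ s, CP (f i)) (c : κ → ℝ)
    (hc : ∀ i ∈ s, Real.exp (-c i) * gav p ν (fun _ => 1) ≤ gav p ν (f i)) :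
    Real.exp (-∑ i ∈ s, c i) * gav p ν (fun _ => 1) ≤ gav p ν (fun χ => ∏ i ∈ s, f i χ) := by
  have hZ := gav_one_pos p ν
  induction s using Finset.induction_on with
  | empty => simp
  | insert i s hi ih =>
    have h1 := ih (fun j hj => h j (Finset.mem_insert_of_mem hj))
      (fun j hj => hc j (Finset.mem_insert_of_mem hj))
    have h2 := hc i (Finset.mem_insert_self _ _)
    have h3 := ginibre p hν (h i (Finset.mem_insert_self _ _))
      (CP.prod s f (fun j hj => h j (Finset.mem_insert_of_mem hj)))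
    have h4 : (fun χ => ∏ j ∈ insert i s, f j χ) = fun χ => f i χ * ∏ j ∈ s, f j χ := by
      funext χ; rw [Finset.prod_insert hi]
    rw [h4, Finset.sum_insert hi]
    have h5 : (Real.exp (-c i) * gav p ν (fun _ => 1)) *
        (Real.exp (-∑ j ∈ s, c j) * gav p ν (fun _ => 1)) ≤
        gav p ν (fun χ => f i χ * ∏ j ∈ s, f j χ) * gav p ν (fun _ => 1) := by
      refine le_trans (mul_le_mul h2 h1 (by positivity) ?_) h3
      exact (mul_nonneg (Real.exp_pos _).le hZ.le).trans h2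
    have h6 : Real.exp (-(c i + ∑ j ∈ s, c j)) = Real.exp (-c i) * Real.exp (-∑ j ∈ s, c j) := by
      rw [← Real.exp_add]; congr 1; ring
    rw [h6]
    have h7 : (Real.exp (-c i) * Real.exp (-∑ j ∈ s, c j) * gav p ν (fun _ => 1)) *
        gav p ν (fun _ => 1) ≤ gav p ν (fun χ => f i χ * ∏ j ∈ s, f j χ) * gav p ν (fun _ => 1) := by
      refine le_trans (le_of_eq ?_) h5
      ring
    exact le_of_mul_le_mul_right h7 hZ

/-! ### bumps -/

/-- a hat function on the circle -/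
noncomputable def hat (u : ℂ) : ℝ := max 0 (1 - 4 * ‖u - 1‖)

theorem hat_nonneg (u : ℂ) : 0 ≤ hat u := le_max_left _ _

theorem hat_le_one (u : ℂ) : hat u ≤ 1 := by
  refine max_le zero_le_one ?_
  have := norm_nonneg (u - 1)
  linarith

theorem hat_sub_le (u v : ℂ) : |hat u - hat v| ≤ 4 * ‖u - v‖ := by
  unfold hat
  have h1 := abs_max_sub_max_le_abs (1 - 4 * ‖u - 1‖) (1 - 4 * ‖v - 1‖) 0
  rw [max_comm, max_comm (1 - 4 * ‖v - 1‖)] at h1
  refine h1.trans ?_
  have h2 : (1 - 4 * ‖u - 1‖) - (1 - 4 * ‖v - 1‖) = 4 * (‖v - 1‖ - ‖u - 1‖) := by ring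
  rw [h2, abs_mul, abs_of_pos (by norm_num : (0 : ℝ) < 4)]
  have h3 := abs_norm_sub_norm_le (v - 1) (u - 1)
  have h4 : v - 1 - (u - 1) = v - u := by ring
  rw [h4, norm_sub_rev v u] at h3
  linarith

theorem floor_key {r s : ℝ} (h : |10 * r - 10 * s| < 1) : (r - s) * (r - s) ≤ 1 / 100 := by
  have h9 : (10 * r - 10 * s) ^ 2 < 1 := (sq_lt_one_iff_abs_lt_one _).2 h
  nlinarith

/-- many characters are close to one at a given point -/
theorem many_near (x : Γ) : (Fintype.card Γ : ℝ) / 441 ≤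
    ((Finset.univ.filter fun ψ : AddChar Γ ℂ => ‖ψ x - 1‖ ≤ 3 / 20).card : ℝ) := by
  have hcard : Fintype.card (AddChar Γ ℂ) = Fintype.card Γ := AddChar.card_eq
  set t : Finset (ℤ × ℤ) := Finset.Icc (-10) 10 ×ˢ Finset.Icc (-10) 10 with ht
  set f : AddChar Γ ℂ → ℤ × ℤ := fun ψ => (⌊10 * (ψ x).re⌋, ⌊10 * (ψ x).im⌋) with hf
  have habs : ∀ r : ℝ, |r| ≤ 1 → ⌊10 * r⌋ ∈ Finset.Icc (-10 : ℤ) 10 := by
    intro r hr
    rw [abs_le] at hr
    rw [Finset.mem_Icc]
    constructor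
    · rw [Int.le_floor]; push_cast; linarith
    · have h1 : ⌊10 * r⌋ ≤ ⌊(10 : ℝ)⌋ := Int.floor_le_floor (by linarith)
      have h2 : ⌊(10 : ℝ)⌋ = 10 := by norm_num
      rwa [h2] at h1
  have hmaps : ∀ ψ ∈ (Finset.univ : Finset (AddChar Γ ℂ)), f ψ ∈ t := by
    intro ψ _
    rw [ht, Finset.mem_product]
    exact ⟨habs _ ((Complex.abs_re_le_norm _).trans (norm_char ψ x).le),
      habs _ ((Complex.abs_im_le_norm _).trans (norm_char ψ x).le)⟩
  have htc : t.card = 441 := by rw [ht, Finset.card_product, Int.card_Icc]; decide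
  have htne : t.Nonempty := by rw [← Finset.card_pos, htc]; norm_num
  obtain ⟨y, hy, hy2⟩ := Finset.exists_le_card_fiber_of_nsmul_le_card_of_maps_to
    (M := ℝ) (b := (Fintype.card Γ : ℝ) / 441) hmaps htne (by
      rw [htc, Finset.card_univ, hcard, nsmul_eq_mul]
      push_cast
      linarith)
  refine hy2.trans ?_
  set S := Finset.univ.filter fun ψ => f ψ = y with hS
  have hSne : S.Nonempty := by
    rw [← Finset.card_pos]
    have h1 : (0 : ℝ) < Fintype.card Γ := by exact_mod_cast Fintype.card_pos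
    have h2 : (0 : ℝ) < S.card := lt_of_lt_of_le (by positivity) hy2
    exact_mod_cast h2
  obtain ⟨ψ₀, hψ₀⟩ := hSne
  have h1 : S.card ≤ (Finset.univ.filter fun ψ : AddChar Γ ℂ => ‖ψ x - 1‖ ≤ 3 / 20).card := by
    refine Finset.card_le_card_of_injOn (fun ψ => ψ * ψ₀⁻¹) ?_ ?_
    · intro ψ hψ
      rw [Finset.mem_coe, hS, Finset.mem_filter] at hψ
      rw [hS, Finset.mem_filter] at hψ₀
      simp only [Finset.coe_filter, Finset.mem_univ, true_and, Set.mem_setOf_eq]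
      have e1 : f ψ = f ψ₀ := hψ.2.trans hψ₀.2.symm
      have e2 : ⌊10 * (ψ x).re⌋ = ⌊10 * (ψ₀ x).re⌋ := congrArg Prod.fst e1
      have e3 : ⌊10 * (ψ x).im⌋ = ⌊10 * (ψ₀ x).im⌋ := congrArg Prod.snd e1
      have e4 := Int.abs_sub_lt_one_of_floor_eq_floor e2
      have e5 := Int.abs_sub_lt_one_of_floor_eq_floor e3
      have e6 : ‖(ψ * ψ₀⁻¹) x - 1‖ = ‖ψ x - ψ₀ x‖ := by
        have e7 : ψ x - ψ₀ x = ((ψ * ψ₀⁻¹) x - 1) * ψ₀ x := by
          rw [AddChar.mul_apply, AddChar.inv_apply', sub_mul, one_mul, mul_assoc, inv_mul_cancel₀,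
            mul_one]
          intro h0
          have := norm_char ψ₀ x
          rw [h0, norm_zero] at this
          norm_num at this
        rw [e7, norm_mul, norm_char, mul_one]
      rw [e6]
      have e8 : ‖ψ x - ψ₀ x‖ ^ 2 ≤ (3 / 20) ^ 2 := by
        rw [Complex.sq_norm, Complex.normSq_apply]
        simp only [Complex.sub_re, Complex.sub_im]
        exact (add_le_add (floor_key e4) (floor_key e5)).trans (by norm_num)
      exact le_of_sq_le_sq e8 (by norm_num)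
    · intro ψ _ ψ' _ hh
      exact mul_right_cancel hh
  exact_mod_cast h1

/-- normalisation of the bump -/
noncomputable def bn (x : Γ) : ℝ := ∑ ψ : AddChar Γ ℂ, hat (ψ x) ^ 2

/-- the bump at `x` -/
noncomputable def bump (x : Γ) (χ : AddChar Γ ℂ) : ℝ :=
  (∑ ψ : AddChar Γ ℂ, hat (ψ x) * hat ((χ * ψ) x)) / bn x

theorem bn_ge (x : Γ) : (Fintype.card Γ : ℝ) / 2757 ≤ bn x := by
  have h1 := many_near x
  have h2 : ((Finset.univ.filter fun ψ : AddChar Γ ℂ => ‖ψ x - 1‖ ≤ 3 / 20).card : ℝ) * (4 / 25) ≤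
      bn x := by
    unfold bn
    rw [← nsmul_eq_mul]
    refine (Finset.card_nsmul_le_sum _ (fun ψ : AddChar Γ ℂ => hat (ψ x) ^ 2) _ ?_).trans
      (Finset.sum_le_sum_of_subset_of_nonneg (Finset.filter_subset _ _) fun ψ _ _ => sq_nonneg _)
    intro ψ hψ
    have h3 := (Finset.mem_filter.1 hψ).2
    have h4 : 2 / 5 ≤ hat (ψ x) := le_max_of_le_right (by linarith)
    nlinarith
  have h3 : (0 : ℝ) ≤ Fintype.card Γ := Nat.cast_nonneg _
  linarith

theorem sum_hat_ge (x : Γ) : (Fintype.card Γ : ℝ) / 1103 ≤ ∑ ψ : AddChar Γ ℂ, hat (ψ x) := by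
  have h1 := many_near x
  have h2 : ((Finset.univ.filter fun ψ : AddChar Γ ℂ => ‖ψ x - 1‖ ≤ 3 / 20).card : ℝ) * (2 / 5) ≤
      ∑ ψ : AddChar Γ ℂ, hat (ψ x) := by
    rw [← nsmul_eq_mul]
    refine (Finset.card_nsmul_le_sum _ (fun ψ : AddChar Γ ℂ => hat (ψ x)) _ ?_).trans
      (Finset.sum_le_sum_of_subset_of_nonneg (Finset.filter_subset _ _) fun ψ _ _ => hat_nonneg _)
    intro ψ hψ
    have h3 := (Finset.mem_filter.1 hψ).2
    exact le_max_of_le_right (by linarith)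
  have h3 : (0 : ℝ) ≤ Fintype.card Γ := Nat.cast_nonneg _
  linarith

theorem bn_pos (x : Γ) : 0 < bn x := by
  have h1 : (0 : ℝ) < Fintype.card Γ := by exact_mod_cast Fintype.card_pos
  exact lt_of_lt_of_le (by positivity) (bn_ge x)

theorem bn_shift (x : Γ) (χ : AddChar Γ ℂ) : ∑ ψ : AddChar Γ ℂ, hat ((χ * ψ) x) ^ 2 = bn x :=
  Equiv.sum_comp (Equiv.mulLeft χ) (fun ψ : AddChar Γ ℂ => hat (ψ x) ^ 2)

theorem bump_nonneg (x : Γ) (χ : AddChar Γ ℂ) : 0 ≤ bump x χ :=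
  div_nonneg (Finset.sum_nonneg fun ψ _ => mul_nonneg (hat_nonneg _) (hat_nonneg _)) (bn_pos x).le

theorem one_sub_bump (x : Γ) (χ : AddChar Γ ℂ) :
    1 - bump x χ = (∑ ψ : AddChar Γ ℂ, (hat (ψ x) - hat ((χ * ψ) x)) ^ 2) / (2 * bn x) := by
  have h1 : ∑ ψ : AddChar Γ ℂ, (hat (ψ x) - hat ((χ * ψ) x)) ^ 2 =
      2 * bn x - 2 * ∑ ψ : AddChar Γ ℂ, hat (ψ x) * hat ((χ * ψ) x) := by
    have h2 : ∀ ψ : AddChar Γ ℂ, (hat (ψ x) - hat ((χ * ψ) x)) ^ 2 =
        hat (ψ x) ^ 2 + hat ((χ * ψ) x) ^ 2 - 2 * (hat (ψ x) * hat ((χ * ψ) x)) := by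
      intro ψ; ring
    simp_rw [h2]
    rw [Finset.sum_sub_distrib, Finset.sum_add_distrib, bn_shift, ← Finset.mul_sum]
    unfold bn
    ring
  rw [h1, bump]
  have := (bn_pos x).ne'
  field_simp

theorem bump_le_one (x : Γ) (χ : AddChar Γ ℂ) : bump x χ ≤ 1 := by
  have h := one_sub_bump x χ
  have h2 : 0 ≤ (∑ ψ : AddChar Γ ℂ, (hat (ψ x) - hat ((χ * ψ) x)) ^ 2) / (2 * bn x) :=
    div_nonneg (Finset.sum_nonneg fun ψ _ => sq_nonneg _) (by linarith [bn_pos x])
  linarith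

theorem bump_ge (x : Γ) (χ : AddChar Γ ℂ) : 1 - 44112 * (1 - (χ x).re) ≤ bump x χ := by
  have h := one_sub_bump x χ
  have hb := bn_pos x
  have hb2 := bn_ge x
  have hn : (0 : ℝ) < Fintype.card Γ := by exact_mod_cast Fintype.card_pos
  have h2 : ∑ ψ : AddChar Γ ℂ, (hat (ψ x) - hat ((χ * ψ) x)) ^ 2 ≤
      Fintype.card Γ * (32 * (1 - (χ x).re)) := by
    have h3 : ∀ ψ ∈ (Finset.univ : Finset (AddChar Γ ℂ)), (hat (ψ x) - hat ((χ * ψ) x)) ^ 2 ≤
        32 * (1 - (χ x).re) := by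
      intro ψ _
      have h4 := hat_sub_le (ψ x) ((χ * ψ) x)
      have h5 : ‖ψ x - (χ * ψ) x‖ = ‖χ x - 1‖ := by
        have : ψ x - (χ * ψ) x = -(χ x - 1) * ψ x := by rw [AddChar.mul_apply]; ring
        rw [this, norm_mul, norm_char, mul_one, norm_neg]
      rw [h5] at h4
      have h6 : (hat (ψ x) - hat ((χ * ψ) x)) ^ 2 ≤ (4 * ‖χ x - 1‖) ^ 2 := by
        rw [← sq_abs]
        exact pow_le_pow_left₀ (abs_nonneg _) h4 2
      rw [mul_pow, norm_sub_one_sq] at h6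
      linarith
    have h4 := Finset.sum_le_card_nsmul _ _ _ h3
    rw [Finset.card_univ, AddChar.card_eq, nsmul_eq_mul] at h4
    exact h4
  have h3 : (∑ ψ : AddChar Γ ℂ, (hat (ψ x) - hat ((χ * ψ) x)) ^ 2) / (2 * bn x) ≤
      44112 * (1 - (χ x).re) := by
    rw [div_le_iff₀ (by linarith)]
    refine h2.trans ?_
    have h4 : 0 ≤ 1 - (χ x).re := by linarith [re_le_one χ x]
    have h5 : (Fintype.card Γ : ℝ) ≤ 2757 * bn x := by linarith
    calc (Fintype.card Γ : ℝ) * (32 * (1 - (χ x).re)) ≤ (2757 * bn x) * (32 * (1 - (χ x).re)) :=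
          mul_le_mul_of_nonneg_right h5 (by positivity)
      _ = 44112 * (1 - (χ x).re) * (2 * bn x) := by ring
  linarith

theorem bump_supp {x : Γ} {χ : AddChar Γ ℂ} (h : bump x χ ≠ 0) : ‖χ x - 1‖ < 1 / 2 := by
  have h1 : ∑ ψ : AddChar Γ ℂ, hat (ψ x) * hat ((χ * ψ) x) ≠ 0 := by
    intro h0
    apply h
    rw [bump, h0, zero_div]
  obtain ⟨ψ, -, hψ⟩ := Finset.exists_ne_zero_of_sum_ne_zero h1
  have h2 : hat (ψ x) ≠ 0 := left_ne_zero_of_mul hψ
  have h3 : hat ((χ * ψ) x) ≠ 0 := right_ne_zero_of_mul hψ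
  have key : ∀ u : ℂ, hat u ≠ 0 → ‖u - 1‖ < 1 / 4 := by
    intro u hu
    by_contra hcon
    push Not at hcon
    apply hu
    exact max_eq_left (by linarith)
  have h4 := key _ h2
  have h5 := key _ h3
  have h6 : ‖χ x - 1‖ = ‖(χ * ψ) x - ψ x‖ := by
    have : (χ * ψ) x - ψ x = (χ x - 1) * ψ x := by rw [AddChar.mul_apply]; ring
    rw [this, norm_mul, norm_char, mul_one]
  rw [h6]
  have h7 : (χ * ψ) x - ψ x = ((χ * ψ) x - 1) - (ψ x - 1) := by ring
  rw [h7]
  exact (norm_sub_le _ _).trans_lt (by linarith)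

theorem bump_cp (x : Γ) : CP (bump x) := by
  apply CP.of_transform
  · intro χ
    unfold bump
    congr 1
    rw [← Equiv.sum_comp (Equiv.mulLeft χ)]
    refine Finset.sum_congr rfl fun ψ _ => ?_
    simp only [Equiv.coe_mulLeft, inv_mul_cancel_left]
    ring
  · intro y
    have h1 : ∑ χ : AddChar Γ ℂ, bump x χ * (χ y).re =
        ((∑ ψ : AddChar Γ ℂ, hat (ψ x) * (ψ y).re) ^ 2 +
          (∑ ψ : AddChar Γ ℂ, hat (ψ x) * (ψ y).im) ^ 2) / bn x := by
      unfold bump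
      simp_rw [div_mul_eq_mul_div]
      rw [← Finset.sum_div]
      congr 1
      simp_rw [Finset.sum_mul]
      rw [Finset.sum_comm, sq, sq, Finset.sum_mul, Finset.sum_mul, ← Finset.sum_add_distrib]
      refine Finset.sum_congr rfl fun ψ _ => ?_
      rw [Finset.mul_sum, Finset.mul_sum, ← Finset.sum_add_distrib,
        ← Equiv.sum_comp (Equiv.mulRight ψ⁻¹)]
      refine Finset.sum_congr rfl fun χ _ => ?_
      simp only [Equiv.coe_mulRight, inv_mul_cancel_right]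
      rw [AddChar.mul_apply, inv_char]
      simp only [Complex.mul_re, Complex.conj_re, Complex.conj_im]
      ring
    rw [h1]
    exact div_nonneg (add_nonneg (sq_nonneg _) (sq_nonneg _)) (bn_pos x).le

theorem sum_bump (x : Γ) : (Fintype.card Γ : ℝ) / 1103 ≤ ∑ χ, bump x χ := by
  have h1 : ∑ χ, bump x χ = (∑ ψ : AddChar Γ ℂ, hat (ψ x)) ^ 2 / bn x := by
    unfold bump
    rw [← Finset.sum_div, Finset.sum_comm]
    congr 1
    rw [sq, Finset.sum_mul]
    refine Finset.sum_congr rfl fun ψ _ => ?_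
    rw [← Finset.mul_sum]
    congr 1
    exact Equiv.sum_comp (Equiv.mulRight ψ) (fun χ : AddChar Γ ℂ => hat (χ x))
  have h2 : bn x ≤ ∑ ψ : AddChar Γ ℂ, hat (ψ x) := by
    refine Finset.sum_le_sum fun ψ _ => ?_
    have := hat_nonneg (ψ x)
    have := hat_le_one (ψ x)
    nlinarith
  have h3 := sum_hat_ge x
  have hb := bn_pos x
  rw [h1, le_div_iff₀ hb]
  have hn : (0 : ℝ) ≤ Fintype.card Γ := Nat.cast_nonneg _
  calc (Fintype.card Γ : ℝ) / 1103 * bn x ≤
      (∑ ψ : AddChar Γ ℂ, hat (ψ x)) * (∑ ψ : AddChar Γ ℂ, hat (ψ x)) :=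
        mul_le_mul h3 h2 hb.le ((by positivity : (0 : ℝ) ≤ (Fintype.card Γ : ℝ) / 1103).trans h3)
    _ = _ := by ring

/-- the mean of a bump -/
theorem gav_bump (p : ι → Γ) {ν : ι → ℝ} (hν : ∀ z, 0 ≤ ν z) (x : Γ) :
    Real.exp (-(700000 * (gav p ν (fun χ => 1 - (χ x).re) / gav p ν (fun _ => 1)))) *
      gav p ν (fun _ => 1) ≤ gav p ν (bump x) := by
  have hZ := gav_one_pos p ν
  set Z := gav p ν (fun _ => 1) with hZdef
  set e := gav p ν (fun χ => 1 - (χ x).re) / Z with he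
  have hn : (0 : ℝ) < Fintype.card Γ := by exact_mod_cast Fintype.card_pos
  have h1 : Z / 1103 ≤ gav p ν (bump x) := by
    have h2 := (bump_cp x).avg_le p hν
    have h3 := mul_le_mul_of_nonneg_right (sum_bump x) hZ.le
    have h4 : (Fintype.card Γ : ℝ) * (Z / 1103) ≤ Fintype.card Γ * gav p ν (bump x) := by
      refine le_trans (le_of_eq ?_) (h3.trans h2)
      ring
    exact le_of_mul_le_mul_left h4 hn
  have h2 : (1 - 44112 * e) * Z ≤ gav p ν (bump x) := by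
    refine le_trans (le_of_eq ?_) (gav_mono p ν (bump_ge x))
    have h3 : gav p ν (fun χ => 1 - 44112 * (1 - (χ x).re)) =
        Z - 44112 * gav p ν (fun χ => 1 - (χ x).re) := by
      rw [hZdef]
      unfold gav
      rw [Finset.mul_sum, ← Finset.sum_sub_distrib]
      refine Finset.sum_congr rfl fun χ _ => ?_
      ring
    rw [h3, he]
    field_simp
  have he0 : 0 ≤ e := div_nonneg (gav_nonneg' p ν fun χ => by linarith [re_le_one χ x]) hZ.le
  rcases le_or_gt (44112 * e) (1 / 2) with hcase | hcase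
  · refine le_trans (mul_le_mul_of_nonneg_right ?_ hZ.le) h2
    -- exp(-700000 e) ≤ exp (-2 * 44112 e) ≤ 1 - 44112 e
    have h3 : Real.exp (-(700000 * e)) ≤ Real.exp (-(2 * (44112 * e))) :=
      Real.exp_le_exp.2 (by nlinarith)
    refine h3.trans ?_
    set y := 44112 * e with hy
    have hy0 : 0 ≤ y := by positivity
    have h4 := Real.add_one_le_exp (2 * y)
    have h5 : 1 ≤ (1 - y) * Real.exp (2 * y) := by nlinarith
    have h6 : Real.exp (-(2 * y)) * Real.exp (2 * y) = 1 := by rw [← Real.exp_add]; simp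
    have h7 := Real.exp_pos (2 * y)
    exact le_of_mul_le_mul_right (by linarith) h7
  · refine le_trans ?_ h1
    have h3 : Real.exp (-(700000 * e)) ≤ 1 / 1103 := by
      have h4 : Real.exp (-(700000 * e)) ≤ Real.exp (-7.1) := Real.exp_le_exp.2 (by linarith)
      refine h4.trans ?_
      rw [Real.exp_neg, inv_eq_one_div]
      apply one_div_le_one_div_of_le (by norm_num)
      have h5 := Real.exp_one_gt_d9
      have h6 : Real.exp 7.1 = Real.exp 1 ^ 7 * Real.exp 0.1 := by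
        rw [← Real.exp_nat_mul, ← Real.exp_add]; norm_num
      have h7 := Real.add_one_le_exp (0.1 : ℝ)
      rw [h6]
      calc (1103 : ℝ) ≤ 2.718 ^ 7 * (0.1 + 1) := by norm_num
        _ ≤ Real.exp 1 ^ 7 * Real.exp 0.1 := by
          gcongr
          linarith
    calc Real.exp (-(700000 * e)) * Z ≤ 1 / 1103 * Z := mul_le_mul_of_nonneg_right h3 hZ.le
      _ = Z / 1103 := by ring

end T9h11.RW
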