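import Pool.Agent.T9h11.RW2

set_option autoImplicit false
set_option linter.unusedSectionVars false
set_option linter.unusedVariables false

/-! Gibbs measures: no wrap-around. -/

namespace T9h11.RW

open Finset
open scoped Classical

variable {Γ : Type*} [AddCommGroup Γ] [Fintype Γ] {ι : Type*} [Fintype ι]

/-- the energy -/
noncomputable def ee (x : ι → Γ) (χ : AddChar Γ ℂ) : ℝ := ∑ j, (1 - (χ (x j)).re)

theorem ee_nonneg (x : ι → Γ) (χ : AddChar Γ ℂ) : 0 ≤ ee x χ :=
  Finset.sum_nonneg fun j _ => by linarith [re_le_one χ (x j)]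

/-- Gibbs sums -/
noncomputable def SS (x : ι → Γ) (β : ℝ) (u : AddChar Γ ℂ → ℝ) : ℝ :=
  ∑ χ, u χ * Real.exp (-β * ee x χ)

theorem gav_eq (x : ι → Γ) (β : ℝ) (u : AddChar Γ ℂ → ℝ) :
    gav x (fun _ => β) u = Real.exp (β * Fintype.card ι) * SS x β u := by
  unfold gav SS
  rw [Finset.mul_sum]
  refine Finset.sum_congr rfl fun χ _ => ?_
  have h : en x (fun _ => β) χ = β * Fintype.card ι + -β * ee x χ := by
    unfold en ee
    rw [Finset.sum_sub_distrib, ← Finset.mul_sum]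
    simp
    ring
  rw [h, Real.exp_add]
  ring

theorem SS_pos (x : ι → Γ) (β : ℝ) : 0 < SS x β (fun _ => 1) := by
  unfold SS
  exact Finset.sum_pos (fun χ _ => by positivity) ⟨1, Finset.mem_univ _⟩

theorem SS_mono (x : ι → Γ) (β : ℝ) {u v : AddChar Γ ℂ → ℝ} (h : ∀ χ, u χ ≤ v χ) :
    SS x β u ≤ SS x β v :=
  Finset.sum_le_sum fun χ _ => mul_le_mul_of_nonneg_right (h χ) (Real.exp_pos _).le

theorem SS_ginibre (x : ι → Γ) {β : ℝ} (hβ : 0 ≤ β) {u v : AddChar Γ ℂ → ℝ} (hu : CP u)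
    (hv : CP v) : SS x β u * SS x β v ≤ SS x β (fun χ => u χ * v χ) * SS x β (fun _ => 1) := by
  have h := ginibre x (ν := fun _ => β) (fun _ => hβ) hu hv
  simp only [gav_eq] at h
  have hp : 0 < Real.exp (β * Fintype.card ι) := Real.exp_pos _
  have h2 : (Real.exp (β * Fintype.card ι) * Real.exp (β * Fintype.card ι)) *
      (SS x β u * SS x β v) ≤ (Real.exp (β * Fintype.card ι) * Real.exp (β * Fintype.card ι)) *
      (SS x β (fun χ => u χ * v χ) * SS x β (fun _ => 1)) := by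
    refine le_trans (le_of_eq ?_) (h.trans (le_of_eq ?_)) <;> ring
  exact le_of_mul_le_mul_left h2 (by positivity)

/-- mean energy -/
theorem mean_energy (x : ι → Γ) {β κ : ℝ} (hβ : 1 / 2 ≤ β)
    (hκ : SS x (β / 2) (fun _ => 1) ≤ Real.exp κ * SS x β (fun _ => 1)) :
    SS x β (ee x) ≤ 4 * κ * SS x β (fun _ => 1) := by
  have h1 : SS x β (fun χ => 1 + (β / 2 * ee x χ - κ)) ≤
      Real.exp (-κ) * SS x (β / 2) (fun _ => 1) := by
    unfold SS
    rw [Finset.mul_sum]
    refine Finset.sum_le_sum fun χ _ => ?_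
    have h2 := Real.add_one_le_exp (β / 2 * ee x χ - κ)
    have h3 : Real.exp (-κ) * (1 * Real.exp (-(β / 2) * ee x χ)) =
        Real.exp (β / 2 * ee x χ - κ) * Real.exp (-β * ee x χ) := by
      rw [one_mul, ← Real.exp_add, ← Real.exp_add]
      congr 1; ring
    rw [h3]
    exact mul_le_mul_of_nonneg_right (by linarith) (Real.exp_pos _).le
  have h2 : SS x β (fun χ => 1 + (β / 2 * ee x χ - κ)) =
      (1 - κ) * SS x β (fun _ => 1) + β / 2 * SS x β (ee x) := by
    unfold SS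
    rw [Finset.mul_sum, Finset.mul_sum, ← Finset.sum_add_distrib]
    refine Finset.sum_congr rfl fun χ _ => ?_
    ring
  have h3 : Real.exp (-κ) * SS x (β / 2) (fun _ => 1) ≤ SS x β (fun _ => 1) := by
    have h4 := mul_le_mul_of_nonneg_left hκ (Real.exp_pos (-κ)).le
    rw [← mul_assoc, ← Real.exp_add] at h4
    simpa using h4
  have h5 : 0 ≤ SS x β (ee x) :=
    Finset.sum_nonneg fun χ _ => mul_nonneg (ee_nonneg x χ) (Real.exp_pos _).le
  have h6 : β / 2 * SS x β (ee x) ≤ κ * SS x β (fun _ => 1) := by linarith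
  nlinarith

/-- the characters without wrap-around -/
noncomputable def nowrap (x : ι → Γ) (s : ℝ) : Finset (AddChar Γ ℂ) :=
  Finset.univ.filter fun χ => (∀ j, ‖χ (x j) - 1‖ < 1 / 2) ∧ ee x χ ≤ s

theorem nowrap_card (x : ι → Γ) {β κ lam : ℝ} (hβ : 1 / 2 ≤ β) (hκ0 : 0 ≤ κ)
    (hκ : SS x (β / 2) (fun _ => 1) ≤ Real.exp κ * SS x β (fun _ => 1))
    (hlam : 2800001 * κ + 1 ≤ lam) :
    Real.exp (-lam) * SS x β (fun _ => 1) ≤ ((nowrap x (4 * lam)).card : ℝ) := by
  have hZ := SS_pos x β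
  have hβ0 : 0 ≤ β := by linarith
  set Z := SS x β (fun _ => 1) with hZdef
  -- product of bumps
  have h1 := gav_prod x (ν := fun _ => β) (fun _ => hβ0) (Finset.univ : Finset ι)
    (fun j => bump (x j)) (fun j _ => bump_cp (x j))
    (fun j => 700000 * (gav x (fun _ => β) (fun χ => 1 - (χ (x j)).re) /
      gav x (fun _ => β) (fun _ => 1))) (fun j _ => gav_bump x (fun _ => hβ0) (x j))
  have h2 : ∑ j, 700000 * (gav x (fun _ => β) (fun χ => 1 - (χ (x j)).re) /
      gav x (fun _ => β) (fun _ => 1)) = 700000 * (SS x β (ee x) / Z) := by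
    rw [← Finset.mul_sum, ← Finset.sum_div]
    congr 1
    simp only [gav_eq]
    rw [← Finset.mul_sum, mul_div_mul_left _ _ (Real.exp_pos _).ne']
    congr 1
    unfold SS ee
    rw [Finset.sum_comm]
    refine Finset.sum_congr rfl fun χ _ => ?_
    rw [Finset.sum_mul]
  rw [h2] at h1
  simp only [gav_eq] at h1
  have h3 : Real.exp (-(700000 * (SS x β (ee x) / Z))) * Z ≤
      SS x β (fun χ => ∏ j, bump (x j) χ) := by
    have hp : 0 < Real.exp (β * Fintype.card ι) := Real.exp_pos _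
    have h4 : Real.exp (β * Fintype.card ι) * (Real.exp (-(700000 * (SS x β (ee x) / Z))) * Z) ≤
        Real.exp (β * Fintype.card ι) * SS x β (fun χ => ∏ j, bump (x j) χ) := by
      refine le_trans (le_of_eq ?_) h1
      ring
    exact le_of_mul_le_mul_left h4 hp
  have h4 : SS x β (ee x) / Z ≤ 4 * κ := by
    rw [div_le_iff₀ hZ]
    exact mean_energy x hβ hκ
  have h5 : Real.exp (-(2800000 * κ)) * Z ≤ SS x β (fun χ => ∏ j, bump (x j) χ) := by
    refine le_trans (mul_le_mul_of_nonneg_right (Real.exp_le_exp.2 ?_) hZ.le) h3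
    linarith
  -- splitting
  have h6 : SS x β (fun χ => ∏ j, bump (x j) χ) ≤
      ((nowrap x (4 * lam)).card : ℝ) + Real.exp (-lam) * SS x (β / 2) (fun _ => 1) := by
    have h7 : ((nowrap x (4 * lam)).card : ℝ) =
        ∑ χ : AddChar Γ ℂ, if χ ∈ nowrap x (4 * lam) then (1 : ℝ) else 0 := by
      rw [Finset.sum_ite_mem, Finset.univ_inter, Finset.sum_const, nsmul_eq_mul, mul_one]
    rw [h7]
    unfold SS
    rw [Finset.mul_sum, ← Finset.sum_add_distrib]
    refine Finset.sum_le_sum fun χ _ => ?_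
    have hb0 : 0 ≤ ∏ j, bump (x j) χ := Finset.prod_nonneg fun j _ => bump_nonneg _ _
    have hb1 : ∏ j, bump (x j) χ ≤ 1 :=
      Finset.prod_le_one (fun j _ => bump_nonneg _ _) fun j _ => bump_le_one _ _
    have he0 := ee_nonneg x χ
    have hexp1 : Real.exp (-β * ee x χ) ≤ 1 := by
      apply Real.exp_le_one_iff.2
      nlinarith
    by_cases hχ : χ ∈ nowrap x (4 * lam)
    · rw [if_pos hχ]
      have h8 : (∏ j, bump (x j) χ) * Real.exp (-β * ee x χ) ≤ 1 * 1 :=
        mul_le_mul hb1 hexp1 (Real.exp_pos _).le zero_le_one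
      have h9 : 0 ≤ Real.exp (-lam) * (1 * Real.exp (-(β / 2) * ee x χ)) := by positivity
      linarith
    · rw [if_neg hχ, zero_add]
      have h8 : ¬ ((∀ j, ‖χ (x j) - 1‖ < 1 / 2) ∧ ee x χ ≤ 4 * lam) := fun h =>
        hχ (Finset.mem_filter.2 ⟨Finset.mem_univ _, h⟩)
      by_cases h9 : ∀ j, ‖χ (x j) - 1‖ < 1 / 2
      · have h10 : 4 * lam < ee x χ := by
          by_contra hcon
          exact h8 ⟨h9, not_lt.1 hcon⟩
        calc (∏ j, bump (x j) χ) * Real.exp (-β * ee x χ) ≤ 1 * Real.exp (-β * ee x χ) :=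
              mul_le_mul_of_nonneg_right hb1 (Real.exp_pos _).le
          _ = Real.exp (-(β / 2) * ee x χ) * Real.exp (-(β / 2) * ee x χ) := by
              rw [one_mul, ← Real.exp_add]; congr 1; ring
          _ ≤ Real.exp (-lam) * Real.exp (-(β / 2) * ee x χ) := by
              apply mul_le_mul_of_nonneg_right _ (Real.exp_pos _).le
              apply Real.exp_le_exp.2
              nlinarith
          _ = _ := by rw [one_mul]
      · push Not at h9
        obtain ⟨j, hj⟩ := h9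
        have h10 : bump (x j) χ = 0 := by
          by_contra hcon
          exact absurd (bump_supp hcon) (not_lt.2 hj)
        beta_reduce
        rw [Finset.prod_eq_zero (Finset.mem_univ j) h10, zero_mul]
        positivity
  have h7 : Real.exp (-lam) * SS x (β / 2) (fun _ => 1) ≤ Real.exp (-(2800000 * κ) - 1) * Z := by
    calc Real.exp (-lam) * SS x (β / 2) (fun _ => 1) ≤ Real.exp (-lam) * (Real.exp κ * Z) :=
          mul_le_mul_of_nonneg_left hκ (Real.exp_pos _).le
      _ = Real.exp (-lam + κ) * Z := by rw [← mul_assoc, ← Real.exp_add]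
      _ ≤ Real.exp (-(2800000 * κ) - 1) * Z :=
          mul_le_mul_of_nonneg_right (Real.exp_le_exp.2 (by linarith)) hZ.le
  have h8 : Real.exp (-(2800000 * κ) - 1) = Real.exp (-(2800000 * κ)) * Real.exp (-1) := by
    rw [← Real.exp_add]; congr 1
  have h9 : Real.exp (-1) ≤ 1 / 2 := by
    rw [Real.exp_neg, inv_eq_one_div]
    apply one_div_le_one_div_of_le (by norm_num)
    linarith [Real.exp_one_gt_d9]
  have h10 : Real.exp (-lam) ≤ Real.exp (-(2800000 * κ)) * Real.exp (-1) := by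
    rw [← Real.exp_add]
    exact Real.exp_le_exp.2 (by linarith)
  have h11 : 0 < Real.exp (-(2800000 * κ)) := Real.exp_pos _
  rw [h8] at h7
  have h12 : Real.exp (-(2800000 * κ)) * Real.exp (-1) * Z ≤
      Real.exp (-(2800000 * κ)) * (1 / 2) * Z := by gcongr
  have h13 : Real.exp (-lam) * Z ≤ Real.exp (-(2800000 * κ)) * (1 / 2) * Z := by
    refine (mul_le_mul_of_nonneg_right h10 hZ.le).trans h12
  linarith

/-- sublevel sets of the energy -/
theorem sublevel_card (x : ι → Γ) {β t : ℝ} (hβ : 0 ≤ β) (hβ1 : β ≤ 1) (ht : 0 ≤ t)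
    (F : Finset (AddChar Γ ℂ)) (hF : ∀ χ ∈ F, ee x χ ≤ t) :
    (F.card : ℝ) ≤ Real.exp t * SS x β (fun _ => 1) := by
  unfold SS
  rw [Finset.mul_sum, ← mul_one (F.card : ℝ), ← nsmul_eq_mul]
  refine (Finset.card_nsmul_le_sum F (fun χ => Real.exp t * (1 * Real.exp (-β * ee x χ))) 1 ?_).trans
    (Finset.sum_le_sum_of_subset_of_nonneg (Finset.subset_univ F) fun χ _ _ => by positivity)
  intro χ hχ
  rw [one_mul, ← Real.exp_add]
  apply Real.one_le_exp
  have h1 := hF χ hχ
  have h2 := ee_nonneg x χ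
  nlinarith

theorem ee_mul (x : ι → Γ) (χ ψ : AddChar Γ ℂ) : ee x (χ * ψ) ≤ 2 * (ee x χ + ee x ψ) := by
  unfold ee
  rw [← Finset.sum_add_distrib, Finset.mul_sum]
  refine Finset.sum_le_sum fun j _ => ?_
  have h1 : ‖(χ * ψ) (x j) - 1‖ ^ 2 ≤ 2 * (‖χ (x j) - 1‖ ^ 2 + ‖ψ (x j) - 1‖ ^ 2) := by
    have h2 : (χ * ψ) (x j) - 1 = (χ (x j) - 1) * ψ (x j) + (ψ (x j) - 1) := by
      rw [AddChar.mul_apply]; ring
    have h3 : ‖(χ * ψ) (x j) - 1‖ ≤ ‖χ (x j) - 1‖ + ‖ψ (x j) - 1‖ := by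
      rw [h2]
      refine (norm_add_le _ _).trans ?_
      rw [norm_mul, norm_char, mul_one]
    have h4 := norm_nonneg ((χ * ψ) (x j) - 1)
    nlinarith [sq_nonneg (‖χ (x j) - 1‖ - ‖ψ (x j) - 1‖)]
  rw [norm_sub_one_sq, norm_sub_one_sq, norm_sub_one_sq] at h1
  linarith

end T9h11.RW
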