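import Pool.Agent.T9h11.RW3
import Pool.Agent.H137R2.Weak.Final

set_option autoImplicit false
set_option linter.unusedSectionVars false
set_option linter.unusedVariables false

/-! Lifts of characters and the weak Marton theorem. -/

namespace T9h11.RW

open Finset
open scoped Classical Pointwise

variable {Γ : Type*} [AddCommGroup Γ] [Fintype Γ] {ι : Type*} [Fintype ι]

/-- `u` is a lift of `χ` -/
def Lift (x : ι → Γ) (u : EuclideanSpace ℝ ι) (χ : AddChar Γ ℂ) : Prop :=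
  ∀ j, Complex.exp (2 * Complex.I * ((u j : ℝ) : ℂ)) = χ (x j)

/-- the principal lift -/
noncomputable def plift (x : ι → Γ) (χ : AddChar Γ ℂ) : EuclideanSpace ℝ ι :=
  WithLp.toLp 2 (fun j => (χ (x j)).arg / 2)

theorem plift_apply (x : ι → Γ) (χ : AddChar Γ ℂ) (j : ι) : plift x χ j = (χ (x j)).arg / 2 := rfl

theorem lift_plift (x : ι → Γ) (χ : AddChar Γ ℂ) : Lift x (plift x χ) χ := by
  intro j
  rw [plift_apply]
  have h := Complex.norm_mul_exp_arg_mul_I (χ (x j))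
  rw [norm_char, Complex.ofReal_one, one_mul] at h
  rw [← h]
  congr 1
  push_cast
  rw [h]
  ring

theorem Lift.add {x : ι → Γ} {u v : EuclideanSpace ℝ ι} {χ ψ : AddChar Γ ℂ} (hu : Lift x u χ)
    (hv : Lift x v ψ) : Lift x (u + v) (χ * ψ) := by
  intro j
  rw [AddChar.mul_apply, ← hu j, ← hv j, ← Complex.exp_add]
  congr 1
  rw [PiLp.add_apply]
  push_cast
  ring

theorem Lift.neg {x : ι → Γ} {u : EuclideanSpace ℝ ι} {χ : AddChar Γ ℂ} (hu : Lift x u χ) :
    Lift x (-u) χ⁻¹ := by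
  intro j
  rw [AddChar.inv_apply', ← hu j, ← Complex.exp_neg]
  congr 1
  rw [PiLp.neg_apply]
  push_cast
  ring

theorem Lift.sub {x : ι → Γ} {u v : EuclideanSpace ℝ ι} {χ ψ : AddChar Γ ℂ} (hu : Lift x u χ)
    (hv : Lift x v ψ) : Lift x (u - v) (χ * ψ⁻¹) := by
  rw [sub_eq_add_neg]
  exact hu.add hv.neg

theorem Lift.zero (x : ι → Γ) : Lift x 0 1 := by
  intro j
  simp

theorem Lift.re {x : ι → Γ} {u : EuclideanSpace ℝ ι} {χ : AddChar Γ ℂ} (hu : Lift x u χ) (j : ι) :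
    (χ (x j)).re = Real.cos (2 * u j) := by
  rw [← hu j]
  have : 2 * Complex.I * ((u j : ℝ) : ℂ) = ((2 * u j : ℝ) : ℂ) * Complex.I := by
    push_cast; ring
  rw [this, Complex.exp_ofReal_mul_I_re]

theorem Lift.ee_le {x : ι → Γ} {u : EuclideanSpace ℝ ι} {χ : AddChar Γ ℂ} (hu : Lift x u χ) :
    ee x χ ≤ 2 * ‖u‖ ^ 2 := by
  rw [EuclideanSpace.norm_sq_eq, Finset.mul_sum]
  unfold ee
  refine Finset.sum_le_sum fun j _ => ?_
  rw [hu.re j, Real.norm_eq_abs, sq_abs]
  have := Real.one_sub_sq_div_two_le_cos (x := 2 * u j)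
  nlinarith

theorem plift_norm (x : ι → Γ) (χ : AddChar Γ ℂ) : ‖plift x χ‖ ^ 2 ≤ 5 / 4 * ee x χ := by
  rw [EuclideanSpace.norm_sq_eq]
  unfold ee
  rw [Finset.mul_sum]
  refine Finset.sum_le_sum fun j _ => ?_
  rw [plift_apply, Real.norm_eq_abs, sq_abs]
  have h1 : (χ (x j)).re = Real.cos (χ (x j)).arg := by
    have h := (lift_plift x χ).re j
    rw [h, plift_apply]
    congr 1; ring
  rw [h1]
  have h2 := Real.cos_le_one_sub_mul_cos_sq (Complex.abs_arg_le_pi (χ (x j)))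
  have h3 : 2 / Real.pi ^ 2 ≥ 1 / 5 := by
    rw [ge_iff_le, div_le_div_iff₀ (by norm_num) (by positivity)]
    have := Real.pi_lt_d2
    have := Real.pi_pos
    nlinarith
  have h4 : 1 / 5 * (χ (x j)).arg ^ 2 ≤ 2 / Real.pi ^ 2 * (χ (x j)).arg ^ 2 :=
    mul_le_mul_of_nonneg_right h3 (sq_nonneg _)
  nlinarith

theorem plift_mul {x : ι → Γ} {χ ψ : AddChar Γ ℂ} (hχ : ∀ j, ‖χ (x j) - 1‖ < 1 / 2)
    (hψ : ∀ j, ‖ψ (x j) - 1‖ < 1 / 2) : plift x (χ * ψ) = plift x χ + plift x ψ := by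
  have key : ∀ {χ : AddChar Γ ℂ}, (∀ j, ‖χ (x j) - 1‖ < 1 / 2) → ∀ j,
      |(χ (x j)).arg| < Real.pi / 2 := by
    intro χ h j
    rw [Complex.abs_arg_lt_pi_div_two_iff]
    left
    have h1 := norm_sub_one_sq χ (x j)
    have h2 := h j
    have h3 := norm_nonneg (χ (x j) - 1)
    nlinarith
  ext j
  rw [PiLp.add_apply, plift_apply, plift_apply, plift_apply, AddChar.mul_apply]
  have h1 := abs_lt.1 (key hχ j)
  have h2 := abs_lt.1 (key hψ j)
  have hne : ∀ χ : AddChar Γ ℂ, χ (x j) ≠ 0 := by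
    intro χ h0
    have := norm_char χ (x j)
    rw [h0, norm_zero] at this
    norm_num at this
  rw [Complex.arg_mul (hne χ) (hne ψ) ⟨by linarith, by linarith⟩]
  ring

theorem wm' {G : Type*} [AddCommGroup G] [d : DecidableEq G] {K : ℝ} {A : Finset G}
    (hA : A.Nonempty) (hK : ((A + A).card : ℝ) ≤ K * A.card) :
    ∃ (P : AddSubgroup G) (S T : Finset G), Finite P ∧
      (S.card : ℝ) ≤ 480 * Real.log K + 1 ∧ T ⊆ A ∧ (T.card : ℝ) ≤ K ^ 185 ∧
      ∀ a ∈ A, ∃ t ∈ T, ∃ o : G, (∃ m : ℕ, Odd m ∧ m • o = 0) ∧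
        a - t - o ∈ P ⊔ AddSubgroup.closure (S : Set G) := by
  have hd : d = (fun a b => Classical.propDecidable (a = b)) := Subsingleton.elim _ _
  subst hd
  obtain ⟨P, S, T, h1, -, -, h2, h3, h4, h5⟩ := H137.Weak.weak_marton (K := K) hA hK
  exact ⟨P, S, T, h1, h2, h3, h4, h5⟩

theorem wm_proj {G V : Type*} [AddCommGroup G] [AddCommGroup V] [Module ℝ V]
    [d : DecidableEq (G × V)] {K : ℝ}
    {A : Finset (G × V)} (hA : A.Nonempty) (hK : ((A + A).card : ℝ) ≤ K * A.card) :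
    ∃ (S : Finset V) (T : Finset (G × V)), (S.card : ℝ) ≤ 480 * Real.log K + 1 ∧ T ⊆ A ∧
      (T.card : ℝ) ≤ K ^ 185 ∧ ∀ a ∈ A, ∃ t ∈ T, a.2 - t.2 ∈ AddSubgroup.closure (S : Set V) := by
  obtain ⟨P, S, T, hPfin, hS, hTA, hT, hcov⟩ := wm' (K := K) hA hK
  set π : G × V →+ V := AddMonoidHom.snd _ _ with hπ
  have htor : ∀ (m : ℕ) (v : V), m ≠ 0 → m • v = 0 → v = 0 := by
    intro m v hm hv
    rw [← Nat.cast_smul_eq_nsmul ℝ] at hv
    rcases smul_eq_zero.1 hv with h | h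
    · exact absurd (by exact_mod_cast h) hm
    · exact h
  have hproj : ∀ p ∈ P ⊔ AddSubgroup.closure (S : Set (G × V)),
      π p ∈ AddSubgroup.closure ((S.image π : Finset V) : Set V) := by
    intro p hp
    have h1 : π p ∈ (P ⊔ AddSubgroup.closure (S : Set (G × V))).map π :=
      AddSubgroup.mem_map_of_mem _ hp
    rw [AddSubgroup.map_sup, AddMonoidHom.map_closure] at h1
    have h2 : P.map π = ⊥ := by
      rw [eq_bot_iff]
      rintro _ ⟨q, hq, rfl⟩
      rw [AddSubgroup.mem_bot]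
      refine htor (Nat.card P) _ Nat.card_pos.ne' ?_
      rw [← map_nsmul]
      have h3 : Nat.card P • (⟨q, hq⟩ : P) = 0 := card_nsmul_eq_zero'
      have h4 : Nat.card P • q = 0 := congrArg (fun z : P => (z : G × V)) h3
      rw [h4, map_zero]
    rw [h2, bot_sup_eq] at h1
    rwa [Finset.coe_image]
  refine ⟨S.image π, T, le_trans (by exact_mod_cast Finset.card_image_le) hS, hTA, hT, ?_⟩
  intro a ha
  obtain ⟨t, ht, o, ⟨m, hm, hmo⟩, hmem⟩ := hcov a ha
  refine ⟨t, ht, ?_⟩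
  have h1 := hproj _ hmem
  rw [map_sub, map_sub] at h1
  have h2 : π o = 0 := by
    refine htor m _ ?_ ?_
    · rintro rfl
      simp at hm
    · rw [← map_nsmul, hmo, map_zero]
  rw [h2, sub_zero] at h1
  exact h1

/-- the projection of a popular coset -/
theorem wm_fiber {G V : Type*} [AddCommGroup G] [AddCommGroup V] [Module ℝ V]
    [d : DecidableEq (G × V)] {K : ℝ}
    {A : Finset (G × V)} (hA : A.Nonempty) (hK : ((A + A).card : ℝ) ≤ K * A.card) :
    ∃ (S : Finset V) (t : G × V), (S.card : ℝ) ≤ 480 * Real.log K + 1 ∧ t ∈ A ∧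
      (A.card : ℝ) ≤ K ^ 185 *
        ((A.filter fun a => a.2 - t.2 ∈ AddSubgroup.closure (S : Set V)).card : ℝ) := by
  obtain ⟨S, T, hS, hTA, hT, hcov⟩ := wm_proj hA hK
  have hTne : T.Nonempty := by
    obtain ⟨a, ha⟩ := hA
    obtain ⟨t, ht, -⟩ := hcov a ha
    exact ⟨t, ht⟩
  have hTpos : (0 : ℝ) < T.card := by exact_mod_cast Finset.card_pos.2 hTne
  choose! f hfT hf using hcov
  obtain ⟨t, ht, ht2⟩ := Finset.exists_le_card_fiber_of_nsmul_le_card_of_maps_to
    (M := ℝ) (s := A) (t := T) (f := f) (b := (A.card : ℝ) / T.card) hfT hTne (by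
      rw [nsmul_eq_mul]
      field_simp
      exact le_rfl)
  refine ⟨S, t, hS, hTA ht, ?_⟩
  have h1 : A.filter (fun a => f a = t) ⊆
      A.filter fun a => a.2 - t.2 ∈ AddSubgroup.closure (S : Set V) := by
    intro a ha
    rw [Finset.mem_filter] at ha ⊢
    refine ⟨ha.1, ?_⟩
    have := hf a ha.1
    rwa [ha.2] at this
  have h2 : ((A.filter fun a => f a = t).card : ℝ) ≤
      ((A.filter fun a => a.2 - t.2 ∈ AddSubgroup.closure (S : Set V)).card : ℝ) := by
    exact_mod_cast Finset.card_le_card h1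
  rw [div_le_iff₀ hTpos] at ht2
  calc (A.card : ℝ) ≤ ((A.filter fun a => f a = t).card : ℝ) * T.card := ht2
    _ = T.card * ((A.filter fun a => f a = t).card : ℝ) := mul_comm _ _
    _ ≤ K ^ 185 * ((A.filter fun a => a.2 - t.2 ∈ AddSubgroup.closure (S : Set V)).card : ℝ) :=
      mul_le_mul hT h2 (Nat.cast_nonneg _) ((Nat.cast_nonneg _).trans hT)

/-- many characters have a short lift in a group with few generators -/
theorem stage (x : ι → Γ) {β κ lam : ℝ} (hβ : 1 / 2 ≤ β) (hβ1 : β ≤ 1) (hκ0 : 0 ≤ κ)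
    (hκ : SS x (β / 2) (fun _ => 1) ≤ Real.exp κ * SS x β (fun _ => 1))
    (hlam : 2800001 * κ + 1 ≤ lam) :
    ∃ S : Finset (EuclideanSpace ℝ ι), (S.card : ℝ) ≤ 8160 * lam + 1 ∧
      Real.exp (-(3146 * lam)) * SS x β (fun _ => 1) ≤
        ((Finset.univ.filter fun χ : AddChar Γ ℂ =>
          ∃ u ∈ AddSubgroup.closure (S : Set (EuclideanSpace ℝ ι)),
            Lift x u χ ∧ ‖u‖ ^ 2 ≤ 20 * lam).card : ℝ) := by
  have hZ := SS_pos x β
  have hβ0 : 0 ≤ β := by linarith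
  have hlam0 : 0 ≤ lam := by linarith
  set Z := SS x β (fun _ => 1) with hZdef
  have hW := nowrap_card x hβ hκ0 hκ hlam
  rw [← hZdef] at hW
  set W := nowrap x (4 * lam) with hWdef
  have hWmem : ∀ χ, χ ∈ W ↔ (∀ j, ‖χ (x j) - 1‖ < 1 / 2) ∧ ee x χ ≤ 4 * lam := by
    intro χ
    rw [hWdef, nowrap, Finset.mem_filter]
    simp
  have hWpos : (0 : ℝ) < W.card := lt_of_lt_of_le (by positivity) hW
  have hWne : W.Nonempty := by
    rw [← Finset.card_pos]; exact_mod_cast hWpos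
  set g : AddChar Γ ℂ → Additive (AddChar Γ ℂ) × EuclideanSpace ℝ ι :=
    fun χ => (Additive.ofMul χ, plift x χ) with hg
  have hginj : Function.Injective g := fun a b h => Additive.ofMul.injective (congrArg Prod.fst h)
  set A := W.image g with hA
  have hAne : A.Nonempty := hWne.image g
  have hAcard : A.card = W.card := Finset.card_image_of_injective _ hginj
  have hAA : ((A + A).card : ℝ) ≤ Real.exp (17 * lam) * A.card := by
    have h1 : A + A ⊆ (Finset.univ.filter fun χ : AddChar Γ ℂ => ee x χ ≤ 16 * lam).image g := by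
      intro p hp
      obtain ⟨a, ha, b, hb, rfl⟩ := Finset.mem_add.1 hp
      obtain ⟨χ, hχ, rfl⟩ := Finset.mem_image.1 ha
      obtain ⟨ψ, hψ, rfl⟩ := Finset.mem_image.1 hb
      have h2 := (hWmem χ).1 hχ
      have h3 := (hWmem ψ).1 hψ
      refine Finset.mem_image.2 ⟨χ * ψ, Finset.mem_filter.2 ⟨Finset.mem_univ _, ?_⟩, ?_⟩
      · have := ee_mul x χ ψ
        linarith
      · rw [hg]
        simp only [Prod.mk_add_mk, ofMul_mul]
        rw [plift_mul h2.1 h3.1]
    have h2 : ((A + A).card : ℝ) ≤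
        ((Finset.univ.filter fun χ : AddChar Γ ℂ => ee x χ ≤ 16 * lam).card : ℝ) := by
      exact_mod_cast (Finset.card_le_card h1).trans Finset.card_image_le
    have h3 := sublevel_card x hβ0 hβ1 (t := 16 * lam) (by positivity)
      (Finset.univ.filter fun χ : AddChar Γ ℂ => ee x χ ≤ 16 * lam)
      (fun χ hχ => (Finset.mem_filter.1 hχ).2)
    rw [hAcard]
    refine h2.trans (h3.trans ?_)
    calc Real.exp (16 * lam) * Z = Real.exp (17 * lam) * (Real.exp (-lam) * Z) := by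
          rw [← mul_assoc, ← Real.exp_add]; congr 2; ring
      _ ≤ Real.exp (17 * lam) * W.card := mul_le_mul_of_nonneg_left hW (Real.exp_pos _).le
  obtain ⟨S, t, hS, htA, hfib⟩ := wm_fiber hAne hAA
  rw [Real.log_exp] at hS
  have hTexp : Real.exp (17 * lam) ^ 185 = Real.exp (3145 * lam) := by
    rw [← Real.exp_nat_mul]; congr 1; push_cast; ring
  rw [hTexp, hAcard] at hfib
  obtain ⟨χ₀, hχ₀, hχt⟩ := Finset.mem_image.1 htA
  refine ⟨S, hS.trans (le_of_eq (by ring)), ?_⟩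
  set Fb := A.filter fun a => a.2 - t.2 ∈ AddSubgroup.closure (S : Set (EuclideanSpace ℝ ι))
    with hFb
  have h1 : Real.exp (-(3146 * lam)) * Z ≤ (Fb.card : ℝ) := by
    have h2 : Real.exp (3145 * lam) * (Real.exp (-(3146 * lam)) * Z) ≤
        Real.exp (3145 * lam) * Fb.card := by
      refine le_trans (le_of_eq ?_) (hW.trans hfib)
      rw [← mul_assoc, ← Real.exp_add]; congr 2; ring
    exact le_of_mul_le_mul_left h2 (Real.exp_pos _)
  refine h1.trans ?_
  have h2 : Fb.card ≤ (Finset.univ.filter fun χ : AddChar Γ ℂ =>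
        ∃ u ∈ AddSubgroup.closure (S : Set (EuclideanSpace ℝ ι)),
          Lift x u χ ∧ ‖u‖ ^ 2 ≤ 20 * lam).card := by
    refine Finset.card_le_card_of_injOn (fun a => Additive.toMul a.1 * χ₀⁻¹) ?_ ?_
    · intro a ha
      rw [Finset.mem_coe, hFb, Finset.mem_filter] at ha
      obtain ⟨haA, ha2⟩ := ha
      obtain ⟨χ, hχ, rfl⟩ := Finset.mem_image.1 haA
      rw [Finset.mem_coe, Finset.mem_filter]
      refine ⟨Finset.mem_univ _, plift x χ - plift x χ₀, ?_,
        (lift_plift x χ).sub (lift_plift x χ₀), ?_⟩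
      · rw [← hχt] at ha2
        exact ha2
      · have h4 := plift_norm x χ
        have h5 := plift_norm x χ₀
        have h6 := ((hWmem χ).1 hχ).2
        have h7 := ((hWmem χ₀).1 hχ₀).2
        have h8 := norm_sub_le (plift x χ) (plift x χ₀)
        have h9 := norm_nonneg (plift x χ - plift x χ₀)
        nlinarith [sq_nonneg (‖plift x χ‖ - ‖plift x χ₀‖)]
    · intro a ha b hb h
      rw [Finset.mem_coe, hFb, Finset.mem_filter] at ha hb
      obtain ⟨χ, hχ, rfl⟩ := Finset.mem_image.1 ha.1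
      obtain ⟨ψ, hψ, rfl⟩ := Finset.mem_image.1 hb.1
      have h3 : χ * χ₀⁻¹ = ψ * χ₀⁻¹ := h
      rw [mul_right_cancel h3]
  exact_mod_cast h2

end T9h11.RW
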