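import Pool.Agent.T9h11.RMP
import Pool.Agent.T9h11.RMC

set_option autoImplicit false
set_option linter.unusedSectionVars false
set_option linter.unusedVariables false

/-! Facts on lattices: biduality, Gaussian tails, integral lattices. -/

namespace T9h11.RW

open H460 T9h11.RM

section gen
variable {E : Type*} [NormedAddCommGroup E] [InnerProductSpace ℝ E] [FiniteDimensional ℝ E]

/-- dual basis -/
theorem dual_basis {d : ℕ} {b : Fin d → E} (hb : LinearIndependent ℝ b) (i : Fin d) :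
    ∃ w ∈ Submodule.span ℝ (Set.range b), ∀ j, inner ℝ (b j) w = if j = i then Real.pi else 0 := by
  classical
  let B : Module.Basis (Fin d) ℝ (Submodule.span ℝ (Set.range b)) := Module.Basis.span hb
  have hB : ∀ i, (B i : E) = b i := fun i => congrArg Subtype.val (Module.Basis.span_apply hb i)
  let c : StrongDual ℝ (Submodule.span ℝ (Set.range b)) := LinearMap.toContinuousLinearMap (B.coord i)
  let w := (InnerProductSpace.toDual ℝ (Submodule.span ℝ (Set.range b))).symm c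
  refine ⟨Real.pi • (w : E), Submodule.smul_mem _ _ w.2, fun j => ?_⟩
  rw [inner_smul_right, real_inner_comm, ← hB j]
  have h1 : inner ℝ (w : E) (B j : E) = c (B j) := by
    have h2 := InnerProductSpace.toDual_symm_apply (𝕜 := ℝ) (x := B j) (y := c)
    rw [← h2]
    rfl
  rw [h1]
  have h3 : c (B j) = B.coord i (B j) := rfl
  rw [h3, Module.Basis.coord_apply, Module.Basis.repr_self, Finsupp.single_apply]
  split_ifs <;> simp

theorem du_du {L : AddSubgroup E} (h : Disc L) : du (du L) = L := by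
  classical
  obtain ⟨c, hc⟩ := exists_poi h
  obtain ⟨b, hb, hcl⟩ := h.exists_basis
  have hspan : Submodule.span ℝ (L : Set E) = Submodule.span ℝ (Set.range b) := by
    rw [← LatA_span_closure (Set.range b), hcl]
  apply le_antisymm
  · intro v hv
    have h1 := hv.1
    rw [hc.span, hspan] at h1
    obtain ⟨a, ha⟩ := (Submodule.mem_span_range_iff_exists_fun ℝ).1 h1
    have h2 : ∀ i, ∃ z : ℤ, a i = z := by
      intro i
      obtain ⟨w, hw, hwb⟩ := dual_basis hb i
      have hwdu : w ∈ du L := by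
        refine ⟨by rw [hspan]; exact hw, fun x hx => ?_⟩
        rw [← hcl] at hx
        induction hx using AddSubgroup.closure_induction with
        | mem y hy =>
          obtain ⟨j, rfl⟩ := hy
          rw [hwb]
          by_cases hj : j = i
          · exact ⟨1, by simp [hj]⟩
          · exact ⟨0, by simp [hj]⟩
        | zero => exact ⟨0, by simp⟩
        | add y z _ _ hy hz =>
          obtain ⟨m, hm⟩ := hy
          obtain ⟨k, hk⟩ := hz
          exact ⟨m + k, by rw [inner_add_left, hm, hk]; push_cast; ring⟩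
        | neg y _ hy =>
          obtain ⟨m, hm⟩ := hy
          exact ⟨-m, by rw [inner_neg_left, hm]; push_cast; ring⟩
      obtain ⟨z, hz⟩ := hv.2 w hwdu
      refine ⟨z, ?_⟩
      rw [← ha, inner_sum] at hz
      have h3 : ∑ j, inner ℝ w (a j • b j) = Real.pi * a i := by
        rw [Finset.sum_eq_single i]
        · rw [inner_smul_right, real_inner_comm, hwb, if_pos rfl]; ring
        · intro j _ hj
          rw [inner_smul_right, real_inner_comm, hwb, if_neg hj, mul_zero]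
        · intro hh; exact absurd (Finset.mem_univ _) hh
      rw [h3] at hz
      exact mul_left_cancel₀ Real.pi_ne_zero hz
    choose z hz using h2
    rw [← ha]
    refine AddSubgroup.sum_mem _ fun i _ => ?_
    rw [hz i, Int.cast_smul_eq_zsmul]
    have h6 : b i ∈ AddSubgroup.closure (Set.range b) :=
      AddSubgroup.subset_closure (Set.mem_range_self i)
    rw [hcl] at h6
    exact AddSubgroup.zsmul_mem _ h6 _
  · intro v hv
    refine ⟨?_, fun η hη => ?_⟩
    · rw [hc.span]; exact Submodule.subset_span hv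
    · obtain ⟨z, hz⟩ := hη.2 v hv
      exact ⟨z, by rw [real_inner_comm]; exact hz⟩

/-- Poisson summation in the form needed -/
theorem pois_real {L : AddSubgroup E} (h : Disc L) : ∃ c : ℝ, 0 < c ∧
    ∀ y ∈ Submodule.span ℝ (L : Set E),
      ∑' v : L, Complex.exp (((-4 * ‖(v : E)‖ ^ 2 : ℝ) : ℂ) +
        2 * Complex.I * ((inner ℝ (v : E) y : ℝ) : ℂ)) = ((c * th (du L) y (1 / 4) : ℝ) : ℂ) := by
  obtain ⟨c₀, h₀⟩ := exists_poi h
  obtain ⟨c, hc⟩ := exists_poi h₀.ddisc
  refine ⟨Real.sqrt (1 / 4) ^ rk (du L) / c, div_pos (pow_pos (Real.sqrt_pos.2 (by norm_num)) _)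
    hc.pos, fun y hy => ?_⟩
  have h1 := hc.form (1 / 4) (by norm_num) y (by rw [h₀.span]; exact hy)
  rw [du_du h] at h1
  have h2 : ∀ v : L, (((-4 * ‖(v : E)‖ ^ 2 : ℝ) : ℂ) +
        2 * Complex.I * ((inner ℝ (v : E) y : ℝ) : ℂ)) = (((-‖(v : E)‖ ^ 2 / (1 / 4) : ℝ) : ℂ) +
        2 * Complex.I * ((inner ℝ (v : E) y : ℝ) : ℂ)) := by
    intro v
    congr 2
    ring
  simp_rw [h2]
  have hc0 : (c : ℂ) ≠ 0 := by exact_mod_cast hc.pos.ne'
  have h3 : ((Real.sqrt (1 / 4) ^ rk (du L) / c * th (du L) y (1 / 4) : ℝ) : ℂ) =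
      (((th (du L) y (1 / 4) : ℝ) : ℂ) * ((Real.sqrt (1 / 4) ^ rk (du L) : ℝ) : ℂ)) / (c : ℂ) := by
    push_cast; ring
  rw [h3, h1, mul_div_cancel_left₀ _ hc0]

theorem th_upper {N : AddSubgroup E} (h : Disc N) {s : ℝ} (hs : 0 < s) {y : E} {R : ℝ} (hR : 0 ≤ R)
    (hy : ∀ u ∈ N, R ≤ ‖u + y‖) :
    th N y s ≤ Real.exp (-(s * R ^ 2 / 2)) * (2 ^ rk N * th N 0 s) := by
  have h1 : th N y s ≤ Real.exp (-(s * R ^ 2 / 2)) * th N y (s / 2) := by
    unfold th
    rw [← tsum_mul_left]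
    refine (th_summable h y hs).tsum_le_tsum (fun u => ?_)
      ((th_summable h y (by positivity : 0 < s / 2)).mul_left _)
    rw [← Real.exp_add]
    apply Real.exp_le_exp.2
    have h2 := hy u u.2
    have h3 : R ^ 2 ≤ ‖(u : E) + y‖ ^ 2 := by gcongr
    nlinarith
  have h2 := th_shift_le h y (by positivity : 0 < s / 2)
  have h3 := th_anti h 0 (by positivity : 0 < s / 4) (by linarith : s / 4 ≤ s / 2)
  have h4 := th_le_two_pow h (by positivity : 0 < s / 4)
  have h5 : 4 * (s / 4) = s := by ring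
  rw [h5] at h4
  exact h1.trans (mul_le_mul_of_nonneg_left (h2.trans (h3.trans h4)) (Real.exp_pos _).le)

theorem th_lower {N : AddSubgroup E} (h : Disc N) {s : ℝ} (hs : 0 < s) {y u : E} {R : ℝ}
    (hu : u ∈ N) (hy : ‖y - u‖ ≤ R) : Real.exp (-(s * R ^ 2)) * th N 0 s ≤ th N y s := by
  have h1 := th_translate h (N.neg_mem hu) y s
  have h2 := th_shift_ge h (-u + y) hs
  rw [h1] at h2
  refine le_trans (mul_le_mul_of_nonneg_right (Real.exp_le_exp.2 ?_) (th_pos h 0 hs).le) h2
  have h3 : ‖-u + y‖ ≤ R := by rw [neg_add_eq_sub]; exact hy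
  have h4 : ‖-u + y‖ ^ 2 ≤ R ^ 2 := by
    have := norm_nonneg (-u + y)
    gcongr
  nlinarith

/-- the rank is at most the number of generators -/
theorem rk_le_card {L : AddSubgroup E} (h : Disc L) {S : Finset E}
    (hS : L ≤ AddSubgroup.closure (S : Set E)) : rk L ≤ S.card := by
  classical
  obtain ⟨b, hb, hcl⟩ := h.exists_basis
  set M : Submodule ℤ E := Submodule.span ℤ (S : Set E) with hM
  have hmem : ∀ i, b i ∈ M := by
    intro i
    have h1 : b i ∈ AddSubgroup.closure (S : Set E) :=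
      hS (hcl ▸ AddSubgroup.subset_closure (Set.mem_range_self i))
    rw [hM]
    have h2 : AddSubgroup.closure (S : Set E) = (Submodule.span ℤ (S : Set E)).toAddSubgroup := by
      rw [Submodule.span_int_eq_addSubgroupClosure]
    rw [h2] at h1
    exact h1
  have hbZ : LinearIndependent ℤ b := hb.restrict_scalars' ℤ
  have hb' : LinearIndependent ℤ (fun i => (⟨b i, hmem i⟩ : M)) := by
    refine LinearIndependent.of_comp M.subtype ?_
    exact hbZ
  have hfin : Module.Finite ℤ M := Module.Finite.span_finset ℤ S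
  have h1 := hb'.fintype_card_le_finrank
  rw [Fintype.card_fin] at h1
  exact h1.trans (finrank_span_finset_le_card S)

end gen

section int
variable {ι : Type*} [Fintype ι]

/-- a small set of coordinates which separates a subspace -/
theorem sep_coord (V : Submodule ℝ (EuclideanSpace ℝ ι)) :
    ∃ J : Finset ι, J.card ≤ Module.finrank ℝ V ∧ ∀ v ∈ V, (∀ j ∈ J, v j = 0) → v = 0 := by
  classical
  let f : ι → Module.Dual ℝ V := fun j =>
    { toFun := fun v => (v : EuclideanSpace ℝ ι) j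
      map_add' := fun a b => rfl
      map_smul' := fun a b => rfl }
  obtain ⟨B, hB, hspan, hli⟩ := exists_linearIndependent ℝ (Set.range f)
  have hBfin : B.Finite := (Set.finite_range f).subset hB
  have : Fintype B := hBfin.fintype
  have hsec : ∀ g : B, ∃ j, f j = g := fun g => hB g.2
  choose σ hσ using hsec
  refine ⟨Finset.univ.image σ, ?_, ?_⟩
  · refine Finset.card_image_le.trans ?_
    have h1 := hli.fintype_card_le_finrank
    rw [Subspace.dual_finrank_eq] at h1
    rwa [Finset.card_univ]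
  · intro v hv h0
    have h1 : ∀ g ∈ Submodule.span ℝ B, g ⟨v, hv⟩ = 0 := by
      intro g hg
      induction hg using Submodule.span_induction with
      | mem g hg =>
        have h2 := h0 (σ ⟨g, hg⟩) (Finset.mem_image_of_mem _ (Finset.mem_univ _))
        have h3 : f (σ ⟨g, hg⟩) ⟨v, hv⟩ = g ⟨v, hv⟩ := by rw [hσ ⟨g, hg⟩]
        rw [← h3]
        exact h2
      | zero => rfl
      | add g g' _ _ hg hg' => rw [LinearMap.add_apply, hg, hg', add_zero]
      | smul a g _ hg => rw [LinearMap.smul_apply, hg, smul_zero]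
    ext j
    have h2 : f j ∈ Submodule.span ℝ B := by
      rw [hspan]; exact Submodule.subset_span (Set.mem_range_self j)
    exact h1 _ h2

theorem sum_half (M : ℕ) : ∑ k ∈ Finset.Icc (-(M : ℤ)) M, (1 / 2 : ℝ) ^ k.natAbs ≤ 3 := by
  have h1 : ∀ M : ℕ, ∑ k ∈ Finset.Icc (-(M : ℤ)) M, (1 / 2 : ℝ) ^ k.natAbs ≤ 3 - (1 / 2) ^ M * 2 := by
    intro M
    induction M with
    | zero => simp; norm_num
    | succ M ih =>
      have h2 : Finset.Icc (-((M + 1 : ℕ) : ℤ)) ((M + 1 : ℕ) : ℤ) =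
          insert (-((M + 1 : ℕ) : ℤ)) (insert ((M + 1 : ℕ) : ℤ) (Finset.Icc (-(M : ℤ)) M)) := by
        ext x
        simp only [Finset.mem_insert, Finset.mem_Icc]
        omega
      rw [h2, Finset.sum_insert, Finset.sum_insert]
      · have h3 : (-((M + 1 : ℕ) : ℤ)).natAbs = M + 1 := by omega
        have h4 : (((M + 1 : ℕ) : ℤ)).natAbs = M + 1 := by omega
        rw [h3, h4]
        have h5 : (1 / 2 : ℝ) ^ (M + 1) = (1 / 2) ^ M * (1 / 2) := pow_succ _ _
        rw [h5]
        linarith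
      · simp only [Finset.mem_Icc]; omega
      · simp only [Finset.mem_insert, Finset.mem_Icc]; omega
  have h2 : (0 : ℝ) ≤ (1 / 2) ^ M * 2 := by positivity
  linarith [h1 M]

theorem exp_le_half (k : ℤ) : Real.exp (-2 * (Real.pi * k) ^ 2) ≤ (1 / 2) ^ k.natAbs := by
  have h1 : ((k.natAbs : ℕ) : ℝ) ≤ (k : ℝ) ^ 2 := by
    have h2 : ((k.natAbs : ℕ) : ℝ) = |(k : ℝ)| := by
      rw [← Int.cast_abs, Int.abs_eq_natAbs, Int.cast_natCast]
    rw [h2, ← sq_abs]
    rcases Int.lt_or_le 0 |k| with h | h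
    · have h3 : (1 : ℝ) ≤ |(k : ℝ)| := by exact_mod_cast h
      nlinarith
    · have h3 : |k| = 0 := le_antisymm h (abs_nonneg k)
      have h4 : |(k : ℝ)| = 0 := by exact_mod_cast h3
      rw [h4]; norm_num
  have h5 : Real.exp (-1) ≤ 1 / 2 := by
    rw [Real.exp_neg, inv_eq_one_div]
    apply one_div_le_one_div_of_le (by norm_num)
    linarith [Real.exp_one_gt_d9]
  calc Real.exp (-2 * (Real.pi * k) ^ 2) ≤ Real.exp ((k.natAbs : ℝ) * (-1)) := by
        apply Real.exp_le_exp.2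
        have := Real.pi_gt_three
        have h6 : 1 ≤ Real.pi ^ 2 := by nlinarith
        have h7 : (0 : ℝ) ≤ (k : ℝ) ^ 2 := sq_nonneg _
        nlinarith
    _ = Real.exp (-1) ^ k.natAbs := by rw [Real.exp_nat_mul]
    _ ≤ (1 / 2) ^ k.natAbs := by gcongr

/-- theta functions of sublattices of `π ℤ^ι` -/
theorem th_int {L : AddSubgroup (EuclideanSpace ℝ ι)} (h : Disc L)
    (hint : ∀ x ∈ L, ∀ j, ∃ z : ℤ, x j = Real.pi * z) : th L 0 2 ≤ 3 ^ rk L := by
  classical
  obtain ⟨J, hJ, hsep⟩ := sep_coord (Submodule.span ℝ (L : Set (EuclideanSpace ℝ ι)))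
  have h3 : (3 : ℝ) ^ J.card ≤ 3 ^ rk L := pow_le_pow_right₀ (by norm_num) hJ
  refine le_trans ?_ h3
  choose! z hz using hint
  unfold th
  refine Real.tsum_le_of_sum_le (fun _ => (Real.exp_pos _).le) fun S => ?_
  -- a box
  obtain ⟨M, hM⟩ : ∃ M : ℕ, ∀ x ∈ S, ∀ j, |z (x : EuclideanSpace ℝ ι) j| ≤ (M : ℤ) := by
    refine ⟨(∑ x ∈ S, ∑ j, |z (x : EuclideanSpace ℝ ι) j|).toNat, fun x hx j => ?_⟩
    have h0 : 0 ≤ ∑ x ∈ S, ∑ j, |z (x : EuclideanSpace ℝ ι) j| :=
      Finset.sum_nonneg fun _ _ => Finset.sum_nonneg fun _ _ => abs_nonneg _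
    rw [Int.toNat_of_nonneg h0]
    calc |z (x : EuclideanSpace ℝ ι) j| ≤ ∑ j, |z (x : EuclideanSpace ℝ ι) j| :=
          Finset.single_le_sum (f := fun j => |z (x : EuclideanSpace ℝ ι) j|)
            (fun _ _ => abs_nonneg _) (Finset.mem_univ j)
      _ ≤ _ := Finset.single_le_sum (f := fun x : L => ∑ j, |z (x : EuclideanSpace ℝ ι) j|)
            (fun _ _ => Finset.sum_nonneg fun _ _ => abs_nonneg _) hx
  set T := Fintype.piFinset (fun _ : J => Finset.Icc (-(M : ℤ)) M) with hT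
  set F : L → (J → ℤ) := fun x j => z (x : EuclideanSpace ℝ ι) j with hF
  have hFinj : Function.Injective F := by
    intro x y hxy
    have h4 : (x : EuclideanSpace ℝ ι) - y ∈ Submodule.span ℝ (L : Set (EuclideanSpace ℝ ι)) :=
      Submodule.subset_span (L.sub_mem x.2 y.2)
    have h5 := hsep _ h4 (fun j hj => by
      have h6 : z (x : EuclideanSpace ℝ ι) j = z (y : EuclideanSpace ℝ ι) j :=
        congrFun hxy ⟨j, hj⟩
      rw [PiLp.sub_apply, hz x x.2 j, hz y y.2 j, h6, sub_self])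
    exact Subtype.ext (sub_eq_zero.1 h5)
  have h4 : ∀ x : L, Real.exp (-2 * ‖(x : EuclideanSpace ℝ ι) + 0‖ ^ 2) ≤
      ∏ j : J, (1 / 2 : ℝ) ^ (F x j).natAbs := by
    intro x
    have h5 : ∏ j : J, Real.exp (-2 * (Real.pi * (F x j : ℝ)) ^ 2) ≤
        ∏ j : J, (1 / 2 : ℝ) ^ (F x j).natAbs :=
      Finset.prod_le_prod (fun _ _ => (Real.exp_pos _).le) fun j _ => exp_le_half _
    refine le_trans ?_ h5
    rw [← Real.exp_sum]
    apply Real.exp_le_exp.2
    rw [add_zero, ← Finset.mul_sum, EuclideanSpace.norm_sq_eq]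
    have h6 : ∑ j : J, (Real.pi * (F x j : ℝ)) ^ 2 ≤ ∑ j, ‖(x : EuclideanSpace ℝ ι) j‖ ^ 2 := by
      have h7 : ∑ j : J, (Real.pi * (F x j : ℝ)) ^ 2 = ∑ j ∈ J, ‖(x : EuclideanSpace ℝ ι) j‖ ^ 2 := by
        rw [← Finset.sum_coe_sort J]
        refine Finset.sum_congr rfl fun j _ => ?_
        rw [hz x x.2 j, Real.norm_eq_abs, sq_abs]
      rw [h7]
      exact Finset.sum_le_sum_of_subset_of_nonneg (Finset.subset_univ J) fun _ _ _ => sq_nonneg _
    linarith
  calc ∑ x ∈ S, Real.exp (-2 * ‖(x : EuclideanSpace ℝ ι) + 0‖ ^ 2) ≤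
      ∑ x ∈ S, ∏ j : J, (1 / 2 : ℝ) ^ (F x j).natAbs := Finset.sum_le_sum fun x _ => h4 x
    _ = ∑ k ∈ S.image F, ∏ j : J, (1 / 2 : ℝ) ^ (k j).natAbs := by
      rw [Finset.sum_image fun x _ y _ hxy => hFinj hxy]
    _ ≤ ∑ k ∈ T, ∏ j : J, (1 / 2 : ℝ) ^ (k j).natAbs := by
      refine Finset.sum_le_sum_of_subset_of_nonneg ?_ fun _ _ _ =>
        Finset.prod_nonneg fun _ _ => by positivity
      intro k hk
      obtain ⟨x, hx, rfl⟩ := Finset.mem_image.1 hk
      rw [hT, Fintype.mem_piFinset]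
      intro j
      rw [Finset.mem_Icc]
      exact abs_le.1 (hM x hx j)
    _ = ∏ j : J, ∑ k ∈ Finset.Icc (-(M : ℤ)) M, (1 / 2 : ℝ) ^ k.natAbs := by
      rw [hT, ← Finset.prod_univ_sum (fun _ : J => Finset.Icc (-(M : ℤ)) M)
        (fun _ k => (1 / 2 : ℝ) ^ k.natAbs)]
    _ ≤ ∏ _j : J, (3 : ℝ) :=
      Finset.prod_le_prod (fun _ _ => Finset.sum_nonneg fun _ _ => by positivity)
        fun _ _ => sum_half M
    _ = 3 ^ J.card := by simp

end int

end T9h11.RW
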