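import Pool.Agent.T9h11.RW4
import Pool.Agent.T9h11.RW5

set_option autoImplicit false
set_option linter.unusedSectionVars false
set_option linter.unusedVariables false

/-! The Gaussian weight on characters defined by a lattice of lifts. -/

namespace T9h11.RW

open Finset H460 T9h11.RM
open scoped Classical

variable {Γ : Type*} [AddCommGroup Γ] [Fintype Γ] {ι : Type*} [Fintype ι]

/-- the group of all lifts -/
def Lx (x : ι → Γ) : AddSubgroup (EuclideanSpace ℝ ι) where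
  carrier := {u | ∃ χ, Lift x u χ}
  zero_mem' := ⟨1, Lift.zero x⟩
  add_mem' := by
    rintro a b ⟨χ, hχ⟩ ⟨ψ, hψ⟩
    exact ⟨χ * ψ, hχ.add hψ⟩
  neg_mem' := by
    rintro a ⟨χ, hχ⟩
    exact ⟨χ⁻¹, hχ.neg⟩

theorem Lift.nsmul {x : ι → Γ} {u : EuclideanSpace ℝ ι} {χ : AddChar Γ ℂ} (hu : Lift x u χ)
    (m : ℕ) : Lift x (m • u) (χ ^ m) := by
  induction m with
  | zero => simpa using Lift.zero x
  | succ m ih =>
    rw [succ_nsmul, pow_succ]
    exact ih.add hu

theorem char_pow_card (χ : AddChar Γ ℂ) : χ ^ Fintype.card Γ = 1 := by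
  rw [← AddChar.card_eq (α := Γ)]
  exact pow_card_eq_one

theorem lift_one_iff {x : ι → Γ} {u : EuclideanSpace ℝ ι} :
    Lift x u 1 ↔ ∀ j, ∃ z : ℤ, u j = Real.pi * z := by
  have key : ∀ j, (Complex.exp (2 * Complex.I * ((u j : ℝ) : ℂ)) = (1 : AddChar Γ ℂ) (x j)) ↔
      ∃ z : ℤ, u j = Real.pi * z := by
    intro j
    rw [AddChar.one_apply, Complex.exp_eq_one_iff]
    refine exists_congr fun z => ?_
    constructor
    · intro h
      have h1 : (2 * Complex.I) * ((u j : ℝ) : ℂ) = (2 * Complex.I) * ((Real.pi * z : ℝ) : ℂ) := by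
        rw [h]; push_cast; ring
      have h2 := mul_left_cancel₀ (by simp [Complex.I_ne_zero]) h1
      exact_mod_cast h2
    · intro h
      rw [h]; push_cast; ring
  exact forall_congr' key

theorem disc_Lx (x : ι → Γ) : Disc (Lx x) := by
  intro R
  set n := Fintype.card Γ with hn
  have hn0 : (0 : ℝ) < n := by
    have : 0 < n := Fintype.card_pos
    exact_mod_cast this
  set N : ℕ := ⌈(n : ℝ) * R⌉₊ with hN
  have hfin : ((fun z : ι → ℤ => (WithLp.toLp 2 (fun j => Real.pi * z j / n) :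
      EuclideanSpace ℝ ι)) '' (Fintype.piFinset (fun _ : ι => Finset.Icc (-(N : ℤ)) N) :
        Finset (ι → ℤ))).Finite := (Finset.finite_toSet _).image _
  refine hfin.subset ?_
  rintro u ⟨⟨χ, hχ⟩, huR⟩
  have h1 := hχ.nsmul n
  rw [hn, char_pow_card, ← hn, lift_one_iff] at h1
  choose z hz using h1
  have hz' : ∀ j, (n : ℝ) * u j = Real.pi * z j := by
    intro j
    have := hz j
    rw [PiLp.smul_apply, nsmul_eq_mul] at this
    exact this
  refine ⟨z, ?_, ?_⟩
  · rw [Finset.mem_coe, Fintype.mem_piFinset]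
    intro j
    rw [Finset.mem_Icc, ← abs_le]
    have h2 : |u j| ≤ R := by
      have := PiLp.norm_apply_le u j
      rw [Real.norm_eq_abs] at this
      exact this.trans huR
    have h3 : |(z j : ℝ)| ≤ n * R := by
      have h4 : Real.pi * |(z j : ℝ)| = n * |u j| := by
        have h5 := congrArg abs (hz' j)
        rw [abs_mul, abs_mul, abs_of_pos hn0, abs_of_pos Real.pi_pos] at h5
        exact h5.symm
      have h6 : n * |u j| ≤ n * R := mul_le_mul_of_nonneg_left h2 hn0.le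
      have h7 : 1 * |(z j : ℝ)| ≤ Real.pi * |(z j : ℝ)| :=
        mul_le_mul_of_nonneg_right (by linarith [Real.pi_gt_three]) (abs_nonneg _)
      linarith
    have h4 : |(z j : ℝ)| ≤ (N : ℝ) := h3.trans (Nat.le_ceil _)
    exact_mod_cast h4
  · ext j
    show Real.pi * z j / n = u j
    rw [← hz' j]
    field_simp

/-- the integral part -/
def L0 (L : AddSubgroup (EuclideanSpace ℝ ι)) : AddSubgroup (EuclideanSpace ℝ ι) where
  carrier := {u | u ∈ L ∧ ∀ j, ∃ z : ℤ, u j = Real.pi * z}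
  zero_mem' := ⟨L.zero_mem, fun j => ⟨0, by simp⟩⟩
  add_mem' := by
    rintro a b ⟨ha, ha'⟩ ⟨hb, hb'⟩
    refine ⟨L.add_mem ha hb, fun j => ?_⟩
    obtain ⟨z, hz⟩ := ha' j
    obtain ⟨z', hz'⟩ := hb' j
    exact ⟨z + z', by rw [PiLp.add_apply, hz, hz']; push_cast; ring⟩
  neg_mem' := by
    rintro a ⟨ha, ha'⟩
    refine ⟨L.neg_mem ha, fun j => ?_⟩
    obtain ⟨z, hz⟩ := ha' j
    exact ⟨-z, by rw [PiLp.neg_apply, hz]; push_cast; ring⟩

/-- the weight -/
noncomputable def wt (x : ι → Γ) (L : AddSubgroup (EuclideanSpace ℝ ι)) (χ : AddChar Γ ℂ) : ℝ :=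
  ∑' u : L, if Lift x (u : EuclideanSpace ℝ ι) χ then
    Real.exp (-4 * ‖(u : EuclideanSpace ℝ ι)‖ ^ 2) else 0

section
variable {x : ι → Γ} {L : AddSubgroup (EuclideanSpace ℝ ι)}

theorem exp_summable (h : Disc L) : Summable fun u : L =>
    Real.exp (-4 * ‖(u : EuclideanSpace ℝ ι)‖ ^ 2) := by
  have := th_summable h 0 (t := 4) (by norm_num)
  simpa using this

theorem wt_summable (h : Disc L) (χ : AddChar Γ ℂ) : Summable fun u : L =>
    if Lift x (u : EuclideanSpace ℝ ι) χ then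
      Real.exp (-4 * ‖(u : EuclideanSpace ℝ ι)‖ ^ 2) else 0 := by
  refine Summable.of_nonneg_of_le (fun u => ?_) (fun u => ?_) (exp_summable h)
  · split_ifs
    · exact (Real.exp_pos _).le
    · exact le_rfl
  · split_ifs
    · exact le_rfl
    · exact (Real.exp_pos _).le

theorem wt_nonneg (χ : AddChar Γ ℂ) : 0 ≤ wt x L χ := by
  refine tsum_nonneg fun u => ?_
  split_ifs
  · exact (Real.exp_pos _).le
  · exact le_rfl

theorem wt_ge (h : Disc L) {χ : AddChar Γ ℂ} {u : EuclideanSpace ℝ ι} (hu : u ∈ L)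
    (hl : Lift x u χ) : Real.exp (-4 * ‖u‖ ^ 2) ≤ wt x L χ := by
  have h1 := (wt_summable (x := x) h χ).le_tsum (⟨u, hu⟩ : L) (fun v _ => by
    split_ifs
    · exact (Real.exp_pos _).le
    · exact le_rfl)
  simp only [if_pos hl] at h1
  exact h1

theorem wt_le (h : Disc L) {β : ℝ} (hβ : 0 ≤ β) (hβ1 : β ≤ 1) (χ : AddChar Γ ℂ) :
    wt x L χ ≤ 3 ^ rk L * Real.exp (-β * ee x χ) := by
  by_cases hex : ∃ u ∈ L, Lift x u χ
  · obtain ⟨u₀, hu₀, hl₀⟩ := hex
    have hL0 : L0 L ≤ L := fun u hu => hu.1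
    have hd0 : Disc (L0 L) := h.mono hL0
    set g : L0 L → L := fun y => ⟨(y : EuclideanSpace ℝ ι) + u₀, L.add_mem (hL0 y.2) hu₀⟩ with hg
    have hginj : Function.Injective g := by
      intro a b hab
      have h1 : (a : EuclideanSpace ℝ ι) + u₀ = b + u₀ := congrArg Subtype.val hab
      exact Subtype.ext (add_right_cancel h1)
    have h1 : wt x L χ = ∑' y : L0 L, if Lift x (g y : EuclideanSpace ℝ ι) χ then
        Real.exp (-4 * ‖(g y : EuclideanSpace ℝ ι)‖ ^ 2) else 0 := by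
      unfold wt
      refine (hginj.tsum_eq (f := fun u : L => if Lift x (u : EuclideanSpace ℝ ι) χ then
        Real.exp (-4 * ‖(u : EuclideanSpace ℝ ι)‖ ^ 2) else 0) ?_).symm
      intro u hu
      rw [Function.mem_support] at hu
      have hl : Lift x (u : EuclideanSpace ℝ ι) χ := by
        by_contra hcon
        exact hu (if_neg hcon)
      have h2 := hl.sub hl₀
      rw [mul_inv_cancel] at h2
      refine ⟨⟨(u : EuclideanSpace ℝ ι) - u₀, L.sub_mem u.2 hu₀, lift_one_iff.1 h2⟩, ?_⟩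
      apply Subtype.ext
      simp [hg]
    rw [h1]
    have h2 : ∀ y : L0 L, (if Lift x (g y : EuclideanSpace ℝ ι) χ then
        Real.exp (-4 * ‖(g y : EuclideanSpace ℝ ι)‖ ^ 2) else 0) ≤
        Real.exp (-β * ee x χ) * Real.exp (-2 * ‖(y : EuclideanSpace ℝ ι) + u₀‖ ^ 2) := by
      intro y
      split_ifs with hl
      · rw [← Real.exp_add]
        apply Real.exp_le_exp.2
        have h3 := hl.ee_le
        have h4 := ee_nonneg x χ
        have h5 : ‖(g y : EuclideanSpace ℝ ι)‖ = ‖(y : EuclideanSpace ℝ ι) + u₀‖ := rfl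
        rw [h5] at h3 ⊢
        nlinarith
      · positivity
    have h3 : Summable fun y : L0 L => Real.exp (-β * ee x χ) *
        Real.exp (-2 * ‖(y : EuclideanSpace ℝ ι) + u₀‖ ^ 2) :=
      (th_summable hd0 u₀ (by norm_num : (0 : ℝ) < 2)).mul_left _
    have h4 : Summable fun y : L0 L => if Lift x (g y : EuclideanSpace ℝ ι) χ then
        Real.exp (-4 * ‖(g y : EuclideanSpace ℝ ι)‖ ^ 2) else 0 :=
      (wt_summable (x := x) h χ).comp_injective hginj
    refine (h4.tsum_le_tsum h2 h3).trans ?_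
    rw [tsum_mul_left, mul_comm]
    apply mul_le_mul_of_nonneg_right _ (Real.exp_pos _).le
    have h5 : th (L0 L) u₀ 2 ≤ th (L0 L) 0 2 := th_shift_le hd0 u₀ (by norm_num)
    have h6 : th (L0 L) 0 2 ≤ 3 ^ rk (L0 L) := th_int hd0 (fun u hu => hu.2)
    exact h5.trans (h6.trans (pow_le_pow_right₀ (by norm_num) (rk_mono hL0)))
  · have h1 : wt x L χ = 0 := by
      unfold wt
      have h2 : ∀ u : L, (if Lift x (u : EuclideanSpace ℝ ι) χ then
          Real.exp (-4 * ‖(u : EuclideanSpace ℝ ι)‖ ^ 2) else 0) = 0 := by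
        intro u
        rw [if_neg]
        intro hl
        exact hex ⟨u, u.2, hl⟩
      simp_rw [h2]
      exact tsum_zero
    rw [h1]
    positivity

theorem wt_one (h : Disc L) : wt x L 1 ≤ 3 ^ rk L := by
  have := wt_le (x := x) h (β := 0) le_rfl zero_le_one (1 : AddChar Γ ℂ)
  simpa using this

theorem lift_inv_iff {u : EuclideanSpace ℝ ι} {χ : AddChar Γ ℂ} :
    Lift x (-u) χ ↔ Lift x u χ⁻¹ := by
  constructor
  · intro h
    have := h.neg
    rwa [neg_neg] at this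
  · intro h
    have := h.neg
    rwa [inv_inv] at this

theorem wt_even (χ : AddChar Γ ℂ) : wt x L χ⁻¹ = wt x L χ := by
  unfold wt
  rw [← (Equiv.neg L).tsum_eq]
  refine tsum_congr fun u => ?_
  have h1 : ((Equiv.neg L u : L) : EuclideanSpace ℝ ι) = -u := rfl
  rw [h1, norm_neg]
  have h2 : Lift x (-(u : EuclideanSpace ℝ ι)) χ⁻¹ ↔ Lift x (u : EuclideanSpace ℝ ι) χ := by
    rw [lift_inv_iff, inv_inv]
  simp only [h2]

theorem lift_mul_iff {u : EuclideanSpace ℝ ι} {χ ψ : AddChar Γ ℂ} (hψ : ∀ j, ψ (x j) = 1) :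
    Lift x u (χ * ψ) ↔ Lift x u χ := by
  refine forall_congr' fun j => ?_
  rw [AddChar.mul_apply, hψ, mul_one]

theorem wt_mul {χ ψ : AddChar Γ ℂ} (hψ : ∀ j, ψ (x j) = 1) : wt x L (χ * ψ) = wt x L χ := by
  unfold wt
  refine tsum_congr fun u => ?_
  simp only [lift_mul_iff hψ]

/-- the unnormalised kernel -/
noncomputable def kq (x : ι → Γ) (L : AddSubgroup (EuclideanSpace ℝ ι)) (y : Γ) : ℝ :=
  ∑ χ, wt x L χ * (χ y).re

/-- integer vectors -/
noncomputable def zv (z : ι → ℤ) : EuclideanSpace ℝ ι := WithLp.toLp 2 (fun j => (z j : ℝ))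

theorem Lift.eval {u : EuclideanSpace ℝ ι} {χ : AddChar Γ ℂ} (h : Lift x u χ) (z : ι → ℤ) :
    χ (∑ j, z j • x j) = Complex.exp (2 * Complex.I * ((inner ℝ u (zv z) : ℝ) : ℂ)) := by
  have h0 : χ (∑ j, z j • x j) = ∏ j, χ (z j • x j) := by
    have := map_prod χ.toMonoidHom (fun j => Multiplicative.ofAdd (z j • x j)) Finset.univ
    rw [← ofAdd_sum] at this
    exact this
  rw [h0]
  have h1 : ∀ j, χ (z j • x j) = Complex.exp ((z j : ℂ) * (2 * Complex.I * ((u j : ℝ) : ℂ))) := by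
    intro j
    rw [AddChar.map_zsmul_eq_zpow, ← h j, Complex.exp_int_mul]
  simp_rw [h1]
  rw [← Complex.exp_sum]
  congr 1
  rw [PiLp.inner_apply]
  push_cast
  rw [Finset.mul_sum]
  refine Finset.sum_congr rfl fun j _ => ?_
  have h2 : (inner ℝ (u j) ((zv z : EuclideanSpace ℝ ι) j) : ℝ) = u j * z j := by
    show (inner ℝ (u j) ((z j : ℝ)) : ℝ) = _
    rw [real_inner_comm]
    simp
  rw [h2]
  push_cast
  ring

/-- the number of characters which are trivial on all the steps -/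
noncomputable def ker1 (x : ι → Γ) : ℕ :=
  (Finset.univ.filter fun χ : AddChar Γ ℂ => ∀ j, χ (x j) = 1).card

theorem ker1_pos (x : ι → Γ) : 0 < ker1 x := by
  unfold ker1
  rw [Finset.card_pos]
  exact ⟨1, Finset.mem_filter.2 ⟨Finset.mem_univ _, fun j => by rw [AddChar.one_apply]⟩⟩

theorem lift_card {u : EuclideanSpace ℝ ι} (hu : u ∈ Lx x) :
    (Finset.univ.filter fun χ : AddChar Γ ℂ => Lift x u χ).card = ker1 x := by
  obtain ⟨χ₀, hχ₀⟩ := hu
  unfold ker1
  symm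
  refine Finset.card_bij (fun χ _ => χ₀ * χ) ?_ ?_ ?_
  · intro χ hχ
    rw [Finset.mem_filter] at hχ ⊢
    exact ⟨Finset.mem_univ _, (lift_mul_iff hχ.2).2 hχ₀⟩
  · intro χ _ ψ _ h
    exact mul_left_cancel h
  · intro ψ hψ
    rw [Finset.mem_filter] at hψ
    refine ⟨χ₀⁻¹ * ψ, ?_, by rw [mul_inv_cancel_left]⟩
    rw [Finset.mem_filter]
    refine ⟨Finset.mem_univ _, fun j => ?_⟩
    rw [AddChar.mul_apply, AddChar.inv_apply', ← hχ₀ j, ← hψ.2 j, inv_mul_cancel₀]
    exact Complex.exp_ne_zero _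

theorem transform (hL : L ≤ Lx x) (z : ι → ℤ) :
    ∑ χ : AddChar Γ ℂ, ((wt x L χ : ℝ) : ℂ) * χ (∑ j, z j • x j) =
      (ker1 x : ℂ) * ∑' u : L, Complex.exp (((-4 * ‖(u : EuclideanSpace ℝ ι)‖ ^ 2 : ℝ) : ℂ) +
        2 * Complex.I * ((inner ℝ (u : EuclideanSpace ℝ ι) (zv z) : ℝ) : ℂ)) := by
  have h : Disc L := (disc_Lx x).mono hL
  have h1 : ∀ χ : AddChar Γ ℂ, ((wt x L χ : ℝ) : ℂ) * χ (∑ j, z j • x j) =
      ∑' u : L, ((if Lift x (u : EuclideanSpace ℝ ι) χ then
        Real.exp (-4 * ‖(u : EuclideanSpace ℝ ι)‖ ^ 2) else 0 : ℝ) : ℂ) *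
          χ (∑ j, z j • x j) := by
    intro χ
    unfold wt
    rw [Complex.ofReal_tsum, tsum_mul_right]
  simp_rw [h1]
  rw [← Summable.tsum_finsetSum, ← tsum_mul_left]
  · refine tsum_congr fun u => ?_
    have h2 : ∀ χ : AddChar Γ ℂ, ((if Lift x (u : EuclideanSpace ℝ ι) χ then
        Real.exp (-4 * ‖(u : EuclideanSpace ℝ ι)‖ ^ 2) else 0 : ℝ) : ℂ) *
          χ (∑ j, z j • x j) = if Lift x (u : EuclideanSpace ℝ ι) χ then
          Complex.exp (((-4 * ‖(u : EuclideanSpace ℝ ι)‖ ^ 2 : ℝ) : ℂ) +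
        2 * Complex.I * ((inner ℝ (u : EuclideanSpace ℝ ι) (zv z) : ℝ) : ℂ)) else 0 := by
      intro χ
      split_ifs with hl
      · rw [hl.eval z, Complex.exp_add, Complex.ofReal_exp]
      · simp
    simp_rw [h2]
    rw [← Finset.sum_filter, Finset.sum_const, lift_card (hL u.2), nsmul_eq_mul]
  · intro χ _
    have h2 := (wt_summable (x := x) h χ)
    have h3 : Summable fun u : L => ((if Lift x (u : EuclideanSpace ℝ ι) χ then
        Real.exp (-4 * ‖(u : EuclideanSpace ℝ ι)‖ ^ 2) else 0 : ℝ) : ℂ) :=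
      Complex.ofRealCLM.summable h2
    exact h3.mul_right _

/-- the projection to the span of the lattice -/
noncomputable def pj (L : AddSubgroup (EuclideanSpace ℝ ι)) (v : EuclideanSpace ℝ ι) :
    EuclideanSpace ℝ ι :=
  (Submodule.span ℝ (L : Set (EuclideanSpace ℝ ι))).starProjection v

theorem pj_mem (v : EuclideanSpace ℝ ι) :
    pj L v ∈ Submodule.span ℝ (L : Set (EuclideanSpace ℝ ι)) :=
  Submodule.starProjection_apply_mem _ _

theorem pj_inner {u : EuclideanSpace ℝ ι} (hu : u ∈ Submodule.span ℝ (L : Set (EuclideanSpace ℝ ι)))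
    (v : EuclideanSpace ℝ ι) : inner ℝ u (pj L v) = inner ℝ u v := by
  have h := Submodule.starProjection_inner_eq_zero
    (K := Submodule.span ℝ (L : Set (EuclideanSpace ℝ ι))) v u hu
  rw [real_inner_comm, inner_sub_right] at h
  unfold pj
  linarith

theorem pj_add (v w : EuclideanSpace ℝ ι) : pj L (v + w) = pj L v + pj L w := map_add _ _ _

theorem pj_neg (v : EuclideanSpace ℝ ι) : pj L (-v) = -pj L v := map_neg _ _

/-- the kernel is a theta function -/
theorem kq_theta (hL : L ≤ Lx x) : ∃ c : ℝ, 0 < c ∧ ∀ z : ι → ℤ,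
    kq x L (∑ j, z j • x j) = c * th (du L) (pj L (zv z)) (1 / 4) := by
  have h : Disc L := (disc_Lx x).mono hL
  obtain ⟨c, hc, hform⟩ := pois_real h
  refine ⟨ker1 x * c, mul_pos (by exact_mod_cast ker1_pos x) hc, fun z => ?_⟩
  have h1 := transform hL z
  have h2 : ∀ u : L, Complex.exp (((-4 * ‖(u : EuclideanSpace ℝ ι)‖ ^ 2 : ℝ) : ℂ) +
        2 * Complex.I * ((inner ℝ (u : EuclideanSpace ℝ ι) (zv z) : ℝ) : ℂ)) =
      Complex.exp (((-4 * ‖(u : EuclideanSpace ℝ ι)‖ ^ 2 : ℝ) : ℂ) +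
        2 * Complex.I * ((inner ℝ (u : EuclideanSpace ℝ ι) (pj L (zv z)) : ℝ) : ℂ)) := by
    intro u
    rw [pj_inner (Submodule.subset_span u.2)]
  simp_rw [h2] at h1
  rw [hform _ (pj_mem _)] at h1
  have h3 := congrArg Complex.re h1
  rw [Complex.re_sum] at h3
  have h4 : kq x L (∑ j, z j • x j) =
      ∑ χ : AddChar Γ ℂ, (((wt x L χ : ℝ) : ℂ) * χ (∑ j, z j • x j)).re := by
    unfold kq
    refine Finset.sum_congr rfl fun χ _ => ?_
    rw [Complex.re_ofReal_mul]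
  rw [h4, h3]
  have h5 : (ker1 x : ℂ) * ((c * th (du L) (pj L (zv z)) (1 / 4) : ℝ) : ℂ) =
      ((ker1 x * c * th (du L) (pj L (zv z)) (1 / 4) : ℝ) : ℂ) := by
    push_cast; ring
  rw [h5, Complex.ofReal_re]

/-- the kernel vanishes outside the group generated by the steps -/
theorem kq_zero {y : Γ} (hy : y ∉ AddSubgroup.closure (Set.range x)) : kq x L y = 0 := by
  obtain ⟨ψ', hψ'⟩ := (AddChar.exists_apply_ne_zero
    (a := (QuotientAddGroup.mk y : Γ ⧸ AddSubgroup.closure (Set.range x)))).2 (by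
      intro h0
      exact hy ((QuotientAddGroup.eq_zero_iff y).1 h0))
  set ψ : AddChar Γ ℂ := ψ'.compAddMonoidHom (QuotientAddGroup.mk' _) with hψ
  have hψy : ψ y ≠ 1 := hψ'
  have hψx : ∀ j, ψ (x j) = 1 := by
    intro j
    have h1 : (QuotientAddGroup.mk (x j) : Γ ⧸ AddSubgroup.closure (Set.range x)) = 0 :=
      (QuotientAddGroup.eq_zero_iff _).2 (AddSubgroup.subset_closure (Set.mem_range_self j))
    show ψ' (QuotientAddGroup.mk (x j)) = 1
    rw [h1, AddChar.map_zero_eq_one]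
  have h1 : ∑ χ : AddChar Γ ℂ, ((wt x L χ : ℝ) : ℂ) * χ y = 0 := by
    have h2 : ∑ χ : AddChar Γ ℂ, ((wt x L χ : ℝ) : ℂ) * χ y =
        ψ y * ∑ χ : AddChar Γ ℂ, ((wt x L χ : ℝ) : ℂ) * χ y := by
      conv_lhs => rw [← Equiv.sum_comp (Equiv.mulRight ψ)]
      rw [Finset.mul_sum]
      refine Finset.sum_congr rfl fun χ _ => ?_
      simp only [Equiv.coe_mulRight]
      rw [wt_mul hψx, AddChar.mul_apply]
      ring
    have h3 : (1 - ψ y) * ∑ χ : AddChar Γ ℂ, ((wt x L χ : ℝ) : ℂ) * χ y = 0 := by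
      rw [sub_mul, one_mul, ← h2, sub_self]
    rcases mul_eq_zero.1 h3 with h4 | h4
    · exact absurd (sub_eq_zero.1 h4).symm hψy
    · exact h4
  have h3 := congrArg Complex.re h1
  rw [Complex.re_sum, Complex.zero_re] at h3
  unfold kq
  rw [← h3]
  refine Finset.sum_congr rfl fun χ _ => ?_
  rw [Complex.re_ofReal_mul]

theorem mem_closure_range {y : Γ} (hy : y ∈ AddSubgroup.closure (Set.range x)) :
    ∃ z : ι → ℤ, ∑ j, z j • x j = y := by
  induction hy using AddSubgroup.closure_induction with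
  | mem y hy =>
    obtain ⟨j, rfl⟩ := hy
    refine ⟨Pi.single j 1, ?_⟩
    rw [Finset.sum_eq_single j]
    · simp
    · intro i _ hij
      rw [Pi.single_eq_of_ne hij, zero_smul]
    · intro h; exact absurd (Finset.mem_univ _) h
  | zero => exact ⟨0, by simp⟩
  | add y y' _ _ hy hy' =>
    obtain ⟨z, rfl⟩ := hy
    obtain ⟨z', rfl⟩ := hy'
    refine ⟨z + z', ?_⟩
    rw [← Finset.sum_add_distrib]
    exact Finset.sum_congr rfl fun j _ => by rw [Pi.add_apply, add_smul]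
  | neg y _ hy =>
    obtain ⟨z, rfl⟩ := hy
    refine ⟨-z, ?_⟩
    rw [← Finset.sum_neg_distrib]
    exact Finset.sum_congr rfl fun j _ => by rw [Pi.neg_apply, neg_smul]

theorem du_disc (hL : L ≤ Lx x) : Disc (du L) := by
  obtain ⟨c, hc⟩ := exists_poi ((disc_Lx x).mono hL)
  exact hc.ddisc

theorem rk_du_eq (hL : L ≤ Lx x) : rk (du L) = rk L := by
  obtain ⟨c, hc⟩ := exists_poi ((disc_Lx x).mono hL)
  exact hc.rk_du

theorem zv_zero : (zv (0 : ι → ℤ)) = 0 := by
  ext j; simp [zv]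

theorem pj_zero : pj L (0 : EuclideanSpace ℝ ι) = 0 := map_zero _

/-- the points of the group where the kernel is not small -/
def QR (x : ι → Γ) (L : AddSubgroup (EuclideanSpace ℝ ι)) (R : ℝ) : Set Γ :=
  {y | ∃ z : ι → ℤ, ∑ j, z j • x j = y ∧ ∃ u ∈ du L, ‖pj L (zv z) - u‖ ≤ R}

theorem kq_nonneg (hL : L ≤ Lx x) (y : Γ) : 0 ≤ kq x L y := by
  by_cases hy : y ∈ AddSubgroup.closure (Set.range x)
  · obtain ⟨z, rfl⟩ := mem_closure_range hy
    obtain ⟨c, hc, hk⟩ := kq_theta hL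
    rw [hk]
    exact mul_nonneg hc.le (th_pos (du_disc hL) _ (by norm_num)).le
  · rw [kq_zero hy]

theorem wt_cp (hL : L ≤ Lx x) : CP (wt x L) :=
  CP.of_transform wt_even (fun y => kq_nonneg hL y)

theorem kq_pos (hL : L ≤ Lx x) : 0 < kq x L 0 := by
  obtain ⟨c, hc, hk⟩ := kq_theta hL
  have := hk 0
  simp only [Pi.zero_apply, zero_smul, Finset.sum_const_zero] at this
  rw [this]
  exact mul_pos hc (th_pos (du_disc hL) _ (by norm_num))

theorem kq_le (hL : L ≤ Lx x) (y : Γ) : kq x L y ≤ kq x L 0 := by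
  unfold kq
  refine Finset.sum_le_sum fun χ _ => mul_le_mul_of_nonneg_left ?_ (wt_nonneg χ)
  rw [AddChar.map_zero_eq_one, Complex.one_re]
  exact re_le_one χ y

theorem kq_upper (hL : L ≤ Lx x) {R : ℝ} (hR : 0 ≤ R) {y : Γ} (hy : y ∉ QR x L R) :
    kq x L y ≤ Real.exp (-(R ^ 2 / 8)) * 2 ^ rk L * kq x L 0 := by
  by_cases hyc : y ∈ AddSubgroup.closure (Set.range x)
  · obtain ⟨z, rfl⟩ := mem_closure_range hyc
    obtain ⟨c, hc, hk⟩ := kq_theta hL
    have h0 := hk 0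
    simp only [Pi.zero_apply, zero_smul, Finset.sum_const_zero] at h0
    rw [hk z, h0, zv_zero, pj_zero]
    have h1 := th_upper (du_disc hL) (s := 1 / 4) (by norm_num) (y := pj L (zv z)) hR (by
      intro u hu
      by_contra hcon
      push Not at hcon
      apply hy
      refine ⟨z, rfl, -u, (du L).neg_mem hu, ?_⟩
      rw [sub_neg_eq_add, add_comm]
      exact hcon.le)
    rw [rk_du_eq hL] at h1
    have h2 : (1 / 4 : ℝ) * R ^ 2 / 2 = R ^ 2 / 8 := by ring
    rw [h2] at h1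
    calc c * th (du L) (pj L (zv z)) (1 / 4) ≤
        c * (Real.exp (-(R ^ 2 / 8)) * (2 ^ rk L * th (du L) 0 (1 / 4))) :=
          mul_le_mul_of_nonneg_left h1 hc.le
      _ = _ := by ring
  · rw [kq_zero hyc]
    have := (kq_pos hL).le
    positivity

theorem kq_lower (hL : L ≤ Lx x) {R : ℝ} {y : Γ} (hy : y ∈ QR x L R) :
    Real.exp (-(R ^ 2 / 4)) * kq x L 0 ≤ kq x L y := by
  obtain ⟨z, rfl, u, hu, huR⟩ := hy
  obtain ⟨c, hc, hk⟩ := kq_theta hL
  have h0 := hk 0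
  simp only [Pi.zero_apply, zero_smul, Finset.sum_const_zero] at h0
  rw [hk z, h0, zv_zero, pj_zero]
  have h1 := th_lower (du_disc hL) (s := 1 / 4) (by norm_num) hu huR
  have h2 : (1 / 4 : ℝ) * R ^ 2 = R ^ 2 / 4 := by ring
  rw [h2] at h1
  calc Real.exp (-(R ^ 2 / 4)) * (c * th (du L) 0 (1 / 4)) =
      c * (Real.exp (-(R ^ 2 / 4)) * th (du L) 0 (1 / 4)) := by ring
    _ ≤ c * th (du L) (pj L (zv z)) (1 / 4) := mul_le_mul_of_nonneg_left h1 hc.le

theorem sum_kq (x : ι → Γ) (L : AddSubgroup (EuclideanSpace ℝ ι)) :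
    ∑ y, kq x L y = Fintype.card Γ * wt x L 1 := by
  unfold kq
  rw [Finset.sum_comm]
  simp_rw [← Finset.mul_sum, sum_char_re]
  rw [Finset.sum_eq_single (1 : AddChar Γ ℂ)]
  · simp; ring
  · intro χ _ hχ
    simp [hχ]
  · intro h; exact absurd (Finset.mem_univ _) h

theorem kq_zero_le (h : Disc L) {β : ℝ} (hβ : 0 ≤ β) (hβ1 : β ≤ 1) :
    kq x L 0 ≤ 3 ^ rk L * SS x β (fun _ => 1) := by
  unfold kq SS
  rw [Finset.mul_sum]
  refine Finset.sum_le_sum fun χ _ => ?_
  rw [AddChar.map_zero_eq_one, Complex.one_re, mul_one, one_mul]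
  exact wt_le h hβ hβ1 χ

end

end T9h11.RW
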