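import Pool.Agent.T9h11.RW6
import Pool.Agent.T9h11.GP5

set_option autoImplicit false
set_option linter.unusedSectionVars false
set_option linter.unusedVariables false

/-! The large values of the kernel form a coset progression (not necessarily proper). -/

namespace T9h11.RW

open Finset H460 T9h11.RM Pool.Agent.Y806.DF

variable {Γ : Type*} [AddCommGroup Γ] [Fintype Γ] {ι : Type*} [Fintype ι]
variable {x : ι → Γ} {L : AddSubgroup (EuclideanSpace ℝ ι)}

theorem zv_add (z z' : ι → ℤ) : zv (z + z') = zv z + zv z' := by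
  ext j; simp [zv]

theorem zv_neg (z : ι → ℤ) : zv (-z) = -zv z := by
  ext j; simp [zv]

theorem sum_add' (x : ι → Γ) (z z' : ι → ℤ) :
    ∑ j, (z + z') j • x j = ∑ j, z j • x j + ∑ j, z' j • x j := by
  rw [← Finset.sum_add_distrib]
  exact Finset.sum_congr rfl fun j _ => by rw [Pi.add_apply, add_smul]

theorem sum_neg' (x : ι → Γ) (z : ι → ℤ) : ∑ j, (-z) j • x j = -∑ j, z j • x j := by
  rw [← Finset.sum_neg_distrib]
  exact Finset.sum_congr rfl fun j _ => by rw [Pi.neg_apply, neg_smul]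

/-- the extended dual lattice -/
def NN (L : AddSubgroup (EuclideanSpace ℝ ι)) : AddSubgroup (EuclideanSpace ℝ ι) where
  carrier := {u | u ∈ Submodule.span ℝ (L : Set (EuclideanSpace ℝ ι)) ∧
    ∃ z : ι → ℤ, u - pj L (zv z) ∈ du L}
  zero_mem' := ⟨Submodule.zero_mem _, 0, by
    rw [zv_zero, pj_zero, sub_zero]; exact (du L).zero_mem⟩
  add_mem' := by
    rintro a b ⟨ha, z, hz⟩ ⟨hb, z', hz'⟩
    refine ⟨Submodule.add_mem _ ha hb, z + z', ?_⟩
    rw [zv_add, pj_add]
    have : a + b - (pj L (zv z) + pj L (zv z')) = (a - pj L (zv z)) + (b - pj L (zv z')) := by abel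
    rw [this]
    exact (du L).add_mem hz hz'
  neg_mem' := by
    rintro a ⟨ha, z, hz⟩
    refine ⟨Submodule.neg_mem _ ha, -z, ?_⟩
    rw [zv_neg, pj_neg]
    have : -a - -pj L (zv z) = -(a - pj L (zv z)) := by abel
    rw [this]
    exact (du L).neg_mem hz

/-- the kernel group -/
def H0 (x : ι → Γ) (L : AddSubgroup (EuclideanSpace ℝ ι)) : AddSubgroup Γ where
  carrier := {y | ∃ z : ι → ℤ, ∑ j, z j • x j = y ∧ pj L (zv z) ∈ du L}
  zero_mem' := ⟨0, by simp, by rw [zv_zero, pj_zero]; exact (du L).zero_mem⟩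
  add_mem' := by
    rintro _ _ ⟨z, rfl, hz⟩ ⟨z', rfl, hz'⟩
    exact ⟨z + z', sum_add' x z z', by rw [zv_add, pj_add]; exact (du L).add_mem hz hz'⟩
  neg_mem' := by
    rintro _ ⟨z, rfl, hz⟩
    exact ⟨-z, sum_neg' x z, by rw [zv_neg, pj_neg]; exact (du L).neg_mem hz⟩

theorem smul_pj_mem (hL : L ≤ Lx x) (z : ι → ℤ) :
    (Fintype.card Γ) • pj L (zv z) ∈ du L := by
  refine ⟨?_, fun v hv => ?_⟩
  · exact (Submodule.span ℝ (L : Set (EuclideanSpace ℝ ι))).toAddSubgroup.nsmul_mem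
      (pj_mem (zv z)) _
  · obtain ⟨χ, hχ⟩ := hL hv
    have h1 := hχ.nsmul (Fintype.card Γ)
    rw [char_pow_card, lift_one_iff] at h1
    choose m hm using h1
    refine ⟨∑ j, m j * z j, ?_⟩
    rw [← Nat.cast_smul_eq_nsmul ℝ, inner_smul_right, pj_inner (Submodule.subset_span hv),
      PiLp.inner_apply]
    push_cast
    rw [Finset.mul_sum, Finset.mul_sum]
    refine Finset.sum_congr rfl fun j _ => ?_
    have h2 : (inner ℝ (v j) ((zv z : EuclideanSpace ℝ ι) j) : ℝ) = v j * z j := by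
      show (inner ℝ (v j) ((z j : ℝ)) : ℝ) = _
      rw [real_inner_comm]
      simp
    have h3 : (Fintype.card Γ : ℝ) * v j = Real.pi * m j := by
      have := hm j
      rw [PiLp.smul_apply, nsmul_eq_mul] at this
      exact this
    rw [h2, ← mul_assoc, h3]
    ring

theorem NN_disc (hL : L ≤ Lx x) : Disc (NN L) := by
  intro R
  set n := Fintype.card Γ with hn
  have hn0 : (0 : ℝ) < n := by
    have : 0 < n := Fintype.card_pos
    exact_mod_cast this
  have hd := du_disc hL (n * R)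
  have hinj : Function.Injective (fun u : EuclideanSpace ℝ ι => n • u) := by
    intro a b hab
    have h1 : (n : ℝ) • a = (n : ℝ) • b := by
      rw [Nat.cast_smul_eq_nsmul, Nat.cast_smul_eq_nsmul]; exact hab
    exact smul_right_injective _ hn0.ne' h1
  refine (Set.Finite.preimage (hinj.injOn) hd).subset ?_
  rintro u ⟨⟨hu, z, hz⟩, huR⟩
  refine ⟨?_, ?_⟩
  · have h1 : n • u = n • (u - pj L (zv z)) + n • pj L (zv z) := by
      rw [← nsmul_add, sub_add_cancel]
    show n • u ∈ du L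
    rw [h1]
    exact (du L).add_mem ((du L).nsmul_mem hz n) (smul_pj_mem hL z)
  · show ‖n • u‖ ≤ n * R
    rw [← Nat.cast_smul_eq_nsmul ℝ, norm_smul, Real.norm_eq_abs, abs_of_pos hn0]
    exact mul_le_mul_of_nonneg_left huR hn0.le

theorem rk_NN (L : AddSubgroup (EuclideanSpace ℝ ι)) : rk (NN L) ≤ rk L := by
  unfold rk
  refine Submodule.finrank_mono ?_
  rw [Submodule.span_le]
  intro u hu
  exact hu.1

/-- an additive section -/
theorem exists_section (hL : L ≤ Lx x) : ∃ F : EuclideanSpace ℝ ι → Γ,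
    (∀ u ∈ NN L, ∀ v ∈ NN L, F (u + v) = F u + F v) ∧
    ∀ u ∈ NN L, ∃ z : ι → ℤ, ∑ j, z j • x j = F u ∧ u - pj L (zv z) ∈ du L := by
  classical
  obtain ⟨b, hb, hcl⟩ := (NN_disc hL).exists_basis
  have hbN : ∀ i, b i ∈ NN L := by
    intro i
    have h1 : b i ∈ AddSubgroup.closure (Set.range b) :=
      AddSubgroup.subset_closure (Set.mem_range_self i)
    rwa [hcl] at h1
  have hz : ∀ i, ∃ z : ι → ℤ, b i - pj L (zv z) ∈ du L := fun i => (hbN i).2
  choose z hz using hz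
  have hex : ∀ u ∈ NN L, ∃ c : Fin (rk (NN L)) → ℤ, lc b (Pool.Agent.Y806.DF.re c) = u := fun u hu =>
    exists_int hcl hu
  choose! ζ hζ using hex
  have hinj : ∀ c c' : Fin (rk (NN L)) → ℤ, lc b (Pool.Agent.Y806.DF.re c) =
      lc b (Pool.Agent.Y806.DF.re c') → c = c' := by
    intro c c' h
    have h1 := lc_inj hb h
    funext i
    have h2 : ((c i : ℤ) : ℝ) = ((c' i : ℤ) : ℝ) := congrFun h1 i
    exact_mod_cast h2
  refine ⟨fun u => ∑ i, ζ u i • ∑ j, z i j • x j, ?_, ?_⟩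
  · intro u hu v hv
    have h1 : ζ (u + v) = ζ u + ζ v := by
      apply hinj
      rw [hζ _ ((NN L).add_mem hu hv), re_add, map_add, hζ u hu, hζ v hv]
    beta_reduce
    rw [h1, ← Finset.sum_add_distrib]
    exact Finset.sum_congr rfl fun i _ => by rw [Pi.add_apply, add_smul]
  · intro u hu
    refine ⟨∑ i, ζ u i • z i, ?_, ?_⟩
    · rw [Finset.sum_congr rfl (fun j _ => by
        rw [Finset.sum_apply, Finset.sum_smul] :
        ∀ j ∈ Finset.univ, (∑ i, ζ u i • z i) j • x j = ∑ i, (ζ u i • z i) j • x j)]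
      rw [Finset.sum_comm]
      refine Finset.sum_congr rfl fun i _ => ?_
      rw [Finset.smul_sum]
      refine Finset.sum_congr rfl fun j _ => ?_
      rw [Pi.smul_apply, smul_assoc]
    · have h1 : pj L (zv (∑ i, ζ u i • z i)) = ∑ i, ζ u i • pj L (zv (z i)) := by
        let φ : (ι → ℤ) →+ EuclideanSpace ℝ ι :=
          { toFun := fun z => pj L (zv z)
            map_zero' := by rw [zv_zero, pj_zero]
            map_add' := fun a b => by rw [zv_add, pj_add] }
        have h2 : φ (∑ i, ζ u i • z i) = ∑ i, ζ u i • φ (z i) := by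
          rw [map_sum]
          exact Finset.sum_congr rfl fun i _ => map_zsmul _ _ _
        exact h2
      have h2 : u = ∑ i, ζ u i • b i := by
        conv_lhs => rw [← hζ u hu]
        rw [lc_apply]
        refine Finset.sum_congr rfl fun i _ => ?_
        show ((ζ u i : ℤ) : ℝ) • b i = _
        rw [Int.cast_smul_eq_zsmul]
      have h3 : u - ∑ i, ζ u i • pj L (zv (z i)) = ∑ i, ζ u i • (b i - pj L (zv (z i))) := by
        simp_rw [zsmul_sub]
        rw [Finset.sum_sub_distrib, ← h2]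
      rw [h1, h3]
      exact AddSubgroup.sum_mem _ fun i _ => (du L).zsmul_mem (hz i) _

/-- the set `QR` as a progression -/
theorem QR_eq (hL : L ≤ Lx x) {F : EuclideanSpace ℝ ι → Γ}
    (hF : ∀ u ∈ NN L, ∃ z : ι → ℤ, ∑ j, z j • x j = F u ∧ u - pj L (zv z) ∈ du L) (R : ℝ) :
    QR x L R = {g | ∃ u ∈ NN L, ‖u‖ ≤ R ∧ ∃ h ∈ H0 x L, g = F u + h} := by
  ext g
  constructor
  · rintro ⟨z, rfl, w, hw, hR⟩
    have hu : pj L (zv z) - w ∈ NN L := by
      refine ⟨Submodule.sub_mem _ (pj_mem _) hw.1, z, ?_⟩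
      have : pj L (zv z) - w - pj L (zv z) = -w := by abel
      rw [this]; exact (du L).neg_mem hw
    obtain ⟨z', hz', hz'2⟩ := hF _ hu
    refine ⟨_, hu, hR, ∑ j, z j • x j - F (pj L (zv z) - w), ?_, by abel⟩
    refine ⟨z + -z', ?_, ?_⟩
    · rw [sum_add', sum_neg', hz']; abel
    · rw [zv_add, zv_neg, pj_add, pj_neg]
      have : pj L (zv z) + -pj L (zv z') = w + (pj L (zv z) - w - pj L (zv z')) := by abel
      rw [this]
      exact (du L).add_mem hw hz'2
  · rintro ⟨u, hu, hR, h, ⟨z₁, rfl, hz₁⟩, rfl⟩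
    obtain ⟨z, hz, hz2⟩ := hF u hu
    refine ⟨z + z₁, by rw [sum_add', hz], pj L (zv (z + z₁)) - u, ?_, ?_⟩
    · rw [zv_add, pj_add]
      have : pj L (zv z) + pj L (zv z₁) - u = -(u - pj L (zv z)) + pj L (zv z₁) := by abel
      rw [this]
      exact (du L).add_mem ((du L).neg_mem hz2) hz₁
    · rw [sub_sub_cancel]; exact hR

/-- covering `QR` by translates of a proper coset progression -/
theorem QR_cover (hL : L ≤ Lx x) {R : ℝ} (hR : 0 < R) {n : ℕ} (hn : 1 ≤ n) (hrk : rk L ≤ n)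
    {a : ℕ} (ha : 1 ≤ a) {κ : ℝ} (hκ : 1 ≤ κ) (hcard : ((QR x L R).ncard : ℝ) ≤ κ * a) :
    ∃ (d : ℕ) (B : Set (Fin d → ℝ)) (ψ : (Fin d → ℤ) →+ Γ) (H : AddSubgroup Γ) (T : Finset Γ),
      d ≤ n ∧ Body B ∧ Finite H ∧ (lat B).ncard * Nat.card H ≤ a ∧
      (T.card : ℝ) ≤ Real.exp (876 * n) * κ ∧
      ∀ g ∈ QR x L R, ∃ t ∈ T, ∃ w ∈ lat B, ∃ h ∈ H, g = t + ψ w + h := by
  classical
  obtain ⟨F, hF1, hF2⟩ := exists_section hL
  have hn0 : (0 : ℝ) < n := by exact_mod_cast hn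
  set ρ : ℝ := Real.sqrt (4 * n) with hρ
  have hρ2 : ρ ^ 2 = 4 * n := Real.sq_sqrt (by positivity)
  have hρ0 : 0 < ρ := Real.sqrt_pos.2 (by positivity)
  set c : ℝ := ρ / R with hc
  have hc0 : 0 < c := div_pos hρ0 hR
  obtain ⟨hd, hrk'⟩ := disc_scl (NN_disc hL) hc0.ne'
  have hmem : ∀ v, v ∈ scl c (NN L) ↔ ∃ u ∈ NN L, c • u = v := by
    intro v
    unfold scl
    rw [AddSubgroup.mem_map]
    rfl
  have hH0 : Finite (H0 x L) := inferInstance
  obtain ⟨-, h⟩ := ell_group (Γ := Γ) hd (F := fun v => F (c⁻¹ • v)) (by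
      intro v hv w hw
      obtain ⟨u, hu, rfl⟩ := (hmem v).1 hv
      obtain ⟨u', hu', rfl⟩ := (hmem w).1 hw
      beta_reduce
      rw [smul_add, smul_smul, smul_smul, inv_mul_cancel₀ hc0.ne', one_smul, one_smul]
      exact hF1 u hu u' hu') hn (by
      rw [hrk']
      exact (rk_NN L).trans hrk) hρ0.le hρ2 (H0 x L) hH0 (P := QR x L R) (by
      rw [QR_eq hL hF2]
      ext g
      constructor
      · rintro ⟨u, hu, huR, k, hk, rfl⟩
        refine ⟨c • u, (hmem _).2 ⟨u, hu, rfl⟩, ?_, k, hk, ?_⟩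
        · rw [norm_smul, Real.norm_eq_abs, abs_of_pos hc0, hc, div_mul_eq_mul_div, div_le_iff₀ hR]
          exact mul_le_mul_of_nonneg_left huR hρ0.le
        · rw [smul_smul, inv_mul_cancel₀ hc0.ne', one_smul]
      · rintro ⟨v, hv, hvρ, k, hk, rfl⟩
        obtain ⟨u, hu, rfl⟩ := (hmem v).1 hv
        refine ⟨u, hu, ?_, k, hk, ?_⟩
        · rw [norm_smul, Real.norm_eq_abs, abs_of_pos hc0, hc, div_mul_eq_mul_div,
            div_le_iff₀ hR] at hvρ
          exact le_of_mul_le_mul_left hvρ hρ0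
        · rw [smul_smul, inv_mul_cancel₀ hc0.ne', one_smul]) ha hκ hcard
  exact h

end T9h11.RW
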