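import Pool.Agent.T9h11.RW7

set_option autoImplicit false
set_option linter.unusedSectionVars false
set_option linter.unusedVariables false

/-! Structure of laws which correlate with a walk with given steps. -/

namespace T9h11.RW

open Finset H460 T9h11.RM Pool.Agent.Y806.DF
open scoped Classical

variable {Γ : Type*} [AddCommGroup Γ] [Fintype Γ] {ι : Type*} [Fintype ι]

/-- squared modulus of the Fourier transform -/
noncomputable def sq' (σ : Γ → ℝ) (χ : AddChar Γ ℂ) : ℝ :=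
  ∑ y, ∑ y', σ y * σ y' * (χ (y' - y)).re

theorem sq'_eq (σ : Γ → ℝ) (χ : AddChar Γ ℂ) :
    sq' σ χ = (∑ y, σ y * (χ y).re) ^ 2 + (∑ y, σ y * (χ y).im) ^ 2 := by
  unfold sq'
  rw [sq, sq, Finset.sum_mul_sum, Finset.sum_mul_sum, ← Finset.sum_add_distrib]
  refine Finset.sum_congr rfl fun y _ => ?_
  rw [← Finset.sum_add_distrib]
  refine Finset.sum_congr rfl fun y' _ => ?_
  rw [sub_eq_add_neg, AddChar.map_add_eq_mul, re_neg]
  simp only [Complex.mul_re, Complex.conj_re, Complex.conj_im]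
  ring

theorem sq'_nonneg (σ : Γ → ℝ) (χ : AddChar Γ ℂ) : 0 ≤ sq' σ χ := by
  rw [sq'_eq]; positivity

theorem sq'_cp {σ : Γ → ℝ} (hσ : ∀ y, 0 ≤ σ y) : CP (sq' σ) := by
  refine ⟨fun g => ∑ y, ∑ y', if y' - y = g then σ y * σ y' else 0, fun g => ?_, fun χ => ?_⟩
  · refine Finset.sum_nonneg fun y _ => Finset.sum_nonneg fun y' _ => ?_
    split_ifs
    · exact mul_nonneg (hσ y) (hσ y')
    · exact le_rfl
  · unfold sq'
    simp_rw [Finset.sum_mul]
    conv_rhs => rw [Finset.sum_comm]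
    refine Finset.sum_congr rfl fun y _ => ?_
    conv_rhs => rw [Finset.sum_comm]
    refine Finset.sum_congr rfl fun y' _ => ?_
    rw [Finset.sum_eq_single (y' - y)]
    · rw [if_pos rfl]
    · intro g _ hg
      rw [if_neg (Ne.symm hg), zero_mul]
    · intro h; exact absurd (Finset.mem_univ _) h

variable {x : ι → Γ}

theorem sum_biUnion_le' {f : Γ → ℝ} (hf : ∀ y, 0 ≤ f y) {κ : Type*} (T : Finset κ)
    (F : κ → Finset Γ) : ∑ y ∈ T.biUnion F, f y ≤ ∑ t ∈ T, ∑ y ∈ F t, f y := by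
  induction T using Finset.induction_on with
  | empty => simp
  | insert t T ht ih =>
    rw [Finset.biUnion_insert, Finset.sum_insert ht]
    have h1 := Finset.sum_union_inter (s₁ := F t) (s₂ := T.biUnion F) (f := f)
    have h2 : 0 ≤ ∑ y ∈ F t ∩ T.biUnion F, f y := Finset.sum_nonneg fun y _ => hf y
    linarith

theorem pairs_kq (L : AddSubgroup (EuclideanSpace ℝ ι)) (σ : Γ → ℝ) :
    ∑ y, ∑ y', σ y * σ y' * kq x L (y' - y) = ∑ χ, sq' σ χ * wt x L χ := by
  unfold sq' kq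
  simp_rw [Finset.sum_mul, Finset.mul_sum]
  conv_rhs => rw [Finset.sum_comm]
  refine Finset.sum_congr rfl fun y _ => ?_
  rw [Finset.sum_comm]
  refine Finset.sum_congr rfl fun χ _ => Finset.sum_congr rfl fun y' _ => ?_
  ring

theorem core {σ : Γ → ℝ} (hσ0 : ∀ y, 0 ≤ σ y) (hσ1 : ∑ y, σ y = 1) {β κ lam : ℝ}
    (hβ : 1 / 2 ≤ β) (hβ1 : β ≤ 1) (hκ0 : 0 ≤ κ) (hlam : 2800001 * κ + 1 ≤ lam)
    (ha : SS x (β / 2) (fun _ => 1) ≤ Real.exp κ * SS x β (fun _ => 1))
    (hb : Real.exp (-κ) * SS x β (fun _ => 1) ≤ SS x β (sq' σ))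
    (hc : Real.exp (-κ) * (Fintype.card Γ * ∑ y, σ y ^ 2) ≤ SS x β (fun _ => 1)) :
    ∃ (d : ℕ) (B : Set (Fin d → ℝ)) (ψ : (Fin d → ℤ) →+ Γ) (H : AddSubgroup Γ) (g : Γ),
      (d : ℝ) ≤ 8160 * lam + 1 ∧ Body B ∧ Finite H ∧
      ((lat B).ncard * Nat.card H : ℕ) * (∑ y, σ y ^ 2) ≤ 1 ∧
      Real.exp (-(10 ^ 7 * lam)) ≤
        ∑ y ∈ Finset.univ.filter (fun y => ∃ w ∈ lat B, ∃ h ∈ H, y = g + ψ w + h), σ y := by
  have hlam1 : 1 ≤ lam := by linarith
  have hlam0 : 0 ≤ lam := by linarith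
  have hβ0 : 0 ≤ β := by linarith
  have hZ := SS_pos x β
  set Z := SS x β (fun _ => 1) with hZdef
  set s₂ := ∑ y, σ y ^ 2 with hs₂
  have hn : (0 : ℝ) < Fintype.card Γ := by exact_mod_cast Fintype.card_pos
  have hs₂0 : 0 < s₂ := by
    obtain ⟨y, -, hy⟩ := Finset.exists_ne_zero_of_sum_ne_zero (by rw [hσ1]; norm_num :
      ∑ y, σ y ≠ 0)
    refine Finset.sum_pos' (fun y _ => sq_nonneg _) ⟨y, Finset.mem_univ _, ?_⟩
    positivity
  have hσle : ∀ y, σ y ≤ 1 := fun y => by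
    rw [← hσ1]; exact Finset.single_le_sum (fun y _ => hσ0 y) (Finset.mem_univ y)
  have hs₂1 : s₂ ≤ 1 := by
    rw [← hσ1]
    refine Finset.sum_le_sum fun y _ => ?_
    nlinarith [hσ0 y, hσle y]
  obtain ⟨S, hS, hcount⟩ := stage x hβ hβ1 hκ0 ha hlam
  rw [← hZdef] at hcount
  set W := (Finset.univ.filter fun χ : AddChar Γ ℂ =>
          ∃ u ∈ AddSubgroup.closure (S : Set (EuclideanSpace ℝ ι)),
            Lift x u χ ∧ ‖u‖ ^ 2 ≤ 20 * lam) with hW
  set L : AddSubgroup (EuclideanSpace ℝ ι) := AddSubgroup.closure (S : Set _) ⊓ Lx x with hL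
  have hLx : L ≤ Lx x := inf_le_right
  have hdisc : Disc L := (disc_Lx x).mono hLx
  have hrk : rk L ≤ S.card := rk_le_card hdisc inf_le_left
  set d := rk L with hd
  have hdr : (d : ℝ) ≤ 8160 * lam + 1 := le_trans (by exact_mod_cast hrk) hS
  have hd0 : (0 : ℝ) ≤ d := Nat.cast_nonneg _
  -- the Gibbs mean of the weight
  have h1 : Real.exp (-(3266 * lam)) * Z ≤ SS x β (wt x L) := by
    have h2 : (W.card : ℝ) * Real.exp (-(120 * lam)) ≤ SS x β (wt x L) := by
      unfold SS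
      rw [← nsmul_eq_mul]
      refine (Finset.card_nsmul_le_sum W (fun χ => wt x L χ * Real.exp (-β * ee x χ)) _ ?_).trans
        (Finset.sum_le_sum_of_subset_of_nonneg (Finset.subset_univ W) fun χ _ _ =>
          mul_nonneg (wt_nonneg χ) (Real.exp_pos _).le)
      intro χ hχ
      obtain ⟨-, u, hu, hl, hn2⟩ := Finset.mem_filter.1 hχ
      have h3 : Real.exp (-4 * ‖u‖ ^ 2) ≤ wt x L χ := wt_ge hdisc ⟨hu, χ, hl⟩ hl
      have h4 := hl.ee_le
      have h5 : Real.exp (-(80 * lam)) ≤ wt x L χ :=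
        (Real.exp_le_exp.2 (by linarith)).trans h3
      have h6 : Real.exp (-(40 * lam)) ≤ Real.exp (-β * ee x χ) := by
        apply Real.exp_le_exp.2
        have := ee_nonneg x χ
        nlinarith
      calc Real.exp (-(120 * lam)) = Real.exp (-(80 * lam)) * Real.exp (-(40 * lam)) := by
            rw [← Real.exp_add]; congr 1; ring
        _ ≤ wt x L χ * Real.exp (-β * ee x χ) :=
            mul_le_mul h5 h6 (Real.exp_pos _).le (wt_nonneg χ)
    refine le_trans ?_ h2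
    calc Real.exp (-(3266 * lam)) * Z =
        (Real.exp (-(3146 * lam)) * Z) * Real.exp (-(120 * lam)) := by
          rw [mul_right_comm, ← Real.exp_add]; congr 2; ring
      _ ≤ W.card * Real.exp (-(120 * lam)) :=
          mul_le_mul_of_nonneg_right hcount (Real.exp_pos _).le
  have hκlam : κ ≤ lam := by linarith
  -- correlation
  have h2 : Real.exp (-(3267 * lam)) * Z ≤ ∑ χ, sq' σ χ * wt x L χ := by
    have h3 := SS_ginibre x hβ0 (sq'_cp hσ0) (wt_cp hLx)
    rw [← hZdef] at h3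
    have h4 : (Real.exp (-κ) * Z) * (Real.exp (-(3266 * lam)) * Z) ≤
        SS x β (fun χ => sq' σ χ * wt x L χ) * Z :=
      (mul_le_mul hb h1 (by positivity) ((by positivity : 0 ≤ Real.exp (-κ) * Z).trans hb)).trans h3
    have h5 : Real.exp (-(3267 * lam)) * Z ≤ SS x β (fun χ => sq' σ χ * wt x L χ) := by
      refine le_of_mul_le_mul_right (le_trans ?_ h4) hZ
      calc Real.exp (-(3267 * lam)) * Z * Z ≤ (Real.exp (-κ) * Real.exp (-(3266 * lam))) * Z * Z := by
            rw [← Real.exp_add]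
            gcongr
            linarith
        _ = _ := by ring
    refine h5.trans ?_
    unfold SS
    refine Finset.sum_le_sum fun χ _ => ?_
    have h6 : Real.exp (-β * ee x χ) ≤ 1 := by
      apply Real.exp_le_one_iff.2
      have := ee_nonneg x χ
      nlinarith
    have h7 : 0 ≤ sq' σ χ * wt x L χ := mul_nonneg (sq'_nonneg σ χ) (wt_nonneg χ)
    calc sq' σ χ * wt x L χ * Real.exp (-β * ee x χ) ≤ sq' σ χ * wt x L χ * 1 :=
          mul_le_mul_of_nonneg_left h6 h7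
      _ = _ := mul_one _
  rw [← pairs_kq] at h2
  set ρ := 3267 * lam with hρ
  have hk0 := kq_pos hLx
  have hk0le : kq x L 0 ≤ 3 ^ d * Z := kq_zero_le hdisc hβ0 hβ1
  -- a good centre
  obtain ⟨x₀, hx₀⟩ : ∃ x₀, Real.exp (-ρ) * Z ≤ ∑ y', σ y' * kq x L (y' - x₀) := by
    by_contra hcon
    push Not at hcon
    have h3 : ∑ y, ∑ y', σ y * σ y' * kq x L (y' - y) < Real.exp (-ρ) * Z := by
      have h4 : ∑ y, ∑ y', σ y * σ y' * kq x L (y' - y) =
          ∑ y, σ y * ∑ y', σ y' * kq x L (y' - y) := by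
        refine Finset.sum_congr rfl fun y _ => ?_
        rw [Finset.mul_sum]
        exact Finset.sum_congr rfl fun y' _ => by ring
      rw [h4]
      have h5 : Real.exp (-ρ) * Z = ∑ y, σ y * (Real.exp (-ρ) * Z) := by
        rw [← Finset.sum_mul, hσ1, one_mul]
      rw [h5]
      obtain ⟨y, -, hy⟩ := Finset.exists_ne_zero_of_sum_ne_zero (by rw [hσ1]; norm_num :
        ∑ y, σ y ≠ 0)
      refine Finset.sum_lt_sum (fun y _ => mul_le_mul_of_nonneg_left (hcon y).le (hσ0 y))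
        ⟨y, Finset.mem_univ _, ?_⟩
      exact mul_lt_mul_of_pos_left (hcon y) (lt_of_le_of_ne (hσ0 y) (Ne.symm hy))
    linarith
  -- the radius
  set R : ℝ := Real.sqrt (8 * (ρ + 1 + 2 * d)) with hR
  have hρ0 : 0 ≤ ρ := by positivity
  have hRarg : 0 < 8 * (ρ + 1 + 2 * d) := by positivity
  have hR0 : 0 < R := Real.sqrt_pos.2 hRarg
  have hR2 : R ^ 2 = 8 * (ρ + 1 + 2 * d) := Real.sq_sqrt hRarg.le
  have he1 : Real.exp (-1) ≤ 1 / 2 := by
    rw [Real.exp_neg, inv_eq_one_div]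
    apply one_div_le_one_div_of_le (by norm_num)
    linarith [Real.exp_one_gt_d9]
  have he2 : (6 : ℝ) ≤ Real.exp 2 := by
    have h := Real.exp_one_gt_d9
    have h' : Real.exp 2 = Real.exp 1 ^ 2 := by rw [← Real.exp_nat_mul]; norm_num
    rw [h']; nlinarith
  have he2d : (6 : ℝ) ^ d ≤ Real.exp (2 * d) := by
    calc (6 : ℝ) ^ d ≤ Real.exp 2 ^ d := by gcongr
      _ = Real.exp (2 * d) := by rw [← Real.exp_nat_mul]; congr 1; ring
  have hsmall : ∀ y, y ∉ QR x L R → kq x L y ≤ 1 / 2 * (Real.exp (-ρ) * Z) := by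
    intro y hy
    have h3 := kq_upper hLx hR0.le hy
    rw [hR2, ← hd] at h3
    have h4 : 8 * (ρ + 1 + 2 * (d : ℝ)) / 8 = ρ + 1 + 2 * d := by ring
    rw [h4] at h3
    refine h3.trans ?_
    have h5 : Real.exp (-(ρ + 1 + 2 * d)) = Real.exp (-ρ) * Real.exp (-1) * Real.exp (-(2 * d)) := by
      rw [← Real.exp_add, ← Real.exp_add]; congr 1; ring
    have h6 : Real.exp (-(2 * (d : ℝ))) * 6 ^ d ≤ 1 := by
      calc Real.exp (-(2 * (d : ℝ))) * 6 ^ d ≤ Real.exp (-(2 * (d : ℝ))) * Real.exp (2 * d) :=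
            mul_le_mul_of_nonneg_left he2d (Real.exp_pos _).le
        _ = 1 := by rw [← Real.exp_add]; simp
    have h7 : (2 : ℝ) ^ d * 3 ^ d = 6 ^ d := by rw [← mul_pow]; norm_num
    calc Real.exp (-(ρ + 1 + 2 * d)) * 2 ^ d * kq x L 0 ≤
        Real.exp (-(ρ + 1 + 2 * d)) * 2 ^ d * (3 ^ d * Z) :=
          mul_le_mul_of_nonneg_left hk0le (by positivity)
      _ = Real.exp (-ρ) * Z * Real.exp (-1) * (Real.exp (-(2 * d)) * (2 ^ d * 3 ^ d)) := by
          rw [h5]; ring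
      _ ≤ Real.exp (-ρ) * Z * (1 / 2) * 1 := by
          rw [h7]
          gcongr
      _ = 1 / 2 * (Real.exp (-ρ) * Z) := by ring
  -- mass
  set G := Finset.univ.filter (fun y => y - x₀ ∈ QR x L R) with hG
  have hmass : 1 / 2 * Real.exp (-ρ) ≤ 3 ^ d * ∑ y ∈ G, σ y := by
    have h3 : ∑ y', σ y' * kq x L (y' - x₀) ≤
        (∑ y ∈ G, σ y) * (3 ^ d * Z) + 1 / 2 * (Real.exp (-ρ) * Z) := by
      have h4 : ∀ y', σ y' * kq x L (y' - x₀) ≤
          (if y' ∈ G then σ y' else 0) * (3 ^ d * Z) + σ y' * (1 / 2 * (Real.exp (-ρ) * Z)) := by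
        intro y'
        by_cases hy : y' ∈ G
        · rw [if_pos hy]
          have h5 := (kq_le hLx (y' - x₀)).trans hk0le
          have h6 := mul_le_mul_of_nonneg_left h5 (hσ0 y')
          have h7 : 0 ≤ σ y' * (1 / 2 * (Real.exp (-ρ) * Z)) :=
            mul_nonneg (hσ0 y') (by positivity)
          linarith
        · rw [if_neg hy, zero_mul, zero_add]
          refine mul_le_mul_of_nonneg_left (hsmall _ fun hh => hy ?_) (hσ0 y')
          exact Finset.mem_filter.2 ⟨Finset.mem_univ _, hh⟩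
      refine (Finset.sum_le_sum fun y' _ => h4 y').trans (le_of_eq ?_)
      rw [Finset.sum_add_distrib, ← Finset.sum_mul, ← Finset.sum_mul, hσ1, one_mul,
        Finset.sum_ite_mem, Finset.univ_inter]
    have h5 : 1 / 2 * Real.exp (-ρ) * Z ≤ (3 ^ d * ∑ y ∈ G, σ y) * Z := by
      have := hx₀.trans h3
      nlinarith
    exact le_of_mul_le_mul_right h5 hZ
  -- size of `QR`
  have h3d : (3 : ℝ) ^ d ≤ Real.exp (2 * d) :=
    (pow_le_pow_left₀ (by norm_num) (by norm_num) d).trans he2d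
  have hsize : ((QR x L R).ncard : ℝ) * s₂ ≤ Real.exp (6 * d + 3 * ρ + κ + 2) := by
    set QF := Finset.univ.filter (fun y => y ∈ QR x L R) with hQF
    have hQFc : (QR x L R).ncard = QF.card := by
      rw [← Set.ncard_coe_finset]
      congr 1
      ext y
      simp [hQF]
    have h3 : (QF.card : ℝ) * (Real.exp (-(R ^ 2 / 4)) * kq x L 0) ≤ Fintype.card Γ * 3 ^ d := by
      rw [← nsmul_eq_mul]
      refine (Finset.card_nsmul_le_sum QF (fun y => kq x L y) _ fun y hy =>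
        kq_lower hLx (Finset.mem_filter.1 hy).2).trans ?_
      refine (Finset.sum_le_sum_of_subset_of_nonneg (Finset.subset_univ QF)
        fun y _ _ => kq_nonneg hLx y).trans ?_
      rw [sum_kq]
      exact mul_le_mul_of_nonneg_left (wt_one hdisc) hn.le
    have h4 : Real.exp (-(ρ + κ)) * (Fintype.card Γ * s₂) ≤ kq x L 0 := by
      have h5 : ∑ y, ∑ y', σ y * σ y' * kq x L (y' - y) ≤ kq x L 0 := by
        have h6 : kq x L 0 = ∑ y, ∑ y', σ y * σ y' * kq x L 0 := by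
          simp_rw [← Finset.sum_mul, ← Finset.mul_sum, hσ1, mul_one]
          rw [hσ1, one_mul]
        rw [h6]
        refine Finset.sum_le_sum fun y _ => Finset.sum_le_sum fun y' _ => ?_
        exact mul_le_mul_of_nonneg_left (kq_le hLx _) (mul_nonneg (hσ0 y) (hσ0 y'))
      have h6 : Real.exp (-ρ) * (Real.exp (-κ) * (Fintype.card Γ * s₂)) ≤ Real.exp (-ρ) * Z :=
        mul_le_mul_of_nonneg_left hc (Real.exp_pos _).le
      have h7 : Real.exp (-(ρ + κ)) * (Fintype.card Γ * s₂) =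
          Real.exp (-ρ) * (Real.exp (-κ) * (Fintype.card Γ * s₂)) := by
        rw [show -(ρ + κ) = -ρ + -κ by ring, Real.exp_add, mul_assoc]
      rw [h7]
      exact h6.trans (h2.trans h5)
    rw [hQFc]
    have hR4 : R ^ 2 / 4 = 2 * (ρ + 1 + 2 * d) := by rw [hR2]; ring
    rw [hR4] at h3
    have h5 : (QF.card : ℝ) * (Real.exp (-(2 * (ρ + 1 + 2 * d))) *
        (Real.exp (-(ρ + κ)) * (Fintype.card Γ * s₂))) ≤ Fintype.card Γ * Real.exp (2 * d) := by
      refine le_trans ?_ (h3.trans (mul_le_mul_of_nonneg_left h3d hn.le))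
      gcongr
    have h6 : Real.exp (6 * d + 3 * ρ + κ + 2) = Real.exp (2 * d) *
        (Real.exp (2 * (ρ + 1 + 2 * d)) * Real.exp (ρ + κ)) := by
      rw [← Real.exp_add, ← Real.exp_add]; congr 1; ring
    have h7 : Real.exp (-(2 * (ρ + 1 + 2 * d))) * Real.exp (2 * (ρ + 1 + 2 * (d : ℝ))) = 1 := by
      rw [← Real.exp_add]; simp
    have h8 : Real.exp (-(ρ + κ)) * Real.exp (ρ + κ) = 1 := by rw [← Real.exp_add]; simp
    have h9 := mul_le_mul_of_nonneg_right h5
      (by positivity : 0 ≤ Real.exp (2 * (ρ + 1 + 2 * (d : ℝ))) * Real.exp (ρ + κ))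
    have h10 : (Fintype.card Γ : ℝ) * ((QF.card : ℝ) * s₂) ≤
        Fintype.card Γ * Real.exp (6 * d + 3 * ρ + κ + 2) := by
      rw [h6]
      calc (Fintype.card Γ : ℝ) * ((QF.card : ℝ) * s₂) =
          (QF.card : ℝ) * (Real.exp (-(2 * (ρ + 1 + 2 * d))) *
        (Real.exp (-(ρ + κ)) * (Fintype.card Γ * s₂))) *
          (Real.exp (2 * (ρ + 1 + 2 * (d : ℝ))) * Real.exp (ρ + κ)) := by
            rw [show (QF.card : ℝ) * (Real.exp (-(2 * (ρ + 1 + 2 * d))) *
              (Real.exp (-(ρ + κ)) * (Fintype.card Γ * s₂))) *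
              (Real.exp (2 * (ρ + 1 + 2 * (d : ℝ))) * Real.exp (ρ + κ)) =
              (Real.exp (-(2 * (ρ + 1 + 2 * d))) * Real.exp (2 * (ρ + 1 + 2 * (d : ℝ)))) *
              (Real.exp (-(ρ + κ)) * Real.exp (ρ + κ)) *
              (Fintype.card Γ * ((QF.card : ℝ) * s₂)) by ring, h7, h8]
            ring
        _ ≤ _ := h9
        _ = _ := by ring
    exact le_of_mul_le_mul_left h10 hn
  have hexpo : 6 * (d : ℝ) + 3 * ρ + κ + 2 ≤ 58770 * lam := by
    rw [hρ]; linarith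
  have hsize' : ((QR x L R).ncard : ℝ) * s₂ ≤ Real.exp (58770 * lam) :=
    hsize.trans (Real.exp_le_exp.2 hexpo)
  -- `a`
  set a : ℕ := ⌊1 / s₂⌋₊ with ha'
  have hinv : 1 ≤ 1 / s₂ := by rw [le_div_iff₀ hs₂0]; linarith
  have ha1 : 1 ≤ a := by rw [ha', Nat.le_floor_iff (by positivity)]; simpa using hinv
  have has : (a : ℝ) * s₂ ≤ 1 := by
    have := Nat.floor_le (by positivity : 0 ≤ 1 / s₂)
    rw [← ha', le_div_iff₀ hs₂0] at this
    exact this
  have has2 : 1 / s₂ ≤ 2 * a := by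
    have h3 := Nat.lt_floor_add_one (1 / s₂)
    rw [← ha'] at h3
    have h4 : (1 : ℝ) ≤ a := by exact_mod_cast ha1
    linarith
  have hcardQ : ((QR x L R).ncard : ℝ) ≤ (2 * Real.exp (58770 * lam)) * a := by
    have h3 : ((QR x L R).ncard : ℝ) ≤ Real.exp (58770 * lam) * (1 / s₂) := by
      rw [mul_one_div, le_div_iff₀ hs₂0]
      exact hsize'
    calc ((QR x L R).ncard : ℝ) ≤ Real.exp (58770 * lam) * (1 / s₂) := h3
      _ ≤ Real.exp (58770 * lam) * (2 * a) := mul_le_mul_of_nonneg_left has2 (Real.exp_pos _).le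
      _ = _ := by ring
  have hexp1 : 1 ≤ Real.exp (58770 * lam) := Real.one_le_exp (by positivity)
  set n := max 1 S.card with hndef
  have hnr : (n : ℝ) ≤ 8160 * lam + 1 := by
    rw [hndef, Nat.cast_max]
    refine max_le ?_ hS
    push_cast
    linarith
  obtain ⟨d', B, ψ, H, T, hd', hB, hH, hvol, hT, hcov⟩ := QR_cover hLx hR0 (n := n)
    (le_max_left _ _) (hrk.trans (le_max_right _ _)) ha1 (κ := 2 * Real.exp (58770 * lam))
    (by linarith) hcardQ
  -- pigeonhole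
  have hTb : (T.card : ℝ) ≤ Real.exp (7300000 * lam) := by
    refine hT.trans ?_
    have h3 : (2 : ℝ) ≤ Real.exp 1 := by linarith [Real.exp_one_gt_d9]
    calc Real.exp (876 * n) * (2 * Real.exp (58770 * lam)) ≤
        Real.exp (876 * (8160 * lam + 1)) * (Real.exp 1 * Real.exp (58770 * lam)) := by gcongr
      _ = Real.exp (876 * (8160 * lam + 1) + (1 + 58770 * lam)) := by
          rw [← Real.exp_add, ← Real.exp_add]
      _ ≤ Real.exp (7300000 * lam) := Real.exp_le_exp.2 (by linarith)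
  set Fb : Γ → Finset Γ := fun t =>
    Finset.univ.filter (fun y => ∃ w ∈ lat B, ∃ h ∈ H, y = (x₀ + t) + ψ w + h) with hFb
  have hGsub : G ⊆ T.biUnion Fb := by
    intro y hy
    obtain ⟨t, ht, w, hw, h, hh, he⟩ := hcov _ (Finset.mem_filter.1 hy).2
    refine Finset.mem_biUnion.2 ⟨t, ht, Finset.mem_filter.2 ⟨Finset.mem_univ _, w, hw, h, hh, ?_⟩⟩
    have h3 : y = x₀ + (y - x₀) := by abel
    rw [h3, he]; abel
  have hsumT : ∑ y ∈ G, σ y ≤ ∑ t ∈ T, ∑ y ∈ Fb t, σ y := by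
    refine (Finset.sum_le_sum_of_subset_of_nonneg hGsub fun y _ _ => hσ0 y).trans ?_
    exact sum_biUnion_le' hσ0 T Fb
  obtain ⟨t, ht, htt⟩ : ∃ t ∈ T, Real.exp (-(10 ^ 7 * lam)) ≤ ∑ y ∈ Fb t, σ y := by
    by_contra hcon
    push Not at hcon
    have hTne : T.Nonempty := by
      rw [Finset.nonempty_iff_ne_empty]
      rintro rfl
      rw [Finset.sum_empty] at hsumT
      have h3 : 0 < 1 / 2 * Real.exp (-ρ) := by positivity
      have h4 : (0 : ℝ) ≤ 3 ^ d := by positivity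
      nlinarith
    have h3 : ∑ t ∈ T, ∑ y ∈ Fb t, σ y < T.card * Real.exp (-(10 ^ 7 * lam)) := by
      rw [← nsmul_eq_mul, ← Finset.sum_const]
      exact Finset.sum_lt_sum_of_nonempty hTne hcon
    have h4 : (T.card : ℝ) * Real.exp (-(10 ^ 7 * lam)) ≤ Real.exp (-(2700000 * lam)) := by
      calc (T.card : ℝ) * Real.exp (-(10 ^ 7 * lam)) ≤
          Real.exp (7300000 * lam) * Real.exp (-(10 ^ 7 * lam)) :=
            mul_le_mul_of_nonneg_right hTb (Real.exp_pos _).le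
        _ = Real.exp (-(2700000 * lam)) := by rw [← Real.exp_add]; congr 1; ring
    have h5 : 3 ^ d * ∑ y ∈ G, σ y ≤ Real.exp (2 * d) * Real.exp (-(2700000 * lam)) := by
      apply mul_le_mul h3d _ (Finset.sum_nonneg fun y _ => hσ0 y) (Real.exp_pos _).le
      exact hsumT.trans (h3.le.trans h4)
    rw [← Real.exp_add] at h5
    have h6 : Real.exp (-1 - ρ) ≤ 1 / 2 * Real.exp (-ρ) := by
      rw [sub_eq_add_neg, Real.exp_add]
      exact mul_le_mul_of_nonneg_right he1 (Real.exp_pos _).le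
    have h7 : 2 * (d : ℝ) + -(2700000 * lam) < -1 - ρ := by rw [hρ]; linarith
    have h8 := Real.exp_lt_exp.2 h7
    linarith
  refine ⟨d', B, ψ, H, x₀ + t, ?_, hB, hH, ?_, htt⟩
  · exact le_trans (by exact_mod_cast hd') hnr
  · refine le_trans (mul_le_mul_of_nonneg_right ?_ hs₂0.le) has
    exact_mod_cast hvol

end T9h11.RW
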